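import Pool.Agent.Lib.MP_0370b2_nt.SA.St

/-! The algebraic part at the honest point. -/

namespace Pool.Agent.CSU.SA

open Polynomial Finset

namespace Alg

variable {ι F : Type} [Field F] (s : Sys ι F) (l : ι)

/-- The point of level `M`. -/
def cc (M : ℕ) : F := s.θ ^ s.q ^ (s.e + M)

/-- The exponential of level `M`. -/
def xi (M : ℕ) : F := s.x l ^ s.q ^ M

/-- The constant part of the special linear form. -/
noncomputable def gl (M : ℕ) : F[X] :=
  X * C (xi s l M) + C (cc s M * xi s l M + xi s l (M + 1))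

/-- The special linear form. -/
noncomputable def ell (M : ℕ) : PP ι F :=
  MvPolynomial.C (X ^ 2) * MvPolynomial.X l + MvPolynomial.C (gl s l M)

/-- The value as a ring map. -/
noncomputable def evH (i m : ℕ) : PP ι F →+* F :=
  (constantCoeff.comp MvPolynomial.constantCoeff).comp (s.JJ i m).toRingHom

theorem evH_eq (i m : ℕ) (f : PP ι F) : s.ev i m f = evH s i m f := rfl

/-- The values of the variables. -/
noncomputable def vv (i m : ℕ) : F := constantCoeff (MvPolynomial.constantCoeff (s.VV i m l))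

theorem vv_zero (i : ℕ) : vv s l i 0 = s.y l ^ s.q ^ i := by simp [vv, Sys.VV, -map_pow]

theorem vv_succ (i m : ℕ) :
    vv s l i (m + 1) = (s.θ ^ s.q ^ i - cc s (i + m)) * vv s l i m + xi s l (i + m) := by
  simp only [vv, Sys.VV, cc, xi, map_add, map_mul, MvPolynomial.constantCoeff_C, map_sub,
    constantCoeff_apply, coeff_C_zero, coeff_X_zero, zero_add]

theorem evH_X (i m : ℕ) : evH s i m (MvPolynomial.X l) = vv s l i m := by
  simp [evH, Sys.JJ, vv]

theorem evH_C (i m : ℕ) (p : F[X]) : evH s i m (MvPolynomial.C p) = p.eval (s.θ ^ s.q ^ i) := by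
  simp [evH, Sys.JJ, taylor_coeff_zero]

theorem evH_ell (i m M : ℕ) : evH s i m (ell s l M) = (s.θ ^ s.q ^ i) ^ 2 * vv s l i m +
    (s.θ ^ s.q ^ i * xi s l M + (cc s M * xi s l M + xi s l (M + 1))) := by
  rw [ell, map_add, map_mul, evH_C, evH_C, evH_X]
  simp only [gl, eval_add, eval_mul, eval_pow, eval_X, eval_C]

variable {s l}

theorem pw (hσ : ∀ a, s.σ a = a ^ s.q) (M : ℕ) (a : F) : (s.σ ^ M) a = a ^ s.q ^ M := by
  induction M with
  | zero => simp
  | succ M ih => rw [pow_succ', RingHom.coe_mul, Function.comp_apply, ih, hσ, ← pow_mul, pow_succ]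

theorem s_cc (hσ : ∀ a, s.σ a = a ^ s.q) (M : ℕ) : s.σ (cc s M) = cc s (M + 1) := by
  rw [hσ, cc, cc, ← pow_mul, ← add_assoc, pow_succ]

theorem s_xi (hσ : ∀ a, s.σ a = a ^ s.q) (M : ℕ) : s.σ (xi s l M) = xi s l (M + 1) := by
  rw [hσ, xi, xi, ← pow_mul, pow_succ]

theorem tw_ell (hσ : ∀ a, s.σ a = a ^ s.q) (M : ℕ) : tw s.σ (ell s l M) = ell s l (M + 1) := by
  simp [tw, ell, gl, s_cc hσ, s_xi hσ]

theorem tw_it (hσ : ∀ a, s.σ a = a ^ s.q) (M b m : ℕ) :
    (tw s.σ)^[b] (ell s l M ^ m) = ell s l (M + b) ^ m := by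
  induction b with
  | zero => rfl
  | succ b ih => rw [Function.iterate_succ_apply', ih, map_pow, tw_ell hσ, add_assoc]

/-- The torsion relation at all levels. -/
theorem rel (hσ : ∀ a, s.σ a = a ^ s.q)
    (h : s.θ ^ s.q ^ s.e * (s.θ ^ s.q ^ s.e * s.x l + s.x l ^ s.q) +
      (s.θ ^ s.q ^ s.e * s.x l + s.x l ^ s.q) ^ s.q = 0) (M : ℕ) :
    cc s M * (cc s M * xi s l M + xi s l (M + 1)) +
      (cc s (M + 1) * xi s l (M + 1) + xi s l (M + 1 + 1)) = 0 := by
  induction M with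
  | zero =>
    rw [← s_cc hσ, ← s_xi hσ (0 + 1), ← s_xi hσ 0, ← map_mul, ← map_add, hσ, hσ]
    simpa [cc, xi] using h
  | succ M ih => simpa only [map_add, map_mul, s_cc hσ, s_xi hσ, map_zero] using congrArg s.σ ih

theorem ss_ell (hσ : ∀ a, s.σ a = a ^ s.q) {M : ℕ}
    (h : cc s M * (cc s M * xi s l M + xi s l (M + 1)) +
      (cc s (M + 1) * xi s l (M + 1) + xi s l (M + 1 + 1)) = 0) :
    SS s.σ (cc s M) (fun l => xi s l M) (ell s l M) = MvPolynomial.C (X - C (cc s M)) * ell s l M := by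
  have e : X ^ 2 * C (xi s l M) + gl s l (M + 1) = (X - C (cc s M)) * gl s l M := by
    have := congrArg C h
    simp only [map_add, map_mul, map_zero] at this
    simp only [gl, map_add, map_mul]
    linear_combination this
  rw [SS, tw_ell hσ, ell, ell, map_add, map_mul, sb, MvPolynomial.aeval_X, MvPolynomial.aeval_C,
    MvPolynomial.aeval_C, MvPolynomial.algebraMap_eq, mul_add, mul_add, add_assoc, ← map_mul,
    ← map_add, e, map_mul, mul_left_comm]

theorem ev_ne (hσ : ∀ a, s.σ a = a ^ s.q) (he : 1 ≤ s.e)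
    (hi : Function.Injective fun i : ℕ => s.θ ^ s.q ^ i)
    (h : ∀ M, cc s M * (cc s M * xi s l M + xi s l (M + 1)) +
      (cc s (M + 1) * xi s l (M + 1) + xi s l (M + 1 + 1)) = 0)
    (h0 : s.θ ^ 2 * s.y l + s.θ * s.x l + (s.θ ^ s.q ^ s.e * s.x l + s.x l ^ s.q) ≠ 0) (i m : ℕ) :
    evH s i m (ell s l (i + m)) ≠ 0 := by
  induction m with
  | zero =>
    have := (map_ne_zero (s.σ ^ i)).2 h0
    simp only [map_add, map_mul, map_pow] at this
    simp only [pw hσ] at this
    rw [evH_ell, vv_zero, ← add_assoc, cc, xi, xi, add_zero, add_comm s.e, pow_add, pow_mul,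
      pow_succ s.q, pow_mul]
    exact this
  | succ m ih =>
    have n : s.θ ^ s.q ^ i - cc s (i + m) ≠ 0 := sub_ne_zero.2 fun e => by
      have := hi e
      omega
    convert mul_ne_zero n ih using 1
    rw [evH_ell, evH_ell, vv_succ, ← add_assoc i]
    linear_combination h (i + m)

end Alg

open Alg in
theorem alg (hN : NdS) (hZ : ZeS) : AlgS := by
  intro q n δ
  obtain ⟨κ, hκ⟩ := hN q n δ
  refine ⟨κ, fun k ι F _ _ _ _ _ _ s Sp d P B hk hq hn he hσ hi hS hl b0 hB hC hm hv => ?_⟩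
  subst hq
  by_contra H
  refine hZ ι F s δ d P B hσ (fun a => ?_) hi b0 hB hC hm hv fun Mo h1 h2 => ?_
  · obtain ⟨b, e⟩ := IsAlgClosed.exists_pow_nat_eq a (n := s.q) (hk ▸ Fintype.card_pos)
    exact ⟨b, by rw [hσ, e]⟩
  obtain ⟨a, w, a0, hw, h⟩ := (hκ k ι F s.σ _ _ Sp (fun l => gl s l P) (d + 1) B Mo hk hn hσ hS
    (fun l hl' => ⟨by unfold gl; compute_degree, ss_ell hσ (rel hσ (hl l hl').1 P)⟩) h1 h2 b0
    hB).resolve_left H
  refine ⟨a, w, a0, hw, fun b i hb => ?_⟩
  rw [evH_eq]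
  rcases h with rfl | ⟨l, hl', m, rfl⟩
  · rw [iterate_map_one, map_one]
    exact one_ne_zero
  · have := ev_ne hσ he hi (rel hσ (hl l hl').1) (hl l hl').2 i (P + b - i)
    rw [Nat.add_sub_cancel' hb] at this
    exact (congrArg _ (tw_it hσ P b m)).trans_ne (by rw [map_pow]; exact pow_ne_zero _ this)

end Pool.Agent.CSU.SA
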