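import Pool.Agent.Lib.MP_0370b2_nt.SA.St
import Pool.Agent.Lib.MP_bf776f_nt.SU.Kern

/-! Reduction to the normalised case. -/

namespace Pool.Agent.CSU.SA

open Polynomial Finset

section

variable {k F : Type} [Field k] [Field F] [Algebra k F] {θ : F}

lemma all_K {s : Set F} (h : IsAlgebraic (Algebra.adjoin k s) θ)
    (a : IntermediateField.adjoin k {θ}) : IsAlgebraic (Algebra.adjoin k s) (a : F) := by
  have hp : ∀ b : k[X], IsAlgebraic (Algebra.adjoin k s) (aeval θ b) := fun b => by
    induction b using Polynomial.induction_on' with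
    | add a b ha hb => rw [map_add]; exact ha.add hb
    | monomial n c =>
      rw [aeval_monomial]
      exact (isAlgebraic_algebraMap (algebraMap k (Algebra.adjoin k s) c)).mul (h.pow n)
  obtain ⟨r, t, e⟩ := (IntermediateField.mem_adjoin_simple_iff k (a : F)).1 a.2
  rw [e, div_eq_mul_inv]
  exact (hp r).mul (hp t).inv

lemma all_mem {s : Set F} {a : F} (h : a ∈ s) : IsAlgebraic (Algebra.adjoin k s) a :=
  isAlgebraic_algebraMap (⟨a, Algebra.subset_adjoin h⟩ : Algebra.adjoin k s)

lemma all_mono {s t : Set F} (h : s ⊆ t) {a : F} (ha : IsAlgebraic (Algebra.adjoin k s) a) :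
    IsAlgebraic (Algebra.adjoin k t) a :=
  ha.tower_top_of_subalgebra_le (Algebra.adjoin_mono h)

lemma all_adj {s t : Set F} (h : θ ∈ s) (ht : t ⊆ s) {b : F}
    (hb : IsAlgebraic (Algebra.adjoin (IntermediateField.adjoin k {θ}) t) b) :
    IsAlgebraic (Algebra.adjoin k s) b := by
  let A := Subalgebra.algebraicClosure (Algebra.adjoin k s) F
  have h1 : (Algebra.adjoin (IntermediateField.adjoin k {θ}) t).toSubring ≤ A.toSubring := by
    rw [Algebra.adjoin_eq_ring_closure, Subring.closure_le]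
    rintro _ (⟨a, rfl⟩ | hi)
    exacts [all_K (all_mem h) a, all_mem (ht hi)]
  have h2 : IsAlgebraic A b :=
    hb.ringHom_of_comp_eq (Subring.inclusion h1) (RingHom.id F) (Subring.inclusion_injective h1) rfl
  exact h2.restrictScalars _

/-- A finite set without `n` independent elements is algebraic over `n` numbers, `θ` included. -/
lemma all_basis (n : ℕ) {T : Set F} (hT : T.Finite) (h : ∀ s : Fin n → F, (∀ j, s j ∈ T) →
    ¬ AlgebraicIndependent (IntermediateField.adjoin k {θ}) s) :
    ∃ w : Fin n → F, θ ∈ Set.range w ∧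
      ∀ a ∈ T, IsAlgebraic (Algebra.adjoin k (Set.range w)) a := by
  classical
  obtain ⟨I, hI⟩ :=
    (AlgebraicIndependent.matroid (IntermediateField.adjoin k {θ}) F).exists_isBasis T
  obtain ⟨h1, h2, h3⟩ := AlgebraicIndependent.matroid_isBasis_iff.1 hI
  obtain ⟨J, rfl⟩ := (hT.subset h2).exists_finset_coe
  have h4 : J.card < n := by
    by_contra hc
    obtain ⟨e⟩ := Function.Embedding.nonempty_of_card_le (α := Fin n) (β := (J : Set F))
      (by simpa using hc)
    exact h (fun j => e j) (fun j => h2 (e j).2) (AlgebraicIndependent.comp h1 e e.injective)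
  obtain ⟨e⟩ := Function.Embedding.nonempty_of_card_le (α := ↥(insert θ J)) (β := Fin n)
    (by simpa using (card_insert_le θ J).trans h4)
  have h5 : ∀ a ∈ insert θ J, a ∈ Set.range (Function.extend e Subtype.val fun _ => (0 : F)) :=
    fun a ha => ⟨e ⟨a, ha⟩, e.injective.extend_apply _ _ _⟩
  exact ⟨_, h5 θ (mem_insert_self _ _), fun a ha => all_adj (h5 θ (mem_insert_self _ _))
    (fun b hb => h5 b (mem_insert_of_mem hb)) (h3 a ha)⟩

end

variable {k F : Type} [Field k] [Fintype k] [NormedField F] [IsUltrametricDist F]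
  [CompleteSpace F] [Algebra k F] {θ : F}

lemma all_div (hθ : 1 < ‖θ‖) {s : Set F} (h1 : IsAlgebraic (Algebra.adjoin k s) θ) (n : ℕ) {u : F}
    (hu : IsAlgebraic (Algebra.adjoin k s) (cE (Fintype.card k) θ u)) :
    IsAlgebraic (Algebra.adjoin k s) (cE (Fintype.card k) θ (u / θ ^ n)) := by
  have h := fr k F
  induction n with
  | zero => simpa using hu
  | succ n ih =>
    have h2 := h.cE_th hθ (u / θ ^ n / θ)
    rw [mul_div_cancel₀ _ (norm_pos_iff.1 (by positivity))] at h2
    let A := Subalgebra.algebraicClosure (Algebra.adjoin k s) F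
    have h3 : IsIntegral A (cE (Fintype.card k) θ (u / θ ^ n / θ)) := by
      refine ⟨X ^ Fintype.card k + (C ⟨θ, h1⟩ * X - C ⟨_, ih⟩), monic_X_pow_add ?_, ?_⟩
      · refine (degree_sub_le _ _).trans_lt (max_lt ?_ ?_)
        · exact (degree_C_mul_X_le _).trans_lt (by exact_mod_cast h.lt)
        · exact degree_C_le.trans_lt (by exact_mod_cast Fintype.card_pos)
      · simp only [eval₂_add, eval₂_sub, eval₂_mul, eval₂_pow, eval₂_X, eval₂_C]
        change _ + (θ * _ - cE _ θ (u / θ ^ n)) = 0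
        rw [h2]; ring
    rw [pow_succ, ← div_div]
    exact h3.isAlgebraic.restrictScalars _

/-- A generator of the periods. -/
lemma all_per [IsAlgClosed F] (hθ : 1 < ‖θ‖) : ∃ l : F, cE (Fintype.card k) θ l = 0 ∧ 1 ≤ ‖l‖ ∧
    ‖l‖ ≤ ‖θ‖ ^ 2 ∧ IsAlgebraic (Kinf k θ) l ∧
    (∀ v, cE (Fintype.card k) θ v = 0 → ∃ a : k[X], v = aeval θ a * l) ∧
    ∀ m, 1 ≤ m → 1 ≤ ‖phi (Fintype.card k) θ l m 0‖ := by
  have h := fr k F
  have hq := h.lt
  obtain ⟨x, hx⟩ := IsAlgClosed.exists_pow_nat_eq (-θ) (show 0 < Fintype.card k - 1 by omega)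
  have h1 : ‖x‖ ^ (Fintype.card k - 1) = ‖θ‖ := by rw [← norm_pow, hx, norm_neg]
  have h2 : ‖x‖ ≤ ‖θ‖ := by
    by_contra hc
    exact hc (h1 ▸ le_self_pow₀ (hθ.trans (not_le.1 hc)).le (by omega))
  have h3 : x ≠ 0 := by
    rintro rfl
    rw [norm_zero, zero_pow (by omega)] at h1
    linarith
  obtain ⟨s, -, es, ns⟩ := h.disc_onto hθ (L := ⊤) (by simp) trivial trivial h2
  have h4 : θ * s ≠ 0 := norm_pos_iff.1 (by rw [norm_mul, ns]; positivity)
  have h5 : cE (Fintype.card k) θ (θ * s) = 0 := by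
    rw [h.cE_th hθ, es, show Fintype.card k = Fintype.card k - 1 + 1 by omega, pow_succ, hx]; ring
  obtain ⟨l, l0, l1, l2, l3, -⟩ := ker k F θ _ hθ h4 h5
  have h6 : 1 ≤ ‖l‖ := by
    by_contra hc
    have := h.disc_norm hθ ((not_le.1 hc).le.trans hθ.le)
    rw [l1, norm_zero] at this
    exact l0 (norm_eq_zero.1 this.symm)
  refine ⟨l, l1, h6, ?_, l2, l3, fun m hm => ?_⟩
  · obtain ⟨a, ha⟩ := l3 _ h5
    have h7 := congrArg norm ha
    rw [norm_mul, norm_mul, ns, norm_aeval norm_fin hθ (by rintro rfl; simp [h4] at ha)] at h7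
    refine (le_mul_of_one_le_left (norm_nonneg _) (one_le_pow₀ hθ.le)).trans (h7.ge.trans ?_)
    rw [sq]; gcongr
  · induction m, hm using Nat.le_induction with
    | base => rwa [h.phi_one hθ, l1, zero_sub, norm_neg]
    | succ m hm ih =>
      rw [h.phi_succ hθ l hm, l1, zero_pow (pow_ne_zero _ Fintype.card_ne_zero), add_zero,
        norm_mul, norm_sub_rev]
      exact one_le_mul_of_one_le_of_one_le (h.one_le_sub hθ hm) ih

theorem all : C1S → AllS := by
  intro hC k F _ _ _ _ _ _ _ n θ u hθ hal hi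
  classical
  by_contra hc
  obtain ⟨w, hw, hT⟩ := all_basis (k := k) (θ := θ) n ((Set.finite_range u).union
    (Set.finite_range fun i => cE (Fintype.card k) θ (u i))) fun s h1 h2 => hc ⟨s, h1, h2⟩
  obtain ⟨l, l1, l2, l3, l4, l5, l6⟩ := all_per (k := k) hθ
  have hθ0 : θ ≠ 0 := norm_pos_iff.1 (by positivity)
  have hK : IsAlgebraic (Kinf k θ) θ := isAlgebraic_algebraMap (⟨θ,
    Subfield.le_topologicalClosure _ (Subfield.subset_closure (Or.inr rfl))⟩ : Kinf k θ)
  have core : ∀ (n : ℕ) (u w : Fin n → F) (i0 : Fin n), u i0 = l → θ ∈ Set.range w →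
      LinearIndependent (IntermediateField.adjoin k {θ}) u →
      (∀ i, IsAlgebraic (Kinf k θ) (u i) ∧ IsAlgebraic (Algebra.adjoin k (Set.range w)) (u i) ∧
        IsAlgebraic (Algebra.adjoin k (Set.range w)) (cE (Fintype.card k) θ (u i))) → False := by
    intro n u w i0 h0 hw hi hu
    have h1 : ∀ i, ∃ N, ‖u i‖ ≤ ‖θ‖ ^ N ∧ (i = i0 → N = 2) := fun i => by
      by_cases h : i = i0
      · exact ⟨2, by rwa [h, h0], fun _ => rfl⟩
      · obtain ⟨N, hN⟩ := Fr.ex_pow hθ (u i)
        exact ⟨_, hN, fun e => absurd e h⟩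
    choose N hN using h1
    have h2 : θ ^ 2 * (u i0 / θ ^ N i0) = l := by
      rw [(hN i0).2 rfl, mul_div_cancel₀ _ (pow_ne_zero _ hθ0), h0]
    refine hC k F n θ (fun i => u i / θ ^ N i) w i0 hθ (h2 ▸ l1) (h2 ▸ l2) (h2 ▸ l5) (h2 ▸ l6)
      (fun β hβ h3 => hβ (funext fun i => ?_)) (all_mem hw) fun i => ⟨?_, ?_, ?_,
        all_div hθ (all_mem hw) _ (hu i).2.2⟩
    · have h4 := congrArg Subtype.val (Fintype.linearIndependent_iff.1 hi
        (fun i => ⟨aeval θ (β i) / θ ^ N i,
          (IntermediateField.mem_adjoin_simple_iff k _).2 ⟨β i, X ^ N i, by simp⟩⟩) (by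
            rw [← h3]
            exact sum_congr rfl fun i _ => by
              change _ / _ * _ = _
              ring) i)
      by_contra hb
      have h5 := norm_aeval norm_fin hθ hb
      rw [(div_eq_zero_iff.1 h4).resolve_right (pow_ne_zero _ hθ0), norm_zero] at h5
      exact absurd h5 (by positivity)
    · rw [norm_div, norm_pow, div_le_one (by positivity)]
      exact (hN i).1
    · rw [div_eq_mul_inv]
      exact (hu i).1.mul (hK.pow _).inv
    · rw [div_eq_mul_inv]
      exact (hu i).2.1.mul ((all_mem hw).pow _).inv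
  have hu := fun i => And.intro (hal i)
    (And.intro (hT _ (Or.inl ⟨i, rfl⟩)) (hT _ (Or.inr ⟨i, rfl⟩)))
  by_cases hs : l ∈ Submodule.span (IntermediateField.adjoin k {θ}) (Set.range u)
  · obtain ⟨c, hc⟩ := (Submodule.mem_span_range_iff_exists_fun _).1 hs
    obtain ⟨i0, h0⟩ : ∃ i, c i ≠ 0 := by
      by_contra h
      push Not at h
      simp only [h, zero_smul, sum_const_zero] at hc
      rw [← hc, norm_zero] at l2
      linarith
    refine core n (Function.update u i0 l) w i0 (Function.update_self ..) hw ?_ fun i => ?_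
    · refine Fintype.linearIndependent_iff.2 fun g hg => ?_
      have h1 := Fintype.linearIndependent_iff.1 hi
        (fun i => g i0 * c i + if i = i0 then 0 else g i) (by
          rw [← hg, ← sum_erase_add _ (fun i => g i • Function.update u i0 l i) (mem_univ i0),
            Function.update_self, ← hc, smul_sum, add_comm]
          simp only [add_smul, sum_add_distrib, mul_smul, add_right_inj]
          rw [← sum_erase_add _ _ (mem_univ i0), if_pos rfl, zero_smul, add_zero]
          exact sum_congr rfl fun i hi => by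
            rw [if_neg (ne_of_mem_erase hi), Function.update_of_ne (ne_of_mem_erase hi)])
      have h2 : g i0 = 0 := by simpa [h0] using h1 i0
      intro i
      by_cases h : i = i0
      · rw [h, h2]
      · simpa [h, h2] using h1 i
    · by_cases h : i = i0
      · rw [h, Function.update_self, l1]
        refine ⟨l4, ?_, isAlgebraic_zero⟩
        rw [← hc]
        exact (Subalgebra.algebraicClosure (Algebra.adjoin k (Set.range w)) F).sum_mem
          fun i _ => (all_K (all_mem hw) (c i)).mul (hu i).2.1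
      · rw [Function.update_of_ne h]
        exact hu i
  · have h1 : Set.range w ⊆ Set.range (Fin.cons l w : Fin (n + 1) → F) := by
      rintro _ ⟨i, rfl⟩
      exact ⟨i.succ, rfl⟩
    refine core (n + 1) (Fin.cons l u) (Fin.cons l w) 0 rfl (h1 hw) (hi.finCons hs) fun i => ?_
    refine Fin.cases ?_ (fun i => ?_) i
    · exact ⟨l4, all_mem ⟨0, rfl⟩, by rw [Fin.cons_zero, l1]; exact isAlgebraic_zero⟩
    · exact ⟨hal i, all_mono h1 (hu i).2.1, all_mono h1 (hu i).2.2⟩

end Pool.Agent.CSU.SA
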