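import Pool.Agent.Lib.MP_0370b2_nt.SA.St
import Pool.Agent.Lib.MP_0370b2_nt.S2.An4

/-! Analysis of the jets of any order. -/

namespace Pool.Agent.CSU.SA

open Polynomial Finset Q2

variable {F : Type} [NormedField F] {q : ℕ}

theorem Jm_coeff (μ : ℕ) (θ u : F) (m j l : ℕ) :
    (Jm q μ θ u m j).coeff l = if l < μ then psi q θ u l m j else 0 := by
  simp only [Jm, finsetSum_coeff, coeff_C_mul_X_pow, sum_ite_eq, mem_range]

theorem Jm_coeff_lt {μ : ℕ} (θ u : F) (m j : ℕ) {l : ℕ} (hl : l < μ) :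
    (Jm q μ θ u m j).coeff l = psi q θ u l m j := by
  rw [Jm_coeff, if_pos hl]

theorem psi_le [IsUltrametricDist F] {θ : F} (h : Fr q F) (hθ : 1 < ‖θ‖) {u : F} (hu : ‖u‖ ≤ 1)
    (l : ℕ) {m j : ℕ} (hj : j < m) : ‖psi q θ u l m j‖ ≤ (‖u‖ / ‖θ‖) ^ q ^ m := by
  rw [psi_eq]
  refine IsUltrametricDist.norm_tsum_le_of_forall_le_of_nonneg (by positivity) fun i => ?_
  have hq : q ^ m ≤ q ^ (i + m) := Nat.pow_le_pow_right (by have := h.lt; omega) (by omega)
  have h1 : ‖θ‖⁻¹ ^ i ≤ 1 := pow_le_one₀ (by positivity) (inv_le_one_of_one_le₀ hθ.le)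
  rw [norm_div, h.norm_cT hθ, div_pow, norm_pow]
  refine div_le_div₀ (by positivity) ?_ (by positivity) ?_
  · exact (pow_le_pow_left₀ (by positivity) (mul_le_of_le_one_right (norm_nonneg u) h1) _).trans
      (pow_le_pow_of_le_one (norm_nonneg u) hu hq)
  · refine le_trans ?_ (le_self_pow₀ (h.one_le_sub hθ (by omega)) l.succ_ne_zero)
    rw [h.norm_sub hθ (by omega)]
    exact pow_le_pow_right₀ hθ.le hq

theorem anm : AnmS := by
  intro k F _ _ _ _ _ _ θ u σ μ hθ hσ m j hj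
  have h := fr k F
  refine ⟨fun hμ => by rw [Jm_coeff_lt _ _ _ _ hμ, psi_zero], ?_, ?_, fun hu l hl => ?_⟩
  · rw [X_pow_dvd_iff]
    intro d hd
    rw [add_sub_assoc, ← C_sub, add_mul]
    rcases d with _ | d
    · simp only [coeff_sub, coeff_add, coeff_X_mul_zero, coeff_C_mul, coeff_C_zero,
        Jm_coeff_lt _ _ _ _ hd, psi_zero, h.phi_succ hθ u hj]
      ring
    · simp only [coeff_sub, coeff_add, coeff_X_mul, coeff_C_mul, coeff_C_succ,
        Jm_coeff_lt _ _ _ _ hd, Jm_coeff_lt _ _ _ _ (show d < μ by omega),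
        psi_succ h hθ u d hj]
      ring
  · ext l
    rw [coeff_map, Jm_coeff, Jm_coeff]
    split_ifs
    · rw [hσ, psi_tw h hθ u l hj]
    · rw [map_zero]
  · rw [Jm_coeff_lt _ _ _ _ hl]
    exact psi_le h hθ hu l hj

end Pool.Agent.CSU.SA
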