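import Pool.Agent.Lib.MP_0370b2_nt.SA.Tau

/-! The finite approximations of the generating functions converge. -/

namespace Pool.Agent.CSU.SA

open Polynomial Finset

theorem Jm_cf {F : Type} [NormedField F] (q μ : ℕ) (θ u : F) (m j : ℕ) {l : ℕ} (hl : l < μ) :
    (Jm q μ θ u m j).coeff l = Q2.psi q θ u l m j := by
  simp only [Jm, finsetSum_coeff, coeff_C_mul_X_pow, sum_ite_eq, mem_range, if_pos hl]

theorem ap : ApS := by
  intro k F _ _ _ _ _ _ θ u e a K hθ hu he
  have h := fr k F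
  obtain ⟨p, hpk, f, hp, hq⟩ := FiniteField.card' k
  have := Fact.mk hp
  have : CharP F p := charP_of_injective_algebraMap (algebraMap k F).injective p
  have hch : ∀ δ : F, (C δ - X : F[X]) ^ Fintype.card k ^ a =
      C δ ^ Fintype.card k ^ a - X ^ Fintype.card k ^ a := fun δ => by
    rw [hq, ← pow_mul, sub_pow_char_pow]
  generalize Fintype.card k = q at *
  have hq1 := h.lt
  have hμ : 0 < q ^ a := pow_pos (by omega) _
  have h0 : 0 < ‖θ‖ := one_pos.trans hθ
  have key : Nb (q ^ a) ((‖u‖ / ‖θ‖) ^ q ^ (K + e))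
      (Jm q (q ^ a) θ u e 0 - taylor θ (pK q (q ^ a) θ u e K)) := by
    intro l hl
    have h1 : (taylor θ (pK q (q ^ a) θ u e K)).coeff l =
        ∑ i ∈ range K, cT q θ u e i / (θ ^ q ^ (i + e) - θ ^ q ^ 0) ^ (l + 1) := by
      rw [pK, map_sum, finsetSum_coeff]
      refine sum_congr rfl fun i _ => ?_
      have a3 := h.sub_ne hθ (show 0 < i + e by omega)
      rw [pow_zero, pow_one] at a3 ⊢
      have h2 := Tau.geo a3 (N := q ^ a) (f := C (((θ ^ q ^ (i + e) - θ) ^ q ^ a)⁻¹) *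
        (C (θ ^ q ^ (i + e) - θ) - X) ^ (q ^ a - 1)) ⟨-C (((θ ^ q ^ (i + e) - θ) ^ q ^ a)⁻¹), by
          rw [mul_assoc, ← pow_succ, Nat.sub_add_cancel hμ, hch, mul_sub, ← C_pow, ← C_mul,
            inv_mul_cancel₀ (pow_ne_zero _ a3), C_1]
          ring⟩ hl
      rw [taylor_apply, mul_comp, pow_comp, sub_comp, C_comp, C_comp, X_comp, coeff_C_mul,
        ← div_div, div_eq_mul_inv, div_eq_mul_inv (cT q θ u e i), mul_assoc, ← h2, coeff_C_mul,
        C_sub, add_comm X, ← sub_sub]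
      rfl
    have h3 := (hasSum_nat_add_iff' K).2 (Q2.hs_psi h hθ u l (show 0 < e by omega))
    rw [coeff_sub, Jm_cf _ _ _ _ _ _ hl, h1, ← h3.tsum_eq]
    refine IsUltrametricDist.norm_tsum_le_of_forall_le_of_nonneg (by positivity) fun i => ?_
    rw [norm_div, h.norm_cT hθ, norm_pow, h.norm_sub hθ (show 0 < i + K + e by omega)]
    have h4 : ‖u‖ * ‖θ‖⁻¹ ^ (i + K) ≤ ‖u‖ := mul_le_of_le_one_right (norm_nonneg u)
      (pow_le_one₀ (by positivity) (inv_le_one_of_one_le₀ hθ.le))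
    refine (div_le_div₀ (by positivity) (pow_le_pow_left₀ (by positivity) h4 _) (by positivity)
      (le_self_pow₀ (one_le_pow₀ hθ.le) l.succ_ne_zero)).trans ?_
    rw [← div_pow]
    exact pow_le_pow_of_le_one (by positivity) ((div_le_one h0).2 (hu.trans hθ.le))
      (Nat.pow_le_pow_right (by omega) (by omega))
  refine ⟨?_, ?_, key⟩
  · exact (le_mul_of_one_le_right (norm_nonneg _) (one_le_pow₀ hθ.le)).trans
      (h.phi_small hθ hu (show 0 < e by omega)).1
  · have := key 0 hμ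
    rwa [coeff_sub, Jm_cf _ _ _ _ _ _ hμ, Q2.psi_zero, taylor_coeff_zero] at this

end Pool.Agent.CSU.SA
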