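import Pool.Agent.Lib.MP_0370b2_nt.SA.Anm

/-! Convergence of the finite approximations of the generating function. -/

namespace Pool.Agent.CSU.SA

open Polynomial Finset Q2

theorem ap_geom (k : Type) {F : Type} [Field k] [Fintype k] [Field F] [Algebra k F] (a : ℕ) {A : F}
    {l : ℕ} (hl : l < Fintype.card k ^ a) :
    ((C A - X) ^ (Fintype.card k ^ a - 1)).coeff l = A ^ (Fintype.card k ^ a - 1 - l) := by
  have hf : ∀ x : F[X], (FiniteField.frobeniusAlgHom k F[X] ^ a) x = x ^ Fintype.card k ^ a :=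
    fun x => by rw [AlgHom.coe_pow, FiniteField.coe_frobeniusAlgHom, pow_iterate]
  have h0 : (C A - X : F[X]) ≠ 0 := fun e => X_sub_C_ne_zero A (by rw [← neg_sub, e, neg_zero])
  have e := (Commute.all (X : F[X]) (C A)).mul_neg_geom_sum₂ (Fintype.card k ^ a)
  rw [← hf, ← hf, ← map_sub, hf] at e
  obtain ⟨n, hn⟩ : ∃ n, Fintype.card k ^ a = n + 1 := ⟨_, (Nat.sub_add_cancel (by omega)).symm⟩
  rw [hn] at e hl ⊢
  rw [pow_succ'] at e
  rw [Nat.add_sub_cancel, ← mul_left_cancel₀ h0 e]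
  simp only [finsetSum_coeff, ← C_pow, mul_comm (X ^ _ : F[X]), coeff_C_mul_X_pow, sum_ite_eq,
    mem_range, if_pos hl, Nat.add_sub_cancel]

theorem ap1 : ApS := by
  intro k F _ _ _ _ _ _ θ u e a K hθ hu he
  have h := fr k F
  have hg := fun (A : F) l => ap_geom k a (A := A) (l := l)
  generalize Fintype.card k = q at *
  have key : Nb (q ^ a) ((‖u‖ / ‖θ‖) ^ q ^ (K + e))
      (Jm q (q ^ a) θ u e 0 - taylor θ (pK q (q ^ a) θ u e K)) := fun l hl => by
    have hs := hs_psi h hθ u l (show 0 < e from he)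
    have e1 : (taylor θ (pK q (q ^ a) θ u e K)).coeff l =
        ∑ i ∈ range K, cT q θ u e i / (θ ^ q ^ (i + e) - θ ^ q ^ 0) ^ (l + 1) := by
      rw [pK, map_sum, finsetSum_coeff]
      refine sum_congr rfl fun i _ => ?_
      have hn := h.sub_ne hθ (show 0 < i + e by omega)
      have hc := h.cD_ne hθ i
      rw [pow_zero, pow_one] at hn ⊢
      rw [taylor_mul, taylor_C, taylor_pow, map_sub, taylor_C, taylor_X, coeff_C_mul,
        add_comm X, ← sub_sub, ← C_sub, hg _ l hl, cT]
      obtain ⟨n, hn'⟩ : ∃ n, q ^ a = n + (l + 1) := ⟨q ^ a - (l + 1), by omega⟩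
      rw [hn', show n + (l + 1) - 1 - l = n by omega, pow_add _ n]
      field_simp
    rw [coeff_sub, Jm_coeff_lt _ _ _ _ hl, e1, ← hs.tsum_eq, ← hs.summable.sum_add_tsum_nat_add K,
      add_sub_cancel_left]
    refine IsUltrametricDist.norm_tsum_le_of_forall_le_of_nonneg (by positivity) fun i => ?_
    have hq : q ^ (K + e) ≤ q ^ (i + K + e) :=
      Nat.pow_le_pow_right (by have := h.lt; omega) (by omega)
    have h1 : ‖θ‖⁻¹ ^ (i + K) ≤ 1 := pow_le_one₀ (by positivity) (inv_le_one_of_one_le₀ hθ.le)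
    rw [norm_div, h.norm_cT hθ, div_pow, norm_pow]
    refine div_le_div₀ (by positivity) ?_ (by positivity) ?_
    · exact (pow_le_pow_left₀ (by positivity) (mul_le_of_le_one_right (norm_nonneg u) h1) _).trans
        (pow_le_pow_of_le_one (norm_nonneg u) hu hq)
    · refine le_trans ?_ (le_self_pow₀ (h.one_le_sub hθ (by omega)) l.succ_ne_zero)
      rw [h.norm_sub hθ (by omega)]
      exact pow_le_pow_right₀ hθ.le hq
  have h0 : 0 < q ^ a := pow_pos (by have := h.lt; omega) a
  refine ⟨?_, ?_, key⟩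
  · rw [← psi_zero]
    exact (psi_le h hθ hu 0 he).trans (pow_le_one₀ (by positivity)
      ((div_le_one (by linarith)).2 (hu.trans hθ.le)))
  · have := key 0 h0
    rwa [coeff_sub, Jm_coeff_lt _ _ _ _ h0, psi_zero, taylor_coeff_zero] at this

end Pool.Agent.CSU.SA
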