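import Pool.Agent.Lib.MP_0370b2_nt.SA.St
import Pool.Agent.Lib.MP_bf776f_nt.SU.An

/-! Heights of the finite approximations of the generating function. -/

namespace Pool.Agent.CSU.SA

open Polynomial Finset

namespace ApH

section

variable {k R : Type} [Field k] [CommRing R] [Algebra k R] {U : Submodule k R}

theorem mono (h1 : (1 : R) ∈ U) {a b : ℕ} (h : a ≤ b) {x : R} (hx : x ∈ U ^ a) : x ∈ U ^ b :=
  pow_le_pow_right' (Submodule.one_le.2 h1) h hx

theorem mul {a b : ℕ} {x y : R} (hx : x ∈ U ^ a) (hy : y ∈ U ^ b) : x * y ∈ U ^ (a + b) :=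
  pow_add U a b ▸ Submodule.mul_mem_mul hx hy

theorem pow {a : ℕ} {x : R} (hx : x ∈ U ^ a) (n : ℕ) : x ^ n ∈ U ^ (a * n) :=
  pow_mul U a n ▸ Submodule.pow_mem_pow _ hx n

theorem prod {a : ℕ} (s : Finset ℕ) {f : ℕ → R} (h : ∀ i ∈ s, f i ∈ U ^ a) :
    ∏ i ∈ s, f i ∈ U ^ (#s * a) := by
  induction s using Finset.induction_on with
  | empty => simpa using ⟨1, map_one _⟩
  | insert i s hi ih =>
    rw [prod_insert hi, card_insert_of_notMem hi, add_comm, add_mul, one_mul]
    exact mul (h i (mem_insert_self _ _)) (ih fun j hj => h j (mem_insert_of_mem hj))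

end

variable {k F : Type} [Field k] [Fintype k] [Field F] [Algebra k F] {U : Submodule k F}

theorem cc (a : ℕ) {D : ℕ} {w : F} (hw : w ∈ U ^ D) :
    C (w ^ Fintype.card k ^ a) ∈ CC (Fintype.card k ^ a) U ^ D := by
  have hf : ∀ x : F, (FiniteField.frobeniusAlgHom k F ^ a) x = x ^ Fintype.card k ^ a :=
    fun x => by rw [AlgHom.coe_pow, FiniteField.coe_frobeniusAlgHom, pow_iterate]
  let φ : F →ₐ[k] F[X] := (IsScalarTower.toAlgHom k F F[X]).comp
    (FiniteField.frobeniusAlgHom k F ^ a)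
  have e : ∀ x, φ x = C (x ^ Fintype.card k ^ a) := fun x => by
    rw [← hf]; rfl
  have h := Submodule.mem_map_of_mem (f := φ.toLinearMap) hw
  rw [Submodule.map_pow, AlgHom.toLinearMap_apply, e] at h
  have l : U.map φ.toLinearMap ≤ CC (Fintype.card k ^ a) U := by
    rintro _ ⟨x, hx, rfl⟩
    exact Submodule.subset_span (Or.inr (Or.inr ⟨x, hx, (e x).symm⟩))
  exact (pow_le_pow_left' l D : _ ≤ _) h

end ApH

open ApH in
theorem aph : ApHS := by
  intro k F _ _ _ _ _ U θ e a K H hθ _ h1 hU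
  have h := fr k F
  have hcc := fun D w => cc (U := U) a (D := D) (w := w)
  generalize Fintype.card k = q at *
  have q1 : 1 ≤ q := h.lt.le
  have c1 : (1 : F[X]) ∈ CC (q ^ a) U := Submodule.subset_span (Or.inl rfl)
  have cX : (X : F[X]) ∈ CC (q ^ a) U := Submodule.subset_span (Or.inr (Or.inl rfl))
  have hp : ∀ {i j : ℕ}, i ≤ j → q ^ i ≤ q ^ j := fun hij => Nat.pow_le_pow_right q1 hij
  have hs : ∀ {i j : ℕ}, j ≤ i → θ ^ q ^ i - θ ^ q ^ j ∈ U ^ q ^ i := fun hij =>
    sub_mem (Submodule.pow_mem_pow _ hU _) (mono h1 (hp hij) (Submodule.pow_mem_pow _ hU _))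
  have hn : ∀ i, cD q θ i ^ q ^ e * (θ ^ q ^ (i + (e + a)) - θ) ≠ 0 := fun i =>
    mul_ne_zero (pow_ne_zero _ (h.cD_ne hθ i)) (by
      simpa using h.sub_ne hθ (show 0 < i + (e + a) by omega))
  have hd : ∀ i < K, cD q θ i ^ q ^ e * (θ ^ q ^ (i + (e + a)) - θ) ∈
      U ^ ((K + 1) * q ^ (K + e + a)) := fun i hi => by
    have a1 := pow (prod (range i) fun l hl => hs (mem_range.1 hl).le) (q ^ e)
    have a2 := hs (show 0 ≤ i + (e + a) by omega)
    rw [pow_zero, pow_one] at a2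
    refine mono h1 ?_ (mul a1 a2)
    rw [card_range, mul_assoc, ← pow_add, add_mul, one_mul]
    exact add_le_add (Nat.mul_le_mul hi.le (hp (by omega))) (hp (by omega))
  refine ⟨prod_ne_zero_iff.2 fun i _ => hn i, mono c1 ?_
    (hcc _ _ (prod (range K) fun i hi => hd i (mem_range.1 hi))), fun v hv => ?_⟩
  · rw [card_range, ← mul_assoc]
    exact Nat.mul_le_mul_right _ (by nlinarith)
  · rw [pK, mul_sum]
    refine sum_mem fun i hi => ?_
    have hi' := mem_range.1 hi
    have a1 := hcc _ _ (mul (prod ((range K).erase i) fun j hj =>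
      hd j (mem_range.1 (mem_of_mem_erase hj))) (pow hv (q ^ i)))
    have a2 := hcc _ _ (Submodule.pow_mem_pow _ hU (q ^ (i + e)))
    rw [← pow_mul, ← pow_add, add_assoc] at a2
    have a3 := pow (sub_mem a2 (mono c1 (Nat.one_le_pow _ _ q1) (pow_one (CC (q ^ a) U) ▸ cX)))
      (q ^ a - 1)
    rw [← mul_assoc, ← C_mul]
    convert mono c1 ?_ (mul a1 a3) using 3
    · have := hn i
      have e1 : cD q θ i ^ q ^ (e + a) * (θ ^ q ^ (i + (e + a)) - θ) ^ q ^ a =
          (cD q θ i ^ q ^ e * (θ ^ q ^ (i + (e + a)) - θ)) ^ q ^ a := by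
        rw [mul_pow, ← pow_mul, ← pow_add]
      rw [dK, ← mul_prod_erase _ _ hi, e1, mul_pow, mul_pow _ (_ ^ q ^ i), ← pow_mul v,
        ← pow_mul v, ← pow_add, ← pow_add, show e + i + a = i + (e + a) by ring]
      field_simp
    · have b1 : #((range K).erase i) ≤ K := by
        rw [card_erase_of_mem hi, card_range]
        omega
      have b2 : q ^ (i + e) * (q ^ a - 1) ≤ q ^ (K + e + a) :=
        (Nat.mul_le_mul_left _ (Nat.sub_le _ _)).trans (by rw [← pow_add]; exact hp (by omega))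
      have b3 := Nat.mul_le_mul_left H (hp (show i ≤ K + e + a by omega))
      have b4 := Nat.mul_le_mul_right ((K + 1) * q ^ (K + e + a)) b1
      generalize q ^ (K + e + a) = Q at *
      nlinarith [Nat.zero_le (K * Q)]

end Pool.Agent.CSU.SA
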