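import Pool.Agent.Lib.MP_bf776f_nt.SU.An2
import Pool.Agent.Lib.MP_bf776f_nt.SU.Der

/-! Finite sums that approximate the generating function, with heights; distance to periods. -/

namespace Pool.Agent.CSU.SA

open Polynomial Finset

section Heights

variable {k A : Type} [Field k] [CommRing A] [Algebra k A] {U : Submodule k A}

lemma ap_mono (h1 : (1 : A) ∈ U) {a b : ℕ} {x : A} (hx : x ∈ U ^ a) (h : a ≤ b) : x ∈ U ^ b :=
  pow_le_pow_right' (Submodule.one_le.2 h1) h hx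

lemma ap_mul {a b : ℕ} {x y : A} (hx : x ∈ U ^ a) (hy : y ∈ U ^ b) : x * y ∈ U ^ (a + b) :=
  pow_add U a b ▸ Submodule.mul_mem_mul hx hy

lemma ap_pow {a : ℕ} {x : A} (hx : x ∈ U ^ a) (n : ℕ) : x ^ n ∈ U ^ (a * n) :=
  pow_mul U a n ▸ Submodule.pow_mem_pow _ hx n

lemma ap_prod {ι : Type} (s : Finset ι) {f : ι → A} {a : ℕ} (h : ∀ i ∈ s, f i ∈ U ^ a) :
    ∏ i ∈ s, f i ∈ U ^ (s.card * a) := by
  classical
  induction s using Finset.induction_on with
  | empty => simpa using ⟨1, map_one _⟩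
  | insert i s hi ih =>
    rw [prod_insert hi, card_insert_of_notMem hi, add_mul, one_mul, add_comm]
    exact ap_mul (h i (mem_insert_self _ _)) (ih fun j hj => h j (mem_insert_of_mem hj))

end Heights

variable {k F : Type} [Field k] [Fintype k]

/-- Heights of the powers with exponent `q ^ a`. -/
lemma ap_frob [Field F] [Algebra k F] {U : Submodule k F} {CC : Submodule k F[X]} {a : ℕ}
    (hC : ∀ w ∈ U, C (w ^ Fintype.card k ^ a) ∈ CC) (H : ℕ) {w : F} (hw : w ∈ U ^ H) :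
    C (w ^ Fintype.card k ^ a) ∈ CC ^ H := by
  have h := fr k F
  induction hw using Submodule.pow_induction_on_left' with
  | algebraMap r =>
    rw [Fr.fix_pow (fix_k r), pow_zero]
    exact Submodule.algebraMap_mem r
  | add x y i _ _ hx hy => rw [h.add_pow, C_add]; exact add_mem hx hy
  | mem_mul m hm i x _ hx =>
    rw [mul_pow, C_mul, pow_succ']
    exact Submodule.mul_mem_mul (hC m hm) hx

variable [NormedField F] [Algebra k F]

/-- One factor of the common denominator. -/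
noncomputable def apF (q : ℕ) (θ : F) (e1 a i : ℕ) : F :=
  cD q θ i ^ q ^ e1 * (θ ^ q ^ (i + (e1 + a)) - θ)

/-- The common denominator. -/
noncomputable def apD (q : ℕ) (θ : F) (e1 a K : ℕ) : F := (∏ i ∈ range K, apF q θ e1 a i) ^ q ^ a

/-- The numerator. -/
noncomputable def apP (q : ℕ) (θ v : F) (e1 a K : ℕ) : F[X] :=
  ∑ i ∈ range K, C ((v ^ q ^ (i + e1) * ∏ j ∈ (range K).erase i, apF q θ e1 a j) ^ q ^ a) *
    (C (θ ^ q ^ (i + (e1 + a))) - X) ^ (q ^ a - 1)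

omit [Fintype k] in
lemma apF_mem {U : Submodule k F} (h1 : (1 : F) ∈ U) {θ : F} (ht : θ ∈ U) {q : ℕ} (hq : 1 < q)
    (e1 a : ℕ) {K i : ℕ} (hi : i < K) : apF q θ e1 a i ∈ U ^ ((K + 1) * q ^ (K + e1 + a)) := by
  have hp : ∀ m, θ ^ m ∈ U ^ m := Submodule.pow_mem_pow _ ht
  have hle : ∀ {m n : ℕ}, m ≤ n → q ^ m ≤ q ^ n := fun h => Nat.pow_le_pow_right (by omega) h
  have h2 : cD q θ i ∈ U ^ (i * q ^ i) := by
    have := ap_prod (U := U) (range i) (f := fun l => θ ^ q ^ i - θ ^ q ^ l) (a := q ^ i)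
      fun l hl => sub_mem (hp _) (ap_mono h1 (hp _) (hle (mem_range.1 hl).le))
    rwa [card_range] at this
  have h3 : θ ^ q ^ (i + (e1 + a)) - θ ∈ U ^ q ^ (K + e1 + a) :=
    sub_mem (ap_mono h1 (hp _) (hle (by omega)))
      (ap_mono h1 (by rwa [pow_one]) (Nat.one_le_pow _ _ (by omega)))
  refine ap_mono h1 (ap_mul (ap_pow h2 _) h3) ?_
  rw [mul_assoc, ← pow_add, add_mul, one_mul]
  exact Nat.add_le_add_right (Nat.mul_le_mul hi.le (hle (by omega))) _

lemma apD_mem {U : Submodule k F} {CC : Submodule k F[X]} (h1 : (1 : F) ∈ U) {θ : F} (ht : θ ∈ U)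
    {a : ℕ} (hC : ∀ w ∈ U, C (w ^ Fintype.card k ^ a) ∈ CC) (e1 K : ℕ) :
    C (apD (Fintype.card k) θ e1 a K) ∈
      CC ^ (K * ((K + 1) * Fintype.card k ^ (K + e1 + a))) := by
  refine ap_frob hC _ ?_
  have := ap_prod (U := U) (range K) fun i hi =>
    apF_mem h1 ht (Fintype.one_lt_card (α := k)) e1 a (mem_range.1 hi)
  rwa [card_range] at this

lemma apP_mem {U : Submodule k F} {CC : Submodule k F[X]} (h1 : (1 : F) ∈ U) {θ v : F}
    (ht : θ ∈ U) {a : ℕ} (hC : ∀ w ∈ U, C (w ^ Fintype.card k ^ a) ∈ CC) (hX : X ∈ CC)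
    {e1 H0 : ℕ} (hv : v ^ Fintype.card k ^ e1 ∈ U ^ H0) (K : ℕ) :
    apP (Fintype.card k) θ v e1 a K ∈
      CC ^ ((H0 + (K + 1) ^ 2) * Fintype.card k ^ (K + e1 + a)) := by
  set q := Fintype.card k with hq
  have hq1 : 1 < q := Fintype.one_lt_card
  have hle : ∀ {m n : ℕ}, m ≤ n → q ^ m ≤ q ^ n := fun h => Nat.pow_le_pow_right (by omega) h
  have c1 : (1 : F[X]) ∈ CC := by simpa using hC 1 h1
  refine sum_mem fun i hi => ?_
  have hi' := mem_range.1 hi
  have h2 : v ^ q ^ (i + e1) ∈ U ^ (H0 * q ^ (K + e1 + a)) := by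
    rw [add_comm i, pow_add q e1 i, pow_mul v]
    exact ap_mono h1 (ap_pow hv (q ^ i))
      (Nat.mul_le_mul_left _ (hle (show i ≤ K + e1 + a by omega)))
  have h3 := ap_mono h1 (ap_prod (U := U) ((range K).erase i) fun j hj =>
    apF_mem h1 ht hq1 e1 a (mem_range.1 (mem_of_mem_erase hj)))
    (Nat.mul_le_mul_right _ (card_erase_le.trans (card_range K).le))
  have h4 : C (θ ^ q ^ (i + (e1 + a))) - X ∈ CC ^ q ^ (K + e1) := by
    refine sub_mem ?_ (ap_mono c1 (by rwa [pow_one]) (Nat.one_le_pow _ _ (by omega)))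
    rw [← add_assoc, pow_add q (i + e1) a, pow_mul θ]
    exact ap_mono c1 (ap_frob hC _ (Submodule.pow_mem_pow _ ht (q ^ (i + e1))))
      (hle (show i + e1 ≤ K + e1 by omega))
  refine ap_mono c1 (ap_mul (ap_frob hC _ (ap_mul h2 h3)) (ap_pow h4 _)) ?_
  have := Nat.mul_le_mul_left (q ^ (K + e1)) (Nat.sub_le (q ^ a) 1)
  rw [← pow_add] at this
  nlinarith [Nat.zero_le (K * q ^ (K + e1 + a))]

variable [IsUltrametricDist F] {q : ℕ} {θ : F}

lemma apF_ne (h : Fr q F) (hθ : 1 < ‖θ‖) {e1 a : ℕ} (he : 1 ≤ e1 + a) (i : ℕ) :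
    apF q θ e1 a i ≠ 0 :=
  mul_ne_zero (pow_ne_zero _ (h.cD_ne hθ i)) (by
    simpa using h.sub_ne hθ (show 0 < i + (e1 + a) by omega))

lemma apD_ne (h : Fr q F) (hθ : 1 < ‖θ‖) {e1 a : ℕ} (he : 1 ≤ e1 + a) (K : ℕ) :
    apD q θ e1 a K ≠ 0 :=
  pow_ne_zero _ (prod_ne_zero_iff.2 fun i _ => apF_ne h hθ he i)

lemma apP_eval (h : Fr q F) (hθ : 1 < ‖θ‖) (v : F) {e1 a : ℕ} (he : 1 ≤ e1 + a) (K : ℕ) :
    (apP q θ v e1 a K).eval θ = apD q θ e1 a K *
      ∑ i ∈ range K, cT q θ v (e1 + a) i / (θ ^ q ^ (i + (e1 + a)) - θ ^ q ^ 0) := by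
  rw [apP, eval_finsetSum, mul_sum]
  refine sum_congr rfl fun i hi => ?_
  have h1 : θ ^ q ^ (i + (e1 + a)) - θ ≠ 0 := by
    simpa using h.sub_ne hθ (show 0 < i + (e1 + a) by omega)
  have h2 := h.cD_ne hθ i
  obtain ⟨m, hm⟩ : ∃ m, q ^ a = m + 1 :=
    ⟨q ^ a - 1, by have := Nat.one_le_pow a q (by have := h.lt; omega); omega⟩
  rw [apD, ← mul_prod_erase _ _ hi, eval_mul, eval_C, eval_pow, eval_sub, eval_C, eval_X, cT,
    pow_zero, pow_one, apF, mul_pow, mul_pow, mul_pow, ← pow_mul, ← pow_mul, ← pow_add, ← pow_add,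
    add_assoc]
  generalize (∏ j ∈ (range K).erase i, apF q θ e1 a j) ^ q ^ a = B
  generalize θ ^ q ^ (i + (e1 + a)) - θ = d at h1 ⊢
  rw [hm, Nat.add_sub_cancel, pow_succ]
  field_simp

/-- The error of the finite sum. -/
theorem apP_err [CompleteSpace F] (h : Fr q F) (hθ : 1 < ‖θ‖) {v : F} (hv : ‖v‖ ≤ 1) {L : ℕ}
    (hL : ‖v‖ * ‖θ‖ ^ L ≤ ‖θ‖) {e1 a : ℕ} (he : 1 ≤ e1 + a) (K : ℕ) :
    ‖(apP q θ v e1 a K).eval θ - apD q θ e1 a K * phi q θ v (e1 + a) 0‖ *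
      ‖θ‖ ^ (L * q ^ (K + e1 + a)) ≤ ‖apD q θ e1 a K‖ := by
  have hs := h.hs_phi hθ v (show 0 < e1 + a by omega)
  rw [apP_eval h hθ v he, ← mul_sub, norm_mul, mul_assoc, ← hs.tsum_eq,
    ← hs.summable.sum_add_tsum_nat_add K, sub_add_cancel_left, norm_neg]
  refine mul_le_of_le_one_right (norm_nonneg _) ?_
  have h0 : 0 < ‖θ‖ ^ (L * q ^ (K + e1 + a)) := by positivity
  rw [← le_div_iff₀ h0]
  refine IsUltrametricDist.norm_tsum_le_of_forall_le_of_nonneg (by positivity) fun i => ?_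
  have hle : q ^ (K + e1 + a) ≤ q ^ (i + K + (e1 + a)) :=
    Nat.pow_le_pow_right (by have := h.lt; omega) (by omega)
  have h1 : ‖v‖ * ‖θ‖⁻¹ ^ (i + K) ≤ ‖v‖ := mul_le_of_le_one_right (norm_nonneg v)
    (pow_le_one₀ (by positivity) (inv_le_one_of_one_le₀ hθ.le))
  rw [norm_div, h.norm_cT hθ, h.norm_sub hθ (by omega), div_le_div_iff₀ (by positivity) h0, one_mul]
  calc _ ≤ ‖v‖ ^ q ^ (K + e1 + a) * ‖θ‖ ^ (L * q ^ (K + e1 + a)) :=
        mul_le_mul_of_nonneg_right ((pow_le_pow_left₀ (by positivity) h1 _).trans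
          (pow_le_pow_of_le_one (norm_nonneg v) hv hle)) h0.le
    _ = (‖v‖ * ‖θ‖ ^ L) ^ q ^ (K + e1 + a) := by rw [mul_pow, pow_mul]
    _ ≤ ‖θ‖ ^ q ^ (K + e1 + a) := pow_le_pow_left₀ (by positivity) hL _
    _ ≤ _ := pow_le_pow_right₀ hθ.le hle

/-- The distance to the multiples of `lam = θ ^ 2 * v o`, for a subfamily. -/
theorem np_per {ι κ : Type} [Fintype ι] [Fintype κ] (hθ : 1 < ‖θ‖) {v : ι → F} {o : ι}
    (hv : ∀ l, ‖v l‖ ≤ 1) (ho : 1 ≤ ‖θ ^ 2 * v o‖) {D : ℕ} {B : ι → ℕ}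
    (hB : ∀ l, 1 ≤ B l)
    (hNP : ∀ g : ι → k[X], (∀ i, (g i).natDegree ≤ D + 2) → ∀ l, l ≠ o → g l ≠ 0 →
      1 < ‖∑ i, aeval θ (g i) * v i‖ * ‖θ‖ ^ B l)
    {s : κ → ι} (hs : Function.Injective s) (g : κ → k[X]) (hg : ∀ i, (g i).natDegree ≤ D)
    {l : κ} (hl : s l ≠ o) (hgl : g l ≠ 0) (b : k[X]) :
    1 < ‖∑ i, aeval θ (g i) * v (s i) - aeval θ b * (θ ^ 2 * v o)‖ * ‖θ‖ ^ B (s l) := by
  classical
  by_cases hb : b.natDegree ≤ D
  · have h1 := hNP (fun i => Function.extend s g 0 i - if i = o then b * X ^ 2 else 0)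
      (fun i => (natDegree_sub_le _ _).trans (max_le ?_ ?_)) (s l) hl
      (by simpa [hs.extend_apply, hl] using hgl)
    · convert h1 using 3
      simp only [map_sub, sub_mul, sum_sub_distrib]
      congr 1
      · rw [← sum_subset (subset_univ (univ.map ⟨s, hs⟩)), sum_map]
        · exact sum_congr rfl fun i _ => by simp [hs.extend_apply]
        · intro i _ hi
          rw [Function.extend_apply' _ _ _ (by simpa using hi)]
          simp
      · rw [sum_eq_single o (fun i _ hi => by simp [hi]) (by simp)]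
        simp [mul_assoc]
    · by_cases hi : ∃ j, s j = i
      · obtain ⟨j, rfl⟩ := hi
        rw [hs.extend_apply]; exact (hg j).trans (by omega)
      · rw [Function.extend_apply' _ _ _ hi]; simp
    · split_ifs
      · exact natDegree_mul_le.trans (add_le_add hb (natDegree_X_pow 2).le)
      · simp
  · have hb0 : b ≠ 0 := by rintro rfl; simp at hb
    have h1 : ‖∑ i, aeval θ (g i) * v (s i)‖ ≤ ‖θ‖ ^ D := by
      refine IsUltrametricDist.norm_sum_le_of_forall_le_of_nonneg (by positivity) fun i _ => ?_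
      by_cases h0 : g i = 0
      · simp only [h0, map_zero, zero_mul, norm_zero]; positivity
      rw [norm_mul, norm_aeval norm_fin hθ h0]
      exact (mul_le_of_le_one_right (by positivity) (hv _)).trans (pow_le_pow_right₀ hθ.le (hg i))
    have h2 : ‖θ‖ ^ D < ‖-(aeval θ b * (θ ^ 2 * v o))‖ := by
      rw [norm_neg, norm_mul, norm_aeval norm_fin hθ hb0]
      exact (pow_lt_pow_right₀ hθ (not_le.1 hb)).trans_le
        (le_mul_of_one_le_right (by positivity) ho)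
    rw [sub_eq_add_neg, IsUltrametricDist.norm_add_eq_max_of_norm_ne_norm (h1.trans_lt h2).ne,
      max_eq_right (h1.trans h2.le)]
    exact one_lt_mul_of_le_of_lt ((one_le_pow₀ hθ.le).trans h2.le)
      (one_lt_pow₀ hθ (by have := hB (s l); omega))

end Pool.Agent.CSU.SA
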