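import Pool.Agent.Lib.MP_0370b2_nt.SA.St
import Pool.Agent.Lib.MP_0370b2_nt.SA.Apx

/-! Heights of the finite approximations. -/

namespace Pool.Agent.CSU.SA

open Polynomial Finset

theorem aph1 : ApHS := by
  intro k F _ _ _ _ _ U θ e a K H hθ ha h1 ht
  have h := fr k F
  have he : 1 ≤ e + a := by omega
  have hC : ∀ w ∈ U, C (w ^ Fintype.card k ^ a) ∈ CC (Fintype.card k ^ a) U := fun w hw =>
    Submodule.subset_span (Or.inr (Or.inr ⟨w, hw, rfl⟩))
  have c1 : (1 : F[X]) ∈ CC (Fintype.card k ^ a) U := Submodule.subset_span (Or.inl rfl)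
  have hX : (X : F[X]) ∈ CC (Fintype.card k ^ a) U := Submodule.subset_span (Or.inr (Or.inl rfl))
  refine ⟨prod_ne_zero_iff.2 fun i _ => apF_ne h hθ he i,
    ap_mono c1 (apD_mem h1 ht hC e K) ?_, fun v hv => ?_⟩
  · rw [← mul_assoc]
    exact Nat.mul_le_mul_right _ (by nlinarith)
  · convert apP_mem h1 ht hC hX hv K using 1
    rw [pK, apP, mul_sum]
    refine sum_congr rfl fun i hi => ?_
    rw [← mul_assoc, ← C_mul]
    congr 2
    have h2 := pow_ne_zero (Fintype.card k ^ a) (apF_ne h hθ he i)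
    change (∏ j ∈ range K, apF (Fintype.card k) θ e a j) ^ Fintype.card k ^ a * _ = _
    rw [← mul_prod_erase _ _ hi, mul_pow, mul_pow, ← pow_mul v, ← pow_add, add_assoc,
      pow_add (Fintype.card k) e a, pow_mul (cD _ θ i), ← mul_pow (cD _ θ i ^ _)]
    change _ * (_ / apF (Fintype.card k) θ e a i ^ Fintype.card k ^ a) = _
    field_simp

end Pool.Agent.CSU.SA
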