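import Pool.Agent.Lib.MP_0370b2_nt.SA.St

/-! Basic facts on rows and formal jets. -/

namespace Pool.Agent.CSU.SA

open Polynomial Finset

variable {ι R R' : Type} [CommRing R] [CommRing R']

@[simp] lemma coeff_tw (σ : R →+* R') (f : PP ι R) (α : ι →₀ ℕ) :
    (tw σ f).coeff α = (f.coeff α).map σ := MvPolynomial.coeff_map _ _ _

@[simp] lemma tw_C (σ : R →+* R') (a : R[X]) :
    tw σ (MvPolynomial.C a : PP ι R) = MvPolynomial.C (a.map σ) := MvPolynomial.map_C _ _

@[simp] lemma tw_X (σ : R →+* R') (l : ι) :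
    tw σ (MvPolynomial.X l : PP ι R) = MvPolynomial.X l := MvPolynomial.map_X _ _

lemma tw_inj {σ : R →+* R'} (h : Function.Injective σ) :
    Function.Injective (tw σ : PP ι R → PP ι R') :=
  MvPolynomial.map_injective _ (map_injective σ h)

lemma tw_surj {σ : R →+* R'} (h : Function.Surjective σ) :
    Function.Surjective (tw σ : PP ι R → PP ι R') :=
  MvPolynomial.map_surjective _ (map_surjective σ h)

lemma tw_iter_map {σ : R →+* R} {σ' : R' →+* R'} {φ : R →+* R'} (h : ∀ a, φ (σ a) = σ' (φ a))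
    (i : ℕ) (f : PP ι R) : tw φ ((tw σ)^[i] f) = (tw σ')^[i] (tw φ f) := by
  induction i with
  | zero => rfl
  | succ i ih =>
    rw [Function.iterate_succ_apply', Function.iterate_succ_apply', ← ih]
    ext α n
    simp only [coeff_tw, coeff_map, h]

@[simp] lemma sb_C (h g : ι → R[X]) (a : R[X]) :
    sb h g (MvPolynomial.C a) = MvPolynomial.C a := MvPolynomial.algHom_C _ _

@[simp] lemma sb_X (h g : ι → R[X]) (l : ι) : sb h g (MvPolynomial.X l) =
    MvPolynomial.C (h l) * MvPolynomial.X l + MvPolynomial.C (g l) := MvPolynomial.aeval_X _ _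

lemma tw_sb (σ : R →+* R') (h g : ι → R[X]) (f : PP ι R) :
    tw σ (sb h g f) = sb (fun l => (h l).map σ) (fun l => (g l).map σ) (tw σ f) := by
  induction f using MvPolynomial.induction_on with
  | C a => simp
  | add p q hp hq => simp only [map_add, hp, hq]
  | mul_X p l hp => simp [hp]

lemma deg_mul_lt {a b : R[X]} {d n : ℕ} (ha : a.degree < d) (hb : b.natDegree ≤ n) :
    (a * b).degree < (d + n : ℕ) := by
  refine (degree_mul_le _ _).trans_lt ((add_le_add le_rfl (degree_le_of_natDegree_le hb)).trans_lt ?_)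
  rw [Nat.cast_add]
  exact WithBot.add_lt_add_right (WithBot.natCast_ne_bot _) ha

namespace Box

variable {μ : ℕ} {f g : PP ι R}

lemma zero : Box μ (0 : PP ι R) := fun _ _ => dvd_zero _

lemma add (hf : Box μ f) (hg : Box μ g) : Box μ (f + g) := fun α h => by
  rw [MvPolynomial.coeff_add]; exact (hf α h).add (hg α h)

lemma neg (hf : Box μ f) : Box μ (-f) := fun α h => by
  rw [MvPolynomial.coeff_neg]; exact (hf α h).neg_right

lemma sub (hf : Box μ f) (hg : Box μ g) : Box μ (f - g) := by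
  rw [sub_eq_add_neg]; exact hf.add hg.neg

lemma mul_left (hf : Box μ f) (g : PP ι R) : Box μ (g * f) := fun α h => by
  classical
  rw [MvPolynomial.coeff_mul]
  refine dvd_sum fun p hp => (hf _ fun l => ?_).mul_left _
  have := congrArg (· l) (mem_antidiagonal.1 hp)
  have := h l
  simp only [Finsupp.coe_add, Pi.add_apply] at *
  omega

lemma of_dvd {a : R[X]} (ha : X ^ μ ∣ a) (g : PP ι R) : Box μ (MvPolynomial.C a * g) :=
  fun α _ => by rw [MvPolynomial.coeff_C_mul]; exact ha.mul_right _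

lemma tw (hf : Box μ f) (σ : R →+* R') : Box μ (tw σ f) := fun α h => by
  rw [coeff_tw]
  simpa using map_dvd σ (hf α h)

lemma of_tw {σ : R →+* R'} (hσ : Function.Injective σ) (hf : Box μ (SA.tw σ f)) : Box μ f :=
  fun α h => X_pow_dvd_iff.2 fun n hn => hσ (by
    have := X_pow_dvd_iff.1 (hf α h) n hn
    rwa [coeff_tw, coeff_map, ← map_zero σ] at this)

lemma eval [Fintype ι] (hf : Box μ f) {η : ι → R[X]} (hη : ∀ l, X ∣ η l) :
    X ^ μ ∣ MvPolynomial.eval η f := by
  rw [MvPolynomial.eval_eq']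
  refine dvd_sum fun α _ => ?_
  by_cases h : ∀ l, α l < μ
  · exact (hf α h).mul_right _
  · push Not at h
    obtain ⟨l, hl⟩ := h
    exact (((pow_dvd_pow _ hl).trans (pow_dvd_pow_of_dvd (hη l) _)).trans
      (dvd_prod_of_mem (fun l => η l ^ α l) (mem_univ l))).mul_left _

end Box

namespace Row

variable {δ d d' : ℕ} {f g : PP ι R}

lemma zero : Row δ d (0 : PP ι R) := fun _ => ⟨WithBot.bot_lt_coe _, fun h => absurd rfl h⟩

lemma mono (hf : Row δ d f) (h : d ≤ d') : Row δ d' f := fun α =>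
  ⟨(hf α).1.trans_le (by exact_mod_cast h), (hf α).2⟩

lemma add (hf : Row δ d f) (hg : Row δ d g) : Row δ d (f + g) := fun α => by
  rw [MvPolynomial.coeff_add]
  refine ⟨(degree_add_le _ _).trans_lt (max_lt (hf α).1 (hg α).1), fun h => ?_⟩
  by_cases h1 : f.coeff α = 0
  · exact (hg α).2 (by rwa [h1, zero_add] at h)
  · exact (hf α).2 h1

lemma neg (hf : Row δ d f) : Row δ d (-f) := fun α => by
  rw [MvPolynomial.coeff_neg, degree_neg, neg_ne_zero]; exact hf α

lemma sub (hf : Row δ d f) (hg : Row δ d g) : Row δ d (f - g) := by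
  rw [sub_eq_add_neg]; exact hf.add hg.neg

lemma sum {κ : Type} {s : Finset κ} {f : κ → PP ι R} (h : ∀ i ∈ s, Row δ d (f i)) :
    Row δ d (∑ i ∈ s, f i) :=
  sum_induction _ _ (fun _ _ => add) zero h

lemma tw (hf : Row δ d f) (σ : R →+* R') : Row δ d (tw σ f) := fun α => by
  rw [coeff_tw]
  exact ⟨degree_map_le.trans_lt (hf α).1, fun h => (hf α).2 fun h0 => h (by rw [h0, Polynomial.map_zero])⟩

lemma of_tw {σ : R →+* R'} (hσ : Function.Injective σ) (hf : Row δ d (SA.tw σ f)) : Row δ d f :=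
  fun α => by
    have := hf α
    rwa [coeff_tw, degree_map_eq_of_injective hσ, Polynomial.map_ne_zero_iff hσ] at this

lemma tw_iter (hf : Row δ d f) (σ : R →+* R) (i : ℕ) : Row δ d ((SA.tw σ)^[i] f) := by
  induction i with
  | zero => exact hf
  | succ i ih => rw [Function.iterate_succ_apply']; exact ih.tw σ

lemma C_mul (hf : Row δ d f) {a : R[X]} {n : ℕ} (ha : a.natDegree ≤ n) :
    Row δ (d + n) (MvPolynomial.C a * f) := fun α => by
  rw [MvPolynomial.coeff_C_mul]
  exact ⟨mul_comm a _ ▸ deg_mul_lt (hf α).1 ha, fun h => (hf α).2 (right_ne_zero_of_mul h)⟩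

end Row

/-- Coefficients of the image of a monomial. -/
lemma sb_mono (h g : ι → R[X]) {n : ℕ} (hn : ∀ l, (h l).natDegree ≤ n ∧ (g l).natDegree ≤ n)
    (β : ι →₀ ℕ) : (sb h g (MvPolynomial.monomial β 1)).coeff β = β.prod (fun l m => h l ^ m) ∧
      ∀ γ, ((sb h g (MvPolynomial.monomial β 1)).coeff γ).natDegree ≤ β.degree * n ∧
        (¬ γ ≤ β → (sb h g (MvPolynomial.monomial β 1)).coeff γ = 0) := by
  classical
  induction β using Finsupp.induction_linear with
  | zero =>
    rw [MvPolynomial.monomial_zero', map_one, map_one]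
    refine ⟨by simp, fun γ => ⟨?_, fun hγ => ?_⟩⟩
    · rw [MvPolynomial.coeff_one]; split_ifs <;> simp
    · rw [MvPolynomial.coeff_one, if_neg (by rintro rfl; exact hγ le_rfl)]
  | add β β' ih ih' =>
    rw [← one_mul (1 : R[X]), ← MvPolynomial.monomial_mul, map_mul]
    refine ⟨?_, fun γ => ⟨?_, fun hγ => ?_⟩⟩
    · rw [MvPolynomial.coeff_mul, sum_eq_single (β, β'), ih.1, ih'.1,
        Finsupp.prod_add_index' (by simp) (by simp [pow_add])]
      · rintro ⟨a, b⟩ hab hne
        have e := mem_antidiagonal.1 hab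
        by_cases h1 : a ≤ β
        · by_cases h2 : b ≤ β'
          · exfalso
            apply hne
            have : a = β := Finsupp.ext fun l => by
              have := congrArg (· l) e
              have := h1 l
              have := h2 l
              simp only [Finsupp.coe_add, Pi.add_apply] at *
              omega
            subst this
            exact Prod.ext rfl (add_left_cancel e)
          · rw [(ih'.2 b).2 h2, mul_zero]
        · rw [(ih.2 a).2 h1, zero_mul]
      · simp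
    · rw [MvPolynomial.coeff_mul, map_add, add_mul]
      exact natDegree_sum_le_of_forall_le _ _ fun p _ =>
        natDegree_mul_le.trans (add_le_add (ih.2 _).1 (ih'.2 _).1)
    · rw [MvPolynomial.coeff_mul]
      refine sum_eq_zero fun p hp => ?_
      by_cases h1 : p.1 ≤ β
      · rw [(ih'.2 _).2 fun h2 => hγ (mem_antidiagonal.1 hp ▸ add_le_add h1 h2), mul_zero]
      · rw [(ih.2 _).2 h1, zero_mul]
  | single l m =>
    induction m with
    | zero =>
      rw [Finsupp.single_zero, MvPolynomial.monomial_zero', map_one, map_one]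
      refine ⟨by simp, fun γ => ⟨?_, fun hγ => ?_⟩⟩
      · rw [MvPolynomial.coeff_one]; split_ifs <;> simp
      · rw [MvPolynomial.coeff_one, if_neg (by rintro rfl; exact hγ le_rfl)]
    | succ m ih =>
      have e : sb h g (MvPolynomial.monomial (Finsupp.single l (m + 1)) 1) =
          MvPolynomial.C (h l) * (sb h g (MvPolynomial.monomial (Finsupp.single l m) 1) *
            MvPolynomial.X l) + MvPolynomial.C (g l) *
              sb h g (MvPolynomial.monomial (Finsupp.single l m) 1) := by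
        rw [← MvPolynomial.X_pow_eq_monomial, ← MvPolynomial.X_pow_eq_monomial, pow_succ, map_mul,
          sb_X]
        ring
      rw [e]
      simp only [MvPolynomial.coeff_add, MvPolynomial.coeff_C_mul]
      refine ⟨?_, fun γ => ⟨?_, fun hγ => ?_⟩⟩
      · rw [(ih.2 _).2 (by simp), Finsupp.prod_single_index (by simp), Finsupp.single_add,
          MvPolynomial.coeff_mul_X, ih.1]
        simp [pow_succ']
      · rw [Finsupp.degree_single, add_mul, one_mul, add_comm _ n]
        have := fun γ => (ih.2 γ).1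
        rw [Finsupp.degree_single] at this
        refine natDegree_add_le_of_degree_le (natDegree_mul_le.trans (add_le_add (hn l).1 ?_))
          (natDegree_mul_le.trans (add_le_add (hn l).2 (this _)))
        rw [MvPolynomial.coeff_mul_X']
        split_ifs
        exacts [this _, by simp]
      · rw [(ih.2 γ).2 fun h1 => hγ (h1.trans (by simp)), MvPolynomial.coeff_mul_X']
        split_ifs with h2
        · rw [(ih.2 _).2 fun h1 => hγ (by rw [Finsupp.single_add]; exact tsub_le_iff_right.1 h1)]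
          simp
        · simp

lemma sb_eq (h g : ι → R[X]) (f : PP ι R) (α : ι →₀ ℕ) : (sb h g f).coeff α =
    ∑ β ∈ f.support, f.coeff β * (sb h g (MvPolynomial.monomial β 1)).coeff α := by
  conv_lhs => rw [f.as_sum, map_sum, MvPolynomial.coeff_sum]
  refine sum_congr rfl fun β _ => ?_
  rw [← MvPolynomial.coeff_C_mul, ← sb_C h g, ← map_mul, MvPolynomial.C_mul_monomial, mul_one]

lemma ex_deg [Fintype ι] (h g : ι → R[X]) :
    ∃ n, ∀ l, (h l).natDegree ≤ n ∧ (g l).natDegree ≤ n :=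
  ⟨univ.sup fun l => max (h l).natDegree (g l).natDegree, fun l => max_le_iff.1
    (le_sup (f := fun l => max (h l).natDegree (g l).natDegree) (mem_univ l))⟩

/-- The support of the image lies below the support. -/
lemma sb_supp [Fintype ι] (h g : ι → R[X]) (f : PP ι R) {α : ι →₀ ℕ}
    (hα : (sb h g f).coeff α ≠ 0) : ∃ β, f.coeff β ≠ 0 ∧ α ≤ β := by
  obtain ⟨n, hn⟩ := ex_deg h g
  rw [sb_eq] at hα
  obtain ⟨β, hβ, h1⟩ := exists_ne_zero_of_sum_ne_zero hα
  refine ⟨β, MvPolynomial.mem_support_iff.1 hβ, by_contra fun h2 => h1 ?_⟩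
  rw [((sb_mono h g hn β).2 α).2 h2, mul_zero]

/-- The coefficient at a maximal exponent. -/
lemma sb_coeff [Fintype ι] (h g : ι → R[X]) (f : PP ι R) {α : ι →₀ ℕ}
    (hα : ∀ β, f.coeff β ≠ 0 → α ≤ β → β = α) :
    (sb h g f).coeff α = f.coeff α * α.prod fun l m => h l ^ m := by
  obtain ⟨n, hn⟩ := ex_deg h g
  rw [sb_eq, sum_eq_single α, (sb_mono h g hn α).1]
  · intro β hβ hne
    rw [((sb_mono h g hn β).2 α).2 fun h1 => hne (hα β (MvPolynomial.mem_support_iff.1 hβ) h1),
      mul_zero]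
  · intro h1
    rw [MvPolynomial.notMem_support_iff.1 h1, zero_mul]

lemma Row.sb [Fintype ι] {δ d n : ℕ} {f : PP ι R} (hf : Row δ d f) {h g : ι → R[X]}
    (hn : ∀ l, (h l).natDegree ≤ n ∧ (g l).natDegree ≤ n) :
    Row δ (d + Fintype.card ι * δ * n) (sb h g f) := fun α => by
  refine ⟨?_, fun h1 l => ?_⟩
  · rw [sb_eq]
    refine (degree_sum_le _ _).trans_lt ((Finset.sup_lt_iff (WithBot.bot_lt_coe _)).2 fun β hβ => ?_)
    refine deg_mul_lt (hf β).1 (((sb_mono h g hn β).2 α).1.trans (Nat.mul_le_mul_right _ ?_))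
    rw [Finsupp.degree_eq_sum]
    exact sum_le_card_nsmul _ _ _ fun l _ => (hf β).2 (MvPolynomial.mem_support_iff.1 hβ) l
  · obtain ⟨β, h2, h3⟩ := sb_supp h g f h1
    exact (h3 l).trans ((hf β).2 h2 l)

@[simp] lemma evp_C (c : R) (V : ι → R) (a : R[X]) : evp c V (MvPolynomial.C a) = a.eval c :=
  MvPolynomial.eval₂Hom_C _ _ _

@[simp] lemma evp_X (c : R) (V : ι → R) (l : ι) : evp c V (MvPolynomial.X l) = V l :=
  MvPolynomial.eval₂Hom_X' _ _ _

namespace Sys

variable (s : Sys ι R)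

@[simp] lemma JJ_C (i m : ℕ) (a : R[X]) :
    s.JJ i m (MvPolynomial.C a) = MvPolynomial.C (taylor (s.θ ^ s.q ^ i) a) :=
  MvPolynomial.aevalTower_C _ _ _

@[simp] lemma JJ_X (i m : ℕ) (l : ι) : s.JJ i m (MvPolynomial.X l) = s.VV i m l :=
  MvPolynomial.aevalTower_X _ _ _

lemma JJ_sub (i m : ℕ) (f : PP ι R) : s.JJ i m (s.sub (i + m) f) = s.JJ i (m + 1) f := by
  induction f using MvPolynomial.induction_on with
  | C a => simp [sub]
  | add p q hp hq => simp only [map_add, hp, hq]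
  | mul_X p l hp =>
    rw [map_mul, map_mul, map_mul, hp, sub, sb_X, map_add, map_mul, JJ_C, JJ_C, JJ_X, JJ_X, VV,
      map_sub, taylor_X, taylor_C, taylor_C]

lemma VV_map (φ : R →+* R') (σ' : R' →+* R') (i m : ℕ) (l : ι) :
    tw φ (s.VV i m l) = (s.map φ σ').VV i m l := by
  induction m with
  | zero => simp [VV, map]
  | succ m ih => simp [VV, ih, map]

lemma JJ_map (φ : R →+* R') (σ' : R' →+* R') (i m : ℕ) (f : PP ι R) :
    tw φ (s.JJ i m f) = (s.map φ σ').JJ i m (tw φ f) := by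
  induction f using MvPolynomial.induction_on with
  | C a => simp [map, map_taylor]
  | add p q hp hq => simp only [map_add, hp, hq]
  | mul_X p l hp => simp only [map_mul, hp, JJ_X, tw_X, VV_map s φ σ']

lemma ev_map (φ : R →+* R') (σ' : R' →+* R') (i m : ℕ) (f : PP ι R) :
    φ (s.ev i m f) = (s.map φ σ').ev i m (tw φ f) := by
  rw [ev, ev, ← JJ_map, coeff_tw, coeff_map]

lemma ev_sub (i m : ℕ) (f : PP ι R) : s.ev i m (s.sub (i + m) f) = s.ev i (m + 1) f := by
  rw [ev, ev, JJ_sub]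

lemma Cond_sub (i m : ℕ) (f : PP ι R) : s.Cond i m (s.sub (i + m) f) ↔ s.Cond i (m + 1) f := by
  simp only [Cond, JJ_sub]

lemma ev_eq (i m : ℕ) (f : PP ι R) :
    s.ev i m f = evp (s.θ ^ s.q ^ i) (fun l => ((s.VV i m l).coeff 0).coeff 0) f := by
  have e : ∀ g : PP ι R, (g.coeff 0).coeff 0 =
      (constantCoeff.comp MvPolynomial.constantCoeff : PP ι R →+* R) g := fun _ => rfl
  rw [ev, e]
  induction f using MvPolynomial.induction_on with
  | C a => simp
  | add p q hp hq => simp only [map_add, hp, hq]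
  | mul_X p l hp => rw [map_mul, map_mul, map_mul, hp, JJ_X, evp_X, e]

lemma Cond.zero (i m : ℕ) : s.Cond i m 0 := ⟨0, by simpa using Box.zero⟩

variable {s}

lemma Cond.add {i m : ℕ} {f g : PP ι R} (hf : s.Cond i m f) (hg : s.Cond i m g) :
    s.Cond i m (f + g) := by
  obtain ⟨a, ha⟩ := hf
  obtain ⟨b, hb⟩ := hg
  exact ⟨a + b, by convert ha.add hb using 1; rw [map_add]; ring⟩

lemma Cond.mul_left {i m : ℕ} {f : PP ι R} (hf : s.Cond i m f) (g : PP ι R) :
    s.Cond i m (g * f) := by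
  obtain ⟨a, ha⟩ := hf
  exact ⟨s.JJ i m g * a, by convert ha.mul_left (s.JJ i m g) using 1; rw [map_mul]; ring⟩

lemma sig_pow (hσ : ∀ a, s.σ a = a ^ s.q) (a : R) (i : ℕ) :
    s.σ (a ^ s.q ^ i) = a ^ s.q ^ (i + 1) := by rw [hσ, ← pow_mul, ← pow_succ]

lemma VV_tw (hσ : ∀ a, s.σ a = a ^ s.q) (i m : ℕ) (l : ι) :
    s.VV (i + 1) m l = tw s.σ (s.VV i m l) := by
  induction m with
  | zero => simp only [VV, map_add, tw_C, tw_X, map_C, sig_pow hσ]
  | succ m ih =>
    simp only [VV, map_add, map_mul, tw_C, ih, map_C, Polynomial.map_sub, Polynomial.map_add,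
      map_X, sig_pow hσ, add_right_comm i 1 m, add_assoc]

lemma JJ_tw (hσ : ∀ a, s.σ a = a ^ s.q) (i m : ℕ) (f : PP ι R) :
    s.JJ (i + 1) m (tw s.σ f) = tw s.σ (s.JJ i m f) := by
  induction f using MvPolynomial.induction_on with
  | C a => rw [tw_C, JJ_C, JJ_C, tw_C, map_taylor, sig_pow hσ]
  | add p q hp hq => simp only [map_add, hp, hq]
  | mul_X p l hp => simp only [map_mul, hp, JJ_X, tw_X, VV_tw hσ]

lemma ev_tw (hσ : ∀ a, s.σ a = a ^ s.q) (i m : ℕ) (f : PP ι R) :
    s.ev (i + 1) m (tw s.σ f) = s.σ (s.ev i m f) := by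
  rw [ev, ev, JJ_tw hσ, coeff_tw, coeff_map]

lemma tw_sub (hσ : ∀ a, s.σ a = a ^ s.q) (m : ℕ) (f : PP ι R) :
    tw s.σ (s.sub m f) = s.sub (m + 1) (tw s.σ f) := by
  simp only [sub, tw_sb, Polynomial.map_sub, map_X, map_C, sig_pow hσ, add_assoc]

lemma SS_eq (P : ℕ) (f : PP ι R) :
    SS s.σ (s.θ ^ s.q ^ (s.e + P)) (fun l => s.x l ^ s.q ^ P) f = s.sub P (tw s.σ f) := rfl

lemma Cond.tw (hσ : ∀ a, s.σ a = a ^ s.q) {i m : ℕ} {f : PP ι R} (hf : s.Cond i m f) :
    s.Cond (i + 1) m (SA.tw s.σ f) := by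
  obtain ⟨a, ha⟩ := hf
  refine ⟨SA.tw s.σ a, ?_⟩
  rw [JJ_tw hσ, Function.iterate_succ_apply', ← map_mul, ← map_sub]
  exact ha.tw _

lemma Cond.of_tw (hσ : ∀ a, s.σ a = a ^ s.q) (hb : Function.Bijective s.σ) {i m : ℕ}
    {f : PP ι R} (hf : s.Cond (i + 1) m (SA.tw s.σ f)) : s.Cond i m f := by
  obtain ⟨a, ha⟩ := hf
  obtain ⟨a, rfl⟩ := tw_surj hb.2 a
  rw [JJ_tw hσ, Function.iterate_succ_apply', ← map_mul, ← map_sub] at ha
  exact ⟨a, ha.of_tw hb.1⟩

end Sys

end Pool.Agent.CSU.SA
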