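import Mathlib

/-! Growth of the powers of a subspace. -/

namespace Pool.Agent.CSU.SA.Gr

open Finset Module Submodule

section Ring

variable {k A : Type} [Field k] [CommRing A] [Algebra k A]

lemma rk_mul (M N : Submodule k A) [Module.Finite k M] [Module.Finite k N] :
    finrank k ↥(M * N) ≤ finrank k M * finrank k N := by
  rw [← mulMap_range, ← finrank_tensorProduct]
  exact LinearMap.finrank_range_le _

lemma pw_mul {U : Submodule k A} {a b : ℕ} {x y : A} (hx : x ∈ U ^ a) (hy : y ∈ U ^ b) :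
    x * y ∈ U ^ (a + b) := by
  rw [pow_add]; exact mul_mem_mul hx hy

lemma pw_pow {U : Submodule k A} {a : ℕ} {x : A} (hx : x ∈ U ^ a) (b : ℕ) :
    x ^ b ∈ U ^ (a * b) := by
  rw [pow_mul]; exact pow_mem_pow _ hx b

lemma pw_one {U : Submodule k A} (h1 : 1 ∈ U) (a : ℕ) : (1 : A) ∈ U ^ a := by
  simpa using pow_mem_pow U h1 a

lemma pw_mono {U : Submodule k A} (h1 : 1 ∈ U) {a b : ℕ} (h : a ≤ b) : U ^ a ≤ U ^ b :=
  fun x hx => by
    have := pw_mul hx (pw_one h1 (b - a))
    rwa [mul_one, Nat.add_sub_cancel' h] at this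

lemma pw_prod {U : Submodule k A} {ι : Type} (s : Finset ι) (a : ι → ℕ) (x : ι → A)
    (h : ∀ i ∈ s, x i ∈ U ^ a i) : ∏ i ∈ s, x i ∈ U ^ (∑ i ∈ s, a i) := by
  classical
  induction s using Finset.induction_on with
  | empty => simpa using one_le.1 (le_refl (1 : Submodule k A))
  | insert j s hj ih =>
    rw [prod_insert hj, sum_insert hj]
    exact pw_mul (h j (mem_insert_self _ _)) (ih fun i hi => h i (mem_insert_of_mem hi))

lemma pw_fin {U : Submodule k A} [Module.Finite k U] (a : ℕ) : Module.Finite k ↥(U ^ a) :=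
  Module.Finite.iff_fg.2 ((Module.Finite.iff_fg.1 inferInstance).pow a)

lemma sp_fin {ι : Type} [Finite ι] (x : ι → A) :
    Module.Finite k ↥(span k (insert 1 (Set.range x))) :=
  Module.Finite.span_of_finite k ((Set.finite_range x).insert 1)

/-- Polynomials of degree at most `D`. -/
lemma rk_pol {ι : Type} [Fintype ι] (x : ι → A) (D : ℕ) :
    finrank k ↥(span k (insert 1 (Set.range x)) ^ D) ≤ (D + 1) ^ Fintype.card ι := by
  classical
  have key : ∀ D, span k (insert 1 (Set.range x)) ^ D ≤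
      span k (Set.range fun a : ι → Fin (D + 1) => ∏ i, x i ^ (a i : ℕ)) := by
    intro D
    induction D with
    | zero => rw [pow_zero, Submodule.one_le]; exact subset_span ⟨0, by simp⟩
    | succ D ih =>
      rw [pow_succ]
      refine (mul_le_mul_left ih _).trans ?_
      rw [span_mul_span, span_le]
      rintro _ ⟨_, ⟨a, rfl⟩, y, hy, rfl⟩
      refine subset_span ?_
      rcases hy with rfl | ⟨j, rfl⟩
      · exact ⟨fun i => (a i).castSucc, by simp⟩
      · refine ⟨fun i => if i = j then (a i).succ else (a i).castSucc, ?_⟩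
        have : ∀ i, x i ^ ((if i = j then (a i).succ else (a i).castSucc : Fin (D + 2)) : ℕ) =
            x i ^ (a i : ℕ) * (if i = j then x i else 1) := fun i => by
          split_ifs <;> simp [pow_succ]
        simp only [this, prod_mul_distrib, prod_ite_eq', mem_univ, if_true]
  have := Module.Finite.span_of_finite k
    (Set.finite_range fun a : ι → Fin (D + 1) => ∏ i, x i ^ (a i : ℕ))
  refine (finrank_mono (key D)).trans ((finrank_range_le_card _).trans ?_)
  simp

lemma ex_pw {U : Submodule k A} (h1 : 1 ∈ U) {s : Set A} (hs : s ⊆ U) {z : A}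
    (hz : z ∈ Algebra.adjoin k s) : ∃ n, z ∈ U ^ n := by
  induction hz using Algebra.adjoin_induction with
  | mem x hx => exact ⟨1, by simpa using hs hx⟩
  | algebraMap r => exact ⟨0, by simp⟩
  | add x y _ _ hx hy =>
    obtain ⟨n, hn⟩ := hx
    obtain ⟨m, hm⟩ := hy
    exact ⟨n + m, add_mem (pw_mono h1 (by omega) hn) (pw_mono h1 (by omega) hm)⟩
  | mul x y _ _ hx hy =>
    obtain ⟨n, hn⟩ := hx
    obtain ⟨m, hm⟩ := hy
    exact ⟨n + m, pw_mul hn hm⟩

/-- If `δ U W ⊆ V ^ c W`, then `δ ^ D U ^ D W ⊆ V ^ (c D) W`. -/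
lemma pw_step {U V W : Submodule k A} {δ : A} {c : ℕ}
    (h : ∀ u ∈ U, ∀ w ∈ W, δ * u * w ∈ V ^ c * W) (D : ℕ) :
    ∀ u ∈ U ^ D, ∀ w ∈ W, δ ^ D * u * w ∈ V ^ (c * D) * W := by
  induction D with
  | zero =>
    intro u hu w hw
    simpa using mul_mem_mul hu hw
  | succ D ih =>
    intro u hu w hw
    rw [pow_succ] at hu
    refine Submodule.mul_induction_on hu (fun a ha b hb => ?_) fun a b ha hb => ?_
    · have h1 := h b hb w hw
      have : ∀ z ∈ V ^ c * W, δ ^ D * a * z ∈ V ^ (c * (D + 1)) * W := fun z hz => by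
        refine Submodule.mul_induction_on hz (fun v hv w hw => ?_) fun a b ha hb => ?_
        · rw [mul_left_comm, mul_add, mul_one, add_comm, pow_add, mul_assoc (V ^ c)]
          exact mul_mem_mul hv (ih a ha w hw)
        · rw [mul_add _ a b]; exact add_mem ha hb
      convert this _ h1 using 1
      ring
    · rw [mul_add _ a b, add_mul]; exact add_mem ha hb

end Ring

variable {k F : Type} [Field k] [Field F] [Algebra k F]

lemma rk_step {U V W : Submodule k F} [Module.Finite k V] [Module.Finite k W] {δ : F} {c : ℕ}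
    (hδ : δ ≠ 0) (h1 : 1 ∈ W) (h : ∀ u ∈ U, ∀ w ∈ W, δ * u * w ∈ V ^ c * W) (D : ℕ) :
    finrank k ↥(U ^ D) ≤ finrank k ↥(V ^ (c * D)) * finrank k W := by
  have := pw_fin (U := V) (c * D)
  have : Module.Finite k ↥(V ^ (c * D) * W) :=
    Module.Finite.iff_fg.2 ((Module.Finite.iff_fg.1 this).mul (Module.Finite.iff_fg.1 ‹_›))
  refine le_trans ?_ (rk_mul _ _)
  refine LinearMap.finrank_le_finrank_of_injective
    (f := LinearMap.codRestrict _ ((LinearMap.mulLeft k (δ ^ D)).comp (U ^ D).subtype)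
      fun w => by simpa using pw_step h D w w.2 1 h1) fun a b h => Subtype.ext ?_
  exact mul_left_cancel₀ (pow_ne_zero D hδ) (congrArg Subtype.val h)

/-- Growth of the powers of a space of algebraic elements. -/
theorem grow {ι : Type} [Fintype ι] (x : ι → F) (S : Set F) (hf : S.Finite)
    (hS : ∀ ξ ∈ S, IsAlgebraic (Algebra.adjoin k (Set.range x)) ξ) :
    ∃ C : ℕ, ∀ D, 1 ≤ D → finrank k ↥(span k S ^ D) ≤ C * D ^ Fintype.card ι := by
  classical
  lift S to Finset F using hf
  set R := Algebra.adjoin k (Set.range x) with hR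
  set V := span k (insert 1 (Set.range x)) with hV
  have hV1 : (1 : F) ∈ V := subset_span (Set.mem_insert _ _)
  have := sp_fin (k := k) x
  choose! d hd0 hd using fun ξ (h : ξ ∈ S) => (hS ξ h).exists_integral_multiple
  set δ : R := ∏ ξ ∈ S, d ξ with hδ
  have hδ0 : δ ≠ 0 := prod_ne_zero_iff.2 hd0
  have hint : ∀ ξ ∈ S, IsIntegral R (δ • ξ) := fun ξ h => by
    rw [hδ, ← mul_prod_erase S d h, mul_comm, mul_smul]
    exact (hd ξ h).smul _
  obtain ⟨T, hT⟩ := fg_adjoin_of_finite (R := R) (s := (fun ξ => δ • ξ) '' (S : Set F))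
    (S.finite_toSet.image _) (by rintro _ ⟨ξ, h, rfl⟩; exact hint ξ h)
  set M := Algebra.adjoin R ((fun ξ => δ • ξ) '' (S : Set F)) with hM
  set W := span k (insert 1 (T : Set F)) with hWd
  have : Module.Finite k W := Module.Finite.span_of_finite k (T.finite_toSet.insert 1)
  have mono : ∀ {a b : ℕ}, a ≤ b → V ^ a * W ≤ V ^ b * W := fun h =>
    mul_le_mul_left (pw_mono hV1 h) _
  have hW : ∀ z ∈ M, ∃ n, z ∈ V ^ n * W := by
    intro z hz
    have hz' : z ∈ span R (T : Set F) := by rw [hT]; exact hz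
    refine span_induction (p := fun z _ => ∃ n, z ∈ V ^ n * W) ?_ ?_ ?_ ?_ hz'
    · exact fun t ht => ⟨0, by simpa using subset_span (Set.mem_insert_of_mem _ ht)⟩
    · exact ⟨0, zero_mem _⟩
    · rintro a b _ _ ⟨n, hn⟩ ⟨m, hm⟩
      exact ⟨max n m, add_mem (mono (le_max_left _ _) hn) (mono (le_max_right _ _) hm)⟩
    · rintro r a _ ⟨n, hn⟩
      obtain ⟨m, hm⟩ := ex_pw hV1 (fun y hy => subset_span (Set.mem_insert_of_mem _ hy)) r.2
      exact ⟨m + n, by rw [pow_add, mul_assoc]; exact mul_mem_mul hm hn⟩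
  have hTM : ∀ t ∈ insert 1 T, t ∈ M := fun t ht => by
    rcases mem_insert.1 ht with rfl | ht
    · exact one_mem _
    · have : t ∈ span R (T : Set F) := subset_span ht
      rwa [hT] at this
  choose! n hn using hW
  set c := (S ×ˢ insert 1 T).sup fun s => n (δ * s.1 * s.2) with hc
  have hstep : ∀ u ∈ span k (S : Set F), ∀ w ∈ W, (δ : F) * u * w ∈ V ^ c * W := by
    intro u hu w hw
    have : span k (S : Set F) * W ≤ (V ^ c * W).comap (LinearMap.mulLeft k (δ : F)) := by
      rw [hWd, span_mul_span, span_le]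
      rintro _ ⟨ξ, hξ, t, ht, rfl⟩
      have ht' : t ∈ insert 1 T := by simpa using ht
      have := mono (le_sup (f := fun s : F × F => n (δ * s.1 * s.2)) (b := (ξ, t))
        (mem_product.2 ⟨hξ, ht'⟩))
        (hn _ (mul_mem (Algebra.subset_adjoin ⟨ξ, hξ, rfl⟩) (hTM t ht')))
      rw [mul_assoc] at this
      exact this
    simpa [mul_assoc] using this (mul_mem_mul hu hw)
  refine ⟨finrank k W * (c + 1) ^ Fintype.card ι, fun D hD => ?_⟩
  refine (rk_step (fun h => hδ0 (Subtype.ext h)) (subset_span (Set.mem_insert _ _)) hstep D).trans ?_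
  rw [mul_comm, mul_assoc, ← mul_pow]
  exact Nat.mul_le_mul_left _ ((rk_pol x _).trans (Nat.pow_le_pow_left (by nlinarith) _))

end Pool.Agent.CSU.SA.Gr
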