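import Pool.Agent.Lib.MP_0370b2_nt.SA.Defs
import Pool.Agent.Lib.MP_bf776f_nt.SU.St

/-! Any number of points of the Carlitz exponential: block statements. -/

namespace Pool.Agent.CSU.SA

open Polynomial Finset Module

/-- Growth from explicit equations. -/
def Gr0S : Prop :=
  ∀ (k F Γ : Type) [Field k] [Field F] [Algebra k F] [Fintype Γ] (s m : ℕ) (w : Fin s → F)
    (z : Γ → F) (Q : Γ → (MvPolynomial (Fin s) k)[X]) (W : Submodule k F), Module.Finite k W →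
    (∀ g, (∀ j, ((Q g).coeff j).totalDegree ≤ m) ∧
      MvPolynomial.aeval w (Q g).leadingCoeff ≠ 0 ∧
      (Q g).eval₂ (MvPolynomial.aeval w : MvPolynomial (Fin s) k →ₐ[k] F).toRingHom (z g) = 0) →
    (∀ α : Γ → ℕ, (∀ g, α g < (Q g).natDegree) → ∏ g, z g ^ α g ∈ W) →
    ∀ D, finrank k ↥(U1 k (Sum.elim w z) ^ D) ≤
      finrank k W * ((Fintype.card Γ * m + 1) * D + 1) ^ s

/-- Growth in transcendence degree at most `n`. -/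
def GrowS : Prop :=
  ∀ (k F Γ : Type) [Field k] [Field F] [Algebra k F] [Fintype Γ] (n : ℕ) (w : Fin n → F)
    (z : Γ → F), (∀ g, IsAlgebraic (Algebra.adjoin k (Set.range w)) (z g)) →
    ∃ C1 : ℕ, ∀ D, 1 ≤ D → finrank k ↥(U1 k z ^ D) ≤ C1 * D ^ n

/-- The honest point. -/
def HPS : Prop :=
  ∀ n : ℕ, ∃ c0 : ℕ, 3 ≤ c0 ∧ ∀ (k F Γ : Type) [Field k] [Fintype k] [NormedField F]
    [IsUltrametricDist F] [IsAlgClosed F] [Algebra k F] [Fintype Γ] (z : Γ → F) (g0 : Γ)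
    (h S0 : ℕ), 1 < ‖z g0‖ → Fintype.card Γ ≤ h → n + 2 ≤ h → 1 ≤ S0 →
    (∀ g, ‖z g‖ ≤ ‖z g0‖ ^ h) → (∀ D, 1 ≤ D → finrank k ↥(U1 k z ^ D) ≤ (h * D) ^ n) →
    ∃ (S : ℕ) (z' : Γ → F), S0 * h ^ 3 ≤ S ∧ S ≤ S0 * h ^ c0 ∧ z' g0 = z g0 ∧
      (∀ g, ‖z g - z' g‖ * ‖z g0‖ ^ (S * h) ≤ 1) ∧
      ∀ p ∈ U1 k (fun g => (z g, z' g)) ^ h, ‖p.1‖ * ‖z g0‖ ^ S ≤ 1 → p.2 = 0

/-- The bounded Taylor map. -/
def TauS : Prop :=
  ∀ (k F : Type) [Field k] [Fintype k] [NormedField F] [IsUltrametricDist F] [CompleteSpace F]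
    [Algebra k F] (θ : F) (S : Finset F), 1 < ‖θ‖ → (∀ s ∈ S, IsAlgebraic (Kinf k θ) s) →
    ∃ (e : ℕ) (W : Subfield F), IsClosed (W : Set F) ∧ θ ∈ W ∧ (∀ c, algebraMap k F c ∈ W) ∧
      (∀ s ∈ S, s ^ Fintype.card k ^ e ∈ W) ∧ ∀ a, ∃ CT : ℝ, Tau (Fintype.card k ^ a) θ W CT

/-- Analysis of the jets. -/
def AnmS : Prop :=
  ∀ (k F : Type) [Field k] [Fintype k] [NormedField F] [IsUltrametricDist F] [CompleteSpace F]
    [Algebra k F] (θ u : F) (σ : F →+* F) (μ : ℕ), 1 < ‖θ‖ → (∀ y, σ y = y ^ Fintype.card k) →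
    ∀ m j, j < m →
      (1 ≤ μ → (Jm (Fintype.card k) μ θ u m j).coeff 0 = phi (Fintype.card k) θ u m j) ∧
      X ^ μ ∣ Jm (Fintype.card k) μ θ u (m + 1) j -
        ((X + C (θ ^ Fintype.card k ^ j) - C (θ ^ Fintype.card k ^ m)) *
          Jm (Fintype.card k) μ θ u m j + C (cE (Fintype.card k) θ u ^ Fintype.card k ^ m)) ∧
      Jm (Fintype.card k) μ θ u (m + 1) (j + 1) = (Jm (Fintype.card k) μ θ u m j).map σ ∧
      (‖u‖ ≤ 1 → Nb μ ((‖u‖ / ‖θ‖) ^ Fintype.card k ^ m) (Jm (Fintype.card k) μ θ u m j))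

/-- The finite approximations converge. -/
def ApS : Prop :=
  ∀ (k F : Type) [Field k] [Fintype k] [NormedField F] [IsUltrametricDist F] [CompleteSpace F]
    [Algebra k F] (θ u : F) (e a K : ℕ), 1 < ‖θ‖ → ‖u‖ ≤ 1 → 1 ≤ e →
    ‖phi (Fintype.card k) θ u e 0‖ ≤ 1 ∧
    ‖phi (Fintype.card k) θ u e 0 - (pK (Fintype.card k) (Fintype.card k ^ a) θ u e K).eval θ‖ ≤
      (‖u‖ / ‖θ‖) ^ Fintype.card k ^ (K + e) ∧
    Nb (Fintype.card k ^ a) ((‖u‖ / ‖θ‖) ^ Fintype.card k ^ (K + e))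
      (Jm (Fintype.card k) (Fintype.card k ^ a) θ u e 0 -
        taylor θ (pK (Fintype.card k) (Fintype.card k ^ a) θ u e K))

/-- Heights of the finite approximations. -/
def ApHS : Prop :=
  ∀ (k F : Type) [Field k] [Fintype k] [NormedField F] [IsUltrametricDist F] [Algebra k F]
    (U : Submodule k F) (θ : F) (e a K H : ℕ), 1 < ‖θ‖ → 1 ≤ a → 1 ∈ U → θ ∈ U →
    dK (Fintype.card k) θ e a K ≠ 0 ∧
    C (dK (Fintype.card k) θ e a K ^ Fintype.card k ^ a) ∈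
      CC (Fintype.card k ^ a) U ^ ((H + (K + 1) ^ 2) * Fintype.card k ^ (K + e + a)) ∧
    ∀ v, v ^ Fintype.card k ^ e ∈ U ^ H →
      C (dK (Fintype.card k) θ e a K ^ Fintype.card k ^ a) *
        pK (Fintype.card k) (Fintype.card k ^ a) θ v (e + a) K ∈
      CC (Fintype.card k ^ a) U ^ ((H + (K + 1) ^ 2) * Fintype.card k ^ (K + e + a))

/-- A small relation between the values gives a small relation between the jets. -/
def TjS : Prop :=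
  ∀ (k F ι : Type) [Field k] [Fintype k] [NormedField F] [IsUltrametricDist F] [CompleteSpace F]
    [Algebra k F] [Fintype ι] [DecidableEq ι] (θ : F) (W : Subfield F) (CT : ℝ) (e a ν : ℕ)
    (v : ι → F) (G : (ι → Fin ν) → F[X]), 1 < ‖θ‖ → 1 ≤ a → θ ∈ W →
    Tau (Fintype.card k ^ a) θ W CT → (∀ l, ‖v l‖ ≤ 1 ∧ v l ^ Fintype.card k ^ e ∈ W) →
    (∀ α i, ∃ w ∈ W, (G α).coeff i = w ^ Fintype.card k ^ a) →
    Nb (Fintype.card k ^ a)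
      (CT * ‖val (fun α => (G α).eval θ) fun l => phi (Fintype.card k) θ (v l) (e + a) 0‖)
      (val (fun α => taylor θ (G α))
        fun l => Jm (Fintype.card k) (Fintype.card k ^ a) θ (v l) (e + a) 0)

/-- The exact relation, by counting. -/
def CntS : Prop :=
  ∀ (k F ι : Type) [Field k] [Fintype k] [Field F] [Algebra k F] [Fintype ι] [DecidableEq ι]
    (U : Submodule k F) (θ : F) (y : ι → F) (n a ν C1 c1 c2 i : ℕ), U.FG → 1 ∈ U → θ ∈ U →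
    1 ≤ a → (∀ D, 1 ≤ D → finrank k ↥(U ^ D) ≤ C1 * D ^ n) → (∀ l, y l ∈ U ^ c1) →
    Fintype.card k * (Fintype.card k ^ a) ^ n ≤ Fintype.card k ^ a * ν ^ Fintype.card ι →
    Fintype.card k ^ a + Fintype.card ι * ν * c1 ≤ c2 → C1 * (2 * c2) ^ n < Fintype.card k ^ i →
    ∃ G : (ι → Fin ν) → F[X], G ≠ 0 ∧ val (fun α => (G α).eval θ) y = 0 ∧
      ∀ α, (G α).degree < (Fintype.card k ^ a : ℕ) ∧
        G α ∈ CC (Fintype.card k ^ a) U ^ (3 * c2 * (Fintype.card k ^ a) ^ i)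

/-- Heights of the data of a combination. -/
def DatS : Prop :=
  ∀ (k F ι : Type) [Field k] [Fintype k] [NormedField F] [IsUltrametricDist F] [CompleteSpace F]
    [Algebra k F] [Fintype ι] (U : Submodule k F) (θ : F) (u : ι → F) (e a P : ℕ)
    (β : ι → k[X]), 1 < ‖θ‖ → 1 ≤ a → 1 ∈ U → θ ∈ U →
    (∀ i, Dat U (Fintype.card k) θ e a 1 (u i)) → (∀ i, (β i).natDegree ≤ P) →
    Dat U (Fintype.card k) θ e a (Fintype.card k ^ (e + P)) (∑ i, aeval θ (β i) * u i)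

/-- The flag basis. -/
def FlagS : Prop :=
  ∀ (k F ι : Type) [Field k] [Fintype k] [NormedField F] [IsUltrametricDist F] [Algebra k F]
    [Fintype ι] (θ : F) (u : ι → F) (i0 : ι) (C P1 : ℕ), 1 < ‖θ‖ → (∀ i, ‖u i‖ ≤ 1) →
    (∀ β : ι → k[X], β ≠ 0 → ∑ i, aeval θ (β i) * u i ≠ 0) →
    ∃ (P0 : ℕ) (β : ι → ι → k[X]) (v : ι → F) (L : ι → ℕ), P1 ≤ P0 ∧ v i0 = u i0 ∧
      (∀ l, (∀ i, (β l i).natDegree ≤ P0) ∧ v l = ∑ i, aeval θ (β l i) * u i ∧ 1 ≤ L l ∧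
        ‖v l‖ * ‖θ‖ ^ L l ≤ ‖θ‖) ∧
      (∀ l l', L l < L l' → L l * Fintype.card k ^ (C * P0) ≤ L l') ∧
      ∀ γ : ι → k[X], (∀ l, (γ l).natDegree ≤ C * P0) → ∀ l, l ≠ i0 → γ l ≠ 0 →
        1 < ‖∑ i, aeval θ (γ i) * v i‖ * ‖θ‖ ^ (L l * Fintype.card k ^ P0)

/-- Existence of a row, by counting. -/
def ExS : Prop :=
  ∀ (ι F : Type) [Fintype ι] [Field F] (s : Sys ι F) (ν δ d P : ℕ), ν ≤ s.μ →
    (∃ α, (s.Q.coeff α).coeff 0 ≠ 0) → (∀ α, s.Q.coeff α ≠ 0 → ∀ l, α l < ν) →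
    P * s.μ ^ (Fintype.card ι + 1) <
      (δ + 1) ^ Fintype.card ι * d + P * (s.μ * (s.μ - ν) ^ Fintype.card ι) →
    ∃ f, f ≠ 0 ∧ Row δ d f ∧ ∀ i < P, s.Cond i (P - i) f

/-- A kernel vector given by minors. -/
def CrS : Prop :=
  ∀ (k R F κ ι : Type) [Field k] [CommRing R] [Algebra k R] [Field F] [Fintype κ] [Fintype ι]
    (U : Submodule k R) (φ : R →+* F) (A : κ → ι → R) (h : ℕ) (w : ι → F) (c0 : ι), 1 ∈ U →
    (∀ s i, A s i ∈ U ^ h) → (∀ s, ∑ i, φ (A s i) * w i = 0) → w c0 ≠ 0 →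
    ∃ b : ι → R, φ (b c0) ≠ 0 ∧ (∀ i, b i ∈ U ^ (Fintype.card ι * h)) ∧
      ∀ s, φ (∑ i, A s i * b i) = 0

/-- Lifting of a row. -/
def AuxS : Prop :=
  ∀ (k ι R F : Type) [Field k] [Fintype ι] [CommRing R] [Algebra k R] [Field F]
    (U : Submodule k R) (s : Sys ι R) (φ : R →+* F) (σ' : F →+* F) (δ d P hq H : ℕ) (f : PP ι F),
    1 ∈ U → s.θ ∈ U → (∀ l, s.y l ∈ U ∧ s.x l ∈ U) → HtP U hq s.Q → 2 ≤ s.q →
    (∀ a, s.σ a = a ^ s.q) → (∀ a, σ' a = a ^ s.q) →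
    ((δ + 1) ^ Fintype.card ι * d + P * s.μ ^ (Fintype.card ι + 1) + 1) *
      ((d + 2 * Fintype.card ι * δ * s.q ^ s.e + hq) * s.q ^ P) ≤ H →
    f ≠ 0 → Row δ d f → (∀ i < P, (s.map φ σ').Cond i (P - i) f) →
    ∃ (B : PP ι R) (g : ℕ → PP ι R), Row δ d B ∧ tw φ B ≠ 0 ∧ HtP U H B ∧
      ∀ i < P, HtP U H (g i) ∧ HtP U H (s.JJ i (P - i) B - g i * (tw s.σ)^[i] s.Q) ∧
        Box s.μ (tw φ (s.JJ i (P - i) B - g i * (tw s.σ)^[i] s.Q))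

/-- Smallness of the values. -/
def SmallS : Prop :=
  ∀ (ι F : Type) [Fintype ι] [NormedField F] [IsUltrametricDist F] (s : Sys ι F)
    (J : ℕ → ℕ → ι → F[X]) (B : PP ι F) (g : ℕ → PP ι F) (δ d P a t : ℕ) (ρ r r' Z : ℝ),
    1 < ‖s.θ‖ → 2 ≤ s.q → 1 ≤ s.e → 1 ≤ s.μ → (∀ a, s.σ a = a ^ s.q) →
    (∀ l, (J 0 0 l).coeff 0 = s.y l) →
    (∀ m i l, i ≤ m → X ^ s.μ ∣ J (m + 1) i l -
        ((X + C (s.θ ^ s.q ^ i) - C (s.θ ^ s.q ^ (s.e + m))) * J m i l + C (s.x l ^ s.q ^ m)) ∧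
      J (m + 1) (i + 1) l = (J m i l).map s.σ ∧ Nb s.μ (ρ ^ s.q ^ m) (J m i l)) →
    0 ≤ ρ → ρ ≤ 1 → 0 ≤ r' → 1 ≤ Z → Z * r' ≤ r → r ≤ 1 → Row δ d B →
    d + Fintype.card ι * δ * t ≤ s.μ * P → (∀ α n, ‖(B.coeff α).coeff n‖ ≤ Z) →
    (∀ i < P, (∀ α n, ‖((g i).coeff α).coeff n‖ ≤ Z) ∧ ∀ α : ι →₀ ℕ, (∀ l, α l < s.μ) →
      Nb s.μ r ((s.JJ i (P - i) B - g i * (tw s.σ)^[i] s.Q).coeff α)) →
    Nb s.μ r' (MvPolynomial.eval (fun l => J 0 0 l - C (s.y l)) s.Q) →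
    ‖s.ev 0 (P + a) ((tw s.σ)^[a] B)‖ ≤
      max r (Z ^ s.q ^ a * ‖s.θ‖ ^ (d * s.q ^ (a + P)) * ρ ^ s.q ^ (P + a + t)) *
        ‖s.θ‖ ^ (s.μ * P * s.q ^ (a + P))

/-- Descent of the degrees at common zeros. -/
def DescS : Prop :=
  ∀ (ι F : Type) [Fintype ι] [Field F] (δ d r : ℕ) (Z : Submodule F[X] (PP ι F)) (V : F → ι → F)
    (w : PP ι F) (I : Finset F) (ρ : Fin r → PP ι F) (D : Fin r → ℕ),
    (∀ f ∈ Z, Row δ d f → f = 0) →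
    (∀ c ∈ I, ∀ f, MvPolynomial.C (X - C c) * f ∈ Z → f ∈ Z) → LinearIndependent F[X] ρ →
    (∀ s, ρ s ∈ Z ∧ Row δ (D s) (ρ s) ∧ ∀ c ∈ I, evp c (V c) (ρ s) = 0) →
    (∀ c ∈ I, evp c (V c) w ≠ 0) →
    (∃ a : F[X], a ≠ 0 ∧ MvPolynomial.C a * w ∈ Submodule.span F[X] (Set.range ρ)) →
    r * (d + 1) + I.card ≤ ∑ s, D s

/-- The zero estimate. -/
def ZeS : Prop :=
  ∀ (ι F : Type) [Fintype ι] [Field F] (s : Sys ι F) (δ d P : ℕ) (B : PP ι F),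
    (∀ a, s.σ a = a ^ s.q) → Function.Surjective s.σ →
    Function.Injective (fun i : ℕ => s.θ ^ s.q ^ i) → B ≠ 0 → Row δ (d + 1) B →
    (∀ i < P, s.Cond i (P - i) B) → (∀ f, Row δ d f → (∀ i < P, s.Cond i (P - i) f) → f = 0) →
    (∀ a, 1 ≤ a → a ≤ ((δ + 1) ^ Fintype.card ι) ^ 2 * (Fintype.card ι * δ + s.μ) +
      (δ + 1) ^ Fintype.card ι + 1 → s.ev 0 (P + a) ((tw s.σ)^[a] B) = 0) →
    (∀ Mo : Submodule F[X] (PP ι F),
      (∀ f ∈ Mo, SS s.σ (s.θ ^ s.q ^ (s.e + P)) (fun l => s.x l ^ s.q ^ P) f ∈ Mo) → B ∈ Mo →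
      ∃ (a : F[X]) (w : PP ι F), a ≠ 0 ∧ MvPolynomial.C a * w ∈ Mo ∧
        ∀ b i, i ≤ P + b → s.ev i (P + b - i) ((tw s.σ)^[b] w) ≠ 0) → False

/-- Elimination to an eigen-polynomial. -/
def ElS : Prop :=
  ∀ (ι F : Type) [Fintype ι] [Field F] (σ : F →+* F) (c : F) (ξ : ι → F) (δ D : ℕ) (f : PP ι F)
    (Mo : Submodule F[X] (PP ι F)), (∀ g ∈ Mo, SS σ c ξ g ∈ Mo) → f ∈ Mo → f ≠ 0 → Row δ D f →
    ∃ g ∈ Mo, Eig σ c ξ g ∧ Row δ (2 ^ (δ + 1) ^ Fintype.card ι * (D + Fintype.card ι * δ)) g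

/-- From an eigen-polynomial to a linear one. -/
def LeS : Prop :=
  ∀ (ι F : Type) [Fintype ι] [DecidableEq ι] [Field F] [IsAlgClosed F] (p : ℕ) [Fact p.Prime]
    [CharP F p] (σ : F →+* F) (c : F) (ξ : ι → F) (D : ℕ) (f : PP ι F), Eig σ c ξ f →
    1 ≤ f.totalDegree → (∀ α, (f.coeff α).degree < D) →
    ∃ g, Eig σ c ξ g ∧ g.totalDegree = 1 ∧ g.vars ⊆ f.vars ∧
      ∀ α, (g.coeff α).degree < (p ^ (f.totalDegree + f.support.card) * D : ℕ)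

/-- A linear eigen-polynomial is a torsion relation. -/
def TorS : Prop :=
  ∀ (k ι F : Type) [Field k] [Fintype k] [Fintype ι] [DecidableEq ι] [Field F] [Algebra k F]
    (σ : F →+* F) (c : F) (ξ : ι → F) (D : ℕ) (g : PP ι F), (∀ y, σ y = y ^ Fintype.card k) →
    Eig σ c ξ g → g.totalDegree = 1 → (∀ α, (g.coeff α).degree < D) →
    ∃ (β : ι → k[X]) (h : F[X]), β ≠ 0 ∧ (∀ l, (β l).natDegree ≤ D ∧ (β l ≠ 0 → l ∈ g.vars)) ∧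
      h.map σ = (X - C c) * h - ∑ l, C (ξ l) * (β l).map (algebraMap k F)

/-- Non-degeneracy. -/
def NdS : Prop :=
  ∀ q n δ : ℕ, ∃ κ : ℕ, ∀ (k ι F : Type) [Field k] [Fintype k] [Fintype ι] [Field F]
    [IsAlgClosed F] [Algebra k F] (σ : F →+* F) (c : F) (ξ : ι → F) (Sp : Set ι) (gl : ι → F[X])
    (D : ℕ) (f : PP ι F) (Mo : Submodule F[X] (PP ι F)), Fintype.card k = q →
    Fintype.card ι ≤ n → (∀ y, σ y = y ^ q) → Sp.Subsingleton →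
    (∀ l ∈ Sp, (gl l).degree ≤ 1 ∧
      SS σ c ξ (MvPolynomial.C (X ^ 2) * MvPolynomial.X l + MvPolynomial.C (gl l)) =
        MvPolynomial.C (X - C c) *
          (MvPolynomial.C (X ^ 2) * MvPolynomial.X l + MvPolynomial.C (gl l))) →
    (∀ g ∈ Mo, SS σ c ξ g ∈ Mo) → f ∈ Mo → f ≠ 0 → Row δ D f →
    (∃ (β : ι → k[X]) (h : F[X]), (∀ l, (β l).natDegree ≤ κ * (D + 1)) ∧ (∃ l ∉ Sp, β l ≠ 0) ∧
      h.map σ = (X - C c) * h - ∑ l, C (ξ l) * (β l).map (algebraMap k F)) ∨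
    ∃ (a : F[X]) (w : PP ι F), a ≠ 0 ∧ MvPolynomial.C a * w ∈ Mo ∧ (w = 1 ∨ ∃ l ∈ Sp, ∃ m : ℕ,
      w = (MvPolynomial.C (X ^ 2) * MvPolynomial.X l + MvPolynomial.C (gl l)) ^ m)

/-- The algebraic part at the honest point: a torsion relation of bounded degree. -/
def AlgS : Prop :=
  ∀ q n δ : ℕ, ∃ κ : ℕ, ∀ (k ι F : Type) [Field k] [Fintype k] [Fintype ι] [Field F]
    [IsAlgClosed F] [Algebra k F] (s : Sys ι F) (Sp : Set ι) (d P : ℕ) (B : PP ι F),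
    Fintype.card k = q → s.q = q → Fintype.card ι ≤ n → 1 ≤ s.e → (∀ a, s.σ a = a ^ q) →
    Function.Injective (fun i : ℕ => s.θ ^ q ^ i) → Sp.Subsingleton →
    (∀ l ∈ Sp, s.θ ^ q ^ s.e * (s.θ ^ q ^ s.e * s.x l + s.x l ^ q) +
        (s.θ ^ q ^ s.e * s.x l + s.x l ^ q) ^ q = 0 ∧
      s.θ ^ 2 * s.y l + s.θ * s.x l + (s.θ ^ q ^ s.e * s.x l + s.x l ^ q) ≠ 0) →
    B ≠ 0 → Row δ (d + 1) B → (∀ i < P, s.Cond i (P - i) B) →
    (∀ f, Row δ d f → (∀ i < P, s.Cond i (P - i) f) → f = 0) →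
    (∀ a, 1 ≤ a → a ≤ ((δ + 1) ^ Fintype.card ι) ^ 2 * (Fintype.card ι * δ + s.μ) +
      (δ + 1) ^ Fintype.card ι + 1 → s.ev 0 (P + a) ((tw s.σ)^[a] B) = 0) →
    ∃ (β : ι → k[X]) (h : F[X]), (∀ l, (β l).natDegree ≤ κ * (d + 2)) ∧ (∃ l ∉ Sp, β l ≠ 0) ∧
      h.map s.σ = (X - C (s.θ ^ q ^ (s.e + P))) * h -
        ∑ l, C (s.x l ^ q ^ P) * (β l).map (algebraMap k F)

/-- A torsion relation at a close point gives a combination close to a period. -/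
def NearS : Prop :=
  ∀ (k F ι : Type) [Field k] [Fintype k] [NormedField F] [IsUltrametricDist F] [CompleteSpace F]
    [IsAlgClosed F] [Algebra k F] [Fintype ι] (θ : F) (σ : F →+* F) (v x' : ι → F) (e P D : ℕ)
    (β : ι → k[X]) (h : F[X]) (ε : ℝ), 1 < ‖θ‖ → (∀ y, σ y = y ^ Fintype.card k) → 0 ≤ ε →
    ε ≤ 1 → (∀ l, ‖cE (Fintype.card k) θ (v l) ^ Fintype.card k ^ e - x' l‖ ≤
      ε ^ Fintype.card k ^ e ∧ (β l).natDegree ≤ D) →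
    h.map σ = (X - C (θ ^ Fintype.card k ^ (e + P))) * h -
      ∑ l, C (x' l ^ Fintype.card k ^ P) * (β l).map (algebraMap k F) →
    ∃ lam, cE (Fintype.card k) θ lam = 0 ∧ ‖∑ l, aeval θ (β l) * v l - lam‖ ≤ ‖θ‖ ^ D * ε

/-- The measure for one level, with the order of the constants. -/
def MlS : Prop :=
  ∀ (k : Type) [Field k] [Fintype k] (n : ℕ), 1 ≤ n → ∃ c a ν κ : ℕ, 1 ≤ c ∧ 1 ≤ a ∧
    Fintype.card k * (Fintype.card k ^ a) ^ n ≤ Fintype.card k ^ a * ν ^ n ∧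
    ∀ (F : Type) [NormedField F] [IsUltrametricDist F] [CompleteSpace F] [IsAlgClosed F]
      [Algebra k F] (θ : F) (U : Submodule k F) (W : Subfield F) (e C1 : ℕ) (CT : ℝ),
      1 < ‖θ‖ → U.FG → 1 ∈ U → θ ∈ U → (∀ D, 1 ≤ D → finrank k ↥(U ^ D) ≤ C1 * D ^ n) →
      (∀ w ∈ U, w ∈ W) → (∀ c, algebraMap k F c ∈ W) → Tau (Fintype.card k ^ a) θ W CT →
      ∃ P1, MLP U (Fintype.card k) θ n e a ν c κ P1

/-- The levels are removed from the top. -/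
def MultS : Prop :=
  ∀ (k F : Type) [Field k] [Fintype k] [NormedField F] [IsUltrametricDist F] [CompleteSpace F]
    [Algebra k F] (U : Submodule k F) (θ : F) (n e a ν c κ P1 : ℕ), 1 < ‖θ‖ → 1 ∈ U → θ ∈ U →
    1 ≤ c → 1 ≤ a → MLP U (Fintype.card k) θ n e a ν c κ P1 →
    ∃ P2, ∀ (m P P0 PM Th : ℕ) (ι : Type) [Fintype ι] [DecidableEq ι] (v : ι → F) (L : ι → ℕ)
      (Sp : Set ι) (G : (ι → Fin ν) → F[X]) (α0 : ι → Fin ν), P2 ≤ P → P0 ≤ P →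
      Fintype.card ι ≤ m → Fintype.card ι ≤ n → P * (c + 3) ^ m ≤ PM →
      (∀ l, 1 ≤ L l ∧ Dat U (Fintype.card k) θ e a (Fintype.card k ^ P0) (v l) ∧
        ‖v l‖ * ‖θ‖ ^ L l ≤ ‖θ‖ ∧ 2 * L l * Fintype.card k ^ (c * P) ≤ Th) →
      (∀ l l', L l < L l' → L l * Fintype.card k ^ (c * PM + 1) ≤ L l') →
      Spec (Fintype.card k) θ (e + a) v Sp →
      NP k (Fintype.card k) θ v Sp (κ * PM) (fun l => L l * Fintype.card k ^ P0) →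
      (∀ α, G α ∈ CC (Fintype.card k ^ a) U ^ Fintype.card k ^ P) → (G α0).eval θ ≠ 0 →
      (∀ α, ‖(G α).eval θ‖ ≤ ‖(G α0).eval θ‖) → 1 ≤ Th →
      ‖val (fun α => (G α).eval θ) fun l => phi (Fintype.card k) θ (v l) (e + a) 0‖ * ‖θ‖ ^ Th ≤
        ‖(G α0).eval θ‖ → False

/-- The normalised case: `θ ^ 2 * u i0` generates the periods. -/
def C1S : Prop :=
  ∀ (k F : Type) [Field k] [Fintype k] [NormedField F] [IsUltrametricDist F] [CompleteSpace F]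
    [IsAlgClosed F] [Algebra k F] (n : ℕ) (θ : F) (u w : Fin n → F) (i0 : Fin n), 1 < ‖θ‖ →
    cE (Fintype.card k) θ (θ ^ 2 * u i0) = 0 → 1 ≤ ‖θ ^ 2 * u i0‖ →
    (∀ v, cE (Fintype.card k) θ v = 0 → ∃ a : k[X], v = aeval θ a * (θ ^ 2 * u i0)) →
    (∀ m, 1 ≤ m → 1 ≤ ‖phi (Fintype.card k) θ (θ ^ 2 * u i0) m 0‖) →
    (∀ β : Fin n → k[X], β ≠ 0 → ∑ i, aeval θ (β i) * u i ≠ 0) →
    IsAlgebraic (Algebra.adjoin k (Set.range w)) θ →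
    (∀ i, ‖u i‖ ≤ 1 ∧ IsAlgebraic (Kinf k θ) (u i) ∧
      IsAlgebraic (Algebra.adjoin k (Set.range w)) (u i) ∧
      IsAlgebraic (Algebra.adjoin k (Set.range w)) (cE (Fintype.card k) θ (u i))) → False

/-- The theorem for points algebraic over `K_∞`. -/
def AllS : Prop :=
  ∀ (k F : Type) [Field k] [Fintype k] [NormedField F] [IsUltrametricDist F] [CompleteSpace F]
    [IsAlgClosed F] [Algebra k F] (n : ℕ) (θ : F) (u : Fin n → F), 1 < ‖θ‖ →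
    (∀ i, IsAlgebraic (Kinf k θ) (u i)) → LinearIndependent (IntermediateField.adjoin k {θ}) u →
    ∃ s : Fin n → F, (∀ j, s j ∈ Set.range u ∪ Set.range fun i => cE (Fintype.card k) θ (u i)) ∧
      AlgebraicIndependent (IntermediateField.adjoin k {θ}) s

/-- The theorem. -/
def FullS : Prop :=
  ∀ (k F : Type) [Field k] [Fintype k] [NormedField F] [IsUltrametricDist F] [CompleteSpace F]
    [IsAlgClosed F] [Algebra k F] (n : ℕ) (θ : F) (u : Fin n → F), 1 < ‖θ‖ →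
    LinearIndependent (IntermediateField.adjoin k {θ}) u →
    ∃ s : Fin n → F, (∀ j, s j ∈ Set.range u ∪ Set.range fun i => cE (Fintype.card k) θ (u i)) ∧
      AlgebraicIndependent (IntermediateField.adjoin k {θ}) s

end Pool.Agent.CSU.SA
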