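import Pool.Agent.Lib.MP_bf776f_nt.SU.An
import Pool.Agent.Lib.MP_0370b2_nt.SA.St
import Pool.Agent.Lib.MP_0370b2_nt.SA.Grow

/-! Heights of the data attached to a lattice vector. -/

namespace Pool.Agent.CSU.SA

open Polynomial Finset

variable {k F : Type} [Field k] [Fintype k] [NormedField F] [IsUltrametricDist F] [CompleteSpace F]
  [Algebra k F] {θ : F}

/-- The vectors whose data have height at most `q ^ j` times the initial one. -/
def Tj (hθ : 1 < ‖θ‖) (U : Submodule k F) (e1 a j : ℕ) (he : 0 < e1 + a) : Submodule k F where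
  carrier := {w | w ^ Fintype.card k ^ e1 ∈ U ^ Fintype.card k ^ (e1 + j) ∧
    cE (Fintype.card k) θ w ^ Fintype.card k ^ e1 ∈ U ^ Fintype.card k ^ (e1 + j) ∧
    phi (Fintype.card k) θ w (e1 + a) 0 ∈ U ^ Fintype.card k ^ (e1 + a + j)}
  add_mem' := fun {x y} hx hy => by
    simp only [Set.mem_ofPred_eq, (fr k F).cE_add hθ, (fr k F).phi_add hθ x y he, (fr k F).add_pow]
    exact ⟨add_mem hx.1 hy.1, add_mem hx.2.1 hy.2.1, add_mem hx.2.2 hy.2.2⟩
  zero_mem' := by
    have := map_zero (phiL (k := k) hθ he)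
    have h0 : Fintype.card k ^ e1 ≠ 0 := pow_ne_zero _ Fintype.card_ne_zero
    refine ⟨by simp [h0], by simp [(fr k F).cE_zero hθ, h0], ?_⟩
    rw [show phi (Fintype.card k) θ 0 (e1 + a) 0 = 0 from this]
    exact zero_mem _
  smul_mem' := fun c x hx => by
    have : ∀ z : F, (c • z) ^ Fintype.card k ^ e1 = c • z ^ Fintype.card k ^ e1 := fun z => by
      rw [Algebra.smul_def, mul_pow, Fr.fix_pow (fix_k c), Algebra.smul_def]
    simp only [Set.mem_ofPred_eq, cE_smul hθ, phi_smul hθ c x he, this]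
    exact ⟨Submodule.smul_mem _ _ hx.1, Submodule.smul_mem _ _ hx.2.1,
      Submodule.smul_mem _ _ hx.2.2⟩

lemma Tj_mono {hθ : 1 < ‖θ‖} {U : Submodule k F} (h1 : 1 ∈ U) {e1 a j j' : ℕ} {he : 0 < e1 + a}
    (hj : j ≤ j') {w : F} (hw : w ∈ Tj hθ U e1 a j he) : w ∈ Tj hθ U e1 a j' he :=
  have m : ∀ b, U ^ Fintype.card k ^ (b + j) ≤ U ^ Fintype.card k ^ (b + j') := fun _ =>
    Gr.pw_mono h1 (Nat.pow_le_pow_right Fintype.card_pos (by omega))
  ⟨m _ hw.1, m _ hw.2.1, m _ hw.2.2⟩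

lemma Tj_th {hθ : 1 < ‖θ‖} {U : Submodule k F} (h1 : 1 ∈ U) (hU : θ ∈ U) {e1 a j : ℕ}
    {he : 0 < e1 + a} {w : F} (hw : w ∈ Tj hθ U e1 a j he) : θ * w ∈ Tj hθ U e1 a (j + 1) he := by
  have hq : 2 ≤ Fintype.card k := Fintype.one_lt_card
  have hle : ∀ b c, b ≤ c →
      Fintype.card k ^ b + Fintype.card k ^ c ≤ Fintype.card k ^ (c + 1) := fun b c h => by
    have := Nat.pow_le_pow_right (show 0 < Fintype.card k by omega) h
    have := Nat.mul_le_mul_left (Fintype.card k ^ c) hq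
    rw [pow_succ]; omega
  have hp : ∀ b, θ ^ Fintype.card k ^ b ∈ U ^ Fintype.card k ^ b := fun b =>
    Submodule.pow_mem_pow _ hU _
  refine ⟨?_, ?_, ?_⟩
  · rw [mul_pow]
    exact Gr.pw_mono h1 (hle e1 (e1 + j) (by omega)) (Gr.pw_mul (hp _) hw.1)
  · rw [(fr k F).cE_th hθ, (fr k F).add_pow, mul_pow, pow_right_comm]
    exact add_mem (Gr.pw_mono h1 (hle e1 (e1 + j) (by omega)) (Gr.pw_mul (hp _) hw.2.1))
      (Gr.pw_pow hw.2.1 _)
  · rw [(fr k F).phi_th hθ w he]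
    refine add_mem ?_ (Gr.pw_mono h1 (hle _ _ (by omega)) (Gr.pw_mul (hp 0) hw.2.2))
    rw [pow_add _ e1 a, pow_mul]
    refine Gr.pw_mono h1 ?_ (Gr.pw_pow hw.2.1 _)
    rw [← pow_add]
    exact Nat.pow_le_pow_right (by omega) (by omega)

theorem dat : DatS := by
  intro k F ι _ _ _ _ _ _ _ U θ u e a P β hθ ha h1 hU hu hβ
  have he : 0 < e + a := by omega
  have m : ∀ b c, b ≤ c → U ^ Fintype.card k ^ b ≤ U ^ Fintype.card k ^ c := fun b c h =>
    Gr.pw_mono h1 (Nat.pow_le_pow_right Fintype.card_pos h)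
  have hj : ∀ i j, θ ^ j * u i ∈ Tj hθ U e a j he := fun i j => by
    induction j with
    | zero =>
      rw [pow_zero, one_mul]
      exact ⟨m 0 _ (by omega) (hu i).1, m 0 _ (by omega) (hu i).2.1,
        m a _ (by omega) (by simpa using (hu i).2.2)⟩
    | succ j ih => rw [pow_succ', mul_assoc]; exact Tj_th h1 hU ih
  rw [Dat, ← pow_add, show a + (e + P) = e + a + P by omega]
  change _ ∈ Tj hθ U e a P he
  refine sum_mem fun i _ => ?_
  rw [aeval_eq_sum_range, sum_mul]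
  refine sum_mem fun j h => ?_
  rw [smul_mul_assoc]
  exact Submodule.smul_mem _ _ (Tj_mono h1 (by have := mem_range.1 h; have := hβ i; omega) (hj i j))

end Pool.Agent.CSU.SA
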