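import Pool.Agent.Lib.MP_bf776f_nt.SU.Der

/-! A basis of the lattice adapted to the norm, with separated levels. -/

namespace Pool.Agent.CSU.SA

open Polynomial Finset

variable {k F ι : Type} [Field k] [Fintype ι]

/-- `n + 1` vectors of `k[X]^n` have a relation of bounded degree. -/
lemma fl_count {n : ℕ} (hn : n = Fintype.card ι) (D : ℕ) (w : Fin (n + 1) → ι → k[X])
    (hw : ∀ j i, (w j i).natDegree ≤ D) :
    ∃ a : Fin (n + 1) → k[X], a ≠ 0 ∧
      (∀ j, (a j).natDegree ≤ n * D) ∧ ∀ i, ∑ j, a j * w j i = 0 := by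
  set d := n * D with hd
  let A : (Fin (n + 1) × Fin (d + 1) → k) → Fin (n + 1) → k[X] :=
    fun x j => ∑ s : Fin (d + 1), monomial (s : ℕ) (x (j, s))
  have hA : ∀ x j, (A x j).natDegree ≤ d := fun x j =>
    natDegree_sum_le_of_forall_le _ _ fun s _ =>
      (natDegree_monomial_le _).trans (Nat.lt_succ_iff.1 s.2)
  have hc : ∀ x j (s : Fin (d + 1)), (A x j).coeff s = x (j, s) := fun x j s => by
    simp only [A, finsetSum_coeff, coeff_monomial]
    rw [sum_eq_single s (fun b _ hb => if_neg fun h => hb (Fin.ext h)) (by simp), if_pos rfl]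
  let f : (Fin (n + 1) × Fin (d + 1) → k) →ₗ[k] (ι × Fin (d + D + 1) → k) :=
    { toFun := fun x p => (∑ j, A x j * w j p.1).coeff p.2
      map_add' := fun x y => funext fun p => by
        simp only [A, Pi.add_apply, map_add, sum_add_distrib, add_mul, coeff_add]
      map_smul' := fun c x => funext fun p => by
        simp only [A, Pi.smul_apply, map_smul, ← smul_sum, smul_mul_assoc, coeff_smul,
          RingHom.id_apply] }
  have hlt : Module.finrank k (ι × Fin (d + D + 1) → k) <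
      Module.finrank k (Fin (n + 1) × Fin (d + 1) → k) := by
    simp only [Module.finrank_fintype_fun_eq_card, Fintype.card_prod, Fintype.card_fin, ← hn]
    nlinarith
  obtain ⟨x, hx, h0⟩ := (Submodule.ne_bot_iff _).1 (LinearMap.ker_ne_bot_of_finrank_lt (f := f) hlt)
  refine ⟨A x, fun h => h0 (funext fun p => ?_), hA x, fun i => ?_⟩
  · rw [← hc x p.1 p.2, h]; simp
  · have hdeg : (∑ j, A x j * w j i).natDegree ≤ d + D :=
      natDegree_sum_le_of_forall_le _ _ fun j _ =>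
        natDegree_mul_le.trans (add_le_add (hA x j) (hw j i))
    ext s
    by_cases hs : s < d + D + 1
    · exact congrFun (LinearMap.mem_ker.1 hx) (i, ⟨s, hs⟩)
    · rw [coeff_eq_zero_of_natDegree_lt (by omega), coeff_zero]

variable [NormedField F] [IsUltrametricDist F] [Algebra k F]

/-- Lattice vectors of degree at most `D`. -/
def Lat (k : Type) [Field k] [Algebra k F] (θ : F) (u : ι → F) (D : ℕ) (x : F) : Prop :=
  ∃ b : ι → k[X], (∀ i, (b i).natDegree ≤ D) ∧ x = ∑ i, aeval θ (b i) * u i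

omit [IsUltrametricDist F] in
lemma Lat.mono {θ : F} {u : ι → F} {D D' : ℕ} {x : F} (h : Lat k θ u D x) (hD : D ≤ D') :
    Lat k θ u D' x := by
  obtain ⟨b, hb, rfl⟩ := h
  exact ⟨b, fun i => (hb i).trans hD, rfl⟩

omit [IsUltrametricDist F] in
lemma Lat.comb {θ : F} {u v : ι → F} {D D' : ℕ} (h : ∀ l, Lat k θ u D (v l)) {g : ι → k[X]}
    (hg : ∀ l, (g l).natDegree ≤ D') : Lat k θ u (D' + D) (∑ l, aeval θ (g l) * v l) := by
  choose b hb hv using h
  refine ⟨fun i => ∑ l, g l * b l i, fun i => natDegree_sum_le_of_forall_le _ _ fun l _ =>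
    natDegree_mul_le.trans (add_le_add (hg l) (hb l i)), ?_⟩
  simp only [hv, map_sum, map_mul, mul_sum, sum_mul, mul_assoc]
  exact sum_comm

/-- A chain of length `m` that ends in `x`. -/
def Chn (k : Type) [Field k] [Algebra k F] (θ : F) (u : ι → F) (D m : ℕ) (x : F) : Prop :=
  ∃ w : ℕ → F, (∀ j ≤ m, Lat k θ u D (w j)) ∧
    (∀ j < m, ‖w (j + 1)‖ * ‖θ‖ ^ (Fintype.card ι * D + 1) ≤ ‖w j‖) ∧ w m = x

omit [IsUltrametricDist F] in
lemma Chn.ext {θ : F} {u : ι → F} {D m : ℕ} {x y : F} (h : Chn k θ u D m x) (hy : Lat k θ u D y)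
    (hxy : ‖y‖ * ‖θ‖ ^ (Fintype.card ι * D + 1) ≤ ‖x‖) : Chn k θ u D (m + 1) y := by
  obtain ⟨w, h1, h2, rfl⟩ := h
  refine ⟨fun j => if j ≤ m then w j else y, fun j _ => ?_, fun j hj => ?_, by simp⟩
  · by_cases hj : j ≤ m
    · simpa [hj] using h1 j hj
    · simpa [hj] using hy
  · have hj' : j ≤ m := by omega
    by_cases hj2 : j + 1 ≤ m
    · simpa [hj', hj2] using h2 j (by omega)
    · obtain rfl : j = m := by omega
      simpa using hxy

/-- Chains are short. -/
lemma Chn.lt (hk : ∀ c : k, ‖algebraMap k F c‖ ≤ 1) {θ : F} (hθ : 1 < ‖θ‖) {u : ι → F} {D m : ℕ}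
    {x : F} (h : Chn k θ u D m x) (hx : x ≠ 0) : m < Fintype.card ι := by
  classical
  by_contra hm
  obtain ⟨w, h1, h2, rfl⟩ := h
  set n := Fintype.card ι with hn
  have hT : ∀ e, (1 : ℝ) ≤ ‖θ‖ ^ e := fun e => one_le_pow₀ hθ.le
  have mono : ∀ i j, i ≤ j → j ≤ m → ‖w j‖ ≤ ‖w i‖ := by
    intro i j hij
    induction j, hij using Nat.le_induction with
    | base => exact fun _ => le_rfl
    | succ j _ ih =>
      exact fun hj => ((le_mul_of_one_le_right (norm_nonneg _) (hT _)).trans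
        (h2 j (by omega))).trans (ih (by omega))
  choose b hb hw using fun j : Fin (n + 1) => h1 j (by omega)
  obtain ⟨a, a0, ha, hr⟩ := fl_count hn D b hb
  have hs : ∑ j, aeval θ (a j) * w j = 0 := by
    simp only [hw, mul_sum, ← mul_assoc, ← map_mul]
    rw [sum_comm]
    simp only [← sum_mul, ← map_sum, hr, map_zero, zero_mul, sum_const_zero]
  obtain ⟨j0, hj0, hmin⟩ := exists_min_image (univ.filter fun j => a j ≠ 0) id
    (by obtain ⟨j, hj⟩ := Function.ne_iff.1 a0; exact ⟨j, by simpa using hj⟩)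
  have ha0 : a j0 ≠ 0 := (mem_filter.1 hj0).2
  have hp : 0 < ‖w j0‖ := (norm_pos_iff.2 hx).trans_le (mono _ _ (by omega) le_rfl)
  rw [← add_sum_erase _ _ (mem_univ j0), add_eq_zero_iff_eq_neg] at hs
  have h3 : ‖∑ j ∈ univ.erase j0, aeval θ (a j) * w j‖ ≤ ‖w j0‖ / ‖θ‖ := by
    refine IsUltrametricDist.norm_sum_le_of_forall_le_of_nonneg (by positivity) fun j hj => ?_
    by_cases haj : a j = 0
    · simp only [haj, map_zero, zero_mul, norm_zero]; positivity
    have hlt : (j0 : ℕ) < j := lt_of_le_of_ne (hmin j (by simpa using haj))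
      fun h => (mem_erase.1 hj).1 (Fin.ext h.symm)
    obtain ⟨i, hi⟩ : ∃ i, (j : ℕ) = i + 1 := ⟨j - 1, by omega⟩
    have h4 := (h2 i (by omega)).trans (mono j0 i (by omega) (by omega))
    rw [norm_mul, norm_aeval hk hθ haj, le_div_iff₀ (by positivity), hi]
    refine le_trans ?_ h4
    rw [mul_comm _ ‖w (i + 1)‖, mul_assoc, ← pow_succ]
    exact mul_le_mul_of_nonneg_left (pow_le_pow_right₀ hθ.le (Nat.succ_le_succ (ha j)))
      (norm_nonneg _)
  rw [← norm_neg, ← hs, norm_mul, norm_aeval hk hθ ha0] at h3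
  have h5 := (le_mul_of_one_le_left hp.le (hT _)).trans h3
  exact absurd h5 (not_le.2 (div_lt_self hp hθ))

/-- Independence over `k[θ]`. -/
def Ind (k : Type) [Field k] [Algebra k F] (θ : F) (v : ι → F) : Prop :=
  ∀ g : ι → k[X], ∑ i, aeval θ (g i) * v i = 0 → g = 0

omit [IsUltrametricDist F] in
lemma Ind.ne {θ : F} {v : ι → F} (h : Ind k θ v) (l : ι) : v l ≠ 0 := by
  classical
  intro h0
  have := h (Pi.single l 1) (sum_eq_zero fun i _ => by
    by_cases hi : i = l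
    · rw [hi, h0, mul_zero]
    · simp [hi])
  simpa using congrFun this l

omit [IsUltrametricDist F] in
lemma Ind.upd [DecidableEq ι] {θ : F} {v : ι → F} (h : Ind k θ v) {g : ι → k[X]} {l : ι}
    (hl : g l ≠ 0) : Ind k θ (Function.update v l (∑ i, aeval θ (g i) * v i)) := by
  intro d hd
  have h1 := h (fun i => d l * g i + if i = l then 0 else d i) (by
    rw [← hd, ← add_sum_erase _ (fun i => aeval θ (d i) * Function.update v l _ i) (mem_univ l)]
    simp only [map_add, map_mul, add_mul, sum_add_distrib, Function.update_self, mul_sum,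
      mul_assoc]
    congr 1
    rw [← add_sum_erase _ _ (mem_univ l), if_pos rfl, map_zero, zero_mul, zero_add]
    exact sum_congr rfl fun i hi => by
      rw [if_neg (mem_erase.1 hi).1, Function.update_of_ne (mem_erase.1 hi).1])
  have h2 : d l = 0 := by simpa [hl] using congrFun h1 l
  funext i
  by_cases hi : i = l
  · rw [hi, h2]; rfl
  · simpa [hi, h2] using congrFun h1 i

/-- The reduced basis. -/
lemma fl_basis (hk : ∀ c : k, ‖algebraMap k F c‖ ≤ 1) {θ : F} (hθ : 1 < ‖θ‖) {u : ι → F} (o : ι)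
    (hu : Ind k θ u) (h1 : ∀ i, ‖u i‖ ≤ 1) (C P : ℕ) :
    ∃ D, P ≤ D ∧ ∃ v : ι → F, (∀ l, Lat k θ u D (v l)) ∧ v o = u o ∧ (∀ l, ‖v l‖ ≤ 1) ∧
      (∀ l, v l ≠ 0) ∧ ∀ g : ι → k[X], (∀ i, (g i).natDegree ≤ C * D) → ∀ l, l ≠ o → g l ≠ 0 →
        ‖v l‖ < ‖∑ i, aeval θ (g i) * v i‖ *
          ‖θ‖ ^ (Fintype.card ι * ((C + 1) ^ (Fintype.card ι ^ 2 + 1) * P) + 1) := by
  classical
  set n := Fintype.card ι with hn
  set Dm := (C + 1) ^ (n ^ 2 + 1) * P with hDm
  have hD : ∀ i ≤ n ^ 2 + 1, (C + 1) ^ i * P ≤ Dm := fun i hi =>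
    Nat.mul_le_mul_right _ (Nat.pow_le_pow_right (by omega) hi)
  by_contra hcon
  have key : ∀ i ≤ n ^ 2 + 1, ∃ (v : ι → F) (c : ι → ℕ), ∑ l, c l = i ∧
      (∀ l, Lat k θ u ((C + 1) ^ i * P) (v l)) ∧ v o = u o ∧ (∀ l, ‖v l‖ ≤ 1) ∧ Ind k θ v ∧
      ∀ l, Chn k θ u Dm (c l) (v l) := by
    intro i
    induction i with
    | zero =>
      have h0 : ∀ l D, Lat k θ u D (u l) := fun l D => ⟨Pi.single l 1, fun i => by
        by_cases hi : i = l <;> simp [hi], by
        rw [sum_eq_single l (fun i _ hi => by simp [hi]) (by simp)]; simp⟩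
      exact fun _ => ⟨u, 0, by simp, fun l => h0 l _, rfl, h1, hu,
        fun l => ⟨fun _ => u l, fun _ _ => h0 l _, fun j hj => absurd hj (by simp), rfl⟩⟩
    | succ i ih =>
      intro hi
      obtain ⟨v, c, hc, hL, ho, hv1, hI, hC⟩ := ih (by omega)
      by_contra hno
      refine hcon ⟨(C + 1) ^ i * P, Nat.le_mul_of_pos_left _ (by positivity), v, hL, ho, hv1,
        hI.ne, fun g hg l hl hgl => ?_⟩
      by_contra hle
      rw [not_lt] at hle
      have hy : Lat k θ u ((C + 1) ^ (i + 1) * P) (∑ i, aeval θ (g i) * v i) :=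
        (Lat.comb hL hg).mono (le_of_eq (by ring))
      refine hno ⟨Function.update v l (∑ i, aeval θ (g i) * v i), Function.update c l (c l + 1),
        ?_, fun m => ?_, by rw [Function.update_of_ne hl.symm, ho], fun m => ?_, hI.upd hgl,
        fun m => ?_⟩
      · rw [sum_update_of_mem (mem_univ l), ← hc, ← add_sum_erase _ c (mem_univ l),
          sdiff_singleton_eq_erase]
        ring
      · by_cases hm : m = l
        · rw [hm, Function.update_self]; exact hy
        · rw [Function.update_of_ne hm]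
          exact (hL m).mono (Nat.mul_le_mul_right _ (Nat.pow_le_pow_right (by omega) (by omega)))
      · by_cases hm : m = l
        · rw [hm, Function.update_self]
          exact ((le_mul_of_one_le_right (norm_nonneg _) (one_le_pow₀ hθ.le)).trans hle).trans
            (hv1 l)
        · rw [Function.update_of_ne hm]; exact hv1 m
      · by_cases hm : m = l
        · rw [hm, Function.update_self, Function.update_self]
          exact (hC l).ext (hy.mono (hD _ hi)) hle
        · rw [Function.update_of_ne hm, Function.update_of_ne hm]; exact hC m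
  obtain ⟨v, c, hc, -, -, -, hI, hC⟩ := key _ le_rfl
  have h2 : ∑ l, c l ≤ ∑ _l : ι, n := sum_le_sum fun l _ => ((hC l).lt hk hθ (hI.ne l)).le
  rw [hc, sum_const, card_univ, smul_eq_mul, ← hn] at h2
  nlinarith

/-- Separated levels. -/
lemma fl_levels {q : ℕ} (hq : 2 ≤ q) (s : ι → ℕ) (hs : ∀ l, 1 ≤ s l) (C D : ℕ) (hD : C ≤ D) :
    ∃ P', D ≤ P' ∧ P' ≤ (C + 2) ^ (Fintype.card ι ^ 2) * D ∧ ∃ L : ι → ℕ, (∀ l, 1 ≤ L l) ∧
      (∀ l, L l ≤ s l) ∧ (∀ l, s l ≤ L l * q ^ P') ∧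
      ∀ l m, L l < L m → L l * q ^ (C * (P' + 1)) ≤ L m := by
  classical
  set n := Fintype.card ι with hn
  have hmono : ∀ i j, i ≤ j → q ^ ((C + 2) ^ i * D) ≤ q ^ ((C + 2) ^ j * D) := fun i j h =>
    Nat.pow_le_pow_right (by omega) (Nat.mul_le_mul_right _ (Nat.pow_le_pow_right (by omega) h))
  obtain ⟨j, hj, hw⟩ : ∃ j ≤ n ^ 2, ∀ l m, s l * q ^ ((C + 2) ^ j * D) < s m →
      s l * q ^ ((C + 2) ^ (j + 1) * D) < s m := by
    by_contra hcon
    push Not at hcon
    choose f1 f2 h1 h2 using fun j : Fin (n ^ 2 + 1) => hcon j (Nat.lt_succ_iff.1 j.2)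
    have hinj : Function.Injective fun j => (f1 j, f2 j) := by
      have aux : ∀ i j : Fin (n ^ 2 + 1), f1 i = f1 j → f2 i = f2 j → ¬ (i : ℕ) < j := by
        intro i j e1 e2 hij
        have a1 := h1 j
        have a2 := h2 i
        rw [e1, e2] at a2
        have := Nat.mul_le_mul_left (s (f1 j)) (hmono (i + 1) j hij)
        omega
      intro i j h
      obtain ⟨e1, e2⟩ := Prod.mk.inj h
      have := aux i j e1 e2
      have := aux j i e1.symm e2.symm
      exact Fin.ext (by omega)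
    have := Fintype.card_le_of_injective _ hinj
    rw [Fintype.card_fin, Fintype.card_prod, ← hn] at this
    nlinarith
  set P' := (C + 2) ^ j * D with hP
  have hDP : D ≤ P' := Nat.le_mul_of_pos_left _ (by positivity)
  have hq1 : ∀ e, 1 ≤ q ^ e := fun e => Nat.one_le_pow _ _ (by omega)
  have hex : ∀ l, ∃ a, s l ≤ s a * q ^ P' ∧ ∀ b, s l ≤ s b * q ^ P' → s a ≤ s b := fun l => by
    obtain ⟨a, ha, hm⟩ := exists_min_image (univ.filter fun b => s l ≤ s b * q ^ P') s
      ⟨l, by simpa using Nat.le_mul_of_pos_right _ (hq1 _)⟩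
    exact ⟨a, (mem_filter.1 ha).2, fun b hb => hm b (by simpa using hb)⟩
  choose a ha hm using hex
  refine ⟨P', hDP, Nat.mul_le_mul_right _ (Nat.pow_le_pow_right (by omega) hj), fun l => s (a l),
    fun l => hs _, fun l => hm l l (Nat.le_mul_of_pos_right _ (hq1 _)), ha, fun l m hlm => ?_⟩
  have h1 : s (a l) * q ^ P' < s m := by
    by_contra h
    exact absurd (hm m (a l) (not_lt.1 h)) (not_le.2 hlm)
  have h2 := (hw _ _ h1).trans_le (ha m)
  have h3 : (C + 2) ^ (j + 1) * D = (C + 1) * P' + P' := by rw [hP]; ring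
  rw [h3, pow_add, ← mul_assoc] at h2
  refine le_trans (Nat.mul_le_mul_left _ (Nat.pow_le_pow_right (by omega) ?_))
    (Nat.lt_of_mul_lt_mul_right h2).le
  nlinarith

/-- The flag. -/
theorem flag0 [Fintype k] {θ : F} (hθ : 1 < ‖θ‖) {u : ι → F} (o : ι) (hu : Ind k θ u)
    (h1 : ∀ i, ‖u i‖ ≤ 1) (C P : ℕ) :
    ∃ P0, P ≤ P0 ∧ ∃ (v : ι → F) (L : ι → ℕ), (∀ l, Lat k θ u P0 (v l)) ∧ v o = u o ∧
      (∀ l, ‖v l‖ ≤ 1) ∧ (∀ l, 1 ≤ L l) ∧ (∀ l, ‖v l‖ * ‖θ‖ ^ L l ≤ ‖θ‖) ∧
      (∀ l m, L l < L m → L l * Fintype.card k ^ (C * P0) ≤ L m) ∧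
      ∀ g : ι → k[X], (∀ i, (g i).natDegree ≤ C * P0) → ∀ l, l ≠ o → g l ≠ 0 →
        1 < ‖∑ i, aeval θ (g i) * v i‖ * ‖θ‖ ^ (L l * Fintype.card k ^ P0) := by
  classical
  set n := Fintype.card ι with hn
  set q := Fintype.card k with hq
  have hq2 : 2 ≤ q := Fintype.one_lt_card
  set C' := 2 * C * (C + 2) ^ (n ^ 2) with hC'
  set A := n * (C' + 1) ^ (n ^ 2 + 1) with hA
  set m := 2 * A + 1 + C + P with hm
  obtain ⟨D, hD, v, hL, ho, hv1, hv0, hNP⟩ := fl_basis norm_fin hθ o hu h1 C' (2 * m)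
  have hE : n * ((C' + 1) ^ (n ^ 2 + 1) * (2 * m)) + 1 ≤ q ^ (2 * m) := by
    have h2 : m < q ^ m := Nat.lt_pow_self (by omega)
    have h3 : 2 * A + 1 ≤ m := by omega
    rw [← mul_assoc, ← hA, mul_comm 2 m, pow_mul]
    nlinarith
  have hex : ∀ l, ∃ s : ℕ, 1 < ‖v l‖ * ‖θ‖ ^ s := fun l => by
    have hp := norm_pos_iff.2 (hv0 l)
    obtain ⟨s, hs⟩ := pow_unbounded_of_one_lt (‖v l‖⁻¹) hθ
    exact ⟨s, by rwa [inv_lt_iff_one_lt_mul₀' hp] at hs⟩
  have hs1 : ∀ l, 1 ≤ Nat.find (hex l) := fun l => by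
    by_contra h
    have h2 := Nat.find_spec (hex l)
    rw [show Nat.find (hex l) = 0 by omega, pow_zero, mul_one] at h2
    exact absurd (hv1 l) (not_le.2 h2)
  obtain ⟨P', hP1, hP2, L, hL1, hL2, hL3, hL4⟩ :=
    fl_levels hq2 (fun l => Nat.find (hex l)) hs1 C D (by omega)
  rw [← hn] at hP2
  refine ⟨P' + 1, by omega, v, L, fun l => (hL l).mono (by omega), ho, hv1, hL1, fun l => ?_, hL4,
    fun g hg l hl hgl => ?_⟩
  · obtain ⟨t, ht⟩ : ∃ t, L l = t + 1 := ⟨L l - 1, by have := hL1 l; omega⟩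
    have h2 := Nat.find_min (hex l) (m := t) (by have := hL2 l; omega)
    rw [ht, pow_succ, ← mul_assoc]
    exact mul_le_of_le_one_left (norm_nonneg _) (not_lt.1 h2)
  · have h2 := hNP g (fun i => (hg i).trans (by
      calc C * (P' + 1) ≤ C * (2 * ((C + 2) ^ (n ^ 2) * D)) := Nat.mul_le_mul_left _ (by omega)
        _ = C' * D := by rw [hC']; ring)) l hl hgl
    have h3 := Nat.find_spec (hex l)
    refine (h3.trans_le (mul_le_mul_of_nonneg_right h2.le (by positivity))).trans_le ?_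
    rw [mul_assoc, ← pow_add]
    refine mul_le_mul_of_nonneg_left (pow_le_pow_right₀ hθ.le ?_) (norm_nonneg _)
    have h4 : q ^ (2 * m) ≤ q ^ P' := Nat.pow_le_pow_right (by omega) (by omega)
    have h5 := hL3 l
    have h6 : q ^ P' ≤ L l * q ^ P' := Nat.le_mul_of_pos_left _ (hL1 l)
    have h7 : L l * q ^ P' * 2 ≤ L l * q ^ P' * q := Nat.mul_le_mul_left _ hq2
    rw [pow_succ q P', ← mul_assoc (L l), ← hn]
    omega

end Pool.Agent.CSU.SA
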