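import Pool.Agent.Lib.MP_0370b2_nt.SA.St
import Pool.Agent.Lib.MP_0370b2_nt.SA.Flag0

/-! The flag basis. -/

namespace Pool.Agent.CSU.SA

theorem flag : FlagS := by
  intro k F ι _ _ _ _ _ _ θ u i0 C P1 hθ h1 hu
  obtain ⟨P0, hP, v, L, hL, ho, -, h2, h3, h4, h5⟩ :=
    flag0 (k := k) hθ i0 (fun g hg => by_contra fun h => hu g h hg) h1 C P1
  choose β hβ hv using hL
  exact ⟨P0, β, v, L, hP, ho, fun l => ⟨hβ l, hv l, h2 l, h3 l⟩, h4, h5⟩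

end Pool.Agent.CSU.SA
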