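import Pool.Agent.Lib.MP_0370b2_nt.SA.Gr0
import Pool.Agent.Lib.MP_0370b2_nt.SA.Dat
import Pool.Agent.Lib.MP_0370b2_nt.SA.Flag
import Pool.Agent.Lib.MP_0370b2_nt.SA.Apx

/-! The normalised case. -/

namespace Pool.Agent.CSU.SA

open Polynomial Finset Module

lemma c1_cc {k F : Type} [Field k] [Fintype k] [Field F] [Algebra k F] {U : Submodule k F}
    {W : Subfield F} (hU : ∀ w ∈ U, w ∈ W) (hk : ∀ c, algebraMap k F c ∈ W) {a H : ℕ} {p : F[X]}
    (hp : p ∈ CC (Fintype.card k ^ a) U ^ H) (i : ℕ) :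
    ∃ w ∈ W, p.coeff i = w ^ Fintype.card k ^ a := by
  obtain ⟨σ, hσ⟩ := (fr k F).exm a
  have hs : ∀ (c : k) (p : F[X]), p ∈ lifts (σ.comp W.subtype) →
      c • p ∈ lifts (σ.comp W.subtype) := fun c p hp => by
    rw [Algebra.smul_def, Polynomial.algebraMap_apply, ← Fr.fix_pow (fix_k (F := F) c) a, ← hσ]
    exact mul_mem (C_mem_lifts (σ.comp W.subtype) ⟨_, hk c⟩) hp
  have h1 : ∀ p ∈ CC (Fintype.card k ^ a) U, p ∈ lifts (σ.comp W.subtype) := fun p hp => by
    refine Submodule.span_induction (p := fun p _ => p ∈ lifts (σ.comp W.subtype)) ?_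
      (zero_mem _) (fun _ _ _ _ => add_mem) (fun c p _ => hs c p) hp
    rintro _ (rfl | rfl | ⟨w, hw, rfl⟩)
    · exact one_mem _
    · exact X_mem_lifts _
    · beta_reduce
      rw [← hσ]
      exact C_mem_lifts (σ.comp W.subtype) ⟨_, hU w hw⟩
  have : p ∈ lifts (σ.comp W.subtype) := by
    refine Submodule.pow_induction_on_left _ (fun c => ?_) (fun _ _ => add_mem)
      (fun m hm x hx => mul_mem (h1 m hm) hx) hp
    rw [Algebra.algebraMap_eq_smul_one]
    exact hs c 1 (one_mem _)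
  obtain ⟨w, hw⟩ := (lifts_iff_coeff_lifts _).1 this i
  exact ⟨w, w.2, by rw [← hw, ← hσ]; rfl⟩

theorem c1 (tau : TauS) (cnt : CntS) (ml : MlS) (mult : MultS) : C1S := by
  intro k F _ _ _ _ _ _ _ n θ u w i0 hθ hper h1 hgen hphi hind hθa hu
  classical
  have hn : 1 ≤ n := i0.pos
  have hq : 2 ≤ Fintype.card k := Fintype.one_lt_card
  obtain ⟨c, a, ν, κ, hc, ha, hν, ml⟩ := ml k n hn
  obtain ⟨e, W, hW, hθW, hkW, hS, hT⟩ := tau k F θ (univ.image u) hθ (by
    simpa using fun i => (hu i).2.1)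
  obtain ⟨CT, hT⟩ := hT a
  have huW : ∀ i, u i ^ Fintype.card k ^ e ∈ W := fun i => hS _ (mem_image_of_mem _ (mem_univ i))
  let z : Option (Fin n ⊕ Fin n ⊕ Fin n) → F := fun g => g.elim θ (Sum.elim
    (fun i => u i ^ Fintype.card k ^ e) (Sum.elim
      (fun i => cE (Fintype.card k) θ (u i) ^ Fintype.card k ^ e)
      fun i => phi (Fintype.card k) θ (u i) (e + a) 0))
  have hz : ∀ g, z g ∈ U1 k z := fun g => Submodule.subset_span (Set.mem_insert_of_mem _ ⟨g, rfl⟩)
  have hU1 : (1 : F) ∈ U1 k z := Submodule.subset_span (Set.mem_insert _ _)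
  have hθU : θ ∈ U1 k z := hz none
  have hfg : (U1 k z).FG := Submodule.fg_span ((Set.finite_range z).insert 1)
  have hUW : ∀ x ∈ U1 k z, x ∈ W := fun x hx => by
    refine Submodule.span_induction (p := fun x _ => x ∈ W) ?_ (zero_mem _)
      (fun _ _ _ _ => add_mem) (fun c x _ h => by rw [Algebra.smul_def]; exact mul_mem (hkW c) h) hx
    rintro _ (rfl | ⟨_ | i | i | i, rfl⟩)
    · exact one_mem _
    · exact hθW
    · exact huW i
    · refine Fr.mem_of_hasSum hW ((fr k F).hs_cE hθ (u i) e) fun j =>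
        div_mem ?_ (pow_mem (Fr.cD_mem hθW j) _)
      rw [add_comm, pow_add, pow_mul]; exact pow_mem (huW i) _
    · refine ((fr k F).phi_mem hθ hW hθW (by omega) ?_).1
      rw [pow_add, pow_mul]; exact pow_mem (huW i) _
  have hal : ∀ i m, IsAlgebraic (Algebra.adjoin k (Set.range w))
      (phi (Fintype.card k) θ (u i) (m + 1) 0) := fun i m => by
    induction m with
    | zero => rw [zero_add, (fr k F).phi_one hθ]; exact (hu i).2.2.2.sub (hu i).2.2.1
    | succ m ih =>
      rw [(fr k F).phi_succ hθ _ m.succ_pos]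
      exact (((hθa.pow _).sub (hθa.pow _)).mul ih).add ((hu i).2.2.2.pow _)
  obtain ⟨C1, hC1⟩ := grow k F _ n w z (by
    rintro (_ | i | i | i)
    · exact hθa
    · exact (hu i).2.2.1.pow _
    · exact (hu i).2.2.2.pow _
    · have := hal i (e + a - 1)
      rwa [Nat.sub_add_cancel (by omega)] at this)
  obtain ⟨P1, hML⟩ := ml F θ (U1 k z) W e C1 CT hθ hfg hU1 hθU hC1 hUW hkW hT
  obtain ⟨P2, mult⟩ := mult k F (U1 k z) θ n e a ν c κ P1 hθ hU1 hθU hc ha hML
  set K := a + e + n * ν + 1 with hK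
  set A := (a * n + 2) * (c + 3) ^ n with hA
  obtain ⟨P0, β, v, L, hP0, hv0, hv, hLL, hNP⟩ := flag k F (Fin n) θ u i0 ((c + κ) * A + 2)
    (P2 + e + 1 + (2 + K + a * (C1 + n * (K + 1)))) hθ (fun i => (hu i).1) hind
  have hdat : ∀ l, Dat (U1 k z) (Fintype.card k) θ e a (Fintype.card k ^ (e + P0)) (v l) :=
    fun l => (hv l).2.1 ▸ dat k F (Fin n) (U1 k z) θ u e a P0 (β l) hθ ha hU1 hθU
      (fun i => ⟨by rw [pow_one]; exact hz (some (.inl i)),
        by rw [pow_one]; exact hz (some (.inr (.inl i))),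
        Gr.pw_mono hU1 (show 1 ≤ _ by rw [mul_one]; exact Nat.one_le_pow _ _ (by omega))
          (by rw [pow_one]; exact hz (some (.inr (.inr i))))⟩) (hv l).1
  have hlt : ∀ m, m < Fintype.card k ^ m := fun m => Nat.lt_pow_self hq
  obtain ⟨G, hG0, hGv, hG⟩ := cnt k F (Fin n) (U1 k z) θ
    (fun l => phi (Fintype.card k) θ (v l) (e + a) 0) n a ν C1 _ (Fintype.card k ^ (K + P0))
    (C1 + (K + P0 + 1) * n) hfg hU1 hθU ha hC1 (fun l => (hdat l).2.2) (by simpa using hν) (by
      have e1 : Fintype.card k ^ a ≤ Fintype.card k ^ a * Fintype.card k ^ (e + P0) :=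
        Nat.le_mul_of_pos_right _ (by positivity)
      have e2 := hlt (n * ν + 1)
      rw [Fintype.card_fin, show K + P0 = n * ν + 1 + (a + (e + P0)) by omega,
        pow_add _ (n * ν + 1), pow_add _ a]
      refine le_trans ?_ (Nat.mul_le_mul_right _ e2.le)
      rw [add_mul, one_mul, add_comm]
      exact Nat.add_le_add_left e1 _) (by
      rw [pow_add _ C1, pow_mul, pow_succ']
      exact Nat.mul_lt_mul_of_lt_of_le (hlt C1)
        (Nat.pow_le_pow_left (Nat.mul_le_mul_right _ hq) _) (by positivity))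
  obtain ⟨α0, -, hα0⟩ := exists_max_image univ (fun α => ‖(G α).eval θ‖) (by
    obtain ⟨α, -⟩ := Function.ne_iff.1 hG0
    exact ⟨α, mem_univ _⟩)
  have hne : (G α0).eval θ ≠ 0 := fun h0 => hG0 (funext fun α => by
    have h2 : ‖(G α).eval θ‖ = 0 :=
      le_antisymm (by simpa [h0] using hα0 α (mem_univ _)) (norm_nonneg _)
    have h3 := hT _ (c1_cc hUW hkW (hG α).2)
    rw [h2, mul_zero] at h3
    refine taylor_injective θ ?_
    rw [Pi.zero_apply, map_zero]
    ext l
    rcases lt_or_ge l (Fintype.card k ^ a) with hl | hl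
    · exact norm_le_zero_iff.1 (h3 l hl)
    · exact coeff_eq_zero_of_degree_lt
        ((degree_taylor _ _).trans_lt ((hG α).1.trans_le (by exact_mod_cast hl))))
  have hv1 : ∀ l, ‖v l‖ ≤ 1 := fun l => by
    have := (mul_le_mul_of_nonneg_left (le_self_pow₀ hθ.le (by have := (hv l).2.2.1; omega))
      (norm_nonneg (v l))).trans (hv l).2.2.2
    exact (mul_le_iff_le_one_left (by linarith)).1 this
  have a1 : (a * n + 2) * P0 = a * n * P0 + 2 * P0 := by ring
  have a2 : ((c + κ) * A + 2) * P0 = c * (A * P0) + κ * (A * P0) + 2 * P0 := by ring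
  refine mult n ((a * n + 2) * P0) (e + P0) (A * P0)
    (1 + ∑ l, 2 * L l * Fintype.card k ^ (c * ((a * n + 2) * P0))) (Fin n) v L {i0} G α0
    (by omega) (by omega) (by simp) (by simp) (by rw [hA]; exact le_of_eq (by ring))
    (fun l => ⟨(hv l).2.2.1, hdat l, (hv l).2.2.2, le_add_left (single_le_sum
      (f := fun l => 2 * L l * Fintype.card k ^ (c * ((a * n + 2) * P0)))
      (fun _ _ => Nat.zero_le _) (mem_univ l))⟩)
    (fun l l' h => le_trans (Nat.mul_le_mul_left _ (Nat.pow_le_pow_right (by omega) (by omega)))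
      (hLL l l' h))
    ⟨Set.subsingleton_singleton, by rintro _ rfl; rw [hv0]; exact ⟨hper, hphi _ (by omega)⟩⟩
    (fun γ hγ l hl hγl lam hlam => ?_) (fun α => Gr.pw_mono
      (Submodule.subset_span (Set.mem_insert _ _)) ?_ (hG α).2) hne
    (fun α => hα0 α (mem_univ _)) (by omega) (by rw [hGv]; simp)
  · obtain ⟨b, rfl⟩ := hgen lam hlam
    rw [← hv0] at h1 ⊢
    refine (np_per hθ hv1 h1 (B := fun l => L l * Fintype.card k ^ P0)
      (fun l => Nat.mul_pos (hv l).2.2.1 (by positivity))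
      (fun g hg => hNP g fun i => (hg i).trans (by omega)) Function.injective_id γ hγ hl hγl
      b).trans_le (mul_le_mul_of_nonneg_left (pow_le_pow_right₀ hθ.le ?_) (norm_nonneg _))
    exact Nat.mul_le_mul_left _ (Nat.pow_le_pow_right (by omega) (by omega))
  · refine le_trans ?_ (Nat.pow_le_pow_right (by omega)
      (show 2 + (K + P0) + a * (C1 + (K + P0 + 1) * n) ≤ _ by nlinarith))
    rw [pow_add _ (2 + _), pow_add _ 2, pow_mul]
    exact Nat.mul_le_mul_right _ (Nat.mul_le_mul_right _ (by nlinarith))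

end Pool.Agent.CSU.SA
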