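import Pool.Agent.Lib.MP_0370b2_nt.SA.St
import Pool.Agent.Lib.MP_bf776f_nt.SU.An

/-! The ground field need not be algebraically closed. -/

namespace Pool.Agent.CSU.SA

open Polynomial

theorem closed_of_dense {K L : Type} [Field K] [NontriviallyNormedField L] [CompleteSpace L]
    [IsUltrametricDist L] [Algebra K L] (hi : DenseRange (algebraMap K L)) [IsAlgClosed K] :
    IsAlgClosed L := by
  apply IsAlgClosed.of_exists_root
  intro f fm fi
  have h0 : f.natDegree ≠ 0 := (Irreducible.natDegree_pos fi).ne'
  let F := f.SplittingField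
  let _ : NormedField F := spectralNorm.normedField L F
  let _ : NormedAlgebra L F := spectralNorm.normedAlgebra L F
  obtain ⟨a, ha⟩ := (SplittingField.splits f).exists_eval_eq_zero
    (by simpa using degree_ne_of_natDegree_ne h0)
  rw [eval_map_algebraMap] at ha
  have h1 : a ∈ closure (Set.range (algebraMap L F)) := Metric.mem_closure_iff.2 fun δ hδ => by
    have hε : (δ / (max ‖a‖ 1)) ^ f.natDegree / (f.natDegree + 1) > 0 := by positivity
    obtain ⟨g, gm, gd, gc⟩ :=
      exists_monic_and_natDegree_eq_and_norm_map_algebraMap_coeff_sub_lt hi fm hε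
    obtain ⟨b, hb, hab⟩ := exists_aroots_norm_sub_lt_of_norm_coeff_sub_lt hε ha fm (gm.map _)
      (gd ▸ (g.natDegree_map _)) gc
      (by simpa [Polynomial.map_map] using (IsAlgClosed.splits g).map ((algebraMap L F).comp _))
    rw [Polynomial.aroots_def, Splits.roots_map ((IsAlgClosed.splits g).map _),
      Multiset.mem_map] at hb
    obtain ⟨c, -, hc⟩ := hb
    refine ⟨b, ⟨c, hc⟩, ?_⟩
    rw [← Real.rpow_natCast, ← mul_comm_div, div_self, one_mul,
      ← Real.rpow_mul (div_pos hδ (by positivity)).le, mul_inv_cancel₀] at hab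
    · rw [dist_eq_norm a b]
      simpa [div_mul_cancel₀ _ (by positivity : (max ‖a‖ 1) > 0).ne'] using hab
    · simp [h0]
    · positivity
  rw [(algebraMap_isometry L F).isClosedEmbedding.isClosed_range.closure_eq] at h1
  obtain ⟨c, hc⟩ := h1
  refine ⟨c, (algebraMap L F).injective ?_⟩
  rw [← Polynomial.aeval_algebraMap_apply_eq_algebraMap_eval, hc, map_zero, ha]

/-- The theorem over any complete field. -/
def AnyS : Prop :=
  ∀ (k F : Type) [Field k] [Fintype k] [NormedField F] [IsUltrametricDist F] [CompleteSpace F]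
    [Algebra k F] (n : ℕ) (θ : F) (u : Fin n → F), 1 < ‖θ‖ →
    LinearIndependent (IntermediateField.adjoin k {θ}) u →
    ∃ s : Fin n → F, (∀ j, s j ∈ Set.range u ∪ Set.range fun i => cE (Fintype.card k) θ (u i)) ∧
      AlgebraicIndependent (IntermediateField.adjoin k {θ}) s

theorem any : FullS → AnyS := by
  intro H k F _ _ _ _ _ _ n θ u hθ hu
  let _ : NontriviallyNormedField F := ⟨θ, hθ⟩
  let L := AlgebraicClosure F
  let _ : NormedField L := spectralNorm.normedField F L
  let _ : NormedAlgebra F L := spectralNorm.normedAlgebra F L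
  have : IsUltrametricDist L := IsUltrametricDist.isUltrametricDist_of_forall_norm_add_le_max_norm
    (isNonarchimedean_spectralNorm (K := F) (L := L))
  let E := UniformSpace.Completion L
  let ψ : F →+* E := UniformSpace.Completion.coeRingHom.comp (algebraMap F L)
  have hψ : ∀ x, ‖ψ x‖ = ‖x‖ := fun x =>
    (UniformSpace.Completion.norm_coe _).trans (norm_algebraMap' L x)
  have hθ' : 1 < ‖ψ θ‖ := by rwa [hψ]
  have : IsUltrametricDist E := IsUltrametricDist.isUltrametricDist_of_forall_norm_add_le_max_norm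
    fun x y => UniformSpace.Completion.induction_on₂ x y
      (isClosed_le (by fun_prop) (by fun_prop)) fun a b => by
        rw [← UniformSpace.Completion.coe_add, UniformSpace.Completion.norm_coe,
          UniformSpace.Completion.norm_coe, UniformSpace.Completion.norm_coe]
        exact IsUltrametricDist.norm_add_le_max a b
  have : IsAlgClosed E :=
    let _ : NontriviallyNormedField E := ⟨_, hθ'⟩
    closed_of_dense (K := L) UniformSpace.Completion.denseRange_coe
  let _ : Algebra k E := (ψ.comp (algebraMap k F)).toAlgebra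
  let φ : F →ₐ[k] E := { ψ with commutes' := fun _ => rfl }
  have hc : Continuous ψ := (AddMonoidHomClass.isometry_of_norm ψ hψ).continuous
  have he : ∀ x, cE (Fintype.card k) (ψ θ) (ψ x) = ψ (cE (Fintype.card k) θ x) := fun x => by
    refine ((fr k E).hasSum_cE hθ' _).unique ?_
    simpa [Function.comp_def, cD] using ((fr k F).hasSum_cE hθ x).map ψ hc
  have hK : (IntermediateField.adjoin k {θ}).map φ = IntermediateField.adjoin k {ψ θ} := by
    rw [IntermediateField.adjoin_map, Set.image_singleton]
    rfl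
  let i : IntermediateField.adjoin k {θ} →+* IntermediateField.adjoin k {ψ θ} :=
    (ψ.comp (algebraMap _ F)).codRestrict _ fun x => hK ▸ ⟨x, x.2, rfl⟩
  have hi : Function.Surjective i := fun y => by
    obtain ⟨x, hx, h⟩ := (hK.symm ▸ y.2 : y.1 ∈ (IntermediateField.adjoin k {θ}).map φ)
    exact ⟨⟨x, hx⟩, Subtype.ext h⟩
  obtain ⟨s, hs, h1⟩ := H k E n (ψ θ) (ψ ∘ u) hθ' (hu.map_of_surjective_injective i
    ψ.toAddMonoidHom hi (fun m h => ψ.injective (h.trans ψ.map_zero.symm))
    fun r m => ψ.map_mul r m)
  have h2 : ∀ j, ∃ x ∈ Set.range u ∪ Set.range fun i => cE (Fintype.card k) θ (u i),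
      ψ x = s j := fun j => by
    rcases hs j with ⟨l, h⟩ | ⟨l, h⟩
    · exact ⟨_, Or.inl ⟨l, rfl⟩, h⟩
    · exact ⟨_, Or.inr ⟨l, rfl⟩, (he _).symm.trans h⟩
  choose t ht h3 using h2
  exact ⟨t, ht, AlgebraicIndependent.of_ringHom_of_comp_eq i ψ
    (by rwa [show ψ ∘ t = s from funext h3]) i.injective rfl⟩

theorem trd {K F : Type} [Field K] [Field F] [Algebra K F] {n : ℕ} {S : Set F} {s : Fin n → F}
    (hs : ∀ j, s j ∈ S) (hi : AlgebraicIndependent K s) :
    (n : Cardinal) ≤ Algebra.trdeg K (IntermediateField.adjoin K S) := by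
  have h : AlgebraicIndependent K fun j => (⟨s j, IntermediateField.subset_adjoin _ _ (hs j)⟩ :
      IntermediateField.adjoin K S) := .of_comp (IntermediateField.adjoin K S).val hi
  exact (Cardinal.mk_fin n).symm.le.trans h.cardinalMk_le_trdeg

end Pool.Agent.CSU.SA
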