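import Mathlib

/-! An exact relation with coefficients that are `μ`-th powers, by counting dimensions. -/

namespace Pool.Agent.CSU.SA

open Finset Module

variable {k F : Type} [Field k] [Fintype k] [Field F] [Algebra k F] {U : Submodule k F}

lemma pw_mono (h1 : (1 : F) ∈ U) {a b : ℕ} (h : a ≤ b) : U ^ a ≤ U ^ b :=
  pow_le_pow_right' (Submodule.one_le.2 h1) h

lemma pw_fin [Module.Finite k U] (a : ℕ) : Module.Finite k ↥(U ^ a) :=
  Module.Finite.iff_fg.2 ((Module.Finite.iff_fg.1 inferInstance).pow a)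

lemma pw_mul {a b : ℕ} {x y : F} (hx : x ∈ U ^ a) (hy : y ∈ U ^ b) : x * y ∈ U ^ (a + b) :=
  pow_add U a b ▸ Submodule.mul_mem_mul hx hy

lemma pw_pow {a : ℕ} {x : F} (hx : x ∈ U ^ a) (n : ℕ) : x ^ n ∈ U ^ (a * n) :=
  pow_mul U a n ▸ Submodule.pow_mem_pow _ hx n

lemma pw_prod {ι : Type} (s : Finset ι) {f : ι → F} {a : ι → ℕ} (h : ∀ i ∈ s, f i ∈ U ^ a i) :
    ∏ i ∈ s, f i ∈ U ^ (∑ i ∈ s, a i) := by
  classical
  induction s using Finset.induction_on with
  | empty => simp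
  | insert i s hi ih =>
    rw [prod_insert hi, sum_insert hi]
    exact pw_mul (h i (mem_insert_self _ _)) (ih fun j hj => h j (mem_insert_of_mem hj))

/-- One step: if there is no relation of height `H`, the dimension grows. -/
lemma cnt_step [Module.Finite k U] {ι : Type} [Fintype ι] (a H c : ℕ) (w : ι → F)
    (hw : ∀ i, w i ∈ U ^ c)
    (h : ∀ g : ι → F, (∀ i, g i ∈ U ^ H) → ∑ i, w i * g i ^ Fintype.card k ^ a = 0 → g = 0) :
    Fintype.card ι * finrank k ↥(U ^ H) ≤ finrank k ↥(U ^ (c + H * Fintype.card k ^ a)) := by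
  have hf : ∀ x : F, (FiniteField.frobeniusAlgHom k F ^ a) x = x ^ Fintype.card k ^ a :=
    fun x => by rw [AlgHom.coe_pow, FiniteField.coe_frobeniusAlgHom, pow_iterate]
  haveI := fun a => pw_fin (U := U) a
  let Φ : (ι → ↥(U ^ H)) →ₗ[k] F := ∑ i, (LinearMap.mulLeft k (w i)).comp
    ((FiniteField.frobeniusAlgHom k F ^ a).toLinearMap.comp
      ((U ^ H).subtype.comp (LinearMap.proj i)))
  have hΦ : ∀ g, Φ g = ∑ i, w i * (g i : F) ^ Fintype.card k ^ a := fun g => by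
    simp [Φ, hf, -AlgHom.coe_pow]
  have := LinearMap.finrank_le_finrank_of_injective
    (f := Φ.codRestrict (U ^ (c + H * Fintype.card k ^ a)) fun g => by
      rw [hΦ]
      exact sum_mem fun i _ => pw_mul (hw i) (pw_pow (g i).2 _))
    ((injective_iff_map_eq_zero _).2 fun g hg => funext fun i => Subtype.ext
      (congrFun (h (fun i => g i) (fun i => (g i).2) (hΦ g ▸ congrArg Subtype.val hg)) i))
  rwa [finrank_pi_fintype, sum_const, card_univ, smul_eq_mul] at this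

/-- More than `q μ ^ n` elements are dependent over the `μ`-th powers, with a height bound. -/
theorem cnt0 [Module.Finite k U] (h1 : (1 : F) ∈ U) {ι : Type} [Fintype ι] {n C1 a c : ℕ}
    (hU : ∀ D, 1 ≤ D → finrank k ↥(U ^ D) ≤ C1 * D ^ n) (ha : 1 ≤ a) (hc : 1 ≤ c)
    (hι : Fintype.card k * (Fintype.card k ^ a) ^ n ≤ Fintype.card ι) (w : ι → F)
    (hw : ∀ i, w i ∈ U ^ c) :
    ∃ j H, Fintype.card k ^ j ≤ C1 * (2 * c) ^ n ∧ H + c ≤ 2 * c * (Fintype.card k ^ a) ^ j ∧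
      ∃ g : ι → F, g ≠ 0 ∧ (∀ i, g i ∈ U ^ H) ∧ ∑ i, w i * g i ^ Fintype.card k ^ a = 0 := by
  by_contra hn
  push Not at hn
  have hq : 1 < Fintype.card k := Fintype.one_lt_card
  obtain ⟨μ, hμ⟩ : ∃ μ, μ = Fintype.card k ^ a := ⟨_, rfl⟩
  have hμ2 : 2 ≤ μ := hμ ▸ Nat.one_lt_pow (by omega) hq
  haveI := fun a => pw_fin (U := U) a
  have key : ∀ j, ∃ H, 1 ≤ H ∧ H + c ≤ 2 * c * μ ^ j ∧
      (Fintype.card k * μ ^ n) ^ j ≤ finrank k ↥(U ^ H) := fun j => by
    induction j with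
    | zero =>
      refine ⟨c, hc, by rw [pow_zero]; omega, ?_⟩
      rw [pow_zero, Nat.one_le_iff_ne_zero, Ne, Submodule.finrank_eq_zero]
      exact fun h0 => one_ne_zero ((Submodule.mem_bot k).1
        (h0 ▸ pw_mono h1 (Nat.zero_le c) (by simp)))
    | succ j ih =>
      obtain ⟨H, h0, h2, h3⟩ := ih
      have h4 : Fintype.card k ^ j ≤ C1 * (2 * c) ^ n := by
        have h5 := h3.trans ((hU H h0).trans (Nat.mul_le_mul_left _
          (Nat.pow_le_pow_left (show H ≤ 2 * c * μ ^ j by omega) n)))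
        rw [mul_pow, mul_pow (2 * c), ← mul_assoc, ← pow_mul, ← pow_mul, mul_comm n j] at h5
        exact Nat.le_of_mul_le_mul_right h5 (by positivity)
      have h5 := cnt_step a H c w hw fun g hg h => by
        by_contra h0
        exact hn j H h4 (hμ ▸ h2) g h0 hg h
      refine ⟨c + H * μ, by omega, by rw [pow_succ]; nlinarith, ?_⟩
      rw [pow_succ']
      exact (Nat.mul_le_mul (hμ ▸ hι) h3).trans (hμ ▸ h5)
  obtain ⟨H, h0, h2, h3⟩ := key (C1 * (2 * c) ^ n)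
  have h5 := h3.trans ((hU H h0).trans (Nat.mul_le_mul_left _
    (Nat.pow_le_pow_left (show H ≤ 2 * c * μ ^ (C1 * (2 * c) ^ n) by omega) n)))
  rw [mul_pow, mul_pow (2 * c) (μ ^ _), ← mul_assoc, ← pow_mul, ← pow_mul, mul_comm n] at h5
  exact (Nat.lt_pow_self hq).not_ge (Nat.le_of_mul_le_mul_right h5 (by positivity))

end Pool.Agent.CSU.SA
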