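import Pool.Agent.Lib.MP_0370b2_nt.SA.St
import Pool.Agent.Lib.MP_0370b2_nt.SA.Cnt0

/-! The exact relation at the true point. -/

namespace Pool.Agent.CSU.SA

open Polynomial Finset Module

lemma cnt_C {k F : Type} [Field k] [Fintype k] [Field F] [Algebra k F] {U : Submodule k F}
    (a : ℕ) {H : ℕ} {w : F} (hw : w ∈ U ^ H) :
    C (w ^ Fintype.card k ^ a) ∈ CC (Fintype.card k ^ a) U ^ H := by
  have hf : ∀ x : F, (FiniteField.frobeniusAlgHom k F ^ a) x = x ^ Fintype.card k ^ a :=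
    fun x => by rw [AlgHom.coe_pow, FiniteField.coe_frobeniusAlgHom, pow_iterate]
  let Ψ : F →ₐ[k] F[X] :=
    (IsScalarTower.toAlgHom k F F[X]).comp (FiniteField.frobeniusAlgHom k F ^ a)
  have hΨ : ∀ x, Ψ x = C (x ^ Fintype.card k ^ a) := fun x => congrArg C (hf x)
  have h1 := Submodule.mem_map_of_mem (f := Ψ.toLinearMap) hw
  rw [Submodule.map_pow, AlgHom.toLinearMap_apply, hΨ] at h1
  refine SetLike.le_def.1 (pow_le_pow_left' ?_ H) h1
  rintro _ ⟨x, hx, rfl⟩
  exact Submodule.subset_span (Or.inr (Or.inr ⟨x, hx, (hΨ x).symm⟩))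

theorem cnt : CntS := by
  intro k F ι _ _ _ _ _ _ U θ y n a ν C1 c1 c2 i hU h1 hθ ha hg hy hν hc hi
  haveI : Module.Finite k U := Module.Finite.iff_fg.2 hU
  have hq : 1 < Fintype.card k := Fintype.one_lt_card
  have hμ : 0 < Fintype.card k ^ a := by positivity
  obtain ⟨j, H, hj, hH, g, hg0, hgU, hs⟩ := cnt0 h1 (ι := (ι → Fin ν) × Fin (Fintype.card k ^ a))
    hg ha (c := c2) (by omega) (by simpa [mul_comm] using hν)
    (fun p => θ ^ (p.2 : ℕ) * ∏ l, y l ^ (p.1 l : ℕ)) fun p => by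
      refine pw_mono h1 ?_ (pw_mul (pw_pow (show θ ∈ U ^ 1 by simpa using hθ) _)
        (pw_prod univ fun l _ => pw_pow (hy l) _))
      have h2 : ∑ l, c1 * (p.1 l : ℕ) ≤ Fintype.card ι * ν * c1 :=
        (sum_le_card_nsmul _ _ (c1 * ν) fun l _ => Nat.mul_le_mul_left _ (p.1 l).2.le).trans_eq
          (by rw [card_univ, smul_eq_mul]; ring)
      have := p.2.2
      omega
  have hco : ∀ α (l : Fin (Fintype.card k ^ a)), (∑ m : Fin (Fintype.card k ^ a),
      C (g (α, m) ^ Fintype.card k ^ a) * X ^ (m : ℕ)).coeff l = g (α, l) ^ Fintype.card k ^ a :=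
    fun α l => by
      rw [finsetSum_coeff, sum_eq_single l (fun m _ hm => by
        rw [coeff_C_mul_X_pow, if_neg fun h => hm (Fin.ext h.symm)]) (by simp),
        coeff_C_mul_X_pow, if_pos rfl]
  refine ⟨fun α => ∑ m : Fin (Fintype.card k ^ a),
    C (g (α, m) ^ Fintype.card k ^ a) * X ^ (m : ℕ), fun h0 => hg0 (funext fun p => ?_), ?_,
    fun α => ⟨degree_sum_fin_lt _, ?_⟩⟩
  · have := hco p.1 p.2
    rw [show (∑ m : Fin (Fintype.card k ^ a), C (g (p.1, m) ^ Fintype.card k ^ a) *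
      X ^ (m : ℕ)) = 0 from congrFun h0 p.1, coeff_zero] at this
    exact pow_eq_zero_iff hμ.ne' |>.1 this.symm
  · rw [← hs, Fintype.sum_prod_type, val]
    refine sum_congr rfl fun α _ => ?_
    rw [eval_finsetSum, sum_mul]
    exact sum_congr rfl fun m _ => by rw [eval_mul, eval_C, eval_pow, eval_X]; ring
  · have hij : (Fintype.card k ^ a) ^ j ≤ (Fintype.card k ^ a) ^ i :=
      Nat.pow_le_pow_right hμ ((Nat.pow_lt_pow_iff_right hq).1 (hj.trans_lt hi)).le
    have h3 : (1 : F[X]) ∈ CC (Fintype.card k ^ a) U := Submodule.subset_span (Set.mem_insert _ _)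
    have h4 : (X : F[X]) ∈ CC (Fintype.card k ^ a) U :=
      Submodule.subset_span (Set.mem_insert_of_mem _ (Set.mem_insert _ _))
    refine sum_mem fun m _ => SetLike.le_def.1 (pow_le_pow_right' (Submodule.one_le.2 h3)
      (?_ : H + m ≤ _)) (pow_add (CC _ U) H m ▸ Submodule.mul_mem_mul (cnt_C a (hgU _))
        (Submodule.pow_mem_pow _ h4 _))
    have h5 : H + m ≤ H + c2 := by have := m.2; omega
    exact (h5.trans hH).trans (Nat.mul_le_mul (by omega) hij)

end Pool.Agent.CSU.SA
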