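import Pool.Agent.Lib.MP_bf776f_nt.SU.ZE0
import Pool.Agent.Lib.MP_0370b2_nt.SA.St

/-! Cramer's rule: a kernel vector made of minors, non-zero in a chosen column. -/

namespace Pool.Agent.CSU.SA

open Finset Matrix

namespace Cm

variable {k R : Type} [CommRing k] [CommRing R] [Algebra k R] {U : Submodule k R}

theorem pw_mono (h1 : (1 : R) ∈ U) {a b : ℕ} (h : a ≤ b) : U ^ a ≤ U ^ b := by
  induction b, h using Nat.le_induction with
  | base => exact le_rfl
  | succ n _ ih =>
    intro x hx
    rw [pow_succ, ← mul_one x]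
    exact Submodule.mul_mem_mul (ih hx) h1

theorem prod_mem_pw {ι : Type} (s : Finset ι) (g : ι → R) (h : ∀ i ∈ s, g i ∈ U) :
    ∏ i ∈ s, g i ∈ U ^ s.card := by
  classical
  induction s using Finset.induction_on with
  | empty => rw [prod_empty, card_empty, pow_zero]; exact Submodule.one_le.1 le_rfl
  | insert a s ha ih =>
    rw [prod_insert ha, card_insert_of_notMem ha, pow_succ']
    exact Submodule.mul_mem_mul (h a (mem_insert_self _ _))
      (ih fun i hi => h i (mem_insert_of_mem hi))

theorem det_mem_pw {n : Type} [Fintype n] [DecidableEq n] (M : Matrix n n R)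
    (h : ∀ a b, M a b ∈ U) : M.det ∈ U ^ Fintype.card n := by
  rw [det_apply]
  refine Submodule.sum_mem _ fun τ _ => ?_
  rw [Units.smul_def]
  exact zsmul_mem (prod_mem_pw univ _ fun i _ => h _ _) _

end Cm

open Cm

/-- A kernel vector of the image matrix with non-zero entry in the column `i0` can be replaced by
a vector of minors. -/
theorem cram {k R A κ ι : Type} [CommRing k] [CommRing R] [Algebra k R] [CommRing A] [IsDomain A]
    [Fintype ι] (π : R →+* A) (U : Submodule k R) (M : κ → ι → R) (v : ι → A) (i0 : ι)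
    (h1 : (1 : R) ∈ U) (hM : ∀ s i, M s i ∈ U) (hv : ∀ s, ∑ i, π (M s i) * v i = 0)
    (h0 : v i0 ≠ 0) :
    ∃ w : ι → R, π (w i0) ≠ 0 ∧ (∀ i, w i ∈ U ^ Fintype.card ι) ∧ (∀ i, v i = 0 → w i = 0) ∧
      ∀ s, π (∑ i, M s i * w i) = 0 := by
  classical
  let col : ι → κ → A := fun i s => π (M s i)
  let T := {i // i ≠ i0 ∧ v i ≠ 0}
  obtain ⟨S, hS, hm⟩ := exists_maximal_linearIndepOn A fun i : T => col i
  have hall : ∀ i, ∃ a : A, a ≠ 0 ∧ (i ≠ i0 →
      a • v i • col i ∈ Submodule.span A ((fun i : T => col i) '' S)) := fun i => by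
    by_cases hi : i ≠ i0 ∧ v i ≠ 0
    · by_cases hs : (⟨i, hi⟩ : T) ∈ S
      · exact ⟨1, one_ne_zero, fun _ => Submodule.smul_mem _ _ (Submodule.smul_mem _ _
          (Submodule.subset_span ⟨_, hs, rfl⟩))⟩
      · obtain ⟨a, ha, h⟩ := hm _ hs
        exact ⟨a, ha, fun _ => by rw [smul_comm]; exact Submodule.smul_mem _ _ h⟩
    · refine ⟨1, one_ne_zero, fun h => ?_⟩
      rw [not_and, not_not] at hi
      rw [hi h, zero_smul, smul_zero]
      exact zero_mem _
  choose a ha hs using hall
  have hsum : ∑ i, v i • col i = 0 := funext fun s => by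
    simpa [col, mul_comm] using hv s
  have hin : ((∏ i, a i) * v i0) • col i0 ∈ Submodule.span A ((fun i : T => col i) '' S) := by
    rw [← add_sum_erase _ _ (mem_univ i0), add_eq_zero_iff_eq_neg] at hsum
    rw [mul_smul, hsum, smul_neg, smul_sum]
    refine neg_mem (Submodule.sum_mem _ fun i hi => ?_)
    rw [← mul_prod_erase _ _ (mem_univ i), mul_comm, mul_smul]
    exact Submodule.smul_mem _ _ (hs i (ne_of_mem_erase hi))
  let r := Fintype.card S
  let e : Fin r ≃ S := (Fintype.equivFin S).symm
  let g : Fin r → ι := fun b => (e b).1.1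
  have hg : Function.Injective g := fun b c h => e.injective (Subtype.ext (Subtype.ext h))
  have hli : LinearIndependent A fun b => col (g b) := (linearIndependent_equiv e).2 hS
  have hrange : (fun i : T => col i) '' S = Set.range fun b => col (g b) := by
    ext y
    constructor
    · rintro ⟨i, hi, rfl⟩
      exact ⟨e.symm ⟨i, hi⟩, by simp [g]⟩
    · rintro ⟨b, rfl⟩
      exact ⟨_, (e b).2, rfl⟩
  rw [hrange, Submodule.mem_span_range_iff_exists_fun] at hin
  obtain ⟨c, hc⟩ := hin
  obtain ⟨f, hf⟩ := minor _ hli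
  let N : Matrix (Fin r) (Fin r) R := Matrix.of fun b c => M (f c) (g b)
  have hN : π.mapMatrix N = Matrix.of fun b c => col (g b) (f c) := rfl
  have hdet : π N.det = (Matrix.of fun b c => col (g b) (f c)).det := by
    rw [RingHom.map_det, hN]
  let t : Fin r → R := (fun c => M (f c) i0) ᵥ* adjugate N
  have hne : (∏ i, a i) * v i0 ≠ 0 := mul_ne_zero (prod_ne_zero_iff.2 fun i _ => ha i) h0
  have key : π N.det • col i0 = ∑ b, π (t b) • col (g b) := by
    set B := Matrix.of fun b c => col (g b) (f c) with hB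
    have e1 : ((∏ i, a i) * v i0) • (fun b => col i0 (f b)) = c ᵥ* B := funext fun b => by
      simpa [vecMul, dotProduct, hB] using (congrFun hc (f b)).symm
    have e2 : ((∏ i, a i) * v i0) • ((fun b => col i0 (f b)) ᵥ* adjugate B) = B.det • c := by
      rw [← smul_vecMul, e1, vecMul_vecMul, mul_adjugate, vecMul_smul, vecMul_one]
    have e3 : ∀ b, π (t b) = ((fun b => col i0 (f b)) ᵥ* adjugate B) b := fun b => by
      rw [← hN, ← RingHom.map_adjugate]
      simp [t, vecMul, dotProduct, col]
    refine smul_right_injective _ hne ?_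
    simp only [hdet, smul_comm _ B.det, ← hc, smul_sum, smul_smul, e3]
    exact sum_congr rfl fun b _ => congrArg (· • col (g b)) (congrFun e2 b).symm
  have hr : r + 1 ≤ Fintype.card ι := by
    have := Fintype.card_le_of_injective (fun o : Option (Fin r) => o.elim i0 g) (by
      rintro (_ | b) (_ | c) h
      · rfl
      · exact absurd h.symm (e c).1.2.1
      · exact absurd h (e b).1.2.1
      · exact congrArg some (hg h))
    simpa using this
  have ht : ∀ b, t b ∈ U ^ (r + 1) := fun b => by
    show ∑ c, M (f c) i0 * adjugate N c b ∈ U ^ (r + 1)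
    refine Submodule.sum_mem _ fun c _ => ?_
    rw [pow_succ']
    refine Submodule.mul_mem_mul (hM _ _) ?_
    rw [adjugate_apply]
    have := det_mem_pw (U := U) (N.updateRow b (Pi.single c 1)) fun x y => by
      rw [updateRow_apply]
      split_ifs
      · rw [Pi.single_apply]
        split_ifs
        exacts [h1, zero_mem _]
      · exact hM _ _
    simpa using this
  have hd : N.det ∈ U ^ r := by simpa using det_mem_pw (U := U) N fun x y => hM _ _
  have hgi : ∀ b, g b ≠ i0 := fun b => (e b).1.2.1
  refine ⟨fun i => (if i = i0 then N.det else 0) - ∑ b, if g b = i then t b else 0, ?_,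
    fun i => ?_, fun i hi => ?_, fun s => ?_⟩
  · simpa [hgi, hdet] using hf
  · refine sub_mem ?_ (Submodule.sum_mem _ fun b _ => ?_) <;> split_ifs
    exacts [pw_mono h1 (by omega) hd, zero_mem _, pw_mono h1 hr (ht b), zero_mem _]
  · have a1 : i ≠ i0 := fun h => h0 (h ▸ hi)
    have a2 : ∀ b, g b ≠ i := fun b h => (e b).1.2.2 ((congrArg v h).trans hi)
    simp [a1, a2]
  · have := congrFun key s
    simp only [Pi.smul_apply, smul_eq_mul, Finset.sum_apply, col] at this
    simp only [mul_sub, sum_sub_distrib, mul_ite, mul_zero, sum_ite_eq', mem_univ, if_true, mul_sum]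
    rw [sum_comm]
    simp only [sum_ite_eq, mem_univ, if_true, map_sub, map_mul, map_sum]
    rw [mul_comm, this, sub_eq_zero]
    exact sum_congr rfl fun b _ => mul_comm _ _

/-- A kernel vector given by minors. -/
theorem cr : CrS := by
  intro k R F κ ι _ _ _ _ _ _ U φ A h w c0 h1 hA hw h0
  obtain ⟨b, a1, a2, -, a3⟩ := cram φ (U ^ h) A w c0
    (pw_mono h1 (Nat.zero_le h) (by rw [pow_zero]; exact Submodule.one_le.1 le_rfl)) hA hw h0
  exact ⟨b, a1, fun i => by rw [mul_comm, pow_mul]; exact a2 i, a3⟩

end Pool.Agent.CSU.SA
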