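import Pool.Agent.Lib.MP_0370b2_nt.S2.Defs

/-! Any number of points of the Carlitz exponential: rows, jets, heights. -/

namespace Pool.Agent.CSU.SA

open Polynomial Finset

/-- Polynomials in `Y` (or `η`) over `R[t]` (or `R[ε]`). -/
abbrev PP (ι R : Type) [CommRing R] := MvPolynomial ι R[X]

section Ring

variable {ι R R' : Type} [CommRing R] [CommRing R']

/-- Degree at most `δ` in each `Y l` and less than `d` in `t`. -/
def Row (δ d : ℕ) (f : PP ι R) : Prop :=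
  ∀ α, (f.coeff α).degree < d ∧ (f.coeff α ≠ 0 → ∀ l, α l ≤ δ)

/-- The ideal `(ε ^ μ, η l ^ μ)`. -/
def Box (μ : ℕ) (f : PP ι R) : Prop :=
  ∀ α : ι →₀ ℕ, (∀ l, α l < μ) → X ^ μ ∣ f.coeff α

/-- A ring map applied to all coefficients. -/
noncomputable def tw (σ : R →+* R') : PP ι R →+* PP ι R' := MvPolynomial.map (mapRingHom σ)

/-- The substitution `Y l ↦ h l * Y l + g l`. -/
noncomputable def sb (h g : ι → R[X]) : PP ι R →ₐ[R[X]] PP ι R :=
  MvPolynomial.aeval fun l => MvPolynomial.C (h l) * MvPolynomial.X l + MvPolynomial.C (g l)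

/-- The twisted pull back `f ↦ (σ f)(t, (t - c) Y + ξ)`. -/
noncomputable def SS (σ : R →+* R) (c : R) (ξ : ι → R) (f : PP ι R) : PP ι R :=
  sb (fun _ => X - C c) (fun l => C (ξ l)) (tw σ f)

/-- An eigen-polynomial of `SS`. -/
def Eig (σ : R →+* R) (c : R) (ξ : ι → R) (f : PP ι R) : Prop :=
  f ≠ 0 ∧ ∃ a b : R[X], a ≠ 0 ∧ MvPolynomial.C a * SS σ c ξ f = MvPolynomial.C b * f

/-- All coefficients lie in `U ^ D`. -/
def HtP {k : Type} [Field k] [Algebra k R] (U : Submodule k R) (D : ℕ) (f : PP ι R) : Prop :=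
  ∀ α n, (f.coeff α).coeff n ∈ U ^ D

/-- The data of a system: `y` are the values at level `e` and point `θ`, `x` the `q ^ e`-th powers
of the exponentials, `Q` the relation. -/
structure Sys (ι R : Type) [CommRing R] where
  q : ℕ
  e : ℕ
  μ : ℕ
  σ : R →+* R
  θ : R
  y : ι → R
  x : ι → R
  Q : PP ι R

/-- Image of a system. -/
noncomputable def Sys.map (s : Sys ι R) (φ : R →+* R') (σ' : R' →+* R') : Sys ι R' :=
  ⟨s.q, s.e, s.μ, σ', φ s.θ, fun l => φ (s.y l), fun l => φ (s.x l), tw φ s.Q⟩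

/-- The formal values at the point `θ ^ q ^ i`, level `e + i + m`. -/
noncomputable def Sys.VV (s : Sys ι R) (i : ℕ) : ℕ → ι → PP ι R
  | 0, l => MvPolynomial.C (C (s.y l ^ s.q ^ i)) + MvPolynomial.X l
  | m + 1, l => MvPolynomial.C (X + C (s.θ ^ s.q ^ i) - C (s.θ ^ s.q ^ (s.e + (i + m)))) *
      s.VV i m l + MvPolynomial.C (C (s.x l ^ s.q ^ (i + m)))

/-- The equations of `VV` are generated here, once. -/
theorem Sys.VV_once : True := by
  have := @Sys.VV.eq_def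
  have := @Sys.VV.eq_1
  have := @Sys.VV.eq_2
  trivial

/-- The formal jet `f(θ ^ q ^ i + ε, VV i m)`. -/
noncomputable def Sys.JJ (s : Sys ι R) (i m : ℕ) : PP ι R →ₐ[R] PP ι R :=
  MvPolynomial.aevalTower
    ((IsScalarTower.toAlgHom R R[X] (PP ι R)).comp (taylorAlgHom (s.θ ^ s.q ^ i))) (s.VV i m)

/-- The pull back from level `e + m + 1` to level `e + m`. -/
noncomputable def Sys.sub (s : Sys ι R) (m : ℕ) : PP ι R →ₐ[R[X]] PP ι R :=
  sb (fun _ => X - C (s.θ ^ s.q ^ (s.e + m))) fun l => C (s.x l ^ s.q ^ m)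

/-- The condition at one point. -/
def Sys.Cond (s : Sys ι R) (i m : ℕ) (f : PP ι R) : Prop :=
  ∃ g, Box s.μ (s.JJ i m f - g * (tw s.σ)^[i] s.Q)

/-- The value at one point. -/
noncomputable def Sys.ev (s : Sys ι R) (i m : ℕ) (f : PP ι R) : R :=
  ((s.JJ i m f).coeff 0).coeff 0

/-- The value `f(c, V)`. -/
noncomputable def evp (c : R) (V : ι → R) : PP ι R →+* R := MvPolynomial.eval₂Hom (evalRingHom c) V

/-- The value of a relation. -/
noncomputable def val [Fintype ι] [DecidableEq ι] {ν : ℕ} (G : (ι → Fin ν) → R) (y : ι → R) : R :=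
  ∑ α, G α * ∏ l, y l ^ (α l : ℕ)

end Ring

/-- The span of `1` and a family. -/
def U1 (k : Type) {R Γ : Type} [Field k] [CommRing R] [Algebra k R] (z : Γ → R) : Submodule k R :=
  Submodule.span k (insert 1 (Set.range z))

/-- The span of `1`, `X` and the `μ`-th powers of `U`. -/
noncomputable def CC {k F : Type} [Field k] [Field F] [Algebra k F] (μ : ℕ) (U : Submodule k F) :
    Submodule k F[X] :=
  Submodule.span k (insert 1 (insert X ((fun w => C (w ^ μ)) '' (U : Set F))))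

section Norm

variable {F : Type} [NormedField F]

/-- The first `μ` coefficients are at most `r`. -/
def Nb (μ : ℕ) (r : ℝ) (p : F[X]) : Prop := ∀ l < μ, ‖p.coeff l‖ ≤ r

/-- The true jet of order `μ`. -/
noncomputable def Jm (q μ : ℕ) (θ u : F) (m j : ℕ) : F[X] :=
  ∑ l ∈ range μ, C (Q2.psi q θ u l m j) * X ^ l

/-- The finite approximation of the generating function. -/
noncomputable def pK (q μ : ℕ) (θ u : F) (e K : ℕ) : F[X] :=
  ∑ i ∈ range K, C (u ^ q ^ (i + e) / (cD q θ i ^ q ^ e * (θ ^ q ^ (i + e) - θ) ^ μ)) *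
    (C (θ ^ q ^ (i + e)) - X) ^ (μ - 1)

/-- A common denominator of the finite approximations. -/
noncomputable def dK (q : ℕ) (θ : F) (e a K : ℕ) : F :=
  ∏ i ∈ range K, cD q θ i ^ q ^ e * (θ ^ q ^ (i + (e + a)) - θ)

/-- The Taylor map is bounded on polynomials over `W ^ μ`. -/
def Tau (μ : ℕ) (θ : F) (W : Subfield F) (CT : ℝ) : Prop :=
  ∀ p : F[X], (∀ i, ∃ w ∈ W, p.coeff i = w ^ μ) → Nb μ (CT * ‖p.eval θ‖) (taylor θ p)

/-- The data of the point `v` have height at most `H`. -/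
def Dat {k : Type} [Field k] [Algebra k F] (U : Submodule k F) (q : ℕ) (θ : F) (e a H : ℕ)
    (v : F) : Prop :=
  v ^ q ^ e ∈ U ^ H ∧ cE q θ v ^ q ^ e ∈ U ^ H ∧ phi q θ v (e + a) 0 ∈ U ^ (q ^ a * H)

/-- At most one index is special: `θ ^ 2 * v l` is a period. -/
def Spec {ι : Type} (q : ℕ) (θ : F) (e : ℕ) (v : ι → F) (Sp : Set ι) : Prop :=
  Sp.Subsingleton ∧ ∀ l ∈ Sp, cE q θ (θ ^ 2 * v l) = 0 ∧ 1 ≤ ‖phi q θ (θ ^ 2 * v l) e 0‖

/-- No combination of degree at most `D` is close to a period. -/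
def NP (k : Type) [Field k] [Algebra k F] {ι : Type} [Fintype ι] (q : ℕ) (θ : F) (v : ι → F)
    (Sp : Set ι) (D : ℕ) (T : ι → ℕ) : Prop :=
  ∀ β : ι → k[X], (∀ l, (β l).natDegree ≤ D) → ∀ l ∉ Sp, β l ≠ 0 → ∀ lam, cE q θ lam = 0 →
    1 < ‖∑ i, aeval θ (β i) * v i - lam‖ * ‖θ‖ ^ T l

/-- The measure for one level. -/
def MLP {k : Type} [Field k] [Algebra k F] (U : Submodule k F) (q : ℕ) (θ : F)
    (n e a ν c κ P1 : ℕ) : Prop :=
  ∀ P, P1 ≤ P → ∀ (ι : Type) [Fintype ι] [DecidableEq ι] (v : ι → F) (L : ℕ) (Sp : Set ι)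
    (G : (ι → Fin ν) → F[X]) (α0 : ι → Fin ν), Fintype.card ι ≤ n → 1 ≤ L →
    (∀ l, Dat U q θ e a (q ^ P) (v l) ∧ ‖v l‖ * ‖θ‖ ^ L ≤ ‖θ‖) → Spec q θ (e + a) v Sp →
    NP k q θ v Sp (κ * P) (fun _ => L * q ^ P) → (∀ α, G α ∈ CC (q ^ a) U ^ q ^ P) →
    (G α0).eval θ ≠ 0 → (∀ α, ‖(G α).eval θ‖ ≤ ‖(G α0).eval θ‖) →
    ‖(G α0).eval θ‖ <
      ‖val (fun α => (G α).eval θ) fun l => phi q θ (v l) (e + a) 0‖ * ‖θ‖ ^ (L * q ^ (c * P))

end Norm

end Pool.Agent.CSU.SA
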