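import Pool.Agent.Lib.MP_0370b2_nt.SA.St

/-! Existence of the auxiliary row, by counting. -/

namespace Pool.Agent.CSU.SA

open Polynomial Finset

namespace AX

section Ring

variable {ι F : Type} [CommRing F]

/-- Coefficient of `t ^ a Y ^ α`. -/
noncomputable def co (f : PP ι F) (α : ι →₀ ℕ) (a : ℕ) : F := (f.coeff α).coeff a

/-- Supported in the box. -/
def Bx (m d : ℕ) (f : PP ι F) : Prop := ∀ α a, co f α a ≠ 0 → (∀ l, α l < m) ∧ a < d

/-- No monomial in the box. -/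
def Ob (m : ℕ) (f : PP ι F) : Prop := ∀ (α : ι →₀ ℕ) a, (∀ l, α l < m) → a < m → co f α a = 0

lemma co_add (f g : PP ι F) (α a) : co (f + g) α a = co f α a + co g α a := by
  simp [co]

lemma co_sub (f g : PP ι F) (α a) : co (f - g) α a = co f α a - co g α a := by
  simp [co]

lemma co_smul (c : F) (f : PP ι F) (α a) : co (c • f) α a = c * co f α a := by
  simp [co]

lemma co_sum {κ : Type} (s : Finset κ) (f : κ → PP ι F) (α a) :
    co (∑ i ∈ s, f i) α a = ∑ i ∈ s, co (f i) α a := by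
  simp [co, MvPolynomial.coeff_sum, finsetSum_coeff]

lemma co_ext {f g : PP ι F} (h : ∀ α a, co f α a = co g α a) : f = g :=
  MvPolynomial.ext _ _ fun α => Polynomial.ext fun a => h α a

lemma co_mul [DecidableEq ι] (f g : PP ι F) (α a) : co (f * g) α a =
    ∑ x ∈ antidiagonal α, ∑ y ∈ antidiagonal a, co f x.1 y.1 * co g x.2 y.2 := by
  simp [co, MvPolynomial.coeff_mul, finsetSum_coeff, coeff_mul]

lemma Ob.mul {m : ℕ} {f : PP ι F} (h : Ob m f) (g : PP ι F) : Ob m (f * g) := by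
  classical
  intro α a h1 h2
  rw [co_mul]
  refine sum_eq_zero fun x hx => sum_eq_zero fun y hy => ?_
  rw [HasAntidiagonal.mem_antidiagonal] at hx hy
  rw [h x.1 y.1 (fun l => lt_of_le_of_lt ?_ (h1 l)) (by omega), zero_mul]
  rw [← hx]; simp

lemma mul_deg {m m' : ℕ} {f g : PP ι F} (hf : ∀ α a, co f α a ≠ 0 → ∀ l, α l < m)
    (hg : ∀ α a, co g α a ≠ 0 → ∀ l, α l < m') (α a) (h : co (f * g) α a ≠ 0) (l : ι) :
    α l + 1 < m + m' := by
  classical
  rw [co_mul] at h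
  obtain ⟨x, hx, h⟩ := exists_ne_zero_of_sum_ne_zero h
  obtain ⟨y, -, h⟩ := exists_ne_zero_of_sum_ne_zero h
  rw [HasAntidiagonal.mem_antidiagonal] at hx
  have := hf _ _ (left_ne_zero_of_mul h) l
  have := hg _ _ (right_ne_zero_of_mul h) l
  rw [← hx, Finsupp.add_apply]
  omega

lemma row_iff {δ d : ℕ} {f : PP ι F} : Row δ d f ↔ Bx (δ + 1) d f := by
  refine ⟨fun h α a h0 => ⟨fun l => Nat.lt_succ_of_le ((h α).2 (fun h1 => h0 ?_) l), ?_⟩,
    fun h α => ⟨(degree_lt_iff_coeff_zero _ _).2 fun a ha => not_not.1 fun h0 =>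
      absurd (h α a h0).2 (not_lt.2 ha), fun h0 l => ?_⟩⟩
  · simp [co, h1]
  · exact not_le.1 fun ha => h0 ((degree_lt_iff_coeff_zero _ _).1 (h α).1 a ha)
  · exact Nat.le_of_lt_succ ((h α _ (leadingCoeff_ne_zero.2 h0)).1 l)

lemma box_iff {μ : ℕ} {f : PP ι F} : Box μ f ↔ Ob μ f :=
  ⟨fun h α a h1 h2 => X_pow_dvd_iff.1 (h α h1) a h2,
    fun h α h1 => X_pow_dvd_iff.2 fun a h2 => h α a h1 h2⟩

lemma co_map {A : Type} [CommRing A] (π : F →+* A) (f : PP ι F) (α a) :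
    co (tw π f) α a = π (co f α a) := by
  simp [co, tw, MvPolynomial.coeff_map]

lemma co_iter (σ : F →+* F) (f : PP ι F) (α a) (i : ℕ) :
    co ((tw σ)^[i] f) α a = σ^[i] (co f α a) := by
  induction i with
  | zero => rfl
  | succ i ih => rw [Function.iterate_succ_apply', Function.iterate_succ_apply', co_map, ih]

variable [Fintype ι]

/-- The index set of a box. -/
abbrev Ix (ι : Type) (m d : ℕ) : Type := (ι → Fin m) × Fin d

/-- The exponent of an index. -/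
noncomputable def ex {m d : ℕ} (x : Ix ι m d) : ι →₀ ℕ :=
  Finsupp.equivFunOnFinite.symm fun l => (x.1 l : ℕ)

/-- The monomial of an index. -/
noncomputable def mo {m d : ℕ} (x : Ix ι m d) : PP ι F :=
  MvPolynomial.monomial (ex x) (monomial x.2 1)

lemma co_mo [DecidableEq ι] {m d : ℕ} (x : Ix ι m d) (α a) :
    co (mo x : PP ι F) α a = if ex x = α ∧ (x.2 : ℕ) = a then 1 else 0 := by
  rw [co, mo, MvPolynomial.coeff_monomial]
  by_cases h : ex x = α <;> simp [h, coeff_monomial]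

lemma ex_inj {m d : ℕ} {x y : Ix ι m d} (h1 : ex x = ex y) (h2 : (x.2 : ℕ) = y.2) : x = y :=
  Prod.ext (funext fun l => Fin.ext (DFunLike.congr_fun h1 l)) (Fin.ext h2)

lemma ex_surj {m d : ℕ} {α : ι →₀ ℕ} {a : ℕ} (h1 : ∀ l, α l < m) (h2 : a < d) :
    ∃ x : Ix ι m d, ex x = α ∧ (x.2 : ℕ) = a :=
  ⟨(fun l => ⟨α l, h1 l⟩, ⟨a, h2⟩), Finsupp.ext fun _ => rfl, rfl⟩

/-- The row with given coefficients. -/
noncomputable def mk [DecidableEq ι] {m d : ℕ} (v : Ix ι m d → F) : PP ι F := ∑ x, v x • mo x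

variable [DecidableEq ι]

lemma co_mk {m d : ℕ} (v : Ix ι m d → F) (x : Ix ι m d) : co (mk v) (ex x) x.2 = v x := by
  rw [mk, co_sum, sum_eq_single x]
  · simp [co_smul, co_mo]
  · intro y _ hy
    rw [co_smul, co_mo, if_neg fun h => hy (ex_inj h.1 h.2), mul_zero]
  · simp

lemma bx_mk {m d : ℕ} (v : Ix ι m d → F) : Bx m d (mk v) := by
  intro α a h
  rw [mk, co_sum] at h
  obtain ⟨x, -, h⟩ := exists_ne_zero_of_sum_ne_zero h
  rw [co_smul, co_mo] at h
  by_cases hx : ex x = α ∧ (x.2 : ℕ) = a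
  · exact ⟨fun l => hx.1 ▸ (x.1 l).2, hx.2 ▸ x.2.2⟩
  · simp [hx] at h

lemma co_mk' {m d : ℕ} (f : PP ι F) {α : ι →₀ ℕ} {a : ℕ} (h1 : ∀ l, α l < m) (h2 : a < d) :
    co (mk fun x : Ix ι m d => co f (ex x) x.2) α a = co f α a := by
  obtain ⟨x, rfl, rfl⟩ := ex_surj h1 h2
  exact co_mk _ x

lemma Bx.eq_mk {m d : ℕ} {f : PP ι F} (h : Bx m d f) :
    f = mk fun x : Ix ι m d => co f (ex x) x.2 := by
  refine co_ext fun α a => ?_
  by_cases h1 : (∀ l, α l < m) ∧ a < d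
  · exact (co_mk' f h1.1 h1.2).symm
  · rw [not_not.1 fun h0 => h1 (h α a h0), not_not.1 fun h0 => h1 (bx_mk _ α a h0)]

lemma mk_mem {k : Type} [CommRing k] [Algebra k F] (W : Submodule k F) {m d : ℕ} {v : Ix ι m d → F}
    (hv : ∀ x, v x ∈ W) (α a) : co (mk v) α a ∈ W := by
  by_cases h1 : (∀ l, α l < m) ∧ a < d
  · obtain ⟨x, rfl, rfl⟩ := ex_surj h1.1 h1.2
    rw [co_mk]; exact hv x
  · rw [not_not.1 fun h0 => h1 (bx_mk _ α a h0)]; exact W.zero_mem

lemma mo_mul_mem {k : Type} [CommRing k] [Algebra k F] (W : Submodule k F) {m d : ℕ} (x : Ix ι m d)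
    {Q : PP ι F} (hQ : ∀ α a, co Q α a ∈ W) (α a) : co (mo x * Q) α a ∈ W := by
  rw [co_mul]
  refine W.sum_mem fun y _ => W.sum_mem fun z _ => ?_
  rw [co_mo]
  split_ifs
  · rw [one_mul]; exact hQ _ _
  · rw [zero_mul]; exact W.zero_mem

/-- The linear system. -/
lemma sys {m d μ m' P : ℕ} (J : ℕ → PP ι F →ₗ[F] PP ι F) (Q : ℕ → PP ι F)
    (w : Ix ι m d ⊕ Fin P × Ix ι m' μ → F) (i : Fin P) (α a) :
    co (J i (mk fun x => w (Sum.inl x)) - (mk fun x => w (Sum.inr (i, x))) * Q i) α a =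
      ∑ y, Sum.elim (fun x => co (J i (mo x)) α a)
        (fun x : Fin P × Ix ι m' μ => if x.1 = i then -co (mo x.2 * Q i) α a else 0) y * w y := by
  rw [Fintype.sum_sum_type, Fintype.sum_prod_type (α₁ := Fin P), sum_eq_single i]
  · simp only [mk, map_sum, map_smul, sum_mul, smul_mul_assoc, co_sub, co_sum, co_smul,
      Sum.elim_inl, Sum.elim_inr, if_true, neg_mul, sum_neg_distrib]
    simp only [sub_eq_add_neg, mul_comm]
  · intro b _ hb
    simp [hb]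
  · simp

lemma map_mo {A : Type} [CommRing A] (π : F →+* A) {m d : ℕ} (x : Ix ι m d) :
    tw π (mo x : PP ι F) = mo x :=
  co_ext fun α a => by rw [co_map, co_mo, co_mo]; split_ifs <;> simp

end Ring

variable {ι F : Type} [Field F] [Fintype ι] [DecidableEq ι]

omit [Fintype ι] [DecidableEq ι] in
lemma cancel {m m' ν : ℕ} {g Q : PP ι F} (hm : m' + ν ≤ m + 1) (hg : Bx m' m g)
    (hQ : ∀ α a, co Q α a ≠ 0 → ∀ l, α l < ν) (h0 : ∃ α, co Q α 0 ≠ 0) (h : Ob m (g * Q)) : g = 0 := by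
  have hp : Prime (MvPolynomial.C X : PP ι F) := (MvPolynomial.prime_C_iff ι).2 prime_X
  have h1 : ¬ (MvPolynomial.C X : PP ι F) ∣ Q := fun hd => by
    obtain ⟨α, hα⟩ := h0
    exact hα (X_dvd_iff.1 ((MvPolynomial.C_dvd_iff_dvd_coeff _ _).1 hd α))
  have h2 : (MvPolynomial.C X : PP ι F) ^ m ∣ g * Q := by
    rw [← map_pow, MvPolynomial.C_dvd_iff_dvd_coeff]
    refine fun α => X_pow_dvd_iff.2 fun a ha => not_not.1 fun hne => hne (h α a (fun l => ?_) ha)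
    have := mul_deg (fun α a h => (hg α a h).1) hQ α a hne l
    omega
  have h3 := hp.pow_dvd_of_dvd_mul_right m h1 h2
  rw [← map_pow, MvPolynomial.C_dvd_iff_dvd_coeff] at h3
  refine co_ext fun α a => not_not.1 fun hne => ?_
  have h4 : co g α a ≠ 0 := by simpa [co] using hne
  exact h4 (X_pow_dvd_iff.1 (h3 α) a (hg α a h4).2)

lemma exist {m d μ m' ν P : ℕ} (J : ℕ → PP ι F →ₗ[F] PP ι F) (Q : ℕ → PP ι F)
    (hm : m' + ν ≤ μ + 1) (hQ : ∀ i < P, ∀ α a, co (Q i) α a ≠ 0 → ∀ l, α l < ν)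
    (h0 : ∀ i < P, ∃ α, co (Q i) α 0 ≠ 0)
    (hc : P * (μ ^ Fintype.card ι * μ) < m ^ Fintype.card ι * d + P * (m' ^ Fintype.card ι * μ)) :
    ∃ f : PP ι F, f ≠ 0 ∧ Bx m d f ∧ ∀ i < P, ∃ g, Ob μ (J i f - g * Q i) := by
  let M : Matrix (Fin P × Ix ι μ μ) (Ix ι m d ⊕ Fin P × Ix ι m' μ) F := fun s y =>
    Sum.elim (fun x => co (J s.1 (mo x)) (ex s.2) s.2.2)
      (fun x : Fin P × Ix ι m' μ => if x.1 = s.1 then -co (mo x.2 * Q s.1) (ex s.2) s.2.2 else 0) y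
  have hk : LinearMap.ker M.mulVecLin ≠ ⊥ := LinearMap.ker_ne_bot_of_finrank_lt (by simpa using hc)
  obtain ⟨w, hw, hw0⟩ := Submodule.exists_mem_ne_zero_of_ne_bot hk
  have h1 : ∀ i : Fin P,
      Ob μ (J i (mk fun x => w (Sum.inl x)) - (mk fun x => w (Sum.inr (i, x))) * Q i) := by
    intro i α a h1 h2
    obtain ⟨x, rfl, rfl⟩ := ex_surj h1 h2
    rw [sys]
    exact congrFun (LinearMap.mem_ker.1 hw) (i, x)
  refine ⟨_, fun hf => hw0 (funext fun y => ?_), bx_mk _, fun i hi => ⟨_, h1 ⟨i, hi⟩⟩⟩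
  rcases y with x | ⟨i, x⟩
  · rw [← co_mk (fun x => w (Sum.inl x)) x, hf]; simp [co]
  · have h2 := h1 i
    rw [hf, map_zero, zero_sub] at h2
    have h3 := cancel hm (bx_mk _) (hQ i i.2) (h0 i i.2) (fun α a h1 h3 => by
      simpa [co] using h2 α a h1 h3)
    rw [← co_mk (fun x => w (Sum.inr (i, x))) x, h3]; simp [co]

end AX

open AX in
theorem ex : ExS := by
  intro ι F _ _ s ν δ d P hν h0 hQ hc
  classical
  have hi : ∀ (i : ℕ) (a : F), s.σ^[i] a = 0 ↔ a = 0 := fun i a => by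
    induction i with
    | zero => rfl
    | succ i ih => rw [Function.iterate_succ_apply', map_eq_zero, ih]
  obtain ⟨f, hf0, hf, hg⟩ := exist (m := δ + 1) (d := d) (μ := s.μ) (m' := s.μ - ν) (ν := ν)
    (P := P) (fun i => (s.JJ i (P - i)).toLinearMap) (fun i => (tw s.σ)^[i] s.Q) (by omega)
    (fun i _ α a h => hQ α fun h1 => h (by rw [co_iter, hi, co, h1, coeff_zero]))
    (fun i _ => h0.imp fun α h h1 => h ((hi i _).1 ((co_iter _ _ _ _ i).symm.trans h1)))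
    (by rw [mul_comm ((s.μ - ν) ^ _), ← pow_succ]; exact hc)
  exact ⟨f, hf0, row_iff.2 hf, fun i hi => (hg i hi).imp fun g h => box_iff.2 h⟩

end Pool.Agent.CSU.SA
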