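import Pool.Agent.Lib.MP_0370b2_nt.SA.HP0

/-! The honest point. -/

namespace Pool.Agent.CSU.SA.HP

open Finset Module Submodule

variable {k F : Type} [Field k] [NormedField F] [IsUltrametricDist F] [Algebra k F]

lemma sp_map {A B σ : Type} [CommRing A] [Algebra k A] [CommRing B] [Algebra k B]
    (f : A →ₐ[k] B) (w : σ → A) (N : ℕ) :
    (sp k w ^ N).map f.toLinearMap = sp k (fun j => f (w j)) ^ N := by
  rw [Submodule.map_pow, map_span, Set.image_insert_eq, ← Set.range_comp]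
  simp [Function.comp_def]

lemma cl_pow (hk : ∀ c : k, ‖algebraMap k F c‖ ≤ 1) {B ε : ℝ} (hB : 1 ≤ B) (hε : 0 ≤ ε) {σ : Type}
    (w : σ → F × F) (hw : ∀ j, ‖(w j).1‖ ≤ B ∧ ‖(w j).2‖ ≤ B ∧ ‖(w j).1 - (w j).2‖ ≤ ε) (N : ℕ) :
    ∀ p ∈ sp k w ^ N, ‖p.1‖ ≤ B ^ N ∧ ‖p.2‖ ≤ B ^ N ∧ ‖p.1 - p.2‖ ≤ ε * B ^ N := by
  have hsm : ∀ (r : k) (a : F), ‖r • a‖ ≤ ‖a‖ := fun r a => by
    rw [Algebra.smul_def, norm_mul]
    exact mul_le_of_le_one_left (norm_nonneg _) (hk r)
  have ad : ∀ {a b : F} {c : ℝ}, ‖a‖ ≤ c → ‖b‖ ≤ c → ‖a + b‖ ≤ c := fun ha hb =>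
    (IsUltrametricDist.norm_add_le_max _ _).trans (max_le ha hb)
  let Q : ℝ → F × F → Prop := fun c p => ‖p.1‖ ≤ c ∧ ‖p.2‖ ≤ c ∧ ‖p.1 - p.2‖ ≤ ε * c
  have qa : ∀ {c p q}, Q c p → Q c q → Q c (p + q) := fun hp hq =>
    ⟨ad hp.1 hq.1, ad hp.2.1 hq.2.1, by
      rw [Prod.fst_add, Prod.snd_add, add_sub_add_comm]; exact ad hp.2.2 hq.2.2⟩
  have h1 : ∀ p ∈ sp k w, Q B p := fun p hp => by
    refine span_induction (p := fun p _ => Q B p) ?_ ?_ (fun _ _ _ _ => qa) (fun r p _ h => ?_) hp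
    · rintro _ (rfl | ⟨j, rfl⟩)
      · exact ⟨by simpa using hB, by simpa using hB, by simpa using by positivity⟩
      · exact ⟨(hw j).1, (hw j).2.1, (hw j).2.2.trans (le_mul_of_one_le_right hε hB)⟩
    · exact ⟨by simpa using by positivity, by simpa using by positivity,
        by simpa using by positivity⟩
    · exact ⟨(hsm _ _).trans h.1, (hsm _ _).trans h.2.1, by
        rw [Prod.smul_fst, Prod.smul_snd, ← smul_sub]; exact (hsm _ _).trans h.2.2⟩
  induction N with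
  | zero =>
    intro p hp
    rw [pow_zero, Submodule.mem_one] at hp
    obtain ⟨r, rfl⟩ := hp
    simpa using ⟨hk r, hε⟩
  | succ N ih =>
    intro p hp
    rw [pow_succ] at hp
    refine Submodule.mul_induction_on (C := Q (B ^ (N + 1))) hp (fun u hu v hv => ?_)
      fun u v => qa
    obtain ⟨a1, a2, a3⟩ := ih u hu
    obtain ⟨b1, b2, b3⟩ := h1 v hv
    refine ⟨?_, ?_, ?_⟩
    · rw [Prod.fst_mul, norm_mul, pow_succ]; gcongr
    · rw [Prod.snd_mul, norm_mul, pow_succ]; gcongr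
    · rw [Prod.fst_mul, Prod.snd_mul, show u.1 * v.1 - u.2 * v.2 =
        u.1 * (v.1 - v.2) + (u.1 - u.2) * v.2 by ring]
      refine ad ?_ ?_ <;> rw [norm_mul, pow_succ]
      · rw [mul_left_comm]; gcongr
      · rw [← mul_assoc]; gcongr

lemma ae_le (hk : ∀ c : k, ‖algebraMap k F c‖ ≤ 1) {B : ℝ} (hB : 1 ≤ B) {σ : Type} (w : σ → F)
    (hw : ∀ j, ‖w j‖ ≤ B) {f : MvPolynomial σ k} {D : ℕ} (hf : f.totalDegree ≤ D) :
    ‖MvPolynomial.aeval w f‖ ≤ B ^ D := by
  have h := ae_mem w (sp_one w) (sp_mem w) hf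
  have e := sp_map (AlgHom.fst k F F) (fun j => (w j, w j)) D
  obtain ⟨p, hp, e⟩ := (e.ge : _) h
  exact e ▸ (cl_pow hk hB le_rfl (fun j => (w j, w j)) (fun j => by simp [hw j]) D p hp).1

omit [IsUltrametricDist F] in
lemma near [IsAlgClosed F] (q : Polynomial F) {x : F} {c b : ℝ} (hc : 1 ≤ c) (hb : 0 ≤ b) {m : ℕ}
    (hm : q.natDegree ≤ m) (h1 : 1 < ‖q.leadingCoeff‖ * b) (h2 : ‖q.eval x‖ * (b * c ^ m) ≤ 1) :
    ∃ y, q.eval y = 0 ∧ ‖x - y‖ * c ≤ 1 := by
  by_contra hn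
  push Not at hn
  have hs := IsAlgClosed.splits q
  have h3 : ∀ s : Multiset F, (∀ y ∈ s, 1 < ‖x - y‖ * c) →
      1 ≤ ‖(s.map (x - ·)).prod‖ * c ^ s.card := by
    intro s
    induction s using Multiset.induction_on with
    | empty => simp
    | cons a s ih =>
      intro h
      rw [Multiset.map_cons, Multiset.prod_cons, norm_mul, Multiset.card_cons, pow_succ',
        mul_mul_mul_comm]
      exact one_le_mul_of_one_le_of_one_le (h a (by simp)).le (ih fun y hy => h y (by simp [hy]))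
  have h4 := h3 q.roots fun y hy => hn y (Polynomial.isRoot_of_mem_roots hy)
  rw [hs.eval_eq_prod_roots, norm_mul] at h2
  rw [← hs.natDegree_eq_card_roots] at h4
  have h5 : 1 ≤ ‖(q.roots.map (x - ·)).prod‖ * c ^ m :=
    h4.trans (mul_le_mul_of_nonneg_left (pow_le_pow_right₀ hc hm) (norm_nonneg _))
  rw [mul_mul_mul_comm] at h2
  nlinarith

/-- No small value in low degree. -/
def Ind (k : Type) [Field k] [Algebra k F] {i : ℕ} (w : Fin i → F) (D : ℕ) (b : ℝ) : Prop :=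
  ∀ f : MvPolynomial (Fin i) k, f ≠ 0 → f.totalDegree ≤ D → 1 < ‖MvPolynomial.aeval w f‖ * b

lemma num {i n m h j : ℕ} (hi : i ≤ n) (hm : 3 ≤ m) (hh : h ≤ m) (hj : j ≤ h) :
    ((m * j + 1) * (m ^ (8 * n + 3) + m ^ (8 * n + 1) * m ^ 2) + 1) ^ i * (m * (h * m ^ 2) ^ n) <
      (m ^ (8 * n + 1) + 1) * (m ^ (8 * n + 2)) ^ i := by
  have hE : 0 < m ^ (8 * n + 2) := by positivity
  have h1 : (m * j + 1) * (m ^ (8 * n + 3) + m ^ (8 * n + 1) * m ^ 2) + 1 ≤
      m ^ 5 * m ^ (8 * n + 2) := by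
    rw [← pow_add, show 8 * n + 1 + 2 = 8 * n + 2 + 1 by ring, pow_succ _ (8 * n + 2)]
    generalize m ^ (8 * n + 2) = E at hE
    have h2 : m * j + 1 ≤ 2 * m ^ 2 := by nlinarith
    have h3 : 4 * m ^ 3 + 1 ≤ m ^ 5 := by
      have : 9 ≤ m ^ 2 := by nlinarith
      have : 1 ≤ m ^ 3 := Nat.one_le_pow _ _ (by omega)
      calc 4 * m ^ 3 + 1 ≤ 9 * m ^ 3 := by omega
        _ ≤ m ^ 2 * m ^ 3 := by gcongr
        _ = m ^ 5 := by ring
    calc _ ≤ 2 * m ^ 2 * (E * m + E * m) + E := by gcongr; exact hE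
      _ = (4 * m ^ 3 + 1) * E := by ring
      _ ≤ _ := by gcongr
  calc _ ≤ (m ^ 5 * m ^ (8 * n + 2)) ^ i * (m * (m * m ^ 2) ^ n) := by gcongr
    _ = (m ^ 5) ^ i * (m * (m * m ^ 2) ^ n) * (m ^ (8 * n + 2)) ^ i := by rw [mul_pow]; ring
    _ ≤ (m ^ 5) ^ n * (m * (m * m ^ 2) ^ n) * (m ^ (8 * n + 2)) ^ i := by
      gcongr; exact Nat.one_le_pow _ _ (by omega)
    _ = m ^ (8 * n + 1) * (m ^ (8 * n + 2)) ^ i := by ring
    _ < _ := by gcongr; omega

/-- The Liouville inequality at the moved point. -/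
lemma liou (hk : ∀ c : k, ‖algebraMap k F c‖ ≤ 1) {i : ℕ} (w : Fin i → F) {U : Submodule k F}
    (hU : U.FG) (h1 : 1 ∈ U) (hw : ∀ j, w j ∈ U) {B b : ℝ} (hB : 1 ≤ B) (hb : 1 ≤ b)
    (hwB : ∀ j, ‖w j‖ ≤ B) {D E I N : ℕ} (hE : i * E ≤ D) (hI : Ind k w D b)
    (hd : finrank k ↥(U ^ (D + I * N)) < (I + 1) * E ^ i) {y : F} (hy : y ∈ U ^ N)
    (hs : ‖y‖ * (b * B ^ D) ≤ 1) : y = 0 := by
  classical
  by_contra h0
  obtain ⟨a, ha, hdeg, hsum⟩ := sieg (k := k) w (fun j : Fin (I + 1) => y ^ (j : ℕ))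
    (U ^ (D + I * N)) (hU.pow _) hE (fun j f hf => by
      rw [pow_add]
      refine mul_mem_mul (ae_mem w h1 hw hf) (pow_le_pow_right' (Submodule.one_le.2 h1)
        (Nat.mul_le_mul_right N (Nat.lt_succ_iff.1 j.2)) ?_)
      rw [mul_comm, pow_mul]
      exact pow_mem_pow _ hy _) (by simpa using hd)
  obtain ⟨j, hj, hmin⟩ := exists_min_image (univ.filter fun j => a j ≠ 0) id
    (by simpa [Finset.Nonempty, funext_iff] using ha)
  have hy0 : 0 < ‖y‖ := norm_pos_iff.2 h0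
  have hBD : 1 ≤ B ^ D := one_le_pow₀ hB
  have hy1 : ‖y‖ ≤ 1 := (le_mul_of_one_le_right hy0.le
    (one_le_mul_of_one_le_of_one_le hb hBD)).trans hs
  rw [← add_sum_erase _ _ (mem_univ j)] at hsum
  have h2 : ‖MvPolynomial.aeval w (a j) * y ^ (j : ℕ)‖ ≤ B ^ D * ‖y‖ ^ ((j : ℕ) + 1) := by
    rw [eq_neg_of_add_eq_zero_left hsum, norm_neg]
    refine IsUltrametricDist.norm_sum_le_of_forall_le_of_nonneg (by positivity) fun l hl => ?_
    by_cases hl0 : a l = 0
    · rw [hl0]; simpa using by positivity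
    have h3 : j < l := lt_of_le_of_ne (hmin l (by simpa using hl0)) (ne_of_mem_erase hl).symm
    rw [norm_mul, norm_pow]
    exact mul_le_mul (ae_le hk hB w hwB (hdeg l)) (pow_le_pow_of_le_one hy0.le hy1 h3)
      (by positivity) (by positivity)
  rw [norm_mul, norm_pow, pow_succ', ← mul_assoc] at h2
  have h3 := le_of_mul_le_mul_right h2 (by positivity)
  have h4 := hI _ (mem_filter.1 hj).2 (hdeg j)
  nlinarith [mul_le_mul_of_nonneg_right h3 (by positivity : 0 ≤ b)]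

/-- One moves the coordinates one at a time. -/
lemma claim (hk : ∀ c : k, ‖algebraMap k F c‖ ≤ 1) {Γ : Type} [Fintype Γ] {i n m h : ℕ}
    (hi : i ≤ n) (hn : n ≤ h) (hm : 3 ≤ m) (hh : h ≤ m) (hΓ : Fintype.card Γ ≤ h) (z x : Γ → F)
    (s : Fin i → Γ) (e : Γ → ℕ) (c : Γ → ℕ → F) (he : ∀ g, e g ≤ m)
    (hc : ∀ g l, c g l ∈ sp k (fun j => z (s j)) ^ m) (hl : ∀ g, c g (e g) ≠ 0)
    (h0 : ∀ g, ∑ l ∈ range (e g + 1), c g l * x g ^ l = 0) {B b ε : ℝ} (hB : 1 ≤ B) (hb : 1 ≤ b)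
    (hε : 0 ≤ ε) (hz : ∀ g, ‖z g‖ ≤ B ∧ ‖x g‖ ≤ B ∧ ‖z g - x g‖ ≤ ε)
    (hI : Ind k (fun j => z (s j)) (m ^ (8 * n + 3)) b)
    (hd : finrank k ↥(sp k z ^ m ^ 2) ≤ (h * m ^ 2) ^ n)
    (hs : ε * B ^ m ^ 2 * (b * B ^ m ^ (8 * n + 3)) ≤ 1) :
    ∀ p ∈ sp k (fun g => (z g, x g)) ^ h, ‖p.1‖ * (b * B ^ m ^ (8 * n + 3)) ≤ 1 → p.2 = 0 := by
  classical
  let UU : Finset Γ → Submodule k (F × F) := fun J =>
    sp k (Sum.elim (fun j => (z (s j), z (s j))) fun g : J => (z g, x g)) ^ m ^ 2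
  have hsnd : ∀ J, (UU J).map (AlgHom.snd k F F).toLinearMap =
      sp k (Sum.elim (fun j => z (s j)) fun g : J => x g) ^ m ^ 2 := fun J => by
    rw [sp_map]
    congr 2
    ext (j | j) <;> rfl
  have key : ∀ J : Finset Γ, finrank k ↥(∏ g ∈ J, Rp k m (x g)) ≤ m * (h * m ^ 2) ^ n →
      ∀ p ∈ UU J, ‖p.1‖ * (b * B ^ m ^ (8 * n + 3)) ≤ 1 → p.2 = 0 := by
    intro J hJ p hp h1
    refine liou hk (fun j => z (s j)) (sp_fg (Sum.elim (fun j => z (s j)) fun g : J => x g))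
      (sp_one _) (fun j => sp_mem _ (Sum.inl j)) hB hb (fun j => (hz _).1)
      (E := m ^ (8 * n + 2)) (I := m ^ (8 * n + 1)) (N := m ^ 2) ?_ hI ?_
      (hsnd J ▸ mem_map_of_mem hp) ?_
    · rw [pow_succ' _ (8 * n + 2)]; gcongr; omega
    · exact ((grow (by omega) _ x e c he hc hl h0 J _).trans
        (Nat.mul_le_mul_left _ hJ)).trans_lt (num hi hm hh ((card_le_univ J).trans hΓ))
    · have h2 := (cl_pow hk hB hε _ (by
        rintro (j | j)
        · simpa using ⟨(hz _).1, hε⟩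
        · exact hz _) _ p hp).2.2
      have h3 : ‖p.2‖ ≤ max ‖p.1‖ ‖p.1 - p.2‖ := by
        simpa [← norm_sub_rev p.1] using IsUltrametricDist.norm_add_le_max p.1 (p.2 - p.1)
      rcases le_max_iff.1 h3 with h3 | h3
      · exact le_trans (by gcongr) h1
      · exact le_trans (by gcongr; exact h3.trans h2) hs
  have hpos : 1 ≤ m * (h * m ^ 2) ^ n := by
    rcases Nat.eq_zero_or_pos n with rfl | h' 
    · simp; omega
    · have : 0 < h := by omega
      have : 0 < m := by omega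
      exact Nat.succ_le_of_lt (by positivity)
  have hdim : ∀ J : Finset Γ, finrank k ↥(∏ g ∈ J, Rp k m (x g)) ≤ m * (h * m ^ 2) ^ n := by
    intro J
    induction J using Finset.induction_on with
    | empty =>
      rw [prod_empty, Submodule.one_eq_span]
      exact (finrank_span_singleton one_ne_zero).le.trans hpos
    | insert g J hg ih =>
      have hle : ∏ g ∈ J, Rp k m (x g) ≤ (UU J).map (AlgHom.snd k F F).toLinearMap := by
        rw [hsnd, ← prod_coe_sort J]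
        refine (prod_le_pow_card _ _ (sp k (Sum.elim (fun j => z (s j)) fun g : J => x g) ^ m)
          fun g _ => span_le.2 ?_).trans ?_
        · rintro _ ⟨a, rfl⟩
          exact pow_le_pow_right' (Submodule.one_le.2 (sp_one _)) a.2.le
            (pow_mem_pow _ (sp_mem _ (Sum.inr g)) _)
        · rw [← pow_mul, sq]
          refine pow_le_pow_right' (Submodule.one_le.2 (sp_one _)) (Nat.mul_le_mul_left _ ?_)
          simpa using ((card_le_univ J).trans hΓ).trans hh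
      have hfg : (UU J).FG := (sp_fg _).pow _
      rw [prod_insert hg]
      refine (fr_mul _ _ (fg_span (Set.finite_range _)) (prod_induction _ _ (fun _ _ => FG.mul)
        (by simpa using (sp_fg (k := k) z).pow 0) fun g _ => fg_span (Set.finite_range _))).trans
        (Nat.mul_le_mul ((finrank_range_le_card (R := k) _).trans (by simp)) ?_)
      refine (fr_mono (hfg.map _) hle).trans ((fr_snd _ hfg fun p hp h1 =>
        key J ih p hp (by simp [h1])).trans (le_trans (fr_mono ((sp_fg z).pow _) ?_) hd))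
      rw [sp_map]
      refine pow_le_pow_left' (sp_le (sp_one _) ?_) _
      rintro (j | j) <;> exact sp_mem z _
  intro p hp
  refine key univ (hdim _) p ?_
  refine pow_le_pow_right' (Submodule.one_le.2 (sp_one _)) (by nlinarith : h ≤ m ^ 2)
    (pow_le_pow_left' (sp_le (sp_one _) fun g => ?_) _ hp)
  exact sp_mem (Sum.elim (fun j => (z (s j), z (s j))) fun g : (univ : Finset Γ) => (z g, x g))
    (Sum.inr ⟨g, mem_univ g⟩)

omit [IsUltrametricDist F] in
lemma ae_cons {i : ℕ} (w : Fin i → F) (y : F) (f : MvPolynomial (Fin (i + 1)) k) :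
    MvPolynomial.aeval (Fin.cons y w : Fin (i + 1) → F) f = Polynomial.eval y
      ((MvPolynomial.finSuccEquiv k i f).map (MvPolynomial.aeval w).toRingHom) := by
  induction f using MvPolynomial.induction_on with
  | C a => simp [MvPolynomial.finSuccEquiv_apply]
  | add p q hp hq => simp [hp, hq]
  | mul_X p j hp =>
    refine Fin.cases ?_ (fun j => ?_) j <;>
      simp [hp, MvPolynomial.finSuccEquiv_X_zero, MvPolynomial.finSuccEquiv_X_succ]

omit [IsUltrametricDist F] in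
/-- The nearest root of a small relation. -/
lemma move [IsAlgClosed F] {i m D : ℕ} (w : Fin i → F) (y : F) {b c : ℝ} (hb : 0 ≤ b) (hc : 1 ≤ c)
    (hD : m ≤ D) (hI : Ind k w D b)
    (hn : ¬ Ind k (Fin.cons y w : Fin (i + 1) → F) m (b * c ^ m)) :
    ∃ (x : F) (e : ℕ) (a : ℕ → F), ‖y - x‖ * c ≤ 1 ∧ e ≤ m ∧ (∀ l, a l ∈ sp k w ^ m) ∧ a e ≠ 0 ∧
      ∑ l ∈ range (e + 1), a l * x ^ l = 0 := by
  unfold Ind at hn
  push Not at hn
  obtain ⟨f, hf, hd, hs⟩ := hn
  rw [ae_cons] at hs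
  set Q := MvPolynomial.finSuccEquiv k i f with hQ
  have hQ0 : Q ≠ 0 := (map_ne_zero_iff _ (MvPolynomial.finSuccEquiv k i).injective).2 hf
  have hcf : ∀ l, (Q.coeff l).totalDegree ≤ m := fun l => by
    by_cases h : Q.coeff l = 0
    · simp [h]
    · have := MvPolynomial.totalDegree_coeff_finSuccEquiv_add_le f l h
      rw [← hQ] at this
      omega
  have he : Q.natDegree ≤ m := by
    rw [hQ, MvPolynomial.natDegree_finSuccEquiv]
    exact (MvPolynomial.degreeOf_le_totalDegree _ _).trans hd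
  have h1 := hI _ (Polynomial.leadingCoeff_ne_zero.2 hQ0) ((hcf _).trans hD)
  have h2 : MvPolynomial.aeval w Q.leadingCoeff ≠ 0 := fun h => by
    rw [h] at h1; norm_num at h1
  obtain ⟨x, hx, hx'⟩ := near (Q.map (MvPolynomial.aeval w).toRingHom) hc hb
    (Polynomial.natDegree_map_le.trans he)
    (by rwa [Polynomial.leadingCoeff_map_of_leadingCoeff_ne_zero _ h2]) hs
  refine ⟨x, Q.natDegree, fun l => MvPolynomial.aeval w (Q.coeff l), hx', he,
    fun l => ae_mem w (sp_one w) (sp_mem w) (hcf l), h2, ?_⟩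
  rwa [Polynomial.eval_map, Polynomial.eval₂_eq_sum_range] at hx

lemma ladder (P : ℕ → Prop) (h1 : P 1) (n : ℕ) (hn : ¬ P (n + 1)) :
    ∃ i, 1 ≤ i ∧ i ≤ n ∧ P i ∧ ¬ P (i + 1) := by
  induction n with
  | zero => exact absurd h1 hn
  | succ n ih =>
    by_cases h : P (n + 1)
    · exact ⟨n + 1, by omega, le_rfl, h, hn⟩
    · obtain ⟨i, a, b, c⟩ := ih h
      exact ⟨i, a, by omega, c⟩

theorem hp0 (n : ℕ) : ∃ c0 : ℕ, ∀ (k F Γ : Type) [Field k] [NormedField F] [IsUltrametricDist F]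
    [Algebra k F] [IsAlgClosed F] [Fintype Γ] (θ : F) (z : Γ → F) (o : Γ) (h S0 : ℕ),
    (∀ c : k, ‖algebraMap k F c‖ ≤ 1) → 1 < ‖θ‖ → z o = θ → Fintype.card Γ ≤ h → n + 2 ≤ h →
    (∀ g, ‖z g‖ ≤ ‖θ‖ ^ h) → (∀ D, 1 ≤ D → finrank k ↥(sp k z ^ D) ≤ (h * D) ^ n) → 1 ≤ S0 →
    ∃ S, S0 * h ^ 3 ≤ S ∧ S ≤ S0 * h ^ c0 ∧ ∃ z' : Γ → F, z' o = θ ∧
      (∀ g, ‖z g - z' g‖ * ‖θ‖ ^ (S * h) ≤ 1) ∧
      ∀ p ∈ sp k (fun g => (z g, z' g)) ^ h, ‖p.1‖ * ‖θ‖ ^ S ≤ 1 → p.2 = 0 := by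
  refine ⟨(2 * n + 2) * (8 * n + 3) ^ n * (3 * n + 1), ?_⟩
  intro k F Γ _ _ _ _ _ _ θ z o h S0 hk hθ ho hΓ hn hz hd hS0
  classical
  have hθ0 : 0 < ‖θ‖ := by positivity
  set T := h ^ ((2 * n + 2) * (8 * n + 3) ^ n) with hT
  let D : ℕ → ℕ := fun i => h ^ ((2 * n + 2) * (8 * n + 3) ^ (n + 1 - i))
  have hT0 : 0 < T := by have : 0 < h := by omega
                         positivity
  obtain ⟨i, hi1, hi, ⟨s, ⟨j0, hj0⟩, hI⟩, hnI⟩ := ladder (fun i => ∃ s : Fin i → Γ,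
      (∃ j, s j = o) ∧ Ind k (fun j => z (s j)) (D i) (‖θ‖ ^ (S0 * T ^ (3 * i))))
    ⟨fun _ => o, ⟨0, rfl⟩, fun f hf _ => by
      have e : MvPolynomial.aeval (fun _ : Fin 1 => z o) f =
          Polynomial.aeval θ (MvPolynomial.uniqueAlgEquiv k (Fin 1) f) := by
        have : MvPolynomial.aeval (fun _ : Fin 1 => z o) = (Polynomial.aeval θ).comp
            (MvPolynomial.uniqueAlgEquiv k (Fin 1)).toAlgHom :=
          MvPolynomial.algHom_ext fun j => by simp [ho, MvPolynomial.uniqueAlgEquiv]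
        exact DFunLike.congr_fun this f
      rw [e, norm_aeval hk hθ ((map_ne_zero_iff _ (AlgEquiv.injective _)).2 hf), ← pow_add]
      have : 0 < S0 * T ^ (3 * 1) := by positivity
      exact one_lt_pow₀ hθ (by omega)⟩ n (by
      rintro ⟨s, -, hI⟩
      have hD : D (n + 1) = h * h ^ (2 * n + 1) := by simp [D, pow_succ']
      have hE : 0 < h ^ (2 * n + 1) := by have : 0 < h := by omega
                                          positivity
      obtain ⟨a, ha, hdeg, hsum⟩ := sieg (k := k) (fun j => z (s j)) (fun _ : Unit => 1)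
        (sp k z ^ D (n + 1)) ((sp_fg z).pow _) (D := D (n + 1)) (E := h ^ (2 * n + 1))
        (by rw [hD]; gcongr; omega)
        (fun _ f hf => by simpa using ae_mem _ (sp_one z) (fun j => sp_mem z (s j)) hf)
        ((hd _ (by rw [hD]; nlinarith)).trans_lt (by
          rw [hD, Fintype.card_unit, one_mul, ← mul_assoc, mul_pow, pow_succ' _ n, ← sq, ← pow_mul]
          gcongr <;> omega))
      have := hI (a ()) (fun h => ha (funext fun _ => h)) (hdeg ())
      simp only [univ_unique, sum_singleton, mul_one] at hsum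
      rw [hsum] at this
      norm_num at this)
  set m := D (i + 1) with hm
  have hDi : D i = m ^ (8 * n + 3) := by
    simp only [hm, D, ← pow_mul]
    rw [show n + 1 - i = n + 1 - (i + 1) + 1 by omega, pow_succ (8 * n + 3), mul_assoc]
  have hhm : h ≤ m := le_self_pow (by omega) (by positivity)
  have hDT : D i ≤ T := pow_le_pow_right' (by omega) (Nat.mul_le_mul_left _
    (pow_le_pow_right' (by omega) (by omega)))
  have hmD : m ^ 2 ≤ D i := by rw [hDi]; exact pow_le_pow_right' (by omega) (by omega)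
  have hmD' : m ≤ D i := le_trans (by nlinarith) hmD
  set Si := S0 * T ^ (3 * i) with hSi
  have hT3 : T ^ 3 ≤ T ^ (3 * i) := pow_le_pow_right' hT0 (by omega)
  have h3 : 3 ≤ h := by omega
  have hS1 : h * D i ≤ Si := by
    calc h * D i ≤ T * T := Nat.mul_le_mul (by omega) hDT
      _ ≤ 1 * T ^ 3 := by nlinarith
      _ ≤ Si := Nat.mul_le_mul hS0 hT3
  set S := Si + h * D i with hS
  have hS2 : Si + S * h * m ≤ S0 * T ^ (3 * (i + 1)) := by
    have h1 : 1 + 2 * T * T ≤ T ^ 3 := by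
      have h4 : 3 ≤ T := by omega
      have h5 : 3 * (T * T) ≤ T * (T * T) := Nat.mul_le_mul_right _ h4
      have h6 : 0 < T * T := by positivity
      nlinarith
    calc Si + S * h * m ≤ Si + 2 * Si * T * T := by gcongr <;> omega
      _ = Si * (1 + 2 * T * T) := by ring
      _ ≤ Si * T ^ 3 := by gcongr
      _ = _ := by rw [hSi]; ring
  have hmv : ∀ g, ∃ (x : F) (e : ℕ) (a : ℕ → F), (g = o → x = θ) ∧
      ‖z g - x‖ * ‖θ‖ ^ (S * h) ≤ 1 ∧ e ≤ m ∧ (∀ l, a l ∈ sp k (fun j => z (s j)) ^ m) ∧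
      a e ≠ 0 ∧ ∑ l ∈ range (e + 1), a l * x ^ l = 0 := by
    intro g
    by_cases hg : g = o
    · have hle := pow_le_pow_right' (Submodule.one_le.2 (sp_one (k := k) fun j => z (s j)))
        (by omega : 1 ≤ m)
      rw [pow_one] at hle
      refine ⟨θ, 1, fun l => if l = 0 then -θ else 1, fun _ => rfl, by simp [hg, ho], by omega,
        fun l => hle ?_, by simp, by simp [sum_range_succ]⟩
      dsimp only
      split_ifs
      · exact neg_mem (by simpa [hj0, ho] using sp_mem (k := k) (fun j => z (s j)) j0)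
      · exact sp_one _
    · obtain ⟨x, e, a, h1⟩ := move (fun j => z (s j)) (z g) (c := ‖θ‖ ^ (S * h)) (by positivity)
        (one_le_pow₀ hθ.le) hmD' hI fun hI' => hnI ⟨Fin.cons g s, ⟨j0.succ, hj0⟩, fun f hf hd => by
          have e : (fun j => z ((Fin.cons g s : Fin (i + 1) → Γ) j)) =
              Fin.cons (z g) fun j => z (s j) := funext fun j => Fin.cases rfl (fun _ => rfl) j
          rw [e]
          refine (hI' f hf hd).trans_le (mul_le_mul_of_nonneg_left ?_ (norm_nonneg _))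
          rw [← pow_mul, ← pow_add]
          exact pow_le_pow_right₀ hθ.le hS2⟩
      exact ⟨x, e, a, fun h => absurd h hg, h1⟩
  choose x e c hx h1 he hc hl h0 using hmv
  refine ⟨S, ?_, ?_, x, hx o rfl, h1, ?_⟩
  · calc S0 * h ^ 3 ≤ S0 * T ^ 3 := by gcongr; omega
      _ ≤ Si := Nat.mul_le_mul_left _ hT3
      _ ≤ S := by omega
  · calc S ≤ Si * T := by nlinarith
      _ = S0 * T ^ (3 * i + 1) := by rw [hSi]; ring
      _ ≤ S0 * T ^ (3 * n + 1) := Nat.mul_le_mul_left _ (pow_le_pow_right' hT0 (by omega))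
      _ = _ := by rw [hT, ← pow_mul]
  · have hB : 1 ≤ ‖θ‖ ^ h := one_le_pow₀ hθ.le
    have hε : ∀ g, ‖z g - x g‖ ≤ (‖θ‖ ^ (S * h))⁻¹ := fun g => by
      rw [← one_div, le_div_iff₀ (by positivity)]; exact h1 g
    have := claim hk hi (by omega) (by omega) hhm hΓ z x s e c he hc hl h0 hB
      (one_le_pow₀ hθ.le) (by positivity) (fun g => ⟨hz g, ?_, hε g⟩) (hDi ▸ hI)
      (hd _ (by nlinarith)) ?_
    · rwa [← hDi, ← pow_mul ‖θ‖, ← pow_add] at this
    · have h2 := IsUltrametricDist.norm_add_le_max (z g) (x g - z g)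
      rw [add_sub_cancel, norm_sub_rev] at h2
      exact h2.trans (max_le (hz g) ((hε g).trans ((inv_le_one_of_one_le₀
        (one_le_pow₀ hθ.le)).trans hB)))
    · rw [← hDi, ← pow_mul ‖θ‖, ← pow_mul ‖θ‖, ← pow_add, mul_assoc, ← pow_add,
        inv_mul_le_iff₀ (by positivity), mul_one]
      refine pow_le_pow_right₀ hθ.le ?_
      have := Nat.mul_le_mul_left h hmD
      nlinarith

end Pool.Agent.CSU.SA.HP
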