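import Pool.Agent.Lib.MP_0370b2_nt.SA.St
import Pool.Agent.Lib.MP_0370b2_nt.SA.HP1

/-! The honest point, in the form of the block statement. -/

namespace Pool.Agent.CSU.SA

theorem hp : HPS := by
  intro n
  obtain ⟨c0, H⟩ := HP.hp0 n
  refine ⟨c0 + 3, by omega, ?_⟩
  intro k F Γ _ _ _ _ _ _ _ z g0 h S0 h1 h2 h3 h4 h5 h6
  obtain ⟨S, a, b, z', c, d, e⟩ := H k F Γ (z g0) z g0 h S0 norm_fin h1 rfl h2 h3 h5 h6 h4
  exact ⟨S, z', a, b.trans (Nat.mul_le_mul_left _ (pow_le_pow_right' (by omega) (by omega))),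
    c, d, e⟩

end Pool.Agent.CSU.SA
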