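import Pool.Agent.Lib.MP_0370b2_nt.SA.MLa

/-! The measure for one level. -/

namespace Pool.Agent.CSU.SA

open Polynomial Finset Module

lemma M7.cf {R : Type} [Semiring R] {μ : ℕ} (c : Fin μ → R) (n : ℕ) :
    (∑ i : Fin μ, monomial (i : ℕ) (c i)).coeff n = if h : n < μ then c ⟨n, h⟩ else 0 := by
  rw [finsetSum_coeff]
  split_ifs with h
  · rw [sum_eq_single ⟨n, h⟩ (fun i _ hi => coeff_monomial_of_ne _ fun e => hi (Fin.ext e.symm))
      (by simp), coeff_monomial_same]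
  · exact sum_eq_zero fun i _ => coeff_monomial_of_ne _ fun e => h (e ▸ i.2)

theorem ml (hHP : HPS) (hAn : AnmS) (hTj : TjS) (hQq : QqS) (hNum : NumS) (hM0 : Ml0S)
    (hNear : NearS) : MlS := by
  intro k _ _ n hn
  have hq : 2 ≤ Fintype.card k := Fintype.one_lt_card
  obtain ⟨c0, hc0, H0⟩ := hHP n
  obtain ⟨a, ν, δ, ha, hν, hcnt, hnum⟩ := hNum _ n (3 * c0 + 4) hq hn
  obtain ⟨κ0, M0⟩ := hM0 (Fintype.card k) n δ
  refine ⟨3 * c0 + 4, a, ν, 3 * κ0 * Fintype.card k ^ a, by omega, ha, hcnt, ?_⟩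
  intro F _ _ _ _ _ θ U W e C1 CT hθ hU h1 hθU hgr hUW hkW hTau
  have hcc := M7.cc_pw hUW hkW a
  have hfr := fr k F
  obtain ⟨σ, hσ⟩ := hfr.ex
  have hAn' := fun u μ => hAn k F θ u σ μ hθ hσ
  have hTj' := fun (ι : Type) [Fintype ι] [DecidableEq ι] v G h1 h2 =>
    hTj k F ι θ W CT e a ν v G hθ ha (hUW θ hθU) hTau h1 h2
  have hNear' := fun (ι : Type) [Fintype ι] v x' e P D β h ε =>
    hNear k F ι θ σ v x' e P D β h ε hθ hσ
  have hσR : ∀ x : F × F, (RingHom.prodMap σ σ) x = x ^ Fintype.card k := fun x =>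
    Prod.ext (hσ _) (hσ _)
  generalize hqq : Fintype.card k = q at *
  set μ := q ^ a with hμ
  set E := e + a with hE
  set lam := ((δ + 1) ^ n) ^ 2 * (n * δ + μ) + (δ + 1) ^ n + 1 with hlam
  have hμ1 : 1 ≤ μ := Nat.one_le_pow _ _ (by omega)
  have hθ0 : 0 < ‖θ‖ := by positivity
  obtain ⟨t0, ht0⟩ := pow_unbounded_of_one_lt CT hθ
  obtain ⟨M, m1, m2, m3, m4, m5, m6, m7, m8, m9⟩ : ∃ M, n + 2 ≤ M ∧ μ ^ (n + 1) ≤ M ∧
      (δ + 1) ^ n ≤ M ∧ δ ≤ M ∧ q ^ (E + 3) ≤ M ∧ q ^ lam ≤ M ∧ t0 ≤ M ∧ C1 ≤ M ∧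
      3 * κ0 * μ ≤ M :=
    ⟨n + 2 + μ ^ (n + 1) + (δ + 1) ^ n + δ + q ^ (E + 3) + q ^ lam + t0 + C1 + 3 * κ0 * μ,
      by omega⟩
  obtain ⟨P1, hP1⟩ := M7.big hq (20 * M ^ 5)
  refine ⟨P1 + 1, ?_⟩
  intro P hP ι _ _ v L Sp G α0 hj hL hv hSp hNP hG hG0 hmax
  by_contra hcon
  rw [not_lt] at hcon
  obtain ⟨d, hd1, hd2⟩ := hnum _ hj P (by omega)
  have hY := hP1 P (by omega)
  rw [mul_assoc, ← mul_pow] at hY
  have hMB : M ≤ M * (P + 1) := Nat.le_mul_of_pos_right _ (by omega)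
  have hPB : P + 1 ≤ M * (P + 1) := Nat.le_mul_of_pos_left _ (by omega)
  have hμM : μ ≤ M := (Nat.le_self_pow (by omega) _).trans m2
  have hdμ : d ≤ μ * P := le_trans (Nat.le_add_right _ _) hd1
  have hdB : d ≤ M * (P + 1) := hdμ.trans (Nat.mul_le_mul hμM (by omega))
  have hκB : 3 * κ0 * μ * P ≤ M * (P + 1) := Nat.mul_le_mul m9 (by omega)
  generalize M * (P + 1) = B at *
  have hB1 : 1 ≤ B := by omega
  have hB5 : B ≤ B ^ 5 := Nat.le_self_pow (by omega) _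
  have hEB : q ^ E ≤ B := (Nat.pow_le_pow_right (by omega) (by omega)).trans (m5.trans hMB)
  have hμj : μ ^ (Fintype.card ι + 1) ≤ B :=
    (Nat.pow_le_pow_right hμ1 (by omega)).trans (m2.trans hMB)
  have hqc : q ^ ((3 * c0 + 4) * P) = (q ^ P) ^ (3 * c0 + 4) := by rw [mul_comm, pow_mul]
  rw [hqc] at hcon
  set Y := q ^ P with hYd
  have hY3 : Y ≤ Y ^ 3 := Nat.le_self_pow (by omega) _
  set G0 := (G α0).eval θ with hG0d
  have hG0' : 0 < ‖G0‖ := norm_pos_iff.2 hG0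
  let y : ι → F := fun l => phi q θ (v l) E 0
  let x : ι → F := fun l => cE q θ (v l) ^ q ^ E
  let z : Option (ι ⊕ ι ⊕ (ι → Fin ν) × Fin μ) → F := fun g =>
    g.elim θ (Sum.elim y (Sum.elim x fun p => (taylor θ (G p.1)).coeff p.2 / G0))
  have hρ1 : (‖θ‖ ^ L)⁻¹ ≤ 1 := inv_le_one_of_one_le₀ (one_le_pow₀ hθ.le)
  have hvρ : ∀ l, ‖v l‖ / ‖θ‖ ≤ (‖θ‖ ^ L)⁻¹ := fun l => by
    rw [div_le_iff₀ hθ0, inv_mul_eq_div, le_div_iff₀ (by positivity)]; exact (hv l).2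
  have hv1 : ∀ l, ‖v l‖ ≤ 1 := fun l => le_of_mul_le_mul_right
    ((mul_le_mul_of_nonneg_left (le_self_pow₀ hθ.le (by omega)) (norm_nonneg _)).trans
      ((hv l).2.trans_eq (one_mul _).symm)) hθ0
  have hE1 : 0 < E := by omega
  have hy : ∀ l m, 0 < m → ‖phi q θ (v l) m 0‖ ≤ (‖θ‖⁻¹) ^ q ^ m := fun l m hm => by
    obtain ⟨a1, -, -, a2⟩ := hAn' (v l) 1 m 0 hm
    rw [← a1 le_rfl]
    refine (a2 (hv1 l) 0 one_pos).trans ?_
    rw [← one_div]
    gcongr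
    exact hv1 l
  have hy1 : ∀ l m, 0 < m → ‖phi q θ (v l) m 0‖ ≤ 1 := fun l m hm =>
    (hy l m hm).trans (pow_le_one₀ (by positivity) (inv_le_one_of_one_le₀ hθ.le))
  have hx : ∀ l, ‖x l‖ ≤ ‖θ‖ ^ q ^ E := fun l => by
    obtain ⟨a1, a2, -, -⟩ := hAn' (v l) 1 E 0 hE1
    have a3 := X_pow_dvd_iff.1 a2 0 one_pos
    simp only [coeff_sub, coeff_add, mul_coeff_zero, coeff_X_zero, coeff_C_zero, a1 le_rfl,
      (hAn' (v l) 1 (E + 1) 0 (by omega)).1 le_rfl, pow_zero, pow_one, zero_add] at a3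
    have a4 : x l = phi q θ (v l) (E + 1) 0 + (θ ^ q ^ E + -θ) * phi q θ (v l) E 0 := by
      simp only [x]; linear_combination -a3
    have a5 : ‖θ‖ ≤ ‖θ‖ ^ q ^ E := le_self_pow₀ hθ.le (by positivity)
    rw [a4]
    refine (IsUltrametricDist.norm_add_le_max _ _).trans (max_le
      ((hy1 l _ (by omega)).trans (hθ.le.trans a5)) ?_)
    rw [norm_mul]
    exact (mul_le_of_le_one_right (norm_nonneg _) (hy1 l E hE1)).trans
      ((IsUltrametricDist.norm_add_le_max _ _).trans (max_le (by simp) (by simpa using a5)))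
  have hGU : ∀ α l, (taylor θ (G α)).coeff l ∈ U ^ (μ * Y) := fun α =>
    M7.cc_ht h1 hθU hμ1 Y _ (hG α)
  have hG0U : G0 ∈ U ^ (μ * Y) := by simpa [taylor_coeff_zero] using hGU α0 0
  have hμY : 1 ≤ μ * Y := Nat.mul_pos hμ1 (by omega)
  have hzn : ∀ g, ‖z g‖ ≤ ‖θ‖ ^ Y ^ 3 := by
    have b1 : ∀ m, m ≤ B → ‖θ‖ ^ m ≤ ‖θ‖ ^ Y ^ 3 := fun m hm =>
      pow_le_pow_right₀ hθ.le (by omega)
    rintro (_ | l | l | ⟨α, i⟩)
    · simpa [z] using b1 1 hB1
    · exact (hy1 l E hE1).trans (one_le_pow₀ hθ.le)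
    · exact (hx l).trans (b1 _ hEB)
    · show ‖(taylor θ (G α)).coeff i / G0‖ ≤ ‖θ‖ ^ Y ^ 3
      rw [norm_div, div_le_iff₀ hG0']
      exact (hTau _ (hcc _ _ (hG α)) i i.2).trans (mul_le_mul (ht0.le.trans (b1 _ (by omega)))
        (hmax α) (norm_nonneg _) (by positivity))
  obtain ⟨S, z', hS1, hS2, hz0, hcl, hzero⟩ := H0 k F _ z none (Y ^ 3) L hθ (by
      have : ν ^ Fintype.card ι * μ ≤ μ ^ (Fintype.card ι + 1) := by rw [pow_succ]; gcongr
      simp only [Fintype.card_option, Fintype.card_sum, Fintype.card_prod, Fintype.card_fun,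
        Fintype.card_fin]
      omega) (by omega) hL hzn (fun D hD => by
      refine (M7.transfer hU hG0 (D0 := μ * Y + μ * Y) (M7.pw_le h1 (by omega) hG0U) z ?_ D).trans
        ((hgr _ (Nat.mul_pos (by omega) hD)).trans ?_)
      · rintro (_ | l | l | ⟨α, i⟩)
        · exact M7.pw_mul hG0U (M7.pw_le h1 hμY (by simpa [z] using hθU))
        · exact M7.pw_mul hG0U (hv l).1.2.2
        · refine M7.pw_mul hG0U ?_
          show cE q θ (v l) ^ q ^ (e + a) ∈ _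
          rw [pow_add, pow_mul (cE q θ (v l)), mul_comm μ]
          exact M7.pw_pow (hv l).1.2.1 _
        · show G0 * ((taylor θ (G α)).coeff i / G0) ∈ _
          rw [mul_div_cancel₀ _ hG0]
          exact M7.pw_le h1 (by omega) (hGU α i)
      · refine (Nat.mul_le_mul_right _ (Nat.le_self_pow (by omega : n ≠ 0) C1)).trans ?_
        rw [← mul_pow, ← mul_assoc]
        gcongr
        have := M7.n3 hB1 hY (m8.trans hMB) (hμM.trans hMB) hB1
        have a4 : Y * Y ≤ Y ^ 3 := by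
          rw [← sq]; exact Nat.pow_le_pow_right (by omega) (by omega)
        nlinarith)
  simp only [show z none = θ from rfl] at hz0 hcl hzero
  have hcl' : ∀ g, ‖z g - z' g‖ ≤ (‖θ‖ ^ (S * Y ^ 3))⁻¹ := fun g => by
    rw [← one_div, le_div_iff₀ (by positivity)]; exact hcl g
  have hY4 : 4 ≤ Y := by omega
  have hS0 : (Y ^ 3) ^ 3 ≤ S := (Nat.le_mul_of_pos_left _ hL).trans hS1
  have hlB : q ^ lam ≤ B := m6.trans hMB
  have hx1 : μ * P * (q ^ lam * Y) ≤ Y * Y := by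
    have := M7.n3 hB1 hY (hμM.trans hMB) (by omega : P ≤ B) hlB
    rw [← mul_assoc]; exact Nat.mul_le_mul_right _ (by omega)
  have hx2 : d * (q ^ lam * Y) ≤ Y * Y := by
    have := M7.n3 hB1 hY hdB hlB hB1
    rw [← mul_assoc]; exact Nat.mul_le_mul_right _ (by omega)
  have e4 := M7.n4 hY4 hS0 hx1
  have e5 := (M7.n5 hY4 hc0 hL hS2 hx1 hx2 (by omega : q ^ lam ≤ Y)).1
  have e6 := (M7.n5 hY4 hc0 hL hS2 hx1 hx2 (by omega : t0 ≤ Y)).2
  have hZ : 1 ≤ ‖θ‖ ^ Y ^ 3 := one_le_pow₀ hθ.le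
  have hε1 : (‖θ‖ ^ (S * Y ^ 3))⁻¹ < 1 := inv_lt_one_of_one_lt₀ (one_lt_pow₀ hθ (by omega))
  let zz := fun g => (z g, z' g)
  let γ : (ι → Fin ν) → (F × F)[X] := fun α =>
    ∑ i : Fin μ, monomial (i : ℕ) (zz (some (.inr (.inr (α, i)))))
  let yy : ι → F × F := fun l => zz (some (.inl l))
  obtain ⟨q1, -, -, q4, q5⟩ := hQq k ι (F × F) ν γ yy
  have hzz : ∀ g, zz g ∈ U1 k zz := HP.sp_mem zz
  obtain ⟨β, g, hβ, ⟨l0, hl0, hβ0⟩, hg⟩ := M0 k ι F ⟨q, E, μ, σ.prodMap σ, (θ, θ), yy,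
      fun l => zz (some (.inr (.inl l))), QQ γ yy⟩ σ θ (U1 k zz) Sp
    (fun m i l => Jm q μ θ (v l) (E + m) i) ν d P ((3 * c0 + 4) * P) (1 + Fintype.card ι * ν)
    (Y ^ 2) (Y ^ 3) lam S (‖θ‖ ^ L)⁻¹ ((‖θ‖ ^ (S * Y ^ 3))⁻¹ * (‖θ‖ ^ Y ^ 3) ^ Y ^ 3)
    (‖θ‖ ^ (S * Y ^ 3))⁻¹ ((‖θ‖ ^ Y ^ 3) ^ Y ^ 3) hqq rfl hj hθ rfl hE1 hμ1 hσR hσ (HP.sp_one zz)
    (by simpa [zz, hz0, z] using hzz none) (fun l => ⟨hzz _, hzz _⟩)
    (q5 _ (HP.sp_one zz) (fun l => hzz _) fun α m => by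
      rw [M7.cf]; split_ifs; exacts [hzz _, zero_mem _])
    (fun p hp => by
      have := HP.cl_pow (k := k) norm_fin hZ (by positivity) zz (fun g => ⟨hzn g, ?_, hcl' g⟩) _ p hp
      · exact ⟨hzero p hp, this.1, this.2.2⟩
      have h2 := IsUltrametricDist.norm_add_le_max (z g) (z' g - z g)
      rw [add_sub_cancel, norm_sub_rev] at h2
      exact h2.trans (max_le (hzn g) ((hcl' g).trans (hε1.le.trans hZ))))
    hν (by
      obtain ⟨α, hα⟩ := (hQq k ι F ν (fun α => (γ α).map (RingHom.snd F F))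
        fun l => (yy l).2).2.1 α0 fun h => by
          have h2 := hcl' (some (.inr (.inr (α0, ⟨0, hμ1⟩))))
          rw [coeff_map, M7.cf, dif_pos (show 0 < μ from hμ1)] at h
          rw [show z' _ = 0 from h, sub_zero, show z _ = (taylor θ (G α0)).coeff 0 / G0 from rfl,
            taylor_coeff_zero, div_self hG0, norm_one] at h2
          exact absurd hε1 (not_lt.2 h2)
      refine ⟨α, fun h => hα ?_⟩
      have := congrArg (fun f => (MvPolynomial.coeff α f).coeff 0) (q4 F (RingHom.snd F F))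
      simp only [coeff_tw, coeff_map] at this
      exact this.symm.trans h)
    q1 hd2 hd1 (M7.n1 hB1 hY ((Nat.pow_le_pow_right (by omega) hj).trans (m3.trans hMB)) hdB
      (by omega) hμj (by omega) (by omega) hEB (by omega))
    (by show _ ≤ _ + _ + 1; gcongr <;> omega)
    (by
      show _ + 2 * _ * δ * q ^ (E + P + lam) ≤ _
      rw [pow_add q (E + P), pow_add q E]
      exact M7.n2 hB1 hY hlB hdB (by omega) (by omega) hEB)
    (by show q ^ (E + 3) ≤ _; omega)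
    (fun l => (hAn' (v l) μ E 0 hE1).1 hμ1)
    (fun m i l hi => by
      obtain ⟨-, a2, a3, a4⟩ := hAn' (v l) μ (E + m) i (by omega)
      refine ⟨?_, a3, fun j hj => (a4 (hv1 l) j hj).trans ((pow_le_pow_left₀ (by positivity)
        (hvρ l) _).trans (pow_le_pow_of_le_one (by positivity) hρ1
          (Nat.pow_le_pow_right (by omega) (by omega))))⟩
      rwa [pow_add q E m, pow_mul (cE q θ (v l)), ← pow_add q E m] at a2)
    (by positivity) hρ1 (by positivity) (one_le_pow₀ hZ) (mul_comm _ _).le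
    (by
      rw [← pow_mul ‖θ‖, inv_mul_lt_iff₀ (by positivity), mul_one]
      exact pow_lt_pow_right₀ hθ (by omega))
    (fun j hj => by
      have h2 := (hQq k ι F ν (fun α => (γ α).map (RingHom.fst F F))
        fun l => (yy l).1).2.2.1 fun l => Jm q μ θ (v l) E 0
      have h3 := hTj' ι v G (fun l => ⟨hv1 l, Submodule.pow_induction_on_left (C := (· ∈ W)) _ hkW
        (fun _ _ => add_mem) (fun m hm _ hx => mul_mem (hUW m hm) hx) (hv l).1.1⟩)
        (fun α => hcc _ _ (hG α)) j hj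
      have h4 : X ^ μ ∣ val (fun α => (γ α).map (RingHom.fst F F)) (fun l => Jm q μ θ (v l) E 0) -
          C G0⁻¹ * val (fun α => taylor θ (G α)) fun l => Jm q μ θ (v l) E 0 := by
        rw [val, val, mul_sum, ← sum_sub_distrib]
        refine dvd_sum fun α _ => ?_
        rw [← mul_assoc, ← sub_mul]
        refine Dvd.dvd.mul_right (X_pow_dvd_iff.2 fun i hi => ?_) _
        rw [coeff_sub, coeff_map, M7.cf, dif_pos hi, coeff_C_mul, inv_mul_eq_div]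
        exact sub_self _
      have h5 := X_pow_dvd_iff.1 h4 j hj
      rw [coeff_sub, sub_eq_zero, coeff_C_mul, ← h2] at h5
      show ‖(MvPolynomial.eval _ (tw _ (QQ γ yy))).coeff j‖ ≤ _
      rw [q4]
      refine (congrArg norm h5).trans_le ?_
      rw [norm_mul, norm_inv, inv_mul_le_iff₀ hG0', ← div_eq_mul_inv, le_div_iff₀ (by positivity)]
      refine le_trans ?_ hcon
      refine (mul_le_mul_of_nonneg_right (h3.trans (mul_le_mul_of_nonneg_right ht0.le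
        (norm_nonneg _))) (by positivity)).trans ?_
      rw [mul_comm (_ ^ t0), mul_assoc, ← pow_add]
      exact mul_le_mul_of_nonneg_left (pow_le_pow_right₀ hθ.le e6) (norm_nonneg _))
    (by
      show _ * ‖θ‖ ^ (μ * P * q ^ (lam + P)) * _ ≤ _
      rw [mul_assoc, max_mul_of_nonneg _ _ (by positivity), pow_add q lam P, pow_add q P, hqc,
        inv_pow]
      simp only [← pow_mul ‖θ‖, ← pow_add ‖θ‖, ← hYd]
      refine max_le ?_ ?_
      · rw [mul_assoc, ← pow_add]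
        exact M7.ex_le hθ (by omega)
      · rw [mul_comm (_ ^ _) _⁻¹, mul_assoc, ← pow_add]
        exact M7.ex_le hθ (by omega))
    hSp.1 (fun l hl => by
      obtain ⟨b1, b2⟩ := hSp.2 l hl
      have b3 : cE q θ (θ * v l) ^ q ^ E = θ ^ q ^ E * x l + x l ^ q := by
        rw [hfr.cE_th hθ, hfr.add_pow, mul_pow, pow_right_comm]
      rw [sq, mul_assoc] at b1 b2
      rw [hfr.phi_th hθ _ hE1, hfr.phi_th hθ _ hE1, b3] at b2
      refine ⟨?_, b2.trans_eq (congrArg norm ?_)⟩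
      · show θ ^ q ^ E * (θ ^ q ^ E * x l + x l ^ q) + (θ ^ q ^ E * x l + x l ^ q) ^ q = 0
        rw [← b3, pow_right_comm, ← mul_pow, ← hfr.add_pow, ← hfr.cE_th hθ, b1]
        exact zero_pow (by positivity)
      · show _ = θ ^ 2 * y l + θ * x l + (θ ^ q ^ E * x l + x l ^ q)
        simp only [pow_zero, pow_one, x, y]
        ring)
  have hdeg : ∀ l, (β l).natDegree ≤ 3 * κ0 * μ * P := fun l => (hβ l).trans (by
    have : 1 ≤ μ * P := Nat.mul_pos hμ1 (by omega)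
    rw [mul_assoc, mul_comm 3, mul_assoc]
    exact Nat.mul_le_mul_left _ (by omega))
  obtain ⟨w, hw0, hw⟩ := hNear' ι v (fun l => z' (some (.inr (.inl l)))) E P _ β g
    (‖θ‖ ^ (L * Y + 3 * κ0 * μ * P))⁻¹ (by positivity) (inv_le_one_of_one_le₀ (one_le_pow₀ hθ.le))
    (fun l => ⟨(hcl' (some (.inr (.inl l)))).trans (by
      rw [inv_pow, ← pow_mul ‖θ‖]
      exact inv_anti₀ (by positivity) (pow_le_pow_right₀ hθ.le
        (M7.n6 hY4 hL hS1 (by omega) (by omega)))), hdeg l⟩) hg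
  refine absurd (hNP β hdeg l0 hl0 hβ0 w hw0) (not_lt.2 ((mul_le_mul_of_nonneg_right hw
    (by positivity)).trans ?_))
  rw [mul_comm (_ ^ _) _⁻¹, mul_assoc, ← pow_add]
  exact M7.ex_le hθ (add_comm _ _).le

end Pool.Agent.CSU.SA
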