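import Pool.Agent.Lib.MP_0370b2_nt.SA.Ex
import Pool.Agent.Lib.MP_0370b2_nt.SA.Cram

/-! Lifting of the auxiliary row, with heights. -/

namespace Pool.Agent.CSU.SA

open Polynomial Finset

namespace AX

section Ht

variable {k ι R : Type} [Field k] [CommRing R] [Algebra k R] {U : Submodule k R}

lemma h_mono (h1 : (1 : R) ∈ U) {a b : ℕ} {f : PP ι R} (h : HtP U a f) (hab : a ≤ b) :
    HtP U b f := fun α n => Cm.pw_mono h1 hab (h α n)

lemma h_add {a : ℕ} {f g : PP ι R} (hf : HtP U a f) (hg : HtP U a g) : HtP U a (f + g) :=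
  fun α n => by rw [MvPolynomial.coeff_add, coeff_add]; exact add_mem (hf α n) (hg α n)

lemma h_sub {a : ℕ} {f g : PP ι R} (hf : HtP U a f) (hg : HtP U a g) : HtP U a (f - g) :=
  fun α n => by rw [MvPolynomial.coeff_sub, coeff_sub]; exact sub_mem (hf α n) (hg α n)

lemma h_mul {a b : ℕ} {f g : PP ι R} (hf : HtP U a f) (hg : HtP U b g) :
    HtP U (a + b) (f * g) := by
  classical
  intro α n
  change co (f * g) α n ∈ _
  rw [co_mul, pow_add]
  exact Submodule.sum_mem _ fun x _ => Submodule.sum_mem _ fun y _ =>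
    Submodule.mul_mem_mul (hf _ _) (hg _ _)

lemma h_mon {a : ℕ} {w : R} (hw : w ∈ U ^ a) (β : ι →₀ ℕ) (b : ℕ) :
    HtP U a (MvPolynomial.monomial β (monomial b w) : PP ι R) := by
  classical
  intro α n
  rw [MvPolynomial.coeff_monomial]
  split_ifs
  · rw [coeff_monomial]
    split_ifs
    · exact hw
    · exact zero_mem _
  · exact zero_mem _

lemma one_mem_pw (h1 : (1 : R) ∈ U) (a : ℕ) : (1 : R) ∈ U ^ a :=
  Cm.pw_mono h1 a.zero_le (by rw [pow_zero]; exact Submodule.one_le.1 le_rfl)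

lemma h_CC {a : ℕ} {w : R} (hw : w ∈ U ^ a) : HtP U a (MvPolynomial.C (C w) : PP ι R) :=
  h_mon hw 0 0

lemma h_t (h1 : (1 : R) ∈ U) (a : ℕ) : HtP U a (MvPolynomial.C X : PP ι R) :=
  h_mon (one_mem_pw h1 a) 0 1

lemma h_Y (h1 : (1 : R) ∈ U) (a : ℕ) (l : ι) : HtP U a (MvPolynomial.X l : PP ι R) :=
  h_mon (one_mem_pw h1 a) _ 0

lemma h_pow (h1 : (1 : R) ∈ U) {a : ℕ} {f : PP ι R} (hf : HtP U a f) (n : ℕ) :
    HtP U (n * a) (f ^ n) := by
  induction n with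
  | zero => rw [pow_zero]; exact h_CC (one_mem_pw h1 _)
  | succ n ih => rw [pow_succ, Nat.succ_mul]; exact h_mul ih hf

lemma h_prod (h1 : (1 : R) ∈ U) {κ : Type} (s : Finset κ) {a : ℕ} {f : κ → PP ι R}
    (hf : ∀ l, HtP U a (f l)) : HtP U (s.card * a) (∏ l ∈ s, f l) := by
  classical
  induction s using Finset.induction_on with
  | empty => rw [prod_empty]; exact h_CC (one_mem_pw h1 _)
  | insert x s hx ih =>
    rw [prod_insert hx, card_insert_of_notMem hx, Nat.succ_mul, add_comm]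
    exact h_mul (hf x) ih

lemma pw_pow {a : ℕ} {w : R} (hw : w ∈ U ^ a) (n : ℕ) : w ^ n ∈ U ^ (a * n) := by
  rw [pow_mul]; exact Submodule.pow_mem_pow _ hw n

lemma iter_eq {σ : R →+* R} {q : ℕ} (hσ : ∀ a, σ a = a ^ q) (i : ℕ) (a : R) :
    σ^[i] a = a ^ q ^ i := by
  induction i with
  | zero => simp
  | succ i ih => rw [Function.iterate_succ_apply', ih, hσ, ← pow_mul, ← pow_succ]

lemma h_VV (s : Sys ι R) (h1 : (1 : R) ∈ U) (hθ : s.θ ∈ U) (hy : ∀ l, s.y l ∈ U ∧ s.x l ∈ U)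
    (hq : 2 ≤ s.q) (i m : ℕ) (l : ι) : HtP U (2 * s.q ^ (s.e + (i + m))) (s.VV i m l) := by
  have hp : ∀ {w : R}, w ∈ U → ∀ a b c : ℕ, a ≤ b → s.q ^ b ≤ c → w ^ s.q ^ a ∈ U ^ c :=
    fun hw a b c h2 h3 => Cm.pw_mono h1 ((Nat.pow_le_pow_right (by omega) h2).trans h3)
      (Submodule.pow_mem_pow _ hw _)
  induction m with
  | zero =>
    exact h_add (h_CC (hp (hy l).1 i (s.e + (i + 0)) _ (by omega) (by omega))) (h_Y h1 _ l)
  | succ m ih =>
    have h2 : s.q ^ (s.e + (i + m)) + 2 * s.q ^ (s.e + (i + m)) ≤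
        2 * s.q ^ (s.e + (i + (m + 1))) := by
      rw [← add_assoc i, ← add_assoc s.e (i + m), pow_succ]
      nlinarith [Nat.zero_le (s.q ^ (s.e + (i + m)))]
    rw [Sys.VV, map_sub, map_add]
    exact h_add (h_mono h1 (h_mul (h_sub (h_add (h_t h1 _)
      (h_CC (hp hθ i (s.e + (i + m)) _ (by omega) le_rfl))) (h_CC (hp hθ _ _ _ le_rfl le_rfl))) ih)
      h2) (h_CC (hp (hy l).2 (i + m) (s.e + (i + m)) _ (by omega) (by omega)))

lemma jj_C (s : Sys ι R) (i m : ℕ) (p : R[X]) :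
    s.JJ i m (MvPolynomial.C p) = MvPolynomial.C (taylor (s.θ ^ s.q ^ i) p) := by
  rw [Sys.JJ, MvPolynomial.aevalTower_C]; rfl

lemma jj_X (s : Sys ι R) (i m : ℕ) (l : ι) : s.JJ i m (MvPolynomial.X l) = s.VV i m l := by
  rw [Sys.JJ, MvPolynomial.aevalTower_X]

lemma h_JJ [Fintype ι] (s : Sys ι R) (h1 : (1 : R) ∈ U) (hθ : s.θ ∈ U)
    (hy : ∀ l, s.y l ∈ U ∧ s.x l ∈ U) (hq : 2 ≤ s.q) (i m δ d : ℕ) (β : ι →₀ ℕ) (b : ℕ)
    (hβ : ∀ l, β l ≤ δ) (hb : b ≤ d) :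
    HtP U (d * s.q ^ i + Fintype.card ι * (δ * (2 * s.q ^ (s.e + (i + m)))))
      (s.JJ i m (MvPolynomial.monomial β (monomial b 1))) := by
  rw [MvPolynomial.monomial_eq, Finsupp.prod_fintype _ _ (fun _ => pow_zero _), map_mul, map_prod,
    jj_C, ← X_pow_eq_monomial, taylor_X_pow, map_pow, map_add]
  refine h_mul (h_mono h1 (h_pow h1 (h_add (h_t h1 _) (h_CC (Submodule.pow_mem_pow _ hθ _))) b)
    (Nat.mul_le_mul_right _ hb)) (h_prod h1 _ fun l => ?_)
  rw [map_pow, jj_X]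
  exact h_mono h1 (h_pow h1 (h_VV s h1 hθ hy hq i m l) _) (Nat.mul_le_mul_right _ (hβ l))

end Ht

section Map

variable {ι R R' : Type} [CommRing R] [CommRing R']

lemma vv_map (s : Sys ι R) (φ : R →+* R') (σ' : R' →+* R') (i m : ℕ) (l : ι) :
    tw φ (s.VV i m l) = (s.map φ σ').VV i m l := by
  induction m with
  | zero => simp [Sys.VV, tw, Sys.map]
  | succ m ih =>
    rw [Sys.VV, Sys.VV, map_add, map_mul, ih]
    simp [tw, Sys.map]

lemma jj_map (s : Sys ι R) (φ : R →+* R') (σ' : R' →+* R') (i m : ℕ) (f : PP ι R) :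
    tw φ (s.JJ i m f) = (s.map φ σ').JJ i m (tw φ f) := by
  induction f using MvPolynomial.induction_on with
  | C p =>
    rw [jj_C, tw, MvPolynomial.map_C, MvPolynomial.map_C, jj_C]
    simp [Sys.map, taylor_apply, map_comp]
  | add f g hf hg => simp only [map_add, hf, hg]
  | mul_X f l hf =>
    rw [map_mul, map_mul, map_mul, map_mul, hf, jj_X, vv_map s φ σ']
    rw [tw, MvPolynomial.map_X, jj_X]

end Map

lemma aux0 : AuxS := by
  intro k ι R F _ _ _ _ _ U s φ σ' δ d P hq H f h1 hθ hy hQ h2 hσ hσ' hH hf0 hf hg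
  classical
  set h := (d + 2 * Fintype.card ι * δ * s.q ^ s.e + hq) * s.q ^ P with hh
  have hW : (1 : R) ∈ U ^ h := one_mem_pw h1 h
  have hp : ∀ i < P, s.q ^ i ≤ s.q ^ P := fun i hi => Nat.pow_le_pow_right (by omega) hi.le
  have hJ : ∀ i < P, ∀ x : Ix ι (δ + 1) d, HtP U h (s.JJ i (P - i) (mo x)) := fun i hi x => by
    refine h_mono h1 (h_JJ s h1 hθ hy h2 i (P - i) δ d _ _
      (fun l => Nat.le_of_lt_succ (x.1 l).2) x.2.2.le) ?_
    rw [hh, show i + (P - i) = P by omega, pow_add]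
    nlinarith [Nat.mul_le_mul_left d (hp i hi), Nat.zero_le (hq * s.q ^ P)]
  have hQW : ∀ i < P, ∀ α a, co ((tw s.σ)^[i] s.Q) α a ∈ U ^ h := fun i hi α a => by
    rw [co_iter, iter_eq hσ]
    refine Cm.pw_mono h1 ?_ (pw_pow (hQ α a) _)
    exact Nat.mul_le_mul (by omega) (hp i hi)
  have hQm : ∀ i, tw φ ((tw s.σ)^[i] s.Q) = (tw σ')^[i] (tw φ s.Q) := fun i =>
    co_ext fun α a => by rw [co_map, co_iter, co_iter, co_map, iter_eq hσ, iter_eq hσ', map_pow]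
  replace hf := row_iff.1 hf
  choose g hg using hg
  obtain ⟨x0, hx0⟩ : ∃ x : Ix ι (δ + 1) d, co f (ex x) x.2 ≠ 0 := by
    by_contra hn
    push Not at hn
    exact hf0 (hf.eq_mk.trans (by simp [mk, hn]))
  have hM : ∀ (i : Fin P) (α a) (y : Ix ι (δ + 1) d ⊕ Fin P × Ix ι s.μ s.μ),
      Sum.elim (fun x => co (s.JJ i (P - i) (mo x)) α a)
        (fun x : Fin P × Ix ι s.μ s.μ =>
          if x.1 = i then -co (mo x.2 * (tw s.σ)^[i] s.Q) α a else 0) y ∈ U ^ h := by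
    rintro i α a (y | ⟨j, y⟩)
    · exact hJ i i.2 y _ _
    · simp only [Sum.elim_inr]
      split_ifs
      · exact neg_mem (mo_mul_mem _ _ (hQW i i.2) _ _)
      · exact zero_mem _
  obtain ⟨w, hw0, hw, -, hs⟩ := cram (κ := Fin P × Ix ι s.μ s.μ) φ (U ^ h)
    (fun z (y : Ix ι (δ + 1) d ⊕ Fin P × Ix ι s.μ s.μ) =>
      Sum.elim (fun x => co (s.JJ z.1 (P - z.1) (mo x)) (ex z.2) z.2.2)
        (fun x : Fin P × Ix ι s.μ s.μ =>
          if x.1 = z.1 then -co (mo x.2 * (tw s.σ)^[z.1] s.Q) (ex z.2) z.2.2 else 0) y)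
    (Sum.elim (fun x => co f (ex x) x.2) fun x => co (g x.1 x.1.2) (ex x.2) x.2.2) (Sum.inl x0) hW
    (fun z y => hM z.1 _ _ y)
    (by
      rintro ⟨i, x⟩
      have h2 : Ob s.μ (g i i.2 - mk fun x : Ix ι s.μ s.μ => co (g i i.2) (ex x) x.2) :=
        fun α a h2 h3 => by rw [co_sub, co_mk' _ h2 h3, sub_self]
      have h3 := (h2.mul ((tw σ')^[i] (tw φ s.Q))) (ex x) x.2 (fun l => (x.1 l).2) x.2.2
      have h4 : co ((s.map φ σ').JJ i (P - i) f - g i i.2 * (tw σ')^[i] (tw φ s.Q)) (ex x) x.2 = 0 :=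
        box_iff.1 (hg i i.2) (ex x) x.2 (fun l => (x.1 l).2) x.2.2
      have h5 := sys (fun i => ((s.map φ σ').JJ i (P - i)).toLinearMap)
        (fun i => (tw σ')^[i] (tw φ s.Q))
        (Sum.elim (fun x : Ix ι (δ + 1) d => co f (ex x) x.2)
          fun x : Fin P × Ix ι s.μ s.μ => co (g x.1 x.1.2) (ex x.2) x.2.2) i (ex x) x.2
      simp only [Sum.elim_inl, Sum.elim_inr, AlgHom.toLinearMap_apply] at h5
      rw [← hf.eq_mk] at h5
      rw [sub_mul, co_sub] at h3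
      rw [co_sub] at h4 h5
      refine Eq.trans (sum_congr rfl fun y _ => ?_) (h5.symm.trans (by linear_combination h3 + h4))
      congr 1
      rcases y with y | ⟨j, y⟩
      · simp only [Sum.elim_inl]
        rw [← co_map, jj_map s φ σ', map_mo]
      · simp only [Sum.elim_inr]
        split_ifs
        · rw [map_neg, ← co_map, map_mul, map_mo, hQm]
        · exact map_zero φ) hx0
  have hN : Fintype.card (Ix ι (δ + 1) d ⊕ Fin P × Ix ι s.μ s.μ) =
      (δ + 1) ^ Fintype.card ι * d + P * s.μ ^ (Fintype.card ι + 1) := by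
    simp [pow_succ]
  rw [hN] at hw
  generalize (δ + 1) ^ Fintype.card ι * d + P * s.μ ^ (Fintype.card ι + 1) = N at hw hH
  have hle : (U ^ h) ^ (N + 1) ≤ U ^ H := by
    rw [← pow_mul]; exact Cm.pw_mono h1 (by rw [mul_comm]; exact hH)
  have hw' : ∀ y, w y ∈ U ^ H := fun y => hle (Cm.pw_mono hW N.le_succ (hw y))
  refine ⟨mk fun x => w (Sum.inl x),
    fun i => if hi : i < P then mk fun x => w (Sum.inr (⟨i, hi⟩, x)) else 0, row_iff.2 (bx_mk _),
    fun hB => hw0 ?_, mk_mem _ fun x => hw' _, fun i hi => ?_⟩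
  · rw [← co_mk (fun x => w (Sum.inl x)) x0, ← co_map, hB]; simp [co]
  · dsimp only
    rw [dif_pos hi]
    have h5 := sys (fun i => (s.JJ i (P - i)).toLinearMap) (fun i => (tw s.σ)^[i] s.Q) w ⟨i, hi⟩
    refine ⟨mk_mem _ fun x => hw' _, fun α a => hle ?_, box_iff.2 fun α a h2 h3 => ?_⟩
    · rw [pow_succ']
      exact Set.mem_of_eq_of_mem (h5 α a) (Submodule.sum_mem _ fun y _ =>
        Submodule.mul_mem_mul (hM ⟨i, hi⟩ α a y) (hw y))
    · obtain ⟨x, rfl, rfl⟩ := ex_surj h2 h3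
      rw [co_map]
      exact (congrArg φ (h5 _ _)).trans (hs (⟨i, hi⟩, x))

end AX

theorem aux : AuxS := AX.aux0

end Pool.Agent.CSU.SA
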