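import Pool.Agent.Lib.MP_0370b2_nt.SA.St2
import Pool.Agent.Lib.MP_0370b2_nt.SA.Grow
import Pool.Agent.Lib.MP_0370b2_nt.SA.Lift

/-! From a pair of points to a torsion relation at the second point. -/

namespace Pool.Agent.CSU.SA

open Polynomial Finset

/-- The height of a value. -/
def EvH : Prop :=
  ∀ (k ι R : Type) [Field k] [Fintype ι] [CommRing R] [Algebra k R] (U : Submodule k R)
    (s : Sys ι R) (δ d H m a : ℕ) (B : PP ι R), 1 ∈ U → s.θ ∈ U → (∀ l, s.y l ∈ U ∧ s.x l ∈ U) →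
    2 ≤ s.q → (∀ a, s.σ a = a ^ s.q) → Row δ d B → HtP U H B →
    s.ev 0 m ((tw s.σ)^[a] B) ∈
      U ^ (s.q ^ a * H + d + 2 * Fintype.card ι * δ * s.q ^ (s.e + m))

lemma evH : EvH := by
  intro k ι R _ _ _ _ U s δ d H m a B h1 hθ hy hq hσ hR hB
  have hf : HtP U (s.q ^ a * H) ((tw s.σ)^[a] B) := by
    induction a with
    | zero => simpa using hB
    | succ a ih =>
      intro α n
      rw [Function.iterate_succ_apply', coeff_tw, coeff_map, hσ, pow_succ, mul_right_comm]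
      exact Gr.pw_pow (ih α n) _
  have hR' := hR.tw_iter s.σ a
  generalize (tw s.σ)^[a] B = f at hf hR'
  have e : f = ∑ α ∈ f.support, ∑ b ∈ (f.coeff α).support,
      (f.coeff α).coeff b • MvPolynomial.monomial α (monomial b 1) := by
    conv_lhs => rw [f.as_sum]
    refine sum_congr rfl fun α _ => ?_
    conv_lhs => rw [(f.coeff α).as_sum_support, map_sum]
    refine sum_congr rfl fun b _ => ?_
    rw [MvPolynomial.smul_monomial, smul_monomial, smul_eq_mul, mul_one]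
  rw [Sys.ev, e, map_sum, MvPolynomial.coeff_sum, finsetSum_coeff]
  refine sum_mem fun α hα => ?_
  rw [map_sum, MvPolynomial.coeff_sum, finsetSum_coeff]
  refine sum_mem fun b hb => ?_
  rw [map_smul, MvPolynomial.coeff_smul, coeff_smul, smul_eq_mul]
  refine Gr.pw_mono h1 (le_of_eq ?_) (Gr.pw_mul (hf α b) (AX.h_JJ s h1 hθ hy hq 0 m δ d α b
    ((hR' α).2 (MvPolynomial.mem_support_iff.1 hα)) (by
      exact_mod_cast ((le_degree_of_mem_supp b hb).trans_lt (hR' α).1).le) 0 0))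
  rw [zero_add]
  ring

lemma pow_inj {F : Type} [NormedField F] {θ : F} (hθ : 1 < ‖θ‖) {q : ℕ} (hq : 2 ≤ q) :
    Function.Injective fun i : ℕ => θ ^ q ^ i := fun i j h => by
  have := congrArg norm h
  simp only [norm_pow] at this
  exact Nat.pow_right_injective hq (pow_right_injective₀ (by positivity) hθ.ne' this)

theorem ml0 : ExS → AuxS → SmallS → AlgS → Ml0S := by
  intro ex aux small alg q n δ
  obtain ⟨κ, hκ⟩ := alg q n δ
  refine ⟨κ, ?_⟩
  intro k ι F _ _ _ _ _ _ _ s σ θ U Sp J ν d P t hq H h lam S ρ r r' Z hk hsq hn hθ hth he hμ hsσ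
    hσ h1 hθU hyx hQ hp hν hQ0 hQs hcnt hdeg hH hlam hh hh3 hJ0 hJ ρ0 ρ1 r0 Z1 hZr r1 hQs' hsm hSp
    hspec
  classical
  subst hsq
  have q2 : 2 ≤ s.q := hk ▸ Fintype.one_lt_card
  set s1 := s.map (RingHom.fst F F) σ with hs1
  set s2 := s.map (RingHom.snd F F) σ with hs2
  have t1 : s1.θ = θ := congrArg Prod.fst hth
  have t2 : s2.θ = θ := congrArg Prod.snd hth
  have c1 : ∀ a, RingHom.fst F F (s.σ a) = σ (RingHom.fst F F a) := fun a => by
    rw [hsσ, hσ, map_pow]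
  have c2 : ∀ a, RingHom.snd F F (s.σ a) = σ (RingHom.snd F F a) := fun a => by
    rw [hsσ, hσ, map_pow]
  have hex : ∃ d, ∃ f, f ≠ 0 ∧ Row δ d f ∧ ∀ i < P, s2.Cond i (P - i) f := ⟨d, ex ι F s2 ν δ d P hν
    (hQ0.imp fun α h => by simpa [hs2, Sys.map] using h)
    (fun α h => hQs α fun h0 => h (by simp [hs2, Sys.map, h0])) hcnt⟩
  have hle : Nat.find hex ≤ d := Nat.find_min' hex (ex ι F s2 ν δ d P hν
    (hQ0.imp fun α h => by simpa [hs2, Sys.map] using h)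
    (fun α h => hQs α fun h0 => h (by simp [hs2, Sys.map, h0])) hcnt)
  obtain ⟨f, f0, fR, fC⟩ := Nat.find_spec hex
  obtain ⟨d1, hd1⟩ : ∃ d1, Nat.find hex = d1 + 1 := Nat.exists_eq_add_one_of_ne_zero fun h0 =>
    f0 (MvPolynomial.ext _ _ fun α => by
      have := (fR α).1
      rw [h0] at this
      simpa using this)
  have hmin : ∀ f, Row δ d1 f → (∀ i < P, s2.Cond i (P - i) f) → f = 0 := fun f a b =>
    by_contra fun c => Nat.find_min hex (by omega : d1 < Nat.find hex) ⟨f, c, a, b⟩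
  rw [hd1] at fR hle
  obtain ⟨B, g, BR, B0, BH, hg⟩ := aux k ι (F × F) F U s (RingHom.snd F F) σ δ (d1 + 1) P hq H f h1
    hθU hyx hQ q2 hsσ hσ (le_trans (by gcongr) hH) f0 fR fC
  have Hh : U ^ H ≤ U ^ h := Gr.pw_mono h1 (by
    have := Nat.le_mul_of_pos_left H (pow_pos (show 0 < s.q by omega) lam)
    omega)
  have hev : ∀ a ≤ lam, s2.ev 0 (P + a) ((tw s2.σ)^[a] (tw (RingHom.snd F F) B)) = 0 := by
    intro a ha
    have q1 : 1 ≤ s.q := by omega
    have hm := Gr.pw_mono h1 (b := h) (le_trans (by rw [add_assoc s.e]; gcongr) hh)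
      (evH k ι _ U s δ d H (P + a) a B h1 hθU hyx q2 hsσ (BR.mono hle) BH)
    have e2 := s.ev_map (RingHom.snd F F) σ 0 (P + a) ((tw s.σ)^[a] B)
    have e1 := s.ev_map (RingHom.fst F F) σ 0 (P + a) ((tw s.σ)^[a] B)
    rw [tw_iter_map c2] at e2
    rw [tw_iter_map c1] at e1
    refine e2.symm.trans ((hp _ hm).1 (le_trans ?_ hsm))
    refine mul_le_mul_of_nonneg_right ?_ (by positivity)
    have hs := small ι F s1 J (tw (RingHom.fst F F) B) (fun i => tw (RingHom.fst F F) (g i)) δ d P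
      a t ρ r r' Z (t1 ▸ hθ) q2 he hμ hσ hJ0 (by rw [t1]; exact hJ) ρ0 ρ1 r0 Z1 hZr r1.le
      ((BR.mono hle).tw _) hdeg (fun α n => by
        rw [coeff_tw, coeff_map]; exact (hp _ (Hh (BH α n))).2.1)
      (fun i hi => ⟨fun α n => by
        rw [coeff_tw, coeff_map]; exact (hp _ (Hh ((hg i hi).1 α n))).2.1, fun α hα n hn => by
        have a1 := X_pow_dvd_iff.1 ((hg i hi).2.2 α hα) n hn
        have a2 := (hp _ (Hh ((hg i hi).2.1 α n))).2.2
        rw [coeff_tw, coeff_map] at a1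
        rw [show (_ : F × F).2 = 0 from a1, sub_zero] at a2
        have a3 : tw (RingHom.fst F F) (s.JJ i (P - i) B - g i * (tw s.σ)^[i] s.Q) =
            s1.JJ i (P - i) (tw (RingHom.fst F F) B) -
              tw (RingHom.fst F F) (g i) * (tw s1.σ)^[i] s1.Q := by
          rw [map_sub, map_mul, s.JJ_map _ σ, tw_iter_map c1]
          rfl
        rw [← a3, coeff_tw, coeff_map]
        exact a2⟩) hQs'
    rw [t1] at hs
    refine le_trans (le_of_eq (congrArg norm e1)) (hs.trans ?_)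
    change max r (Z ^ s.q ^ a * ‖θ‖ ^ (d * s.q ^ (a + P)) * ρ ^ s.q ^ (P + a + t)) *
      ‖θ‖ ^ (s.μ * P * s.q ^ (a + P)) ≤ _
    have hθ1 := hθ.le
    refine mul_le_mul (max_le_max le_rfl (mul_le_mul (by gcongr) (pow_le_pow_of_le_one ρ0 ρ1
      (by gcongr; omega)) (by positivity) (by positivity))) (by gcongr) (by positivity)
      (le_max_of_le_right (by positivity))
  have hU : ∀ {p : F × F} {a : ℕ}, p ∈ U ^ a → a ≤ s.q ^ (s.e + 3) → p ∈ U ^ h := fun hp ha =>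
    Gr.pw_mono h1 (ha.trans hh3) hp
  have hsp2 : ∀ l ∈ Sp, s2.θ ^ s.q ^ s2.e * (s2.θ ^ s.q ^ s2.e * s2.x l + s2.x l ^ s.q) +
      (s2.θ ^ s.q ^ s2.e * s2.x l + s2.x l ^ s.q) ^ s.q = 0 ∧
      s2.θ ^ 2 * s2.y l + s2.θ * s2.x l + (s2.θ ^ s.q ^ s2.e * s2.x l + s2.x l ^ s.q) ≠ 0 := by
    intro l hl
    have e1 : 1 ≤ s.q ^ s.e := Nat.one_le_pow _ _ (by omega)
    have e2 : s.q ≤ s.q ^ s.e := Nat.le_self_pow (by omega) _
    have e3 : s.q ^ (s.e + 3) = s.q * (s.q * (s.q * s.q ^ s.e)) := by ring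
    have e4 := Nat.mul_le_mul_right (s.q ^ s.e) q2
    have e5 := Nat.mul_le_mul_right (s.q * s.q ^ s.e) q2
    have e6 := Nat.mul_le_mul_right (s.q * (s.q * s.q ^ s.e)) q2
    have e7 : 2 * s.q ^ s.e * s.q = 2 * (s.q * s.q ^ s.e) := by ring
    have u1 : ∀ {p : F × F}, p ∈ U → p ∈ U ^ 1 := fun hp => by rwa [pow_one]
    have hw : s.θ ^ s.q ^ s.e * s.x l + s.x l ^ s.q ∈ U ^ (2 * s.q ^ s.e) := add_mem
      (Gr.pw_mono h1 (by omega) (Gr.pw_mul (Gr.pw_pow (u1 hθU) _) (u1 (hyx l).2)))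
      (Gr.pw_mono h1 (by omega) (Gr.pw_pow (u1 (hyx l).2) _))
    have hA := (hp _ (add_mem (hU (Gr.pw_mul (Gr.pw_pow (u1 hθU) (s.q ^ s.e)) hw) (by omega))
      (hU (Gr.pw_pow hw s.q) (by omega)))).1
    have hB := (hp _ (add_mem (add_mem (hU (Gr.pw_mul (Gr.pw_pow (u1 hθU) 2) (u1 (hyx l).1))
      (by omega)) (hU (Gr.pw_mul (u1 hθU) (u1 (hyx l).2)) (by omega)))
      (hU hw (by omega)))).2.2
    simp only [Prod.fst_add, Prod.fst_mul, Prod.pow_fst, Prod.snd_add, Prod.snd_mul, Prod.pow_snd,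
      hth] at hA hB
    rw [t2]
    refine ⟨hA (by rw [(hspec l hl).1]; simp), fun h0 => ?_⟩
    rw [show θ ^ 2 * (s.y l).2 + θ * (s.x l).2 + (θ ^ s.q ^ s.e * (s.x l).2 + (s.x l).2 ^ s.q) = 0
      from h0, sub_zero] at hB
    linarith [(hspec l hl).2]
  obtain ⟨β, g', b1, b2, b3⟩ := hκ k ι F s2 Sp d1 P (tw (RingHom.snd F F) B) hk rfl hn he hσ
    (by rw [t2]; exact pow_inj hθ q2) hSp hsp2 B0 (BR.tw _) (fun i hi => ⟨tw (RingHom.snd F F) (g i), by
      have := (hg i hi).2.2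
      rwa [map_sub, map_mul, s.JJ_map _ σ, tw_iter_map c2] at this⟩) hmin
    fun a _ ha => hev a (ha.trans hlam)
  refine ⟨β, g', fun l => (b1 l).trans (by gcongr; omega), b2, ?_⟩
  rw [t2] at b3
  exact b3

end Pool.Agent.CSU.SA
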