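import Pool.Agent.Lib.MP_0370b2_nt.SA.St

/-! Removal of the variables level by level (abstract form). -/

namespace Pool.Agent.CSU.SA

open Polynomial Finset

theorem mult_prod {F ι : Type} [NormedField F] [IsUltrametricDist F] (s : Finset ι)
    (y z : ι → F) (ε : ℝ) (h0 : 0 ≤ ε) (hy : ∀ l, ‖y l‖ ≤ 1) (hz : ∀ l, ‖z l‖ ≤ 1)
    (h : ∀ l, ‖z l - y l‖ ≤ ε) : ‖∏ l ∈ s, z l - ∏ l ∈ s, y l‖ ≤ ε := by
  classical
  induction s using Finset.induction_on with
  | empty => simpa using h0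
  | insert a s ha ih =>
    rw [prod_insert ha, prod_insert ha]
    have e : z a * ∏ l ∈ s, z l - y a * ∏ l ∈ s, y l =
        z a * (∏ l ∈ s, z l - ∏ l ∈ s, y l) + (z a - y a) * ∏ l ∈ s, y l := by ring
    rw [e]
    refine (IsUltrametricDist.norm_add_le_max _ _).trans (max_le ?_ ?_)
    · rw [norm_mul]
      exact (mul_le_of_le_one_left (norm_nonneg _) (hz a)).trans ih
    · rw [norm_mul, norm_prod]
      exact (mul_le_of_le_one_right (norm_nonneg _)
        (prod_le_one (fun _ _ => norm_nonneg _) fun l _ => hy l)).trans (h a)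

theorem mult_pow {F : Type} [NormedField F] [IsUltrametricDist F] (y z : F) (ε : ℝ) (h0 : 0 ≤ ε)
    (hy : ‖y‖ ≤ 1) (hz : ‖z‖ ≤ 1) (h : ‖z - y‖ ≤ ε) (n : ℕ) : ‖z ^ n - y ^ n‖ ≤ ε := by
  simpa using mult_prod (range n) (fun _ => y) (fun _ => z) ε h0 (fun _ => hy) (fun _ => hz)
    fun _ => h

theorem mult_sum {F ι : Type} [NormedField F] [IsUltrametricDist F] [Fintype ι] (f : ι → F)
    (r : ℝ) (h0 : 0 ≤ r) (h : ∀ i, ‖f i‖ ≤ r) : ‖∑ i, f i‖ ≤ r :=
  IsUltrametricDist.norm_sum_le_of_forall_le_of_nonneg h0 fun i _ => h i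

theorem mult_mono {k A : Type} [Field k] [CommRing A] [Algebra k A] {U : Submodule k A}
    (h1 : (1 : A) ∈ U) {a b : ℕ} (h : a ≤ b) : U ^ a ≤ U ^ b :=
  pow_le_pow_right' (Submodule.one_le.2 h1) h

theorem mult_mem {k A ι : Type} [Field k] [CommRing A] [Algebra k A] {U : Submodule k A}
    (s : Finset ι) (f : ι → A) (n : ℕ) (h : ∀ i, f i ∈ U ^ n) :
    ∏ i ∈ s, f i ∈ U ^ (s.card * n) := by
  classical
  induction s using Finset.induction_on with
  | empty => simpa using (Submodule.one_le (R := k) (A := A)).1 le_rfl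
  | insert a s ha ih =>
    rw [prod_insert ha, card_insert_of_notMem ha, add_mul, one_mul, add_comm, pow_add]
    exact Submodule.mul_mem_mul (h a) ih

theorem mult_split {F ι : Type} [Field F] [Fintype ι] [DecidableEq ι] (ν : ℕ) (p : ι → Prop)
    [DecidablePred p] (g : (ι → Fin ν) → F) (y : ι → F) :
    ∑ α, g α * ∏ l, y l ^ (α l : ℕ) =
      ∑ b : {l // ¬ p l} → Fin ν, (∑ a : {l // p l} → Fin ν,
        g ((Equiv.piEquivPiSubtypeProd p fun _ => Fin ν).symm (a, b)) *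
          ∏ l : {l // p l}, y l ^ (a l : ℕ)) * ∏ l : {l // ¬ p l}, y l ^ (b l : ℕ) := by
  rw [← (Equiv.piEquivPiSubtypeProd p fun _ => Fin ν).symm.sum_comp, Fintype.sum_prod_type,
    sum_comm]
  refine sum_congr rfl fun b _ => ?_
  rw [sum_mul]
  refine sum_congr rfl fun a _ => ?_
  rw [mul_assoc, ← Fintype.prod_subtype_mul_prod_subtype p]
  congr 2
  · exact Fintype.prod_congr _ _ fun l => by simp [Equiv.piEquivPiSubtypeProd, l.2]
  · exact Fintype.prod_congr _ _ fun l => by simp [Equiv.piEquivPiSubtypeProd, l.2]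

theorem mult_aux {k F ι0 : Type} [Field k] [NormedField F] [IsUltrametricDist F] [Algebra k F]
    (θ : F) (hθ : 1 < ‖θ‖) (q ν c c1 C0 P1 Pm N : ℕ) (hq : 2 ≤ q) (hc1 : 1 ≤ c1)
    (CC : Submodule k F[X]) (h1 : (1 : F[X]) ∈ CC) (y : ι0 → F) (hy : ∀ l, ‖y l‖ ≤ 1)
    (L : ι0 → ℕ) (hL1 : ∀ l, 1 ≤ L l) (hsep : ∀ l m, L l < L m → L l * q ^ C0 ≤ L m)
    (hC0 : c * Pm + 1 ≤ C0)
    (hML : ∀ (ι : Type) [Fintype ι] [DecidableEq ι] (e : ι → ι0) (L0 P : ℕ)
      (G : (ι → Fin ν) → F[X]) (α0 : ι → Fin ν), Function.Injective e → Nonempty ι →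
      (∀ l, L (e l) = L0) → P1 ≤ P → P ≤ Pm → (∀ α, G α ∈ CC ^ q ^ P) → (G α0).eval θ ≠ 0 →
      (∀ α, ‖(G α).eval θ‖ ≤ ‖(G α0).eval θ‖) →
      ‖(G α0).eval θ‖ ≤
        ‖∑ α, (G α).eval θ * ∏ l, y (e l) ^ (α l : ℕ)‖ * ‖θ‖ ^ (L0 * q ^ (c * P)))
    (hAP : ∀ P, P1 ≤ P → P ≤ Pm → ∃ (D : F) (H : ℕ) (p : ι0 → F[X]), D ≠ 0 ∧ C D ∈ CC ^ H ∧
      q ^ P + N * (ν * H) ≤ q ^ (c1 * P) ∧ ∀ l, p l ∈ CC ^ H ∧
        ‖(p l).eval θ - D * y l‖ * ‖θ‖ ^ (2 * L l * q ^ (c * P)) ≤ ‖D‖) (n : ℕ) :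
    ∀ (ι : Type) [Fintype ι] [DecidableEq ι] (e : ι → ι0) (P Th : ℕ) (G : (ι → Fin ν) → F[X])
      (α1 : ι → Fin ν), Fintype.card ι ≤ n → n ≤ N → Function.Injective e → P1 ≤ P →
      P * c1 ^ n ≤ Pm → (∀ α, G α ∈ CC ^ q ^ P) → 1 ≤ Th →
      (∀ l, 2 * L (e l) * q ^ (c * P) ≤ Th) → (G α1).eval θ ≠ 0 →
      ‖∑ α, (G α).eval θ * ∏ l, y (e l) ^ (α l : ℕ)‖ * ‖θ‖ ^ Th ≤ ‖(G α1).eval θ‖ → False := by
  have hθ0 : 0 < ‖θ‖ := by linarith
  have hemp : ∀ (ι : Type) [Fintype ι] [DecidableEq ι] [IsEmpty ι] (e : ι → ι0) (Th : ℕ)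
      (G : (ι → Fin ν) → F[X]) (α1 : ι → Fin ν), 1 ≤ Th → (G α1).eval θ ≠ 0 →
      ‖∑ α, (G α).eval θ * ∏ l, y (e l) ^ (α l : ℕ)‖ * ‖θ‖ ^ Th ≤ ‖(G α1).eval θ‖ → False := by
    intro ι _ _ _ e Th G α1 hTh hG h
    rw [Fintype.sum_eq_single α1 fun β hβ => absurd (Subsingleton.elim _ _) hβ] at h
    simp only [univ_eq_empty, prod_empty, mul_one] at h
    have h2 : 1 < ‖θ‖ ^ Th := one_lt_pow₀ hθ (by omega)
    have h3 := norm_pos_iff.2 hG
    nlinarith
  induction n with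
  | zero =>
    intro ι _ _ e P Th G α1 hc _ _ _ _ _ hTh _ hG h
    have : IsEmpty ι := Fintype.card_eq_zero_iff.1 (by omega)
    exact hemp ι e Th G α1 hTh hG h
  | succ n ih =>
    intro ι _ _ e P Th G α1 hc hN he hP hPm hG hTh hThL hG1 h
    rcases isEmpty_or_nonempty ι with hι | hι
    · exact hemp ι e Th G α1 hTh hG1 h
    obtain ⟨l0, hl0⟩ := Finite.exists_max fun l => L (e l)
    have : Nonempty (ι → Fin ν) := ⟨α1⟩
    obtain ⟨α0, hα0⟩ := Finite.exists_max fun α => ‖(G α).eval θ‖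
    have hM : 0 < ‖(G α0).eval θ‖ := (norm_pos_iff.2 hG1).trans_le (hα0 α1)
    have h' := h.trans (hα0 α1)
    have hc1n : 1 ≤ c1 ^ n := Nat.one_le_pow _ _ hc1
    have hP' : c1 * P * c1 ^ n ≤ Pm := by rw [pow_succ] at hPm; nlinarith
    have hP'' : c1 * P ≤ Pm := by nlinarith
    have hPP : P ≤ c1 * P := by nlinarith
    obtain ⟨D, H, pl, hD, hDm, hH, hpl⟩ := hAP P hP (hPP.trans hP'')
    set p : ι → Prop := fun l => L (e l) = L (e l0) with hp
    set E := (Equiv.piEquivPiSubtypeProd p fun _ => Fin ν) with hE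
    set A := L (e l0) * q ^ (c * P) with hA
    have hA1 : 1 ≤ A := Nat.mul_pos (hL1 _) (Nat.pow_pos (by omega))
    set M := ‖(G α0).eval θ‖ with hMd
    set t := ‖θ‖ ^ A with ht
    have ht1 : 1 < t := one_lt_pow₀ hθ (by omega)
    have ht0 : 0 < t := by linarith
    set s : ({l // ¬ p l} → Fin ν) → F := fun b => ∑ a : {l // p l} → Fin ν,
      (G (E.symm (a, b))).eval θ * ∏ l : {l // p l}, y (e l) ^ (a l : ℕ) with hs
    set z : {l // p l} → F := fun l => (pl (e l)).eval θ / D with hz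
    set s' : ({l // ¬ p l} → Fin ν) → F := fun b => ∑ a : {l // p l} → Fin ν,
      (G (E.symm (a, b))).eval θ * ∏ l : {l // p l}, z l ^ (a l : ℕ) with hs'
    have hD0 : 0 < ‖D‖ := norm_pos_iff.2 hD
    have hε0 : 0 ≤ (t * t)⁻¹ := by positivity
    have hε1 : (t * t)⁻¹ ≤ 1 := inv_le_one_of_one_le₀ (by nlinarith)
    have hzy : ∀ l : {l // p l}, ‖z l - y (e l)‖ ≤ (t * t)⁻¹ := fun l => by
      have h2 := (hpl (e l)).2
      have h3 : 2 * L (e l) * q ^ (c * P) = A + A := by rw [show L (e l) = _ from l.2]; ring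
      rw [h3, pow_add] at h2
      have h4 : z l - y (e l) = ((pl (e l)).eval θ - D * y (e l)) / D := by
        rw [hz]; field_simp
      rw [h4, norm_div, div_le_iff₀ hD0, inv_mul_eq_div, le_div_iff₀ (by positivity)]
      exact h2
    have hz1 : ∀ l : {l // p l}, ‖z l‖ ≤ 1 := fun l => by
      rw [show z l = (z l - y (e l)) + y (e l) by ring]
      exact (IsUltrametricDist.norm_add_le_max _ _).trans (max_le ((hzy l).trans hε1) (hy _))
    have hss : ∀ b, ‖s' b - s b‖ ≤ M * (t * t)⁻¹ := fun b => by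
      rw [hs', hs]
      simp only [← sum_sub_distrib, ← mul_sub]
      refine mult_sum _ _ (by positivity) fun a => ?_
      rw [norm_mul]
      refine mul_le_mul (hα0 _) ?_ (norm_nonneg _) hM.le
      refine mult_prod _ _ _ _ hε0 (fun l => ?_) (fun l => ?_) fun l =>
        mult_pow _ _ _ hε0 (hy _) (hz1 l) (hzy l) _
      · rw [norm_pow]; exact pow_le_one₀ (norm_nonneg _) (hy _)
      · rw [norm_pow]; exact pow_le_one₀ (norm_nonneg _) (hz1 l)
    have hEα : E.symm ((E α0).1, (E α0).2) = α0 := E.symm_apply_apply α0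
    have hml : M ≤ ‖s (E α0).2‖ * t := by
      have := hML {l // p l} (fun l => e l) (L (e l0)) P (fun a => G (E.symm (a, (E α0).2)))
        (E α0).1 (he.comp Subtype.val_injective) ⟨⟨l0, rfl⟩⟩ (fun l => l.2) hP (hPP.trans hP'')
        (fun a => hG _) (by rw [hEα]; exact norm_pos_iff.1 hM)
        (fun a => by rw [hEα]; exact hα0 _)
      rwa [hEα] at this
    have hlt : M * (t * t)⁻¹ < M * t⁻¹ := by
      refine mul_lt_mul_of_pos_left ?_ hM
      exact inv_strictAnti₀ ht0 (by nlinarith)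
    have hsb : M * t⁻¹ ≤ ‖s (E α0).2‖ := by rwa [← div_eq_mul_inv, div_le_iff₀ ht0]
    have hs'b : M * t⁻¹ ≤ ‖s' (E α0).2‖ := by
      by_contra hcon
      have h5 : ‖s (E α0).2‖ ≤ max ‖s' (E α0).2‖ ‖s' (E α0).2 - s (E α0).2‖ := by
        have := IsUltrametricDist.norm_add_le_max (s' (E α0).2) (-(s' (E α0).2 - s (E α0).2))
        rwa [norm_neg, show s' (E α0).2 + -(s' (E α0).2 - s (E α0).2) = s (E α0).2 by ring] at this
      have h6 := max_lt (not_le.1 hcon) ((hss (E α0).2).trans_lt hlt)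
      linarith
    have hY : ∀ b : {l // ¬ p l} → Fin ν, ‖∏ l : {l // ¬ p l}, y (e l) ^ (b l : ℕ)‖ ≤ 1 :=
      fun b => by
        rw [norm_prod]
        exact prod_le_one (fun _ _ => norm_nonneg _) fun l _ => by
          rw [norm_pow]; exact pow_le_one₀ (norm_nonneg _) (hy _)
    have hsum : ‖∑ b, s' b * ∏ l : {l // ¬ p l}, y (e l) ^ (b l : ℕ)‖ ≤ M * (t * t)⁻¹ := by
      have e1 : ∑ b, s' b * ∏ l : {l // ¬ p l}, y (e l) ^ (b l : ℕ) =
          (∑ α, (G α).eval θ * ∏ l, y (e l) ^ (α l : ℕ)) +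
            ∑ b, (s' b - s b) * ∏ l : {l // ¬ p l}, y (e l) ^ (b l : ℕ) := by
        rw [mult_split ν p (fun α => (G α).eval θ) fun l => y (e l), ← sum_add_distrib]
        exact sum_congr rfl fun b _ => by rw [hs]; ring
      rw [e1]
      refine (IsUltrametricDist.norm_add_le_max _ _).trans (max_le ?_ ?_)
      · rw [← div_eq_mul_inv, le_div_iff₀ (by positivity)]
        refine le_trans (mul_le_mul_of_nonneg_left ?_ (norm_nonneg _)) h'
        rw [ht, ← pow_add]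
        refine pow_le_pow_right₀ hθ.le (le_trans (le_of_eq ?_) (hThL l0))
        rw [hA]; ring
      · refine mult_sum _ _ (by positivity) fun b => ?_
        rw [norm_mul]
        exact (mul_le_of_le_one_right (norm_nonneg _) (hY b)).trans (hss b)
    set G' : ({l // ¬ p l} → Fin ν) → F[X] := fun b => ∑ a : {l // p l} → Fin ν,
      G (E.symm (a, b)) * ∏ l : {l // p l}, (pl (e l) ^ (a l : ℕ) * C D ^ (ν - a l)) with hG'
    have hev : ∀ b, (G' b).eval θ = D ^ (ν * Fintype.card {l // p l}) * s' b := fun b => by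
      rw [hG', hs']
      simp only [eval_finsetSum, eval_mul, eval_prod, eval_pow, eval_C, mul_sum]
      refine sum_congr rfl fun a _ => ?_
      rw [mul_left_comm, pow_mul, ← card_univ, ← prod_const, ← prod_mul_distrib]
      congr 1
      refine prod_congr rfl fun l _ => ?_
      have hw : D ^ ν = D ^ (a l : ℕ) * D ^ (ν - a l) := by
        rw [← pow_add, Nat.add_sub_cancel' (a l).2.le]
      rw [hz, div_pow, hw]
      field_simp
    have hDp : 0 < ‖D ^ (ν * Fintype.card {l // p l})‖ := norm_pos_iff.2 (pow_ne_zero _ hD)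
    have hcard : Fintype.card {l // ¬ p l} ≤ n := by
      have := Fintype.card_subtype_lt (p := fun l => ¬ p l) (x := l0) (not_not.2 rfl)
      omega
    refine ih {l // ¬ p l} (fun l => e l) (c1 * P) A G' (E α0).2 hcard (by omega)
      (he.comp Subtype.val_injective) (hP.trans hPP) hP' (fun b => ?_) hA1 (fun l => ?_) ?_ ?_
    · refine Submodule.sum_mem _ fun a _ => mult_mono h1 (le_trans ?_ hH) (a :=
        q ^ P + (univ : Finset {l // p l}).card * (ν * H)) ?_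
      · have := Fintype.card_subtype_le p
        rw [card_univ]
        exact Nat.add_le_add_left (Nat.mul_le_mul_right _ (by omega)) _
      · rw [pow_add]
        refine Submodule.mul_mem_mul (hG _) (mult_mem _ _ _ fun l => ?_)
        have h7 : ν * H = H * (a l : ℕ) + H * (ν - a l) := by
          rw [← mul_add, Nat.add_sub_cancel' (a l).2.le, mul_comm]
        rw [h7, pow_add, pow_mul, pow_mul]
        exact Submodule.mul_mem_mul (Submodule.pow_mem_pow _ (hpl _).1 _)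
          (Submodule.pow_mem_pow _ hDm _)
    · have h8 := hsep _ _ (lt_of_le_of_ne (hl0 l) l.2)
      have h9 : 2 * q ^ (c * (c1 * P)) ≤ q ^ C0 := by
        calc 2 * q ^ (c * (c1 * P)) ≤ q * q ^ (c * (c1 * P)) := Nat.mul_le_mul_right _ hq
          _ = q ^ (c * (c1 * P) + 1) := by ring
          _ ≤ q ^ C0 := Nat.pow_le_pow_right (by omega)
            (le_trans (Nat.add_le_add_right (Nat.mul_le_mul_left _ hP'') _) hC0)
      calc 2 * L (e l) * q ^ (c * (c1 * P)) = L (e l) * (2 * q ^ (c * (c1 * P))) := by ring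
        _ ≤ L (e l) * q ^ C0 := Nat.mul_le_mul_left _ h9
        _ ≤ L (e l0) := h8
        _ ≤ A := Nat.le_mul_of_pos_right _ (Nat.pow_pos (by omega))
    · rw [hev]
      refine mul_ne_zero (pow_ne_zero _ hD) (norm_pos_iff.1 (lt_of_lt_of_le ?_ hs'b))
      positivity
    · simp only [hev, mul_assoc, ← mul_sum, norm_mul]
      refine mul_le_mul_of_nonneg_left (le_trans ?_ hs'b) hDp.le
      calc _ ≤ M * (t * t)⁻¹ * t := mul_le_mul_of_nonneg_right hsum ht0.le
        _ = M * t⁻¹ := by field_simp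

theorem mult_num (q n N ν c e a P0 P : ℕ) (hq : 2 ≤ q) (hN : N ≤ n) (h0 : P0 ≤ P)
    (hP : 1 + n * ν * (1 + (c + 2) ^ 2) * q ^ (1 + e + a) ≤ P) :
    q ^ P + N * (ν * ((q ^ P0 + (c * P + 1 + 1) ^ 2) * q ^ (c * P + 1 + e + a))) ≤
      q ^ ((c + 3) * P) := by
  have h1 : P ≤ q ^ P := (Nat.lt_pow_self (by omega)).le
  have hP1 : 1 ≤ P := by omega
  have h2 : q ^ P0 ≤ (q ^ P) ^ 2 :=
    (Nat.pow_le_pow_right (by omega) h0).trans (Nat.le_self_pow (by omega) _)
  have h3 : (c * P + 1 + 1) ^ 2 ≤ (c + 2) ^ 2 * (q ^ P) ^ 2 := by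
    rw [← mul_pow]
    exact Nat.pow_le_pow_left (by nlinarith) _
  have h4 : q ^ P ≤ q ^ ((c + 2) * P) := Nat.pow_le_pow_right (by omega) (by nlinarith)
  calc _ ≤ q ^ ((c + 2) * P) +
        n * (ν * (((q ^ P) ^ 2 + (c + 2) ^ 2 * (q ^ P) ^ 2) * q ^ (c * P + 1 + e + a))) := by
        gcongr
    _ = q ^ ((c + 2) * P) * (1 + n * ν * (1 + (c + 2) ^ 2) * q ^ (1 + e + a)) := by ring
    _ ≤ q ^ ((c + 2) * P) * q ^ P := Nat.mul_le_mul_left _ (hP.trans h1)
    _ = _ := by ring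

/-- The levels are removed from the top. -/
theorem mult (hap : ApS) (haph : ApHS) : MultS := by
  intro k F _ _ _ _ _ _ U θ n e a ν c κ P1 hθ h1 hθU hc ha hml
  have hq : 2 ≤ Fintype.card k := Fintype.one_lt_card
  refine ⟨P1 + (1 + n * ν * (1 + (c + 2) ^ 2) * Fintype.card k ^ (1 + e + a)), ?_⟩
  intro m P P0 PM Th ι _ _ v L Sp G α0 hP2 hP0 hm hn hPM hv hsep hSp hNP hG hG0 _ hTh h
  have hθ0 : 0 < ‖θ‖ := by linarith
  have hv1 : ∀ l, ‖v l‖ ≤ 1 := fun l => by
    have h2 := (hv l).2.2.1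
    have h3 : ‖θ‖ ≤ ‖θ‖ ^ L l := le_self_pow₀ hθ.le (by have := (hv l).1; omega)
    have h4 := mul_le_mul_of_nonneg_left h3 (norm_nonneg (v l))
    nlinarith
  refine mult_aux θ hθ (Fintype.card k) ν c (c + 3) (c * PM + 1) P PM (Fintype.card ι) hq
    (by omega) (CC (Fintype.card k ^ a) U) (Submodule.subset_span (Set.mem_insert _ _))
    (fun l => phi (Fintype.card k) θ (v l) (e + a) 0)
    (fun l => (hap k F θ (v l) (e + a) a 0 hθ (hv1 l) (by omega)).1) L (fun l => (hv l).1) hsep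
    le_rfl ?_ ?_ (Fintype.card ι) ι id P Th G α0 le_rfl le_rfl Function.injective_id le_rfl
    ((Nat.mul_le_mul_left _ (Nat.pow_le_pow_right (by omega) hm)).trans hPM) hG hTh
    (fun l => (hv l).2.2.2) hG0 h
  · intro ι' _ _ f L0 P' G' α hf hne hL hP' hPM' hG' hα hmax
    obtain ⟨l0⟩ := hne
    have hqq : Fintype.card k ^ P0 ≤ Fintype.card k ^ P' :=
      Nat.pow_le_pow_right (by omega) (hP0.trans hP')
    refine (hml P' (by omega) ι' (fun l => v (f l)) L0 (f ⁻¹' Sp) G' α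
      ((Fintype.card_le_of_injective f hf).trans hn) (hL l0 ▸ (hv _).1) (fun l => ⟨?_, ?_⟩)
      ⟨hSp.1.preimage hf, fun l hl => hSp.2 _ hl⟩ ?_ hG' hα hmax).le
    · obtain ⟨d1, d2, d3⟩ := (hv (f l)).2.1
      exact ⟨mult_mono h1 hqq d1, mult_mono h1 hqq d2,
        mult_mono h1 (Nat.mul_le_mul_left _ hqq) d3⟩
    · exact hL l ▸ (hv (f l)).2.2.1
    · intro β hβ l hl hβl lam hlam
      have h5 := hNP (Function.extend f β 0) (fun i => ?_) (f l) hl
        (by rwa [hf.extend_apply]) lam hlam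
      · have h6 : ∑ i, aeval θ (Function.extend f β 0 i) * v i = ∑ i, aeval θ (β i) * v (f i) := by
          refine (Fintype.sum_of_injective f hf _ _ (fun i hi => ?_) fun i => ?_).symm
          · rw [Function.extend_apply' _ _ _ hi]; simp
          · rw [hf.extend_apply]
        rw [h6] at h5
        refine h5.trans_le (mul_le_mul_of_nonneg_left (pow_le_pow_right₀ hθ.le ?_) (norm_nonneg _))
        exact hL l ▸ Nat.mul_le_mul_left _ hqq
      · by_cases hi : ∃ j, f j = i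
        · obtain ⟨j, rfl⟩ := hi
          rw [hf.extend_apply]
          exact (hβ j).trans (Nat.mul_le_mul_left _ hPM')
        · rw [Function.extend_apply' _ _ _ hi]; simp
  · intro P' hP' _
    obtain ⟨d1, d2, d3⟩ := haph k F U θ e a (c * P' + 1) (Fintype.card k ^ P0) hθ ha h1 hθU
    refine ⟨_, _, _, pow_ne_zero _ d1, d2,
      mult_num _ n _ ν c e a P0 P' hq hn (hP0.trans hP') (by omega),
      fun l => ⟨d3 (v l) (hv l).2.1.1, ?_⟩⟩
    rw [eval_mul, eval_C, ← mul_sub, norm_mul, mul_assoc, norm_sub_rev]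
    refine mul_le_of_le_one_right (norm_nonneg _) ?_
    have h7 := (hap k F θ (v l) (e + a) a (c * P' + 1) hθ (hv1 l) (by omega)).2.1
    have h8 : ‖v l‖ / ‖θ‖ * ‖θ‖ ^ L l ≤ 1 := by
      rw [div_mul_eq_mul_div, div_le_one hθ0]; exact (hv l).2.2.1
    have h9 : 2 * L l * Fintype.card k ^ (c * P') ≤
        L l * Fintype.card k ^ (c * P' + 1 + (e + a)) := by
      calc _ = L l * (2 * Fintype.card k ^ (c * P')) := by ring
        _ ≤ L l * (Fintype.card k * Fintype.card k ^ (c * P')) := by gcongr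
        _ = L l * Fintype.card k ^ (c * P' + 1) := by ring
        _ ≤ _ := Nat.mul_le_mul_left _ (Nat.pow_le_pow_right (by omega) (by omega))
    calc _ ≤ (‖v l‖ / ‖θ‖) ^ Fintype.card k ^ (c * P' + 1 + (e + a)) *
          ‖θ‖ ^ (L l * Fintype.card k ^ (c * P' + 1 + (e + a))) :=
          mul_le_mul h7 (pow_le_pow_right₀ hθ.le h9) (by positivity) (by positivity)
      _ = (‖v l‖ / ‖θ‖ * ‖θ‖ ^ L l) ^ Fintype.card k ^ (c * P' + 1 + (e + a)) := by
          rw [mul_pow, ← pow_mul]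
      _ ≤ 1 := pow_le_one₀ (by positivity) h8

end Pool.Agent.CSU.SA
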