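import Pool.Agent.Lib.MP_0370b2_nt.SA.St
import Pool.Agent.Lib.MP_bf776f_nt.SU.Kern
import Pool.Agent.Lib.MP_bf776f_nt.SU.Horn

/-! A torsion relation at a close point gives a close period. -/

namespace Pool.Agent.CSU.SA

open Polynomial Finset

lemma near_aev {k F : Type} [Field k] [Fintype k] [NormedField F] [IsUltrametricDist F]
    [Algebra k F] {θ : F} (hθ : 1 < ‖θ‖) {b : k[X]} {D : ℕ} (hb : b.natDegree ≤ D) :
    ‖aeval θ b‖ ≤ ‖θ‖ ^ D := by
  rw [aeval_def, eval₂_eq_eval_map]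
  simpa using peval_le (b.map (algebraMap k F)) zero_le_one hθ.le le_rfl
    (fun i => by rw [coeff_map]; exact norm_fin _) (natDegree_map_le.trans hb)

theorem near : NearS := by
  intro k F ι _ _ _ _ _ _ _ _ θ σ v x e P D β g ε hθ hσ h0 hε hx hg
  have h := fr k F
  have hq : 0 < Fintype.card k ^ e := pow_pos Fintype.card_pos _
  have h1 : ∀ l, ∃ s, cE (Fintype.card k) θ (v l - s) ^ Fintype.card k ^ e = x l ∧ ‖s‖ ≤ ε :=
    fun l => by
    obtain ⟨r, hr⟩ := IsAlgClosed.exists_pow_nat_eq (x l) hq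
    have h2 : ‖cE (Fintype.card k) θ (v l) - r‖ ≤ ε := by
      have := (hx l).1
      rw [← hr, ← h.sub_pow, norm_pow] at this
      exact (pow_le_pow_iff_left₀ (norm_nonneg _) h0 hq.ne').1 this
    obtain ⟨s, -, es, ns⟩ := h.disc_onto hθ (L := ⊤) (by simp) trivial trivial
      (h2.trans (hε.trans hθ.le))
    exact ⟨s, by rw [h.cE_sub hθ, es, sub_sub_cancel, hr], ns ▸ h2⟩
  choose s hs using h1
  refine ⟨_, horn k F ι θ σ (fun l => v l - s l) (e + P) β g hθ hσ (by
    rw [hg]; simp only [← (hs _).1, ← pow_mul, ← pow_add]), ?_⟩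
  rw [← sum_sub_distrib]
  refine IsUltrametricDist.norm_sum_le_of_forall_le_of_nonneg (by positivity) fun l _ => ?_
  rw [← mul_sub, sub_sub_cancel, norm_mul]
  exact mul_le_mul (near_aev hθ (hx l).2) (hs l).2 (by positivity) (by positivity)

end Pool.Agent.CSU.SA
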