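import Pool.Agent.Lib.MP_0370b2_nt.SA.St2

/-! The choice of the parameters. -/

namespace Pool.Agent.CSU.SA

lemma num_pow (x y j : ℕ) : (x + y) ^ (j + 1) ≤ (x + y) * x ^ j + j * y * (x + y) ^ j := by
  induction j with
  | zero => simp
  | succ j ih =>
    have h1 := Nat.mul_le_mul_left (x + y) ih
    have h2 := Nat.mul_le_mul_left ((x + y) * y) (Nat.pow_le_pow_left (Nat.le_add_right x y) j)
    simp only [pow_succ] at *
    nlinarith

theorem num : NumS := by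
  intro q n c hq hn
  obtain ⟨m, rfl⟩ : ∃ m, n = m + 1 := ⟨n - 1, by omega⟩
  have hle : ∀ {i j : ℕ}, i ≤ j → q ^ i ≤ q ^ j := fun h => Nat.pow_le_pow_right (by omega) h
  have hlt : ∀ i, i < q ^ i := fun i => Nat.lt_pow_self (by omega)
  obtain ⟨b, hb⟩ : ∃ b, b = 2 * (m + 1) * c := ⟨_, rfl⟩
  obtain ⟨b', hb'⟩ : ∃ b', b' = b * (m + 1) + 4 * (m + 1) := ⟨_, rfl⟩
  obtain ⟨r, hr⟩ : ∃ r, r = 1 + m * b' := ⟨_, rfl⟩
  obtain ⟨w, hw⟩ : ∃ w, w = r + b * m + 4 * (m + 1) := ⟨_, rfl⟩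
  have ha : r + b' = w + b := by rw [hw, hb']; ring
  have hw1 : q ^ w - 1 + 1 = q ^ w := by have := hlt w; omega
  refine ⟨r + b', q ^ r, q ^ w - 1, by omega, hle (by omega), le_of_eq ?_, fun j hj P hP => ?_⟩
  · rw [← pow_mul, ← pow_mul, ← pow_succ', ← pow_add, hr]
    congr 1; ring
  have h4 : 4 ≤ q ^ (r + b') * P :=
    ((hlt 3).trans_le (hle (by omega))).trans_le (Nat.le_mul_of_pos_right _ hP)
  refine ⟨q ^ (r + b') * P / 4 + 1, ?_, ?_⟩
  · have h1 : 2 * (j * (q ^ w - 1) * (c * P)) ≤ q ^ (r + b') * P := by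
      calc _ = (q ^ w - 1) * (2 * j * c) * P := by ring
        _ ≤ q ^ w * q ^ b * P := Nat.mul_le_mul_right _ (Nat.mul_le_mul (Nat.sub_le _ _)
            (le_trans (hb ▸ Nat.mul_le_mul_right _ (by omega)) (hlt b).le))
        _ = _ := by rw [← pow_add, ha]
    omega
  · obtain ⟨x, hx⟩ := Nat.exists_eq_add_of_le' (hle (show r ≤ r + b' by omega))
    have h1 := Nat.mul_le_mul_left P (num_pow x (q ^ r) j)
    rw [← hx] at h1
    have h2 : 4 * (P * (j * q ^ r * q ^ (b * j))) ≤ q ^ (r + b') * P := by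
      calc _ = q ^ r * (q ^ (b * j) * (4 * j)) * P := by ring
        _ ≤ q ^ r * (q ^ (b * (m + 1)) * q ^ (4 * (m + 1))) * P :=
            Nat.mul_le_mul_right _ (Nat.mul_le_mul_left _ (Nat.mul_le_mul
              (hle (Nat.mul_le_mul_left _ hj)) (le_trans (by omega) (hlt _).le)))
        _ = _ := by rw [← pow_add, ← pow_add, hb']
    have h3 : P * (j * q ^ r * q ^ (b * j)) < q ^ (r + b') * P / 4 + 1 := by omega
    have h5 := Nat.mul_lt_mul_of_pos_left (k := (q ^ w) ^ j) h3 (by positivity)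
    have h6 : (q ^ w) ^ j * (P * (j * q ^ r * q ^ (b * j))) =
        P * (j * q ^ r * (q ^ (r + b')) ^ j) := by
      rw [ha, pow_add q w b, mul_pow, ← pow_mul q b j]; ring
    rw [hw1, show q ^ (r + b') - q ^ r = x by omega]
    rw [mul_add] at h1
    omega

/-- Powers beat squares. -/
theorem big {q : ℕ} (hq : 2 ≤ q) (A : ℕ) : ∃ P1, ∀ P, P1 ≤ P → A * (P + 1) ^ 2 ≤ q ^ P := by
  refine ⟨3 * (64 * A + 1), fun P hP => ?_⟩
  obtain ⟨m, hm1, hm2⟩ : ∃ m, 3 * m ≤ P ∧ P < 3 * m + 3 := ⟨P / 3, by omega, by omega⟩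
  have h1 : m < q ^ m := Nat.lt_pow_self (by omega)
  calc A * (P + 1) ^ 2 ≤ A * (8 * m) ^ 2 :=
        Nat.mul_le_mul_left _ (Nat.pow_le_pow_left (by omega) _)
    _ = 64 * A * m ^ 2 := by ring
    _ ≤ m * m ^ 2 := Nat.mul_le_mul_right _ (by omega)
    _ = m ^ 3 := by ring
    _ ≤ (q ^ m) ^ 3 := Nat.pow_le_pow_left h1.le _
    _ ≤ q ^ P := by rw [← pow_mul]; exact Nat.pow_le_pow_right (by omega) (by omega)

end Pool.Agent.CSU.SA
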