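import Pool.Agent.Lib.MP_0370b2_nt.SA.St2

/-! Properties of the relation `QQ`. -/

namespace Pool.Agent.CSU.SA

open Polynomial Finset Module

section Ht

variable {k ι R : Type} [Field k] [CommRing R] [Algebra k R] {U : Submodule k R}

lemma qq_one (h1 : (1 : R) ∈ U) (a : ℕ) : (1 : R) ∈ U ^ a := by
  simpa using Submodule.pow_mem_pow U h1 a

lemma qq_mono (h1 : (1 : R) ∈ U) {a b : ℕ} {f : PP ι R} (hf : HtP U a f) (h : a ≤ b) :
    HtP U b f := fun α n => by
  obtain ⟨c, rfl⟩ := Nat.exists_eq_add_of_le h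
  rw [pow_add]
  simpa using Submodule.mul_mem_mul (hf α n) (qq_one h1 c)

lemma qq_mul {a b : ℕ} {f g : PP ι R} (hf : HtP U a f) (hg : HtP U b g) :
    HtP U (a + b) (f * g) := by
  classical
  intro α n
  rw [MvPolynomial.coeff_mul, finsetSum_coeff, pow_add]
  refine Submodule.sum_mem _ fun x _ => ?_
  rw [coeff_mul]
  exact Submodule.sum_mem _ fun y _ => Submodule.mul_mem_mul (hf _ _) (hg _ _)

lemma qq_mon {a : ℕ} {w : R[X]} (hw : ∀ n, w.coeff n ∈ U ^ a) (β : ι →₀ ℕ) :
    HtP U a (MvPolynomial.monomial β w : PP ι R) := by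
  classical
  intro α n
  rw [MvPolynomial.coeff_monomial]
  split_ifs
  exacts [hw n, zero_mem _]

lemma qq_CC {a : ℕ} {w : R} (hw : w ∈ U ^ a) (β : ι →₀ ℕ) :
    HtP U a (MvPolynomial.monomial β (C w) : PP ι R) :=
  qq_mon (fun n => by
    rw [coeff_C]
    split_ifs
    exacts [hw, zero_mem _]) β

lemma qq_pow (h1 : (1 : R) ∈ U) {f : PP ι R} (hf : HtP U 1 f) (n : ℕ) : HtP U n (f ^ n) := by
  induction n with
  | zero => rw [pow_zero]; exact qq_CC (qq_one h1 _) 0
  | succ n ih => rw [pow_succ]; exact qq_mul ih hf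

lemma qq_prod (h1 : (1 : R) ∈ U) {κ : Type} (s : Finset κ) {a : ℕ} {f : κ → PP ι R}
    (hf : ∀ l, HtP U a (f l)) : HtP U (s.card * a) (∏ l ∈ s, f l) := by
  classical
  induction s using Finset.induction_on with
  | empty => rw [prod_empty]; exact qq_CC (qq_one h1 _) 0
  | insert x s hx ih =>
    rw [prod_insert hx, card_insert_of_notMem hx, Nat.succ_mul, add_comm]
    exact qq_mul (hf x) ih

end Ht

section Main

variable {ι R : Type} [CommRing R] [Fintype ι] [DecidableEq ι] {ν : ℕ}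

lemma qq_eq (γ : (ι → Fin ν) → R[X]) (y : ι → R) : QQ γ y = ∑ α, MvPolynomial.C (γ α) *
    ∏ l, (MvPolynomial.X l + MvPolynomial.C (C (y l))) ^ (α l : ℕ) := by
  rw [QQ, map_sum]
  refine sum_congr rfl fun α _ => ?_
  rw [sb, MvPolynomial.aeval_monomial, Finsupp.prod_fintype _ _ (by simp)]
  simp

lemma qq_coeff (γ : (ι → Fin ν) → R[X]) (α0 : ι → Fin ν) :
    (∑ α, MvPolynomial.monomial (Finsupp.equivFunOnFinite.symm fun l => (α l : ℕ)) (γ α) :
      PP ι R).coeff (Finsupp.equivFunOnFinite.symm fun l => (α0 l : ℕ)) = γ α0 := by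
  rw [MvPolynomial.coeff_sum, sum_eq_single α0, MvPolynomial.coeff_monomial, if_pos rfl]
  · intro α _ h
    rw [MvPolynomial.coeff_monomial, if_neg fun e => h (funext fun l =>
      Fin.ext (congrFun (Finsupp.equivFunOnFinite.symm.injective e) l))]
  · simp

omit [Fintype ι] [DecidableEq ι] in
lemma qq_inv (g : ι → R[X]) (f : PP ι R) :
    sb (fun _ => 1) (fun l => -g l) (sb (fun _ => 1) g f) = f := by
  induction f using MvPolynomial.induction_on with
  | C a => simp
  | add p q hp hq => simp only [map_add, hp, hq]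
  | mul_X p l hp => simp [hp]

end Main

theorem qq : QqS := by
  intro k ι R _ _ _ _ _ ν γ y
  refine ⟨fun α hα l => ?_, fun α0 h0 => ?_, fun J => ?_, fun R' _ φ => ?_, fun U h1 hy hγ => ?_⟩
  · obtain ⟨β, h1, h2⟩ := sb_supp _ _ _ hα
    rw [MvPolynomial.coeff_sum] at h1
    obtain ⟨α', -, h3⟩ := exists_ne_zero_of_sum_ne_zero h1
    rw [MvPolynomial.coeff_monomial] at h3
    have h4 := (ite_ne_right_iff.1 h3).1
    subst h4
    exact (h2 l).trans_lt (α' l).2
  · by_contra! h
    apply h0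
    rw [← qq_coeff γ α0, ← qq_inv (fun l => C (y l)) (∑ α, _), sb_eq, finsetSum_coeff]
    exact sum_eq_zero fun β _ => by rw [mul_coeff_zero]; exact mul_eq_zero_of_left (h β) _
  · simp [qq_eq, val]
  · simp [qq_eq]
  · rw [qq_eq]
    intro α n
    rw [MvPolynomial.coeff_sum, finsetSum_coeff]
    refine Submodule.sum_mem _ fun β _ => qq_mul (qq_mon (by simpa using hγ β) 0)
      (qq_prod h1 _ fun l => qq_mono h1 (qq_pow h1 (fun α n => ?_) _) (β l).2.le) α n
    rw [MvPolynomial.coeff_add, coeff_add]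
    exact add_mem (qq_CC (qq_one h1 1) _ α n) (qq_CC (by simpa using hy l) 0 α n)

end Pool.Agent.CSU.SA
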