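import Pool.Agent.Lib.MP_0370b2_nt.S2.Int4

/-! Rational approximation of the jets and Hermite interpolation. -/

namespace Pool.Agent.CSU.SA.Sm

open Polynomial Finset

variable {F : Type} [NormedField F]

/-- The coefficients of index less than `m` have norm at most `r`. -/
def GN (m : ℕ) (r : ℝ) (f : F[X]) : Prop := ∀ l < m, ‖f.coeff l‖ ≤ r

namespace GN

variable {m : ℕ} {r r' : ℝ} {f g : F[X]}

lemma mono (h : GN m r f) (h' : r ≤ r') : GN m r' f := fun l hl => (h l hl).trans h'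

lemma zero (h : 0 ≤ r) : GN m r (0 : F[X]) := fun l _ => by simpa using h

lemma neg (h : GN m r f) : GN m r (-f) := fun l hl => by
  rw [coeff_neg, norm_neg]; exact h l hl

lemma const {a : F} (h : ‖a‖ ≤ r) : GN m r (C a) := fun l _ => by
  rw [coeff_C]
  split_ifs
  exacts [h, by rw [norm_zero]; exact (norm_nonneg a).trans h]

lemma one : GN m 1 (1 : F[X]) := const (a := 1) (by simp)

lemma var : GN m 1 (X : F[X]) := fun l _ => by
  rw [coeff_X]
  split_ifs <;> simp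

lemma of_dvd (h : GN m r f) (h' : X ^ m ∣ g - f) : GN m r g := fun l hl => by
  have := X_pow_dvd_iff.1 h' l hl
  rw [coeff_sub, sub_eq_zero] at this
  rw [this]
  exact h l hl

variable [IsUltrametricDist F]

lemma add (h : GN m r f) (h' : GN m r g) : GN m r (f + g) := fun l hl => by
  rw [coeff_add]; exact nadd_le (h l hl) (h' l hl)

lemma sub (h : GN m r f) (h' : GN m r g) : GN m r (f - g) := fun l hl => by
  rw [coeff_sub]; exact nsub_le (h l hl) (h' l hl)

lemma mul (h : GN m r f) (h' : GN m r' g) : GN m (r * r') (f * g) := fun l hl => by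
  have h0 : 0 ≤ r := (norm_nonneg _).trans (h l hl)
  rw [coeff_mul]
  refine IsUltrametricDist.norm_sum_le_of_forall_le_of_nonneg
    (mul_nonneg h0 ((norm_nonneg _).trans (h' l hl))) fun p hp => ?_
  rw [HasAntidiagonal.mem_antidiagonal] at hp
  rw [norm_mul]
  exact mul_le_mul (h _ (by omega)) (h' _ (by omega)) (norm_nonneg _) h0

lemma pow (h : GN m r f) (n : ℕ) : GN m (r ^ n) (f ^ n) := by
  induction n with
  | zero => simpa using one
  | succ n ih => rw [pow_succ, pow_succ]; exact ih.mul h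

lemma sum {ι : Type} (s : Finset ι) (f : ι → F[X]) (h0 : 0 ≤ r) (h : ∀ i ∈ s, GN m r (f i)) :
    GN m r (∑ i ∈ s, f i) :=
  sum_induction _ (GN m r) (fun _ _ => add) (zero h0) h

lemma prod {ι : Type} (s : Finset ι) (f : ι → F[X]) (r : ι → ℝ) (h : ∀ i ∈ s, GN m (r i) (f i)) :
    GN m (∏ i ∈ s, r i) (∏ i ∈ s, f i) := by
  classical
  induction s using Finset.induction_on with
  | empty => simpa using one
  | insert a s ha ih =>
    rw [prod_insert ha, prod_insert ha]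
    exact (h a (mem_insert_self _ _)).mul (ih fun i hi => h i (mem_insert_of_mem hi))

end GN

/-- Two jets of size `r` at relative distance `e`. -/
def Near (m : ℕ) (e r : ℝ) (f g : F[X]) : Prop := GN m r f ∧ GN m r g ∧ GN m (e * r) (f - g)

variable [IsUltrametricDist F]

lemma Near.mul {m : ℕ} {e r r' : ℝ} {f g f' g' : F[X]} (h : Near m e r f g)
    (h' : Near m e r' f' g') : Near m e (r * r') (f * f') (g * g') := by
  refine ⟨h.1.mul h'.1, h.2.1.mul h'.2.1, ?_⟩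
  have := (h.1.mul h'.2.2).add (r := r * (e * r')) ((h.2.2.mul h'.2.1).mono (le_of_eq (by ring)))
  convert this using 1 <;> ring

lemma Near.mon {ι : Type} [Fintype ι] {m : ℕ} {e r : ℝ} (he : 0 ≤ e) {f g : ι → F[X]}
    (h : ∀ i, Near m e r (f i) (g i)) (α : ι → ℕ) :
    Near m e (r ^ ∑ i, α i) (∏ i, f i ^ α i) (∏ i, g i ^ α i) := by
  classical
  have h1 : Near m e 1 (1 : F[X]) 1 := ⟨GN.one, GN.one, by simpa using GN.zero he⟩
  have h2 : ∀ i n, Near m e (r ^ n) (f i ^ n) (g i ^ n) := fun i n => by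
    induction n with
    | zero => simpa using h1
    | succ n ih => rw [pow_succ, pow_succ, pow_succ]; exact ih.mul (h i)
  induction (univ : Finset ι) using Finset.induction_on with
  | empty => simpa using h1
  | insert a s ha ih =>
    rw [prod_insert ha, prod_insert ha, sum_insert ha, pow_add]
    exact (h2 a _).mul ih

/-- The homogenised substitution is close to `b ^ K` times the value. -/
lemma key {ι κ : Type} [Fintype ι] (s : Finset κ) (α : κ → ι → ℕ) (a : κ → F[X]) (b : F[X])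
    (p J : ι → F[X]) {K m : ℕ} {H B Bs η : ℝ} (hH : 0 ≤ H) (hB : 1 ≤ B) (hBs : 0 < Bs) (h0 : 0 ≤ η)
    (hη : η ≤ B) (hK : ∀ x ∈ s, ∑ i, α x i ≤ K) (ha : ∀ x ∈ s, GN m H (a x)) (hb : GN m Bs b)
    (hJ : ∀ i, GN m B (J i) ∧ GN m (η * Bs) (b * J i - p i)) :
    GN m (H * η * B ^ K * Bs ^ K) (b ^ K * ∑ x ∈ s, a x * ∏ i, J i ^ α x i -
      ∑ x ∈ s, a x * (∏ i, p i ^ α x i) * b ^ (K - ∑ i, α x i)) := by
  have hB0 : 0 < B := by positivity
  rw [mul_sum, ← sum_sub_distrib]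
  refine GN.sum _ _ (by positivity) fun x hx => ?_
  have h1 : ∀ i, Near m (η / B) (Bs * B) (b * J i) (p i) := fun i => by
    have h2 := hb.mul (hJ i).1
    refine ⟨h2, ?_, (hJ i).2.mono (le_of_eq (by field_simp))⟩
    have := h2.sub ((hJ i).2.mono (r' := Bs * B) (by nlinarith))
    simpa using this
  have h3 := ((ha x hx).mul (Near.mon (by positivity) h1 (α x)).2.2).mul (hb.pow (K - ∑ i, α x i))
  obtain ⟨n, hn⟩ := Nat.exists_eq_add_of_le (hK x hx)
  rw [hn, Nat.add_sub_cancel_left] at h3 ⊢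
  simp only [mul_pow, prod_mul_distrib, prod_pow_eq_pow_sum] at h3
  generalize ∑ i, α x i = t at h3 ⊢
  refine GN.mono (by convert h3 using 1; ring) ?_
  have h4 : η / B * B ^ t ≤ η * B ^ (t + n) :=
    mul_le_mul (div_le_self h0 hB) (pow_le_pow_right₀ hB (by omega)) (by positivity) h0
  calc H * (η / B * (Bs ^ t * B ^ t)) * Bs ^ n = H * (η / B * B ^ t) * Bs ^ (t + n) := by ring
    _ ≤ H * (η * B ^ (t + n)) * Bs ^ (t + n) := by gcongr
    _ = _ := by ring

/-- If `β J` is close to the jets of polynomials `ψ` of degree at most `t`, then a row with small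
jets at enough nodes has a small value. -/
theorem sml' {ι κ : Type} [Fintype ι] (c : ℕ → F) (s : Finset ℕ) (y : F) (T : Finset κ)
    (α : κ → ι → ℕ) (a : κ → F[X]) (β : F[X]) (ψ : ι → F[X]) (J : ℕ → ι → F[X]) (w : ι → F)
    {K d t m : ℕ} {H B Bs η ε r : ℝ} (hH : 0 ≤ H) (hB : 1 ≤ B) (hBs : 0 < Bs) (h0 : 0 ≤ η)
    (hη : η ≤ B) (hε : 0 ≤ ε) (hr : 1 ≤ r) (hc : ∀ i ∈ s, ∀ j ∈ s, i ≠ j → 1 ≤ ‖c i - c j‖)
    (hy : ∀ j ∈ s, ‖y - c j‖ ≤ r) (hK : ∀ x ∈ T, ∑ i, α x i ≤ K) (hd : ∀ x ∈ T, (a x).degree < d)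
    (hβ : β.natDegree ≤ t) (hψ : ∀ i, (ψ i).natDegree ≤ t) (hdeg : d + K * t ≤ m * s.card)
    (hj : ∀ j ∈ s, (∀ x ∈ T, GN m H (taylor (c j) (a x))) ∧ GN m Bs (taylor (c j) β) ∧
      (∀ i, GN m B (J j i) ∧ GN m (η * Bs) (taylor (c j) β * J j i - taylor (c j) (ψ i))) ∧
      GN m ε (∑ x ∈ T, taylor (c j) (a x) * ∏ i, J j i ^ α x i))
    (ha : ∀ x ∈ T, ‖(a x).eval y‖ ≤ H) (hb : ‖β.eval y‖ = Bs)
    (hw : ∀ i, ‖w i‖ ≤ B ∧ ‖β.eval y * w i - (ψ i).eval y‖ ≤ η * Bs) :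
    ‖∑ x ∈ T, (a x).eval y * ∏ i, w i ^ α x i‖ ≤ max ε (H * η * B ^ K) * r ^ (m * s.card) := by
  set G : F[X] := ∑ x ∈ T, a x * (∏ i, ψ i ^ α x i) * β ^ (K - ∑ i, α x i) with hG
  set E := max ε (H * η * B ^ K) with hE
  have hE0 : 0 ≤ E := hε.trans (le_max_left _ _)
  have hK0 : 0 < Bs ^ K := by positivity
  have g1 : G.degree < (m * s.card : ℕ) := by
    refine (degree_sum_le _ _).trans_lt ((Finset.sup_lt_iff (WithBot.bot_lt_coe _)).2 fun x hx => ?_)
    by_cases hx0 : a x = 0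
    · rw [hx0, zero_mul, zero_mul, degree_zero]
      exact WithBot.bot_lt_coe _
    have d1 : (a x).natDegree < d := (natDegree_lt_iff_degree_lt hx0).2 (hd x hx)
    have d2 : (∏ i, ψ i ^ α x i).natDegree ≤ (∑ i, α x i) * t := by
      rw [sum_mul]
      exact (natDegree_prod_le _ _).trans (sum_le_sum fun i _ =>
        natDegree_pow_le.trans (Nat.mul_le_mul_left _ (hψ i)))
    have d3 : (β ^ (K - ∑ i, α x i)).natDegree ≤ (K - ∑ i, α x i) * t :=
      natDegree_pow_le.trans (Nat.mul_le_mul_left _ hβ)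
    have d4 : (∑ i, α x i) * t + (K - ∑ i, α x i) * t = K * t := by
      rw [← add_mul, Nat.add_sub_cancel' (hK x hx)]
    refine degree_le_natDegree.trans_lt (Nat.cast_lt.2 ?_)
    have d5 := natDegree_mul_le (p := a x * ∏ i, ψ i ^ α x i) (q := β ^ (K - ∑ i, α x i))
    have d6 := natDegree_mul_le (p := a x) (q := ∏ i, ψ i ^ α x i)
    omega
  have g2 : ‖G.eval y‖ ≤ E * Bs ^ K * r ^ (m * s.card) := by
    refine Q2.hermM c s y (by positivity) hr hc hy _ (fun _ => m) G (by simp [mul_comm]) g1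
      fun j hjs => ?_
    obtain ⟨a1, a2, a3, a4⟩ := hj j hjs
    have k1 := key T α (fun x => taylor (c j) (a x)) (taylor (c j) β) (fun i => taylor (c j) (ψ i))
      (J j) hH hB hBs h0 hη hK a1 a2 a3
    have k2 := (((a2.pow K).mul a4).mono (r' := E * Bs ^ K) (by
      rw [mul_comm]; gcongr; exact le_max_left _ _)).sub
      (k1.mono (r' := E * Bs ^ K) (by gcongr; exact le_max_right _ _))
    rw [sub_sub_cancel] at k2
    have k3 : taylor (c j) G = ∑ x ∈ T, taylor (c j) (a x) * (∏ i, taylor (c j) (ψ i) ^ α x i) *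
        taylor (c j) β ^ (K - ∑ i, α x i) := by
      simp only [hG, ← taylorAlgHom_apply, map_sum, map_mul, map_prod, map_pow]
    rw [k3]
    exact k2
  have g3 := key (m := 1) T α (fun x => C ((a x).eval y)) (C (β.eval y))
    (fun i => C ((ψ i).eval y)) (fun i => C (w i)) hH hB hBs h0 hη hK
    (fun x hx => GN.const (ha x hx)) (GN.const hb.le) (fun i => ⟨GN.const (hw i).1, by
      rw [← C_mul, ← C_sub]; exact GN.const (hw i).2⟩) 0 one_pos
  simp only [← C_pow, ← map_prod, ← C_mul, ← map_sum, ← C_sub, coeff_C_zero] at g3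
  have g4 : G.eval y = ∑ x ∈ T, (a x).eval y * (∏ i, (ψ i).eval y ^ α x i) *
      β.eval y ^ (K - ∑ i, α x i) := by
    simp only [hG, eval_finsetSum, eval_mul, eval_prod, eval_pow]
  rw [← g4] at g3
  have g5 := nadd_le (g3.trans (show _ ≤ E * Bs ^ K * r ^ (m * s.card) from
    le_trans (by gcongr; exact le_max_right _ _)
      (le_mul_of_one_le_right (by positivity) (one_le_pow₀ hr)))) g2
  rw [sub_add_cancel, norm_mul, norm_pow, hb, mul_right_comm, mul_comm _ (Bs ^ K)] at g5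
  exact le_of_mul_le_mul_left g5 hK0

omit [IsUltrametricDist F] in
/-- The value of a row as a sum over its support. -/
theorem ev_sum {ι B : Type} [Fintype ι] [CommRing B] [Algebra F B] (t : B) (Y : ι → B)
    (R : MvPolynomial ι F[X]) :
    MvPolynomial.eval₂Hom (aeval t : F[X] →ₐ[F] B).toRingHom Y R =
      ∑ α ∈ R.support, aeval t (R.coeff α) * ∏ i, Y i ^ α i :=
  MvPolynomial.eval₂_eq' _ _ _

/-- The same for rows written as polynomials in `Y` over `F[t]`. -/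
theorem sml {ι : Type} [Fintype ι] (c : ℕ → F) (s : Finset ℕ) (y : F) (R : MvPolynomial ι F[X])
    (β : F[X]) (ψ : ι → F[X]) (J : ℕ → ι → F[X]) (w : ι → F)
    {K d t m : ℕ} {H B Bs η ε r : ℝ} (hH : 0 ≤ H) (hB : 1 ≤ B) (hBs : 0 < Bs) (h0 : 0 ≤ η)
    (hη : η ≤ B) (hε : 0 ≤ ε) (hr : 1 ≤ r) (hc : ∀ i ∈ s, ∀ j ∈ s, i ≠ j → 1 ≤ ‖c i - c j‖)
    (hy : ∀ j ∈ s, ‖y - c j‖ ≤ r) (hK : R.totalDegree ≤ K) (hd : ∀ α, (R.coeff α).degree < d)
    (hβ : β.natDegree ≤ t) (hψ : ∀ i, (ψ i).natDegree ≤ t) (hdeg : d + K * t ≤ m * s.card)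
    (hj : ∀ j ∈ s, (∀ α, GN m H (taylor (c j) (R.coeff α))) ∧ GN m Bs (taylor (c j) β) ∧
      (∀ i, GN m B (J j i) ∧ GN m (η * Bs) (taylor (c j) β * J j i - taylor (c j) (ψ i))) ∧
      GN m ε (MvPolynomial.eval₂Hom (aeval (X + C (c j)) : F[X] →ₐ[F] F[X]).toRingHom (J j) R))
    (ha : ∀ α, ‖(R.coeff α).eval y‖ ≤ H) (hb : ‖β.eval y‖ = Bs)
    (hw : ∀ i, ‖w i‖ ≤ B ∧ ‖β.eval y * w i - (ψ i).eval y‖ ≤ η * Bs) :
    ‖MvPolynomial.eval₂Hom (aeval y : F[X] →ₐ[F] F).toRingHom w R‖ ≤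
      max ε (H * η * B ^ K) * r ^ (m * s.card) := by
  rw [ev_sum]
  simp only [coe_aeval_eq_eval]
  refine sml' c s y R.support (fun α i => α i) (fun α => R.coeff α) β ψ J w hH hB hBs h0 hη hε hr
    hc hy (fun α hα => ?_) (fun α _ => hd α) hβ hψ hdeg (fun j hjs => ?_) (fun α _ => ha α) hb hw
  · refine le_trans (le_of_eq ?_) ((MvPolynomial.le_totalDegree hα).trans hK)
    exact (Finsupp.sum_fintype α (fun _ e => e) fun _ => rfl).symm
  · obtain ⟨a1, a2, a3, a4⟩ := hj j hjs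
    rw [ev_sum] at a4
    exact ⟨fun α _ => a1 α, a2, a3, by simpa only [taylor_apply, comp_eq_aeval] using a4⟩

end Pool.Agent.CSU.SA.Sm
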