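import Pool.Agent.Lib.MP_0370b2_nt.SA.St
import Pool.Agent.Lib.MP_0370b2_nt.SA.Sml
import Pool.Agent.Lib.MP_bf776f_nt.SU.Row

/-! Smallness of the values of the twisted rows. -/

namespace Pool.Agent.CSU.SA

open Polynomial Finset

namespace Sm

lemma dvd_ev {ι A B : Type} [CommRing A] [CommRing B] (φ : A →+* B) {p : B} {a b : ι → B}
    (h : ∀ l, p ∣ a l - b l) (f : MvPolynomial ι A) :
    p ∣ MvPolynomial.eval₂Hom φ a f - MvPolynomial.eval₂Hom φ b f := by
  induction f using MvPolynomial.induction_on with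
  | C x => simp
  | add f g hf hg =>
    rw [map_add, map_add, add_sub_add_comm]
    exact dvd_add hf hg
  | mul_X f l hf =>
    rw [map_mul, map_mul, MvPolynomial.eval₂Hom_X', MvPolynomial.eval₂Hom_X']
    have := dvd_add (hf.mul_right (a l)) ((h l).mul_left (MvPolynomial.eval₂Hom φ b f))
    convert this using 1
    ring

lemma ev_map {ι R : Type} [CommRing R] (σ : R →+* R) (φ φ' : R[X] →+* R[X])
    (h : ∀ p, (φ p).map σ = φ' (p.map σ)) (V : ι → R[X]) (f : PP ι R) :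
    (MvPolynomial.eval₂Hom φ V f).map σ =
      MvPolynomial.eval₂Hom φ' (fun l => (V l).map σ) (tw σ f) := by
  induction f using MvPolynomial.induction_on with
  | C x => simp [tw, h]
  | add f g hf hg => rw [map_add, map_add, map_add, Polynomial.map_add, hf, hg]
  | mul_X f l hf =>
    rw [map_mul, map_mul, map_mul, Polynomial.map_mul, hf]
    simp [tw]

variable {ι F : Type} [Fintype ι] [NormedField F]

/-- The jet of a row at the node `c`. -/
noncomputable abbrev eJ (c : F) (V : ι → F[X]) : PP ι F →+* F[X] :=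
  MvPolynomial.eval₂Hom (aeval (X + C c) : F[X] →ₐ[F] F[X]).toRingHom V

omit [Fintype ι] in
lemma eJ_map (σ : F →+* F) (c : F) (V : ι → F[X]) (f : PP ι F) :
    (eJ c V f).map σ = eJ (σ c) (fun l => (V l).map σ) (tw σ f) :=
  ev_map σ _ _ (fun p => by
    have := map_taylor p c σ
    simp only [taylor_apply, comp_eq_aeval] at this
    exact this) V f

omit [Fintype ι] in
lemma ev_JJ (s : Sys ι F) (i m : ℕ) (η : ι → F[X]) (f : PP ι F) :
    MvPolynomial.eval η (s.JJ i m f) =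
      eJ (s.θ ^ s.q ^ i) (fun l => MvPolynomial.eval η (s.VV i m l)) f := by
  induction f using MvPolynomial.induction_on with
  | C x => simp [Sys.JJ, taylor_apply, comp_eq_aeval]
  | add f g hf hg => simp only [map_add, hf, hg]
  | mul_X f l hf =>
    rw [map_mul, map_mul, map_mul, hf]
    simp [Sys.JJ]

lemma GN.map {m q : ℕ} {r : ℝ} {f : F[X]} (σ : F →+* F) (hσ : ∀ a, σ a = a ^ q) (hq : 1 ≤ q)
    (hr : r ≤ 1) (h : GN m r f) : GN m r (f.map σ) := fun l hl => by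
  rw [coeff_map, hσ, norm_pow]
  exact (pow_le_of_le_one (norm_nonneg _) ((h l hl).trans hr) (by omega)).trans (h l hl)

lemma row_deg {δ d : ℕ} {f : PP ι F} (h : Row δ d f) : f.totalDegree ≤ Fintype.card ι * δ := by
  refine Finset.sup_le fun α hα => ?_
  rw [Finsupp.sum_fintype _ _ fun _ => rfl]
  exact (sum_le_card_nsmul _ _ δ fun l _ =>
    (h α).2 (MvPolynomial.mem_support_iff.1 hα) l).trans_eq (by simp)

omit [Fintype ι] in
lemma row_tw {δ d q : ℕ} {Z : ℝ} {f : PP ι F} (σ : F →+* F) (hσ : ∀ a, σ a = a ^ q)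
    (h : Row δ d f) (hZ : ∀ α n, ‖(f.coeff α).coeff n‖ ≤ Z) (a : ℕ) :
    Row δ d ((tw σ)^[a] f) ∧ ∀ α n, ‖(((tw σ)^[a] f).coeff α).coeff n‖ ≤ Z ^ q ^ a := by
  induction a with
  | zero => exact ⟨h, by simpa using hZ⟩
  | succ a ih =>
    have e : ∀ α, ((tw σ)^[a + 1] f).coeff α = (((tw σ)^[a] f).coeff α).map σ := fun α => by
      rw [Function.iterate_succ_apply']
      exact MvPolynomial.coeff_map _ _ _
    refine ⟨fun α => ?_, fun α n => ?_⟩
    · rw [e]
      exact ⟨degree_map_le.trans_lt (ih.1 α).1, fun h0 =>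
        (ih.1 α).2 fun h1 => h0 (by rw [h1, Polynomial.map_zero])⟩
    · rw [e, coeff_map, hσ, norm_pow, pow_succ, pow_mul]
      exact pow_le_pow_left₀ (norm_nonneg _) (ih.2 α n) _

omit [Fintype ι] in
lemma VV_cong (s : Sys ι F) (J : ℕ → ℕ → ι → F[X])
    (hJ : ∀ m i l, i ≤ m → X ^ s.μ ∣ J (m + 1) i l -
      ((X + C (s.θ ^ s.q ^ i) - C (s.θ ^ s.q ^ (s.e + m))) * J m i l + C (s.x l ^ s.q ^ m)))
    (i m : ℕ) (l : ι) : X ^ s.μ ∣
      MvPolynomial.eval (fun l => J i i l - C (s.y l ^ s.q ^ i)) (s.VV i m l) - J (i + m) i l := by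
  induction m with
  | zero => simp [Sys.VV]
  | succ m ih =>
    rw [Sys.VV, map_add, map_mul, MvPolynomial.eval_C, MvPolynomial.eval_C]
    have := dvd_sub (ih.mul_left (X + C (s.θ ^ s.q ^ i) - C (s.θ ^ s.q ^ (s.e + (i + m)))))
      (hJ (i + m) i l (by omega))
    convert this using 1
    rw [← add_assoc i m 1]
    ring

omit [Fintype ι] in
lemma up_cong (s : Sys ι F) (J : ℕ → ℕ → ι → F[X])
    (hJ : ∀ m i l, i ≤ m → X ^ s.μ ∣ J (m + 1) i l -
      ((X + C (s.θ ^ s.q ^ i) - C (s.θ ^ s.q ^ (s.e + m))) * J m i l + C (s.x l ^ s.q ^ m)))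
    (M t : ℕ) : ∃ w : ι → F[X], (∀ l, (w l).natDegree ≤ t) ∧ ∀ j ≤ M, ∀ l, X ^ s.μ ∣
      (taylor (s.θ ^ s.q ^ j) (∏ n ∈ range t, (X - C (s.θ ^ s.q ^ (s.e + (M + n))))) * J M j l -
        taylor (s.θ ^ s.q ^ j) (w l)) - J (M + t) j l := by
  induction t with
  | zero => exact ⟨0, by simp, by simp⟩
  | succ t ih =>
    obtain ⟨w, h1, h2⟩ := ih
    refine ⟨fun l => (X - C (s.θ ^ s.q ^ (s.e + (M + t)))) * w l - C (s.x l ^ s.q ^ (M + t)),
      fun l => ?_, fun j hj l => ?_⟩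
    · refine (natDegree_sub_le _ _).trans (max_le (natDegree_mul_le.trans ?_) (by simp))
      rw [natDegree_X_sub_C]
      have := h1 l
      omega
    · have := dvd_sub ((h2 j hj l).mul_left
        (X + C (s.θ ^ s.q ^ j) - C (s.θ ^ s.q ^ (s.e + (M + t))))) (hJ (M + t) j l (by omega))
      convert this using 1
      rw [prod_range_succ, ← add_assoc M t 1]
      simp only [taylor_mul, map_sub, taylor_X, taylor_C]
      ring

variable [IsUltrametricDist F]

lemma box_ev {m : ℕ} {r : ℝ} (hr : 0 ≤ r) {η : ι → F[X]} (hη : ∀ l, X ∣ η l ∧ GN m 1 (η l))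
    {f : PP ι F} (h : ∀ α : ι →₀ ℕ, (∀ l, α l < m) → GN m r (f.coeff α)) :
    GN m r (MvPolynomial.eval η f) := by
  classical
  rw [MvPolynomial.eval_eq']
  refine GN.sum _ _ hr fun α _ => ?_
  by_cases hα : ∀ l, α l < m
  · have := (h α hα).mul (GN.prod univ (fun l => η l ^ α l) (fun l => 1 ^ α l)
      fun l _ => (hη l).2.pow _)
    simpa using this
  · push Not at hα
    obtain ⟨l, hl⟩ := hα
    refine (GN.zero hr).of_dvd ?_
    rw [sub_zero]
    exact Dvd.dvd.mul_left (((pow_dvd_pow _ hl).trans (pow_dvd_pow_of_dvd (hη l).1 _)).trans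
      (dvd_prod_of_mem (fun l => η l ^ α l) (mem_univ l))) _

lemma GN.tay {m d : ℕ} {Z b : ℝ} {p : F[X]} {c : F} (hZ : ∀ n, ‖p.coeff n‖ ≤ Z)
    (hd : p.degree < d) (hb : 1 ≤ b) (hc : ‖c‖ ≤ b) : GN m (Z * b ^ d) (taylor c p) := by
  have h0 : 0 ≤ Z := (norm_nonneg _).trans (hZ 0)
  rw [as_sum_support p, map_sum]
  refine GN.sum _ _ (by positivity) fun n hn => ?_
  rw [taylor_monomial]
  have h1 : n < d := Nat.cast_lt.1 ((le_degree_of_ne_zero (mem_support_iff.1 hn)).trans_lt hd)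
  exact ((GN.const (hZ n)).mul (((GN.var.mono hb).add (GN.const hc)).pow n)).mono
    (mul_le_mul_of_nonneg_left (pow_le_pow_right₀ hb h1.le) h0)

end Sm

open Sm

/-- Smallness of the values. -/
theorem small : SmallS := by
  intro ι F _ _ _ s J B g δ d P a t ρ r r' Z hθ hq he hμ hσ h0 hJ hρ0 hρ1 hr0 hZ hZr hr1 hB hdeg
    hBZ hg hQ
  have hr : 0 ≤ r := le_trans (by positivity) hZr
  have hr'1 : r' ≤ 1 := (le_mul_of_one_le_left hr0 hZ).trans (hZr.trans hr1)
  have hJ1 : ∀ m i l, i ≤ m → GN s.μ 1 (J m i l) := fun m i l h =>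
    GN.mono (hJ m i l h).2.2 (pow_le_one₀ hρ0 hρ1)
  have hJa := fun m i l h => (hJ m i l h).1
  let η : ℕ → ι → F[X] := fun i l => J i i l - C (s.y l ^ s.q ^ i)
  have e1 : ∀ i l, η (i + 1) l = (η i l).map s.σ := fun i l => by
    simp only [η, Polynomial.map_sub, map_C, (hJ i i l le_rfl).2.1, hσ, ← pow_mul, pow_succ]
  have e2 : ∀ i l, X ∣ η i l ∧ GN s.μ 1 (η i l) := fun i l => by
    induction i with
    | zero =>
      refine ⟨X_dvd_iff.2 (by simp [η, h0]), (hJ1 0 0 l le_rfl).sub (GN.const ?_)⟩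
      rw [pow_zero, pow_one, ← h0]
      exact hJ1 0 0 l le_rfl 0 hμ
    | succ i ih =>
      rw [e1]
      exact ⟨by simpa using Polynomial.map_dvd s.σ ih.1, ih.2.map _ hσ (by omega) le_rfl⟩
  have e3 : ∀ i, GN s.μ r' (MvPolynomial.eval (η i) ((tw s.σ)^[i] s.Q)) := fun i => by
    induction i with
    | zero =>
      simp only [η, pow_zero, pow_one]
      exact hQ
    | succ i ih =>
      have := ev_map s.σ (RingHom.id _) (RingHom.id _) (fun _ => rfl) (η i) ((tw s.σ)^[i] s.Q)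
      rw [Function.iterate_succ_apply', funext (e1 i)]
      exact this ▸ ih.map _ hσ (by omega) hr'1
  have e4 : ∀ i m f, X ^ s.μ ∣ eJ (s.θ ^ s.q ^ i) (J (i + m) i) f -
      MvPolynomial.eval (η i) (s.JJ i m f) := fun i m f => by
    rw [ev_JJ]
    exact dvd_ev _ (fun l => dvd_sub_comm.1 (VV_cong s J hJa i m l)) f
  have e5 : ∀ i < P, ∀ b, GN s.μ r (eJ (s.θ ^ s.q ^ (i + b)) (J (P + b) (i + b))
      ((tw s.σ)^[b] B)) := fun i hi b => by
    induction b with
    | zero =>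
      have a1 := box_ev hr (e2 i) (hg i hi).2
      have a2 := (box_ev (by positivity) (e2 i) fun α _ n _ => (hg i hi).1 α n).mul (e3 i)
      have a3 := a1.add (a2.mono hZr)
      rw [map_sub, map_mul, sub_add_cancel] at a3
      have a4 := a3.of_dvd (e4 i (P - i) B)
      rwa [Nat.add_sub_cancel' hi.le] at a4
    | succ b ih =>
      have := ih.map _ hσ (by omega) hr1
      rw [eJ_map, hσ, ← pow_mul, ← pow_succ] at this
      rw [Function.iterate_succ_apply', ← add_assoc, ← add_assoc,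
        funext fun l => (hJ (P + b) (i + b) l (by omega)).2.1]
      exact this
  obtain ⟨hR, hRZ⟩ := row_tw s.σ hσ hB hBZ a
  set R := (tw s.σ)^[a] B
  have e6 : s.ev 0 (P + a) R = MvPolynomial.eval₂Hom (aeval s.θ : F[X] →ₐ[F] F).toRingHom
      (fun l => (J (P + a) 0 l).coeff 0) R := by
    have a1 := (dvd_pow_self X (by omega)).trans (e4 0 (P + a) R)
    have a2 := dvd_ev (RingHom.id _) (a := η 0) (b := 0) (fun l => by simpa using (e2 0 l).1)
      (s.JJ 0 (P + a) R)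
    rw [MvPolynomial.eval₂Hom_zero_apply] at a2
    have a3 := X_dvd_iff.1 (dvd_add a1 a2)
    rw [show MvPolynomial.eval (η 0) = MvPolynomial.eval₂Hom (RingHom.id _) (η 0) from rfl,
      sub_add_sub_cancel, coeff_sub, sub_eq_zero] at a3
    refine a3.symm.trans ?_
    have a4 := MvPolynomial.map_eval₂Hom (aeval (X + C (s.θ ^ s.q ^ 0)) : F[X] →ₐ[F] F[X]).toRingHom
      (J (0 + (P + a)) 0) constantCoeff R
    refine a4.trans ?_
    rw [zero_add]
    congr 2
    ext <;> simp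
  obtain ⟨w, hw1, hw2⟩ := up_cong s J hJa (P + a) t
  set β : F[X] := ∏ n ∈ range t, (X - C (s.θ ^ s.q ^ (s.e + (P + a + n)))) with hβ
  set Bs : ℝ := ∏ n ∈ range t, ‖s.θ‖ ^ s.q ^ (s.e + (P + a + n)) with hBs
  have b1 : 1 ≤ Bs := by
    rw [hBs, prod_pow_eq_pow_sum]
    exact one_le_pow₀ hθ.le
  have b2 : ∀ j ≤ P + a, GN s.μ Bs (taylor (s.θ ^ s.q ^ j) β) := fun j hj => by
    rw [hβ, ← taylorAlgHom_apply, map_prod]
    refine GN.prod _ _ _ fun n _ => ?_
    rw [taylorAlgHom_apply, map_sub, taylor_X, taylor_C, add_sub_assoc, ← C_sub]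
    refine (GN.var.mono (one_le_pow₀ hθ.le)).add (GN.const ?_)
    rw [norm_sub_rev, norm_c_sub hθ hq (by omega)]
  have b3 : ‖β.eval s.θ‖ = Bs := by
    rw [hβ, eval_prod, norm_prod]
    refine prod_congr rfl fun n _ => ?_
    have := norm_c_sub hθ hq (show 0 < s.e + (P + a + n) by omega)
    rw [pow_zero, pow_one] at this
    rw [eval_sub, eval_X, eval_C, norm_sub_rev, this]
  have b4 : ρ ^ s.q ^ (P + a + t) / Bs * Bs = ρ ^ s.q ^ (P + a + t) :=
    div_mul_cancel₀ _ (by positivity)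
  have b5 : ∀ j ≤ P + a, ∀ l, GN s.μ (ρ ^ s.q ^ (P + a + t) / Bs * Bs)
      (taylor (s.θ ^ s.q ^ j) β * J (P + a) j l - taylor (s.θ ^ s.q ^ j) (w l)) := fun j hj l => by
    rw [b4]
    exact GN.of_dvd (hJ _ j l (by omega)).2.2 (hw2 j hj l)
  have b6 : ∀ j ≤ P + a, ‖s.θ ^ s.q ^ j‖ ≤ ‖s.θ‖ ^ s.q ^ (a + P) := fun j hj => by
    rw [norm_pow]
    exact pow_le_pow_right₀ hθ.le (Nat.pow_le_pow_right (by omega) (by omega))
  have b7 : ∀ j ≤ P + a, ∀ α, GN s.μ (Z ^ s.q ^ a * (‖s.θ‖ ^ s.q ^ (a + P)) ^ d)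
      (taylor (s.θ ^ s.q ^ j) (R.coeff α)) := fun j hj α =>
    GN.tay (hRZ α) (hR α).1 (one_le_pow₀ hθ.le) (b6 j hj)
  have b8 : ρ ^ s.q ^ (P + a + t) / Bs ≤ ρ ^ s.q ^ (P + a + t) := div_le_self (by positivity) b1
  have c0 : s.θ ^ s.q ^ 0 = s.θ := by rw [pow_zero, pow_one]
  have key := sml (fun j => s.θ ^ s.q ^ j) (Ico a (a + P)) s.θ R β w (J (P + a))
    (fun l => (J (P + a) 0 l).coeff 0) (K := Fintype.card ι * δ) (d := d) (t := t) (m := s.μ)
    (H := Z ^ s.q ^ a * (‖s.θ‖ ^ s.q ^ (a + P)) ^ d) (B := 1) (Bs := Bs)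
    (η := ρ ^ s.q ^ (P + a + t) / Bs) (ε := r) (r := ‖s.θ‖ ^ s.q ^ (a + P)) (by positivity) le_rfl
    (by positivity) (by positivity) (b8.trans (pow_le_one₀ hρ0 hρ1)) hr (one_le_pow₀ hθ.le)
    (fun i _ j _ h => one_le_c_sub hθ hq h)
    (fun j hj => nsub_le (by simpa using b6 0 (by omega)) (b6 j (by have := (mem_Ico.1 hj).2; omega)))
    (row_deg hR) (fun α => (hR α).1)
    ((natDegree_prod_le _ _).trans (by simp only [natDegree_X_sub_C]; simp)) hw1
    (by rwa [Nat.card_Ico, Nat.add_sub_cancel_left])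
    (fun j hj => by
      obtain ⟨j1, j2⟩ := mem_Ico.1 hj
      refine ⟨b7 j (by omega), b2 j (by omega),
        fun l => ⟨hJ1 _ _ l (by omega), b5 j (by omega) l⟩, ?_⟩
      have := e5 (j - a) (by omega) a
      rwa [Nat.sub_add_cancel j1] at this)
    (fun α => by
      have := b7 0 (by omega) α 0 hμ
      rwa [taylor_coeff_zero, c0] at this) b3
    (fun l => ⟨hJ1 _ _ l (by omega) 0 hμ, by
      have := b5 0 (by omega) l 0 hμ
      rwa [coeff_sub, mul_coeff_zero, taylor_coeff_zero, taylor_coeff_zero, c0] at this⟩)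
  rw [Nat.card_Ico, Nat.add_sub_cancel_left, one_pow, mul_one, ← pow_mul, ← pow_mul,
    mul_comm _ d, mul_comm _ (s.μ * P)] at key
  rw [e6]
  refine key.trans ?_
  gcongr

end Pool.Agent.CSU.SA
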