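import Pool.Agent.Lib.MP_0370b2_nt.SA.Ap

/-! A small relation between the values gives a small relation between the jets. -/

namespace Pool.Agent.CSU.SA

open Polynomial Finset Filter Topology

namespace Tj

lemma map_val {ι R R' : Type} [CommRing R] [CommRing R'] [Fintype ι] [DecidableEq ι] {ν : ℕ}
    (φ : R →+* R') (G : (ι → Fin ν) → R) (y : ι → R) :
    φ (val G y) = val (fun α => φ (G α)) fun l => φ (y l) := by
  simp only [val, map_sum, map_mul, map_prod, map_pow]

variable {F : Type} [NormedField F]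

/-- Convergence of the first coefficients. -/
def Cv (μ : ℕ) (f : ℕ → F[X]) (g : F[X]) : Prop :=
  ∀ l < μ, Tendsto (fun K => (f K).coeff l) atTop (𝓝 (g.coeff l))

lemma cv_const (μ : ℕ) (g : F[X]) : Cv μ (fun _ => g) g := fun _ _ => tendsto_const_nhds

lemma cv_mul {μ : ℕ} {f f' : ℕ → F[X]} {g g' : F[X]} (h : Cv μ f g) (h' : Cv μ f' g') :
    Cv μ (fun K => f K * f' K) (g * g') := fun l hl => by
  simp only [coeff_mul]
  refine tendsto_finsetSum _ fun c hc => ?_
  have := mem_antidiagonal.1 hc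
  exact (h _ (by omega)).mul (h' _ (by omega))

lemma cv_pow {μ : ℕ} {f : ℕ → F[X]} {g : F[X]} (h : Cv μ f g) (n : ℕ) :
    Cv μ (fun K => f K ^ n) (g ^ n) := by
  induction n with
  | zero => simpa only [pow_zero] using cv_const μ 1
  | succ n ih => simpa only [pow_succ] using cv_mul ih h

lemma cv_prod {μ : ℕ} {ι : Type} (s : Finset ι) {f : ι → ℕ → F[X]} {g : ι → F[X]}
    (h : ∀ l, Cv μ (f l) (g l)) : Cv μ (fun K => ∏ l ∈ s, f l K) (∏ l ∈ s, g l) := by
  classical
  induction s using Finset.induction_on with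
  | empty => simpa only [prod_empty] using cv_const μ 1
  | insert a s ha ih => simpa only [prod_insert ha] using cv_mul (h a) ih

lemma cv_val {μ : ℕ} {ι : Type} [Fintype ι] [DecidableEq ι] {ν : ℕ} (G : (ι → Fin ν) → F[X])
    {f : ι → ℕ → F[X]} {g : ι → F[X]} (h : ∀ l, Cv μ (f l) (g l)) :
    Cv μ (fun K => val G fun l => f l K) (val G g) := fun j hj => by
  simp only [val, finsetSum_coeff]
  exact tendsto_finsetSum _ fun α _ =>
    cv_mul (cv_const μ (G α)) (cv_prod univ fun l => cv_pow (h l) _) j hj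

/-- Polynomials with coefficients in a subfield. -/
def Cf (E : Subfield F) : Subring F[X] where
  carrier := {p | ∀ i, p.coeff i ∈ E}
  mul_mem' ha hb i := by
    rw [coeff_mul]; exact sum_mem fun c _ => mul_mem (ha _) (hb _)
  one_mem' i := by
    rw [coeff_one]; split_ifs
    exacts [one_mem _, zero_mem _]
  add_mem' ha hb i := by rw [coeff_add]; exact add_mem (ha i) (hb i)
  zero_mem' i := zero_mem _
  neg_mem' ha i := by rw [coeff_neg]; exact neg_mem (ha i)

lemma cf_C {E : Subfield F} {c : F} (hc : c ∈ E) : C c ∈ Cf E := fun i => by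
  rw [coeff_C]; split_ifs
  exacts [hc, zero_mem _]

lemma cf_X (E : Subfield F) : (X : F[X]) ∈ Cf E := fun i => by
  rw [coeff_X]; split_ifs
  exacts [one_mem _, zero_mem _]

end Tj

open Tj in
theorem tj (hap : ApS) : TjS := by
  intro k F ι _ _ _ _ _ _ _ _ θ W CT e a ν v G hθ ha hθW hT hv hG
  have h := fr k F
  have hA := fun l K => (hap k F θ (v l) (e + a) a K hθ (hv l).1 (by omega)).2.2
  generalize Fintype.card k = q at *
  have hq1 := h.lt
  have hμ : 0 < q ^ a := pow_pos (by omega) _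
  obtain ⟨σ, hσ⟩ := h.exm a
  have hE : ∀ w ∈ W, ∀ n, w ^ q ^ (n + a) ∈ W.map σ := fun w hw n =>
    ⟨_, pow_mem hw (q ^ n), by rw [hσ, ← pow_mul, ← pow_add]⟩
  have hp : ∀ l K, pK q (q ^ a) θ (v l) (e + a) K ∈ Cf (W.map σ) := fun l K => by
    refine sum_mem fun i _ => mul_mem (cf_C (div_mem ?_ (mul_mem (hE _ (Fr.cD_mem hθW i) e) ?_)))
      (pow_mem (sub_mem (cf_C ?_) (cf_X _)) _)
    · rw [show i + (e + a) = e + (i + a) by ring, pow_add, pow_mul]
      exact hE _ (hv l).2 i
    · exact ⟨_, sub_mem (pow_mem hθW _) hθW, hσ _⟩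
    · rw [← add_assoc]; exact hE _ hθW _
  have hG' : ∀ α, G α ∈ Cf (W.map σ) := fun α i => by
    obtain ⟨w, hw, h1⟩ := hG α i
    exact ⟨w, hw, by rw [hσ, h1]⟩
  have hb : ∀ K, Nb (q ^ a) (CT * ‖(val (fun α => taylor θ (G α))
      fun l => taylor θ (pK q (q ^ a) θ (v l) (e + a) K)).coeff 0‖)
      (val (fun α => taylor θ (G α)) fun l => taylor θ (pK q (q ^ a) θ (v l) (e + a) K)) :=
    fun K => by
      have h1 := hT (val G fun l => pK q (q ^ a) θ (v l) (e + a) K) fun i => by
        obtain ⟨w, hw, h1⟩ := (sum_mem fun α _ => mul_mem (hG' α)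
          (prod_mem fun l _ => pow_mem (hp l K) (α l : ℕ)) :
            val G (fun l => pK q (q ^ a) θ (v l) (e + a) K) ∈ Cf (W.map σ)) i
        exact ⟨w, hw, h1.symm.trans (hσ w)⟩
      rw [← taylor_coeff_zero] at h1
      have h2 := map_val (taylorAlgHom θ : F[X] →ₐ[F] F[X]).toRingHom G
        fun l => pK q (q ^ a) θ (v l) (e + a) K
      exact h2 ▸ h1
  have hc : ∀ l, Cv (q ^ a) (fun K => taylor θ (pK q (q ^ a) θ (v l) (e + a) K))
      (Jm q (q ^ a) θ (v l) (e + a) 0) := fun l j hj => by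
    have h0 : 0 < ‖θ‖ := one_pos.trans hθ
    have hr : ‖v l‖ / ‖θ‖ < 1 := (div_lt_one h0).2 ((hv l).1.trans_lt hθ)
    rw [tendsto_iff_norm_sub_tendsto_zero]
    refine squeeze_zero (fun _ => norm_nonneg _) (fun K => ?_)
      (tendsto_pow_atTop_nhds_zero_of_lt_one (by positivity) hr)
    rw [norm_sub_rev, ← coeff_sub]
    exact (hA l K j hj).trans (pow_le_pow_of_le_one (by positivity) hr.le
      ((Nat.le_add_right K (e + a)).trans (Nat.lt_pow_self hq1).le))
  have hc2 := cv_val (fun α => taylor θ (G α)) hc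
  have h0 : (val (fun α => taylor θ (G α)) fun l => Jm q (q ^ a) θ (v l) (e + a) 0).coeff 0 =
      val (fun α => (G α).eval θ) fun l => phi q θ (v l) (e + a) 0 := by
    have := map_val (constantCoeff : F[X] →+* F) (fun α => taylor θ (G α))
      fun l => Jm q (q ^ a) θ (v l) (e + a) 0
    simpa only [constantCoeff_apply, taylor_coeff_zero, Jm_cf _ _ _ _ _ _ hμ, Q2.psi_zero]
      using this
  intro j hj
  rw [← h0]
  exact le_of_tendsto_of_tendsto' (hc2 j hj).norm ((hc2 0 hμ).norm.const_mul CT)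
    fun K => hb K j hj

/-- The same without hypothesis. -/
theorem tj' : TjS := tj ap

end Pool.Agent.CSU.SA
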