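import Pool.Agent.Lib.MP_0370b2_nt.SA.WN1
import Pool.Agent.Lib.MP_0370b2_nt.SA.St
import Pool.Agent.Lib.MP_bf776f_nt.SU.An
import Pool.Agent.Lib.MP_bf776f_nt.SU.Der

/-! Reduction of the independence statement to points algebraic over the completion. -/

namespace Pool.Agent.CSU.WN

open PowerSeries Finset

variable {F : Type} [NormedField F] [IsUltrametricDist F] [CompleteSpace F] {w : F}
  {k : Type} [Field k] [Algebra k F] {hk : ∀ c : k, ‖algebraMap k F c‖ ≤ 1} {σ : Type}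

/-- Functions on the ball given by a series, up to a constant denominator. -/
def Lam (hk : ∀ c : k, ‖algebraMap k F c‖ ≤ 1) (hw : ‖w‖ < 1) (σ : Type) :
    Subring ((σ → ball hk) → F) where
  carrier := {φ | ∃ (d : F) (e g : (MvPolynomial σ k)⟦X⟧), d ≠ 0 ∧
    ∀ z, evz hw z e = d ∧ φ z * d = evz hw z g}
  mul_mem' := by
    rintro a b ⟨d, e, g, hd, h⟩ ⟨d', e', g', hd', h'⟩
    refine ⟨d * d', e * e', g * g', mul_ne_zero hd hd', fun z => ?_⟩
    rw [map_mul, map_mul, (h z).1, (h' z).1, ← (h z).2, ← (h' z).2, Pi.mul_apply]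
    exact ⟨rfl, by ring⟩
  one_mem' := ⟨1, 1, 1, one_ne_zero, by simp⟩
  add_mem' := by
    rintro a b ⟨d, e, g, hd, h⟩ ⟨d', e', g', hd', h'⟩
    refine ⟨d * d', e * e', g * e' + g' * e, mul_ne_zero hd hd', fun z => ?_⟩
    rw [map_add, map_mul, map_mul, map_mul, (h z).1, (h' z).1, ← (h z).2, ← (h' z).2,
      Pi.add_apply]
    exact ⟨rfl, by ring⟩
  zero_mem' := ⟨1, 1, 0, one_ne_zero, by simp⟩
  neg_mem' := by
    rintro a ⟨d, e, g, hd, h⟩
    refine ⟨d, e, -g, hd, fun z => ⟨(h z).1, ?_⟩⟩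
    rw [map_neg, ← (h z).2, Pi.neg_apply, neg_mul]

lemma lam_ev (hw : ‖w‖ < 1) {φ : (σ → ball hk) → F} (g : (MvPolynomial σ k)⟦X⟧)
    (h : ∀ z, evz hw z g = φ z) : φ ∈ Lam hk hw σ :=
  ⟨1, 1, g, one_ne_zero, fun z => ⟨map_one _, by rw [mul_one, h]⟩⟩

lemma lam_inv (hw : ‖w‖ < 1) {c : F} (h : (fun _ => c) ∈ Lam hk hw σ) :
    (fun _ => c⁻¹) ∈ Lam hk hw σ := by
  by_cases hc : c = 0
  · rwa [hc, inv_zero, ← hc]
  obtain ⟨d, e, g, hd, h⟩ := h
  exact ⟨c * d, g, e, mul_ne_zero hc hd, fun z =>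
    ⟨(h z).2.symm, by rw [(h z).1, inv_mul_cancel_left₀ hc]⟩⟩

lemma lam_K {θ : F} (hw : ‖θ⁻¹‖ < 1) {c : F} (h : c ∈ IntermediateField.adjoin k {θ}) :
    (fun _ => c) ∈ Lam hk hw σ := by
  induction h using IntermediateField.adjoin_induction with
  | mem x hx =>
    have := lam_inv (hk := hk) (σ := σ) hw (lam_ev hw X fun z => ev_X hw _ _)
    rw [inv_inv] at this
    rwa [Set.mem_singleton_iff.1 hx]
  | algebraMap x => exact lam_ev hw (C (MvPolynomial.C x)) fun z => (ev_C hw _ _ _).trans (pt_C z x)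
  | add x y _ _ hx hy => exact Subring.add_mem _ hx hy
  | inv x _ hx => exact lam_inv hw hx
  | mul x y _ _ hx hy => exact Subring.mul_mem _ hx hy

lemma lam_X (hw : ‖w‖ < 1) (i : σ) : (fun z => (z i : F)) ∈ Lam hk hw σ :=
  lam_ev hw (C (MvPolynomial.X i)) fun z => (ev_C hw _ _ _).trans (pt_X z i)

lemma lam_exp {q : ℕ} (h : Fr q F) {θ : F} (hθ : 1 < ‖θ‖) (hw : ‖θ⁻¹‖ < 1) (i : σ) :
    (fun z => cE q θ (z i)) ∈ Lam hk hw σ := by
  have h0 : θ ≠ 0 := norm_pos_iff.1 (one_pos.trans hθ)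
  have h1 : ∀ l, ∃ v : (MvPolynomial σ k)⟦X⟧,
      v * ∏ j ∈ range l, (1 - X ^ (q ^ l - q ^ j)) = 1 := fun l => by
    refine (isUnit_iff_constantCoeff.2 ?_).exists_left_inv
    rw [map_prod, prod_eq_one fun j hj => ?_]
    · exact isUnit_one
    have := Nat.pow_lt_pow_right h.lt (mem_range.1 hj)
    rw [map_sub, map_one, map_pow, constantCoeff_X, zero_pow (by omega), sub_zero]
  choose v hv using h1
  obtain ⟨g, hg⟩ := ex_sum hw fun l => X ^ (l * q ^ l - l) * v l * C (MvPolynomial.X i ^ q ^ l)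
  refine lam_ev hw g fun z => (hg _ (pt_le z)).unique ?_
  convert h.hasSum_cE hθ (z i) using 2 with l
  have h2 := congrArg (ev hw _ (pt_le z)) (hv l)
  simp only [map_mul, map_prod, map_sub, map_one, map_pow, ev_X] at h2
  have h3 : cD q θ l * θ⁻¹ ^ (l * q ^ l) = ∏ j ∈ range l, (1 - θ⁻¹ ^ (q ^ l - q ^ j)) := by
    rw [cD, mul_comm l, pow_mul, pow_eq_prod_const (θ⁻¹ ^ q ^ l) l, ← prod_mul_distrib]
    refine prod_congr rfl fun j hj => ?_
    obtain ⟨a, ha⟩ := Nat.exists_eq_add_of_le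
      (Nat.pow_le_pow_right (one_pos.trans h.lt) (mem_range.1 hj).le)
    rw [ha, Nat.add_sub_cancel_left, pow_add, pow_add, inv_pow, inv_pow]
    field_simp
  have h4 : l ≤ l * q ^ l := Nat.le_mul_of_pos_right _ (pow_pos (one_pos.trans h.lt) _)
  rw [eq_div_iff (h.cD_ne hθ l), map_mul, map_mul, map_pow, ev_X, ev_C, map_pow, pt_X,
    ← mul_assoc, ← mul_assoc, ← pow_add, Nat.add_sub_cancel' h4]
  rw [← h3] at h2
  linear_combination (z i : F) ^ q ^ l * h2

lemma lam_exp' [Fintype k] {θ : F} (hθ : 1 < ‖θ‖) (hw : ‖θ⁻¹‖ < 1) (i : σ) (h : ℕ) :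
    (fun z => cE (Fintype.card k) θ (θ ^ h * z i)) ∈ Lam hk hw σ := by
  induction h with
  | zero => simpa using lam_exp (fr k F) hθ hw i
  | succ h ih =>
    simp only [pow_succ', mul_assoc, (fr k F).cE_th hθ]
    exact Subring.add_mem _ (Subring.mul_mem _
      (lam_K hw (IntermediateField.mem_adjoin_simple_self k θ)) ih) (Subring.pow_mem _ ih _)

end Pool.Agent.CSU.WN

namespace Pool.Agent.CSU

open Finset WN

/-- Independent values at points algebraic over the completion give independent values at all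
points. -/
theorem wn (k F ι κ : Type) [Field k] [Fintype k] [NormedField F] [IsUltrametricDist F]
    [CompleteSpace F] [IsAlgClosed F] [Algebra k F] [Fintype ι] (θ : F) (hθ : 1 < ‖θ‖)
    (H : ∀ u : ι → F, (∀ i, IsAlgebraic (Kinf k θ) (u i)) →
      LinearIndependent (IntermediateField.adjoin k {θ}) u → ∃ a : κ → F,
        (∀ j, a j ∈ Set.range u ∪ Set.range fun i => cE (Fintype.card k) θ (u i)) ∧
        AlgebraicIndependent (IntermediateField.adjoin k {θ}) a)
    (u : ι → F) (hu : LinearIndependent (IntermediateField.adjoin k {θ}) u) : ∃ a : κ → F,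
      (∀ j, a j ∈ Set.range u ∪ Set.range fun i => cE (Fintype.card k) θ (u i)) ∧
      AlgebraicIndependent (IntermediateField.adjoin k {θ}) a := by
  have h0 : θ ≠ 0 := norm_pos_iff.1 (one_pos.trans hθ)
  have hw : ‖θ⁻¹‖ < 1 := by rw [norm_inv]; exact inv_lt_one_of_one_lt₀ hθ
  have hk : ∀ c : k, ‖algebraMap k F c‖ ≤ 1 := norm_fin
  obtain ⟨h, hh⟩ := pow_unbounded_of_one_lt (∑ i, ‖u i‖) hθ
  let z : ι → ball hk := fun i => ⟨u i / θ ^ h, by
    change ‖_‖ ≤ 1
    rw [norm_div, norm_pow, div_le_one (by positivity)]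
    exact (single_le_sum (fun i _ => norm_nonneg (u i)) (mem_univ i)).trans hh.le⟩
  have hz : ∀ i, θ ^ h * z i = u i := fun i => mul_div_cancel₀ _ (pow_ne_zero _ h0)
  have hθK := IntermediateField.mem_adjoin_simple_self k θ
  have hU : ∀ i, (fun z => θ ^ h * (z i : F)) ∈ Lam hk hw ι := fun i =>
    Subring.mul_mem _ (lam_K hw (pow_mem hθK h)) (lam_X hw i)
  have : Countable (IntermediateField.adjoin k {θ}) := Cardinal.mk_le_aleph0_iff.1
    ((IntermediateField.cardinalMk_adjoin_le k {θ}).trans (by simp))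
  have hL : ∀ c : {c : ι → IntermediateField.adjoin k {θ} // c ≠ 0},
      (fun z => ∑ i, (c.1 i : F) * (θ ^ h * (z i : F))) ∈ Lam hk hw ι := fun c => by
    rw [← sum_fn]
    exact Subring.sum_mem _ fun i _ => Subring.mul_mem _ (lam_K hw (c.1 i).2) (hU i)
  choose d e g hd hg using hL
  have hW : ∀ x ∈ Set.range (algebraMap k F) ∪ {θ}, x ∈ Kinf k θ := fun x hx =>
    Subfield.le_topologicalClosure _ (Subfield.subset_closure hx)
  have hθW := hW θ (Or.inr rfl)
  obtain ⟨y, hy, h1, h2⟩ := spec hw (inv_ne_zero h0) (Kinf k θ)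
    (Subfield.isClosed_topologicalClosure _) (inv_mem hθW) (fun c => hW _ (Or.inl ⟨c, rfl⟩)) z g
    fun c => by
      rw [← (hg c z).2]
      refine mul_ne_zero (fun h3 => c.2 (funext (Fintype.linearIndependent_iff.1 hu c.1 ?_))) (hd c)
      simp only [hz] at h3
      exact h3
  obtain ⟨a, ha, hi⟩ := H (fun i => θ ^ h * y i)
    (fun i => ((isAlgebraic_algebraMap (⟨θ, hθW⟩ : Kinf k θ)).pow h).mul (hy i))
    (Fintype.linearIndependent_iff.2 fun c hc i => by
      by_contra hne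
      refine h2 ⟨c, fun h3 => hne (congrFun h3 i)⟩ ?_
      rw [← (hg _ y).2]
      exact mul_eq_zero_of_left hc _)
  have h3 : ∀ j, ∃ φ ∈ Lam hk hw ι, φ y = a j ∧
      φ z ∈ Set.range u ∪ Set.range fun i => cE (Fintype.card k) θ (u i) := fun j => by
    rcases ha j with ⟨i, h4⟩ | ⟨i, h4⟩
    · exact ⟨_, hU i, h4, Or.inl ⟨i, (hz i).symm⟩⟩
    · exact ⟨_, lam_exp' hθ hw i h, h4, Or.inr ⟨i, by simp only [hz]⟩⟩
  choose φ hφ h4 h5 using h3
  refine ⟨fun j => φ j z, h5, algebraicIndependent_iff.2 fun p hp =>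
    algebraicIndependent_iff.1 hi p ?_⟩
  have h6 : (fun x => MvPolynomial.aeval (fun j => φ j x) p) ∈ Lam hk hw ι := by
    clear hp
    induction p using MvPolynomial.induction_on with
    | C c => simp only [MvPolynomial.aeval_C]; exact lam_K hw c.2
    | add p q hp hq => simp only [map_add]; exact Subring.add_mem _ hp hq
    | mul_X p j hp =>
      simp only [map_mul, MvPolynomial.aeval_X]; exact Subring.mul_mem _ hp (hφ j)
  obtain ⟨b, _, f, hb, hf⟩ := h6
  rw [← funext h4]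
  exact (mul_eq_zero.1 ((hf y).2.trans
    (h1 f ((hf z).2.symm.trans (mul_eq_zero_of_left hp b))))).resolve_right hb

theorem SA.full : SA.AllS → SA.FullS := fun H k F _ _ _ _ _ _ _ n θ u hθ hu =>
  wn k F (Fin n) (Fin n) θ hθ (fun v hv hi => H k F n θ v hθ hv hi) u hu

end Pool.Agent.CSU
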