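import Pool.Agent.Lib.MP_0370b2_nt.SA.ZB
import Pool.Agent.Lib.MP_0370b2_nt.SA.Dsc

/-! The zero estimate. -/

namespace Pool.Agent.CSU.SA

open Polynomial Finset

theorem ze : ZeS := by
  intro ι F _ _ s δ d P B hσ hs hc hB b1 b3 hmin hev hw
  have sm : ∀ (g : F[X]) (f : PP ι F), g • f = MvPolynomial.C g * f := fun g f =>
    MvPolynomial.smul_eq_C_mul f g
  obtain ⟨Mo, m1, m2, m3, m4⟩ := zeA (fun α => MvPolynomial.lcoeff F[X] α)
    (fun v h => MvPolynomial.ext _ _ h)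
    (fun c v h => by
      obtain ⟨v', e⟩ := (MvPolynomial.C_dvd_iff_dvd_coeff (X - C c) v).2 fun α =>
        dvd_iff_isRoot.2 (h α)
      exact ⟨v', by rw [sm, e]⟩)
    s.σ hs (tw s.σ).toAddMonoidHom (Z.tw_surj hs) (fun α v => Z.coeff_tw _ v α) _ hc
    (fun m => (s.sub m).toLinearMap) (Z.tw_sub s hσ) (Z.Bx ι F δ) _ (Fintype.card ι * δ) s.μ
    (fun v => forall_congr' fun α => by
      rw [show ((tw s.σ).toAddMonoidHom v).coeff α = _ from Z.coeff_tw _ v α, Ne,
        Polynomial.map_eq_zero])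
    (fun m v hv => ⟨fun α => by
      obtain ⟨d, hd⟩ : ∃ d : ℕ, ∀ α, (v.coeff α).degree < d :=
        ⟨v.support.sup (fun α => (v.coeff α).natDegree) + 1, fun α => by
          by_cases h : v.coeff α = 0
          · rw [h]; exact WithBot.bot_lt_coe _
          · rw [degree_eq_natDegree h]
            exact_mod_cast Nat.lt_succ_of_le (le_sup (f := fun α => (v.coeff α).natDegree)
              (MvPolynomial.mem_support_iff.2 h))⟩
      exact (Z.row_sub (fun α => ⟨hd α, hv α⟩) s m α).2,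
      fun d hd α => (Z.row_sub (fun α => ⟨hd α, hv α⟩) s m α).1⟩)
    (fun c v h α e => h α (by
      rw [MvPolynomial.coeff_smul, smul_eq_mul]; exact mul_ne_zero (X_sub_C_ne_zero c) e))
    Z.bx_dep (fun i m => (Z.CondI s i m).restrictScalars F[X])
    (fun i m v => ⟨Z.cond_of_tw s hσ ⟨s.σ.injective, hs⟩, Z.cond_tw s hσ⟩)
    (fun i m v h => (Z.cond_sub s i m v).2 h) (fun i m v => by rw [sm]; exact Z.cond_pow s i m v)
    (fun i j m v h e => Z.cond_unit s (fun e => h (hc e).symm) (by rw [← sm]; exact e))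
    (fun i m => (Z.evH s i m).toAddMonoidHom)
    (fun i m g v => by
      rw [sm, ← Z.ev_C s i m]; exact map_mul (Z.evH s i m) _ _)
    (Z.ev_tw s hσ) (fun m v => by simpa [Z.evH_apply] using Z.ev_sub s 0 m v) P (d + 1) B hB
    (fun α => (b1 α).2) (fun α => (b1 α).1) b3
    (fun f d' h0 h1 h2 h3 => by
      by_contra h
      exact h0 (hmin f (Z.row_mono (fun α => ⟨h2 α, h1 α⟩) (by omega)) h3))
    hev
  obtain ⟨a, w, ha, h1, h2⟩ := hw Mo m2 m1
  obtain ⟨b, -, hb⟩ := m4 w (m3 a w ha (by rwa [sm]))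
  exact h2 b 0 (Nat.zero_le _) hb

end Pool.Agent.CSU.SA
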