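import Pool.Agent.Lib.MP_0370b2_nt.SA.Alg
import Pool.Agent.Lib.MP_0370b2_nt.SA.All
import Pool.Agent.Lib.MP_0370b2_nt.SA.Anm
import Pool.Agent.Lib.MP_0370b2_nt.SA.ApH
import Pool.Agent.Lib.MP_0370b2_nt.SA.C1
import Pool.Agent.Lib.MP_0370b2_nt.SA.Cnt
import Pool.Agent.Lib.MP_0370b2_nt.SA.HP
import Pool.Agent.Lib.MP_0370b2_nt.SA.ML
import Pool.Agent.Lib.MP_0370b2_nt.SA.Ml0
import Pool.Agent.Lib.MP_0370b2_nt.SA.Mult
import Pool.Agent.Lib.MP_0370b2_nt.SA.Nd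
import Pool.Agent.Lib.MP_0370b2_nt.SA.Near
import Pool.Agent.Lib.MP_0370b2_nt.SA.Num
import Pool.Agent.Lib.MP_0370b2_nt.SA.QRel
import Pool.Agent.Lib.MP_0370b2_nt.SA.Small
import Pool.Agent.Lib.MP_0370b2_nt.SA.Tj
import Pool.Agent.Lib.MP_0370b2_nt.SA.WN
import Pool.Agent.Lib.MP_0370b2_nt.SA.ZE

/-! All blocks together. -/

namespace Pool.Agent.CSU.SA

theorem fullS : FullS :=
  full (all (c1 tau cnt (ml hp anm tj' qq num (ml0 ex aux small (alg nd ze)) near) (mult ap aph)))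

end Pool.Agent.CSU.SA
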