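import Pool.Agent.Lib.MP_0370b2_nt.SA.St
import Pool.Agent.Lib.MP_0370b2_nt.SA.Grow

/-! The growth blocks. -/

namespace Pool.Agent.CSU.SA

open Finset Module Submodule

theorem grow : GrowS := fun k F Γ _ _ _ _ n w z hz => by
  have := Gr.grow (k := k) w (insert 1 (Set.range z)) ((Set.finite_range z).insert 1)
    (by rintro _ (rfl | ⟨g, rfl⟩); exacts [isAlgebraic_one, hz g])
  rwa [Fintype.card_fin] at this

lemma Gr.aeval_mem {k A ι : Type} [Field k] [CommRing A] [Algebra k A] {V : Submodule k A}
    (h1 : 1 ∈ V) {w : ι → A} (hw : ∀ i, w i ∈ V) {P : MvPolynomial ι k} {m : ℕ}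
    (hP : P.totalDegree ≤ m) : MvPolynomial.aeval w P ∈ V ^ m := by
  rw [MvPolynomial.aeval_def, MvPolynomial.eval₂_eq]
  refine sum_mem fun d hd => ?_
  rw [← Algebra.smul_def]
  exact smul_mem _ _ (Gr.pw_mono h1 ((MvPolynomial.le_totalDegree hd).trans hP)
    (Gr.pw_prod _ d _ fun i _ => pow_mem_pow _ (hw i) _))

theorem gr0 : Gr0S := by
  intro k F Γ _ _ _ _ s m w z Q W hW hQ hmon D
  classical
  set V := span k (insert 1 (Set.range w)) with hV
  have hV1 : (1 : F) ∈ V := subset_span (Set.mem_insert _ _)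
  have hVw : ∀ i, w i ∈ V := fun i => subset_span (Set.mem_insert_of_mem _ ⟨i, rfl⟩)
  have := Gr.sp_fin (k := k) w
  set S : Set F := {x | ∃ α : Γ → ℕ, (∀ g, α g < (Q g).natDegree) ∧ x = ∏ g, z g ^ α g} with hS
  have hle : span k S ≤ W := span_le.2 (by rintro _ ⟨α, hα, rfl⟩; exact hmon α hα)
  have : Module.Finite k (span k S) := Submodule.finiteDimensional_of_le hle
  have hev : ∀ g, MvPolynomial.aeval w (Q g).leadingCoeff * z g ^ (Q g).natDegree =
      -∑ j ∈ range (Q g).natDegree, MvPolynomial.aeval w ((Q g).coeff j) * z g ^ j := fun g => by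
    have := (hQ g).2.2
    rw [Polynomial.eval₂_eq_sum_range, sum_range_succ] at this
    exact eq_neg_of_add_eq_zero_right this
  have hpos : ∀ g, 0 < (Q g).natDegree := fun g => Nat.pos_of_ne_zero fun h => by
    have := hev g
    rw [h] at this
    exact (hQ g).2.1 (by simpa using this)
  have hlc : ∀ t : Finset Γ, ∏ g ∈ t, MvPolynomial.aeval w (Q g).leadingCoeff ∈ V ^ (t.card * m) :=
    fun t => by
      simpa using Gr.pw_prod t (fun _ => m) (fun g => MvPolynomial.aeval w (Q g).leadingCoeff)
        fun g _ => Gr.aeval_mem hV1 hVw ((hQ g).1 _)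
  have hstep : ∀ u ∈ U1 k (Sum.elim w z), ∀ x ∈ span k S,
      (∏ g, MvPolynomial.aeval w (Q g).leadingCoeff) * u * x ∈
        V ^ (Fintype.card Γ * m + 1) * span k S := by
    intro u hu x hx
    have : U1 k (Sum.elim w z) * span k S ≤ (V ^ (Fintype.card Γ * m + 1) * span k S).comap
        (LinearMap.mulLeft k (∏ g, MvPolynomial.aeval w (Q g).leadingCoeff)) := by
      rw [U1, span_mul_span, span_le]
      rintro _ ⟨ξ, hξ, _, ⟨α, hα, rfl⟩, rfl⟩
      have hx : ∏ g, z g ^ α g ∈ span k S := subset_span ⟨α, hα, rfl⟩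
      rw [SetLike.mem_coe, mem_comap, LinearMap.mulLeft_apply]
      beta_reduce
      rcases hξ with rfl | ⟨i | g, rfl⟩
      · rw [one_mul]
        exact mul_mem_mul (Gr.pw_mono hV1 (Nat.le_succ _) (hlc univ)) hx
      · rw [← mul_assoc]
        exact mul_mem_mul (by rw [pow_succ]; exact mul_mem_mul (hlc univ) (hVw i)) hx
      · have hup : ∀ j < (Q g).natDegree, z g ^ j * ∏ g' ∈ univ.erase g, z g' ^ α g' ∈ span k S :=
          fun j hj => subset_span ⟨Function.update α g j, fun g' => by
            by_cases h : g' = g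
            · subst h; simpa using hj
            · simpa [h] using hα g', by
            rw [← mul_prod_erase univ _ (mem_univ g), Function.update_self]
            exact congrArg _ (prod_congr rfl fun g' h => by
              rw [Function.update_of_ne (ne_of_mem_erase h)])⟩
        rw [← mul_prod_erase univ (fun g => z g ^ α g) (mem_univ g), Sum.elim_inr,
          ← mul_assoc (z g), ← pow_succ']
        rcases Nat.lt_or_ge (α g + 1) (Q g).natDegree with h | h
        · exact mul_mem_mul (Gr.pw_mono hV1 (Nat.le_succ _) (hlc univ)) (hup _ h)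
        · rw [le_antisymm (hα g) h, ← mul_prod_erase univ _ (mem_univ g), mul_mul_mul_comm, hev,
            neg_mul, sum_mul]
          refine neg_mem (sum_mem fun j hj => ?_)
          rw [mul_mul_mul_comm]
          refine mul_mem_mul (Gr.pw_mono hV1 ?_ (Gr.pw_mul (Gr.aeval_mem hV1 hVw ((hQ g).1 j))
            (hlc _))) (hup _ (mem_range.1 hj))
          rw [← card_univ, ← card_erase_add_one (mem_univ g)]
          nlinarith
    simpa [mul_assoc] using this (mul_mem_mul hu hx)
  refine (Gr.rk_step (prod_ne_zero_iff.2 fun g _ => (hQ g).2.1)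
    (subset_span (s := S) ⟨0, hpos, by simp⟩) hstep D).trans ?_
  rw [mul_comm]
  exact Nat.mul_le_mul (finrank_mono hle) (by simpa using Gr.rk_pol (k := k) w _)

end Pool.Agent.CSU.SA
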