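import Pool.Agent.Lib.MP_bf776f_nt.SU.Der

/-! Counting lemmas for the honest point. -/

namespace Pool.Agent.CSU.SA.HP

open Finset Module Submodule

section alg

variable {k A : Type} [Field k] [CommRing A] [Algebra k A]

lemma ae_mem {σ : Type} (w : σ → A) {U : Submodule k A} (h1 : 1 ∈ U) (hw : ∀ j, w j ∈ U)
    {f : MvPolynomial σ k} {D : ℕ} (hf : f.totalDegree ≤ D) :
    MvPolynomial.aeval w f ∈ U ^ D := by
  classical
  have key : ∀ (s : Finset σ) (a : σ → ℕ), ∏ j ∈ s, w j ^ a j ∈ U ^ ∑ j ∈ s, a j := by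
    intro s a
    induction s using Finset.induction_on with
    | empty => rw [prod_empty, sum_empty, pow_zero]; exact Submodule.one_le.1 le_rfl
    | insert j s hj ih =>
      rw [prod_insert hj, sum_insert hj, pow_add]
      exact mul_mem_mul (pow_mem_pow _ (hw j) _) ih
  rw [f.as_sum, map_sum]
  refine Submodule.sum_mem _ fun d hd => ?_
  rw [MvPolynomial.aeval_monomial, ← Algebra.smul_def]
  exact smul_mem _ _ (pow_le_pow_right' (Submodule.one_le.2 h1)
    ((MvPolynomial.le_totalDegree hd).trans hf) (key d.support d))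

lemma fr_mul (U W : Submodule k A) (hU : U.FG) (hW : W.FG) :
    finrank k ↥(U * W) ≤ finrank k U * finrank k W := by
  have := Module.Finite.iff_fg.2 hU
  have := Module.Finite.iff_fg.2 hW
  rw [← mulMap_range, ← Module.finrank_tensorProduct]
  exact LinearMap.finrank_range_le _

lemma fr_mono {U W : Submodule k A} (hW : W.FG) (h : U ≤ W) : finrank k U ≤ finrank k W := by
  have := Module.Finite.iff_fg.2 hW
  exact Submodule.finrank_mono h

/-- The span of `1` and a family. -/
abbrev sp (k : Type) [Field k] [Algebra k A] {σ : Type} (w : σ → A) : Submodule k A :=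
  span k (insert 1 (Set.range w))

lemma sp_one {σ : Type} (w : σ → A) : 1 ∈ sp k w := subset_span (Set.mem_insert _ _)

lemma sp_mem {σ : Type} (w : σ → A) (j : σ) : w j ∈ sp k w :=
  subset_span (Set.mem_insert_of_mem _ ⟨j, rfl⟩)

lemma sp_fg {σ : Type} [Finite σ] (w : σ → A) : (sp k w).FG :=
  fg_span ((Set.finite_range w).insert 1)

lemma sp_le {σ : Type} {w : σ → A} {U : Submodule k A} (h1 : 1 ∈ U) (hw : ∀ j, w j ∈ U) :
    sp k w ≤ U := span_le.2 (by rintro _ (rfl | ⟨j, rfl⟩); exacts [h1, hw j])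

lemma fr_pow {i : ℕ} (w : Fin i → A) (D : ℕ) : finrank k ↥(sp k w ^ D) ≤ (D + 1) ^ i := by
  classical
  let P : ℕ → Submodule k A := fun D =>
    span k ((fun a : Fin i → ℕ => ∏ j, w j ^ a j) '' {a | ∀ j, a j ≤ D})
  have h1 : ∀ D, sp k w ^ D ≤ P D := by
    intro D
    induction D with
    | zero => rw [pow_zero, Submodule.one_le]; exact subset_span ⟨0, by simp, by simp⟩
    | succ D ih =>
      rw [pow_succ]
      refine (mul_le_mul_left ih _).trans ?_
      rw [span_mul_span, span_le]
      rintro _ ⟨_, ⟨a, ha, rfl⟩, _, rfl | ⟨j, rfl⟩, rfl⟩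
      · exact subset_span ⟨a, fun j => (ha j).trans (by omega), by simp⟩
      · refine subset_span ⟨a + Pi.single j 1, fun l => ?_, ?_⟩
        · have := ha l
          by_cases h : l = j
          · subst h; simpa using this
          · simp [h]; omega
        · simp only [Pi.add_apply, pow_add, prod_mul_distrib]
          congr 1
          rw [prod_eq_single j] <;> simp +contextual
  have h2 : P D = span k (Set.range fun a : Fin i → Fin (D + 1) => ∏ j, w j ^ (a j : ℕ)) := by
    refine congrArg (span k) (Set.ext fun x => ?_)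
    constructor
    · rintro ⟨a, ha, rfl⟩
      exact ⟨fun j => ⟨a j, Nat.lt_succ_of_le (ha j)⟩, rfl⟩
    · rintro ⟨a, rfl⟩
      exact ⟨fun j => a j, fun j => Nat.lt_succ_iff.1 (a j).2, rfl⟩
  refine (fr_mono (h2 ▸ fg_span (Set.finite_range _)) (h1 D)).trans ?_
  rw [h2]
  exact (finrank_range_le_card (R := k)
    fun a : Fin i → Fin (D + 1) => ∏ j, w j ^ (a j : ℕ)).trans (by simp)

lemma sieg {i : ℕ} (w : Fin i → A) {J : Type} [Fintype J] (y : J → A) (W : Submodule k A)
    (hW : W.FG) {D E : ℕ} (hE : i * E ≤ D)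
    (hy : ∀ j (f : MvPolynomial (Fin i) k), f.totalDegree ≤ D → MvPolynomial.aeval w f * y j ∈ W)
    (hd : finrank k W < Fintype.card J * E ^ i) :
    ∃ a : J → MvPolynomial (Fin i) k, a ≠ 0 ∧ (∀ j, (a j).totalDegree ≤ D) ∧
      ∑ j, MvPolynomial.aeval w (a j) * y j = 0 := by
  classical
  have := Module.Finite.iff_fg.2 hW
  let e : (Fin i → Fin E) → (Fin i →₀ ℕ) := fun α => Finsupp.equivFunOnFinite.symm fun j => α j
  have he : Function.Injective e := fun α β h => funext fun j =>
    Fin.ext (by simpa [e] using DFunLike.congr_fun h j)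
  have hdeg : ∀ α (c : k), (MvPolynomial.monomial (e α) c).totalDegree ≤ D := fun α c => by
    refine (MvPolynomial.totalDegree_monomial_le _ _).trans (le_trans ?_ hE)
    rw [Finsupp.sum_fintype _ _ (by simp)]
    refine (sum_le_card_nsmul _ _ E fun j _ => ?_).trans (by simp)
    simp [e]
  let v : J × (Fin i → Fin E) → W := fun p =>
    ⟨MvPolynomial.aeval w (MvPolynomial.monomial (e p.2) (1 : k)) * y p.1, hy _ _ (hdeg _ _)⟩
  have hv : ¬ LinearIndependent k v := fun h => by
    have := h.fintype_card_le_finrank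
    simp at this
    omega
  obtain ⟨c, hc, p, hp⟩ := Fintype.not_linearIndependent_iff.1 hv
  refine ⟨fun j => ∑ α, MvPolynomial.monomial (e α) (c (j, α)), fun h => hp ?_,
    fun j => MvPolynomial.totalDegree_finsetSum_le fun α _ => hdeg _ _, ?_⟩
  · have := congrArg (MvPolynomial.coeff (e p.2)) (congrFun h p.1)
    simpa [MvPolynomial.coeff_sum, MvPolynomial.coeff_monomial, he.eq_iff] using this
  · have := congrArg Subtype.val hc
    rw [Submodule.coe_sum, Fintype.sum_prod_type] at this
    rw [← Submodule.coe_zero (p := W), ← this]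
    refine sum_congr rfl fun j _ => ?_
    rw [map_sum, sum_mul]
    refine sum_congr rfl fun α _ => ?_
    simp [v, MvPolynomial.aeval_monomial, Algebra.smul_def, mul_assoc]

lemma fr_snd (T : Submodule k (A × A)) (hT : T.FG) (h : ∀ p ∈ T, p.1 = 0 → p.2 = 0) :
    finrank k (T.map (AlgHom.snd k A A).toLinearMap) ≤
      finrank k (T.map (AlgHom.fst k A A).toLinearMap) := by
  have := Module.Finite.iff_fg.2 hT
  refine (Submodule.finrank_map_le _ _).trans (le_of_eq ?_)
  have hi : Function.Injective ((AlgHom.fst k A A).toLinearMap.comp T.subtype) := by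
    rw [injective_iff_map_eq_zero]
    exact fun p hp => Subtype.ext (Prod.ext hp (h p p.2 hp))
  rw [← LinearMap.finrank_range_of_inj hi, LinearMap.range_comp, range_subtype]

end alg

variable {k F : Type} [Field k] [Field F] [Algebra k F]

/-- The growth lemma. -/
lemma gro (U V W : Submodule k F) (hV : V.FG) (hW : W.FG) {L : F} (hL : L ≠ 0) (h1 : 1 ∈ W)
    (h : span k {L} * U * W ≤ V * W) (D : ℕ) :
    finrank k ↥(U ^ D) ≤ finrank k ↥(V ^ D) * finrank k W := by
  have h2 : ∀ D, (span k {L} * U) ^ D * W ≤ V ^ D * W := by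
    intro D
    induction D with
    | zero => simp
    | succ D ih =>
      calc (span k {L} * U) ^ (D + 1) * W
          = (span k {L} * U) ^ D * (span k {L} * U * W) := by ring
        _ ≤ (span k {L} * U) ^ D * (V * W) := mul_le_mul_right h _
        _ = V * ((span k {L} * U) ^ D * W) := by ring
        _ ≤ V * (V ^ D * W) := mul_le_mul_right ih _
        _ = V ^ (D + 1) * W := by ring
  have := Module.Finite.iff_fg.2 ((hV.pow D).mul hW)
  refine le_trans ?_ (fr_mul _ _ (hV.pow D) hW)
  refine LinearMap.finrank_le_finrank_of_injective (f := LinearMap.codRestrict (V ^ D * W)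
    ((LinearMap.mulLeft k (L ^ D)).comp (U ^ D).subtype) fun u => h2 D ?_) fun a b hab =>
      Subtype.ext (mul_left_cancel₀ (pow_ne_zero D hL) (congrArg Subtype.val hab))
  rw [mul_pow]
  simpa using mul_mem_mul (mul_mem_mul (pow_mem_pow _ (mem_span_singleton_self L) D) u.2) h1

/-- The powers below `m`. -/
abbrev Rp (k : Type) [Field k] [Algebra k F] (m : ℕ) (x : F) : Submodule k F :=
  span k (Set.range fun a : Fin m => x ^ (a : ℕ))

lemma red {V : Submodule k F} {m e : ℕ} {x : F} {c : ℕ → F} (he : e ≤ m) (hc : ∀ l, c l ∈ V)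
    (h0 : ∑ l ∈ range (e + 1), c l * x ^ l = 0) :
    span k {c e * x} * Rp k m x ≤ V * Rp k m x := by
  rw [span_mul_span, span_le]
  rintro _ ⟨_, rfl, _, ⟨a, rfl⟩, rfl⟩
  by_cases ha : (a : ℕ) + 1 < m
  · have := mul_mem_mul (hc e) (subset_span (R := k) (s := Set.range fun a : Fin m => x ^ (a : ℕ))
      ⟨⟨a + 1, ha⟩, rfl⟩)
    show c e * x * x ^ (a : ℕ) ∈ V * Rp k m x
    rwa [mul_assoc, ← pow_succ']
  · have ha' := a.2
    rw [sum_range_succ] at h0
    have h1 : c e * x * x ^ (a : ℕ) = -∑ l ∈ range e, c l * x ^ (m - e + l) := by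
      have : c e * x * x ^ (a : ℕ) = x ^ (m - e) * (c e * x ^ e) := by
        rw [mul_assoc, ← pow_succ', mul_left_comm, ← pow_add]
        congr 2
        omega
      rw [this, eq_neg_of_add_eq_zero_right h0, mul_neg, mul_sum]
      congr 1
      exact sum_congr rfl fun l _ => by ring
    show c e * x * x ^ (a : ℕ) ∈ V * Rp k m x
    rw [h1]
    refine neg_mem (Submodule.sum_mem _ fun l hl => mul_mem_mul (hc l) (subset_span
      ⟨⟨m - e + l, ?_⟩, rfl⟩))
    have := mem_range.1 hl
    omega

/-- Growth at a point whose coordinates are roots of explicit polynomials. -/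
lemma grow {Γ : Type} {i m : ℕ} (hm : 1 ≤ m) (w : Fin i → F) (x : Γ → F) (e : Γ → ℕ)
    (c : Γ → ℕ → F) (he : ∀ g, e g ≤ m) (hc : ∀ g l, c g l ∈ sp k w ^ m)
    (hl : ∀ g, c g (e g) ≠ 0) (h0 : ∀ g, ∑ l ∈ range (e g + 1), c g l * x g ^ l = 0)
    (J : Finset Γ) (D : ℕ) :
    finrank k ↥(sp k (Sum.elim w fun g : J => x g) ^ D) ≤
      ((m * J.card + 1) * D + 1) ^ i * finrank k ↥(∏ g ∈ J, Rp k m (x g)) := by
  classical
  have hL : ∀ s : Finset Γ, ∏ g ∈ s, c g (e g) ∈ sp k w ^ (m * s.card) := by
    intro s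
    induction s using Finset.induction_on with
    | empty => simp
    | insert j s hj ih =>
      rw [prod_insert hj, card_insert_of_notMem hj, mul_add, mul_one, add_comm, pow_add]
      exact mul_mem_mul (hc _ _) ih
  have hfg : (∏ g ∈ J, Rp k m (x g)).FG :=
    prod_induction _ _ (fun _ _ => FG.mul) (by simpa using (sp_fg (k := k) w).pow 0)
      fun g _ => fg_span (Set.finite_range _)
  have h1 : (1 : F) ∈ ∏ g ∈ J, Rp k m (x g) := Submodule.one_le.1
    (one_le_prod'' fun g => Submodule.one_le.2 (subset_span ⟨⟨0, hm⟩, by simp⟩))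
  refine (gro _ (sp k w ^ (m * J.card + 1)) _ ((sp_fg w).pow _) hfg
    (prod_ne_zero_iff.2 fun g (_ : g ∈ J) => hl g) h1 ?_ D).trans ?_
  · have h2 : ∀ u ∈ sp k w, span k {(∏ g ∈ J, c g (e g)) * u} * ∏ g ∈ J, Rp k m (x g) ≤
        sp k w ^ (m * J.card + 1) * ∏ g ∈ J, Rp k m (x g) := fun u hu =>
      mul_le_mul_left ((span_singleton_le_iff_mem _ _).2
        (by rw [pow_succ]; exact mul_mem_mul (hL J) hu)) _
    rw [span_mul_span, Submodule.mul_le]
    intro a ha b hb
    refine span_induction (p := fun a _ => a * b ∈ _) ?_ (by simp) (fun _ _ _ _ h h' => ?_)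
      (fun r _ _ h => ?_) ha
    · rintro _ ⟨_, rfl, _, rfl | ⟨j | g, rfl⟩, rfl⟩
      · exact h2 1 (sp_one w) (mul_mem_mul (mem_span_singleton_self _) hb)
      · exact h2 _ (sp_mem w j) (mul_mem_mul (mem_span_singleton_self _) hb)
      · have h3 := mul_le_mul' (red (he g) (hc g) (h0 g)) (mul_le_mul_left
          ((span_singleton_le_iff_mem _ _).2 (hL (J.erase g))) (∏ g ∈ J.erase g, Rp k m (x g)))
        rw [mul_mul_mul_comm, mul_mul_mul_comm (sp k w ^ m), mul_prod_erase J
          (fun g => Rp k m (x g)) g.2, ← pow_add, span_mul_span] at h3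
        refine mul_le_mul_left (pow_le_pow_right' (Submodule.one_le.2 (sp_one w)) ?_) _
          (h3 (mul_mem_mul (subset_span ⟨_, rfl, _, rfl, ?_⟩) hb))
        · have := card_erase_add_one g.2
          nlinarith
        · simp only [Sum.elim_inr]
          rw [← mul_prod_erase J (fun g => c g (e g)) g.2]
          ring
    · rw [add_mul]; exact add_mem h h'
    · rw [smul_mul_assoc]; exact smul_mem _ _ h
  · rw [← pow_mul]
    exact Nat.mul_le_mul_right _ (fr_pow w _)

end Pool.Agent.CSU.SA.HP
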