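import Pool.Agent.Lib.MP_0370b2_nt.SA.Bas

/-! Heights: powers of a subspace, polynomials over them, pairs of close points. -/

namespace Pool.Agent.CSU.SA

open Polynomial Finset Module

section Pow

variable {k R : Type} [Field k] [CommRing R] [Algebra k R] {U : Submodule k R} {a b : ℕ}

lemma up_mul {x y : R} (hx : x ∈ U ^ a) (hy : y ∈ U ^ b) : x * y ∈ U ^ (a + b) :=
  pow_add U a b ▸ Submodule.mul_mem_mul hx hy

lemma up_one (h1 : 1 ∈ U) (a : ℕ) : (1 : R) ∈ U ^ a := by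
  simpa using Submodule.pow_mem_pow U h1 a

lemma up_mono (h1 : 1 ∈ U) (h : a ≤ b) : U ^ a ≤ U ^ b := fun x hx => by
  obtain ⟨c, rfl⟩ := Nat.exists_eq_add_of_le h
  simpa using up_mul hx (up_one h1 c)

lemma up_pow {x : R} (hx : x ∈ U ^ a) (n : ℕ) : x ^ n ∈ U ^ (n * a) := by
  rw [mul_comm, pow_mul]; exact Submodule.pow_mem_pow _ hx n

lemma up_prod {κ : Type} {s : Finset κ} {f : κ → R} {d : κ → ℕ} (h : ∀ i ∈ s, f i ∈ U ^ d i) :
    ∏ i ∈ s, f i ∈ U ^ ∑ i ∈ s, d i := by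
  classical
  induction s using Finset.induction_on with
  | empty => simp [Submodule.one_le.1 le_rfl]
  | insert i s hi ih =>
    rw [prod_insert hi, sum_insert hi]
    exact up_mul (h i (mem_insert_self _ _)) (ih fun j hj => h j (mem_insert_of_mem hj))

lemma up_alg (h1 : 1 ∈ U) (a : ℕ) (c : k) : algebraMap k R c ∈ U ^ a := by
  rw [Algebra.algebraMap_eq_smul_one]; exact Submodule.smul_mem _ _ (up_one h1 a)

/-- All coefficients of a polynomial in one variable lie in `U ^ D`. -/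
def HtQ (U : Submodule k R) (D : ℕ) (p : R[X]) : Prop := ∀ n, p.coeff n ∈ U ^ D

namespace HtQ

variable {p p' : R[X]}

lemma zero : HtQ U a (0 : R[X]) := fun _ => Submodule.zero_mem _

lemma add (h : HtQ U a p) (h' : HtQ U a p') : HtQ U a (p + p') := fun n => by
  rw [coeff_add]; exact add_mem (h n) (h' n)

lemma neg (h : HtQ U a p) : HtQ U a (-p) := fun n => by
  rw [coeff_neg]; exact neg_mem (h n)

lemma sub (h : HtQ U a p) (h' : HtQ U a p') : HtQ U a (p - p') := fun n => by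
  rw [coeff_sub]; exact sub_mem (h n) (h' n)

lemma smul (h : HtQ U a p) (c : k) : HtQ U a (c • p) := fun n => by
  rw [coeff_smul]; exact Submodule.smul_mem _ _ (h n)

lemma mul (h : HtQ U a p) (h' : HtQ U b p') : HtQ U (a + b) (p * p') := fun n => by
  rw [coeff_mul]; exact sum_mem fun _ _ => up_mul (h _) (h' _)

lemma mono (h1 : 1 ∈ U) (h : HtQ U a p) (hab : a ≤ b) : HtQ U b p := fun n =>
  up_mono h1 hab (h n)

lemma sum {κ : Type} {s : Finset κ} {f : κ → R[X]} (h : ∀ i ∈ s, HtQ U a (f i)) :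
    HtQ U a (∑ i ∈ s, f i) := sum_induction _ _ (fun _ _ => add) zero h

lemma C {x : R} (hx : x ∈ U ^ a) : HtQ U a (C x) := fun n => by
  rw [coeff_C]; split_ifs; exacts [hx, zero_mem _]

lemma X (h1 : 1 ∈ U) (a : ℕ) : HtQ U a (X : R[X]) := fun n => by
  rw [coeff_X]; split_ifs; exacts [up_one h1 a, zero_mem _]

lemma one (h1 : 1 ∈ U) (a : ℕ) : HtQ U a (1 : R[X]) := C (up_one h1 a)

lemma pow (h : HtQ U a p) (n : ℕ) : HtQ U (n * a) (p ^ n) := by
  induction n with
  | zero => rw [zero_mul, pow_zero]; exact C (by simp [Submodule.one_le.1 le_rfl])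
  | succ n ih => rw [pow_succ, add_mul, one_mul]; exact ih.mul h

lemma taylor (h1 : 1 ∈ U) (h : HtQ U a p) {c : R} (hc : c ∈ U ^ b) {d : ℕ} (hd : p.degree < d) :
    HtQ U (a + d * b) (taylor c p) := by
  rw [p.as_sum_support_C_mul_X_pow, map_sum]
  refine sum fun n hn => ?_
  have hn' : n < d := by exact_mod_cast (le_degree_of_mem_supp n hn).trans_lt hd
  rw [taylor_mul, taylor_C, taylor_pow, taylor_X]
  exact ((C (h n)).mul (((X h1 b).add (C hc)).pow n)).mono h1 (by gcongr)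

lemma eval (h1 : 1 ∈ U) (h : HtQ U a p) {c : R} (hc : c ∈ U ^ b) {d : ℕ} (hd : p.degree < d) :
    p.eval c ∈ U ^ (a + d * b) := taylor_coeff_zero c p ▸ h.taylor h1 hc hd 0

end HtQ

namespace HtP

variable {ι : Type} {f g : PP ι R}

lemma zero : HtP U a (0 : PP ι R) := fun _ _ => Submodule.zero_mem _

lemma coeff (h : HtP U a f) (α : ι →₀ ℕ) : HtQ U a (f.coeff α) := h α

lemma add (h : HtP U a f) (h' : HtP U a g) : HtP U a (f + g) := fun α => by
  rw [MvPolynomial.coeff_add]; exact (h.coeff α).add (h' α)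

lemma neg (h : HtP U a f) : HtP U a (-f) := fun α => by
  rw [MvPolynomial.coeff_neg]; exact (h.coeff α).neg

lemma sub (h : HtP U a f) (h' : HtP U a g) : HtP U a (f - g) := by
  rw [sub_eq_add_neg]; exact h.add h'.neg

lemma mul (h : HtP U a f) (h' : HtP U b g) : HtP U (a + b) (f * g) := fun α => by
  classical
  rw [MvPolynomial.coeff_mul]
  exact HtQ.sum fun _ _ => (h.coeff _).mul (h' _)

lemma mono (h1 : 1 ∈ U) (h : HtP U a f) (hab : a ≤ b) : HtP U b f := fun α n =>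
  up_mono h1 hab (h α n)

lemma sum {κ : Type} {s : Finset κ} {f : κ → PP ι R} (h : ∀ i ∈ s, HtP U a (f i)) :
    HtP U a (∑ i ∈ s, f i) := sum_induction _ _ (fun _ _ => add) zero h

lemma monomial {p : R[X]} (hp : HtQ U a p) (β : ι →₀ ℕ) :
    HtP U a (MvPolynomial.monomial β p : PP ι R) := fun α => by
  classical
  rw [MvPolynomial.coeff_monomial]; split_ifs; exacts [hp, HtQ.zero]

lemma C {p : R[X]} (hp : HtQ U a p) : HtP U a (MvPolynomial.C p : PP ι R) := monomial hp 0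

lemma X (h1 : 1 ∈ U) (a : ℕ) (l : ι) : HtP U a (MvPolynomial.X l : PP ι R) :=
  monomial (HtQ.one h1 a) _

lemma one (h1 : 1 ∈ U) (a : ℕ) : HtP U a (1 : PP ι R) := C (HtQ.one h1 a)

lemma pow (h : HtP U a f) (n : ℕ) : HtP U (n * a) (f ^ n) := by
  induction n with
  | zero => rw [zero_mul, pow_zero]; exact C (HtQ.C (by simp [Submodule.one_le.1 le_rfl]))
  | succ n ih => rw [pow_succ, add_mul, one_mul]; exact ih.mul h

lemma prod {κ : Type} {s : Finset κ} {f : κ → PP ι R} {d : κ → ℕ}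
    (h : ∀ i ∈ s, HtP U (d i) (f i)) : HtP U (∑ i ∈ s, d i) (∏ i ∈ s, f i) := by
  classical
  induction s using Finset.induction_on with
  | empty => exact C (HtQ.C (by simp [Submodule.one_le.1 le_rfl]))
  | insert i s hi ih =>
    rw [prod_insert hi, sum_insert hi]
    exact (h i (mem_insert_self _ _)).mul (ih fun j hj => h j (mem_insert_of_mem hj))

lemma tw {σ : R →+* R} {q : ℕ} (hσ : ∀ x, σ x = x ^ q) (h : HtP U a f) :
    HtP U (q * a) (tw σ f) := fun α n => by
  rw [coeff_tw, coeff_map, hσ]; exact up_pow (h α n) q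

lemma tw_iter {σ : R →+* R} {q : ℕ} (hσ : ∀ x, σ x = x ^ q) (h : HtP U a f) (i : ℕ) :
    HtP U (q ^ i * a) ((SA.tw σ)^[i] f) := by
  induction i with
  | zero => simpa using h
  | succ i ih => rw [Function.iterate_succ_apply', pow_succ', mul_assoc]; exact ih.tw hσ

end HtP

lemma up_gen {x : R} (hx : x ∈ U) (n : ℕ) : x ^ n ∈ U ^ n := Submodule.pow_mem_pow U hx n

lemma Sys.VV_ht {ι : Type} (s : Sys ι R) (h1 : 1 ∈ U) (hθ : s.θ ∈ U)
    (hy : ∀ l, s.y l ∈ U ∧ s.x l ∈ U) (hq : 2 ≤ s.q) (i m : ℕ) (l : ι) :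
    HtP U (2 * s.q ^ (s.e + i + m)) (s.VV i m l) := by
  have mo : ∀ {a b}, a ≤ b → s.q ^ a ≤ s.q ^ b := fun h => Nat.pow_le_pow_right (by omega) h
  induction m with
  | zero =>
    have := mo (show i ≤ s.e + i + 0 by omega)
    exact ((HtP.C (HtQ.C (up_gen (hy l).1 _))).mono h1 (by omega)).add (HtP.X h1 _ l)
  | succ m ih =>
    have a1 := mo (show i ≤ s.e + i + m by omega)
    have a2 := mo (show i + m ≤ s.e + i + m by omega)
    have a3 : 2 * s.q ^ (s.e + i + m) ≤ s.q ^ (s.e + i + (m + 1)) := by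
      rw [← add_assoc, pow_succ']; gcongr
    refine (((HtP.C (((HtQ.X h1 _).add (HtQ.C (up_mono h1 a1 (up_gen hθ _)))).sub
      (HtQ.C (by rw [add_assoc]; exact up_gen hθ _)))).mul ih).mono h1 (by omega)).add
      ((HtP.C (HtQ.C (up_gen (hy l).2 _))).mono h1 (by omega))

lemma Sys.JJ_ht {ι : Type} [Fintype ι] (s : Sys ι R) (h1 : 1 ∈ U) (hθ : s.θ ∈ U)
    (hy : ∀ l, s.y l ∈ U ∧ s.x l ∈ U) (hq : 2 ≤ s.q) {H δ d : ℕ} {f : PP ι R} (hf : HtP U H f)
    (hr : Row δ d f) (i m : ℕ) :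
    HtP U (H + d * s.q ^ i + 2 * Fintype.card ι * δ * s.q ^ (s.e + i + m)) (s.JJ i m f) := by
  rw [f.as_sum, map_sum]
  refine HtP.sum fun α hα => ?_
  rw [MvPolynomial.monomial_eq, map_mul, Sys.JJ_C, Finsupp.prod_fintype _ _ (by simp), map_prod]
  refine ((HtP.C ((hf.coeff α).taylor h1 (up_gen hθ _) (hr α).1)).mul
    (HtP.prod (d := fun _ => δ * (2 * s.q ^ (s.e + i + m))) fun l _ => ?_)).mono h1 (le_of_eq ?_)
  · rw [map_pow, Sys.JJ_X]
    exact ((s.VV_ht h1 hθ hy hq i m l).pow _).mono h1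
      (Nat.mul_le_mul_right _ ((hr α).2 (MvPolynomial.mem_support_iff.1 hα) l))
  · rw [sum_const, card_univ, smul_eq_mul]; ring

/-- In particular the value. -/
lemma Sys.ev_ht {ι : Type} [Fintype ι] (s : Sys ι R) (h1 : 1 ∈ U) (hθ : s.θ ∈ U)
    (hy : ∀ l, s.y l ∈ U ∧ s.x l ∈ U) (hq : 2 ≤ s.q) {H δ d : ℕ} {f : PP ι R} (hf : HtP U H f)
    (hr : Row δ d f) (i m : ℕ) :
    s.ev i m f ∈ U ^ (H + d * s.q ^ i + 2 * Fintype.card ι * δ * s.q ^ (s.e + i + m)) :=
  s.JJ_ht h1 hθ hy hq hf hr i m 0 0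

lemma U1_one {Γ : Type} (z : Γ → R) : (1 : R) ∈ U1 k z := Submodule.subset_span (Set.mem_insert _ _)

lemma U1_mem {Γ : Type} (z : Γ → R) (g : Γ) : z g ∈ U1 k z :=
  Submodule.subset_span (Set.mem_insert_of_mem _ ⟨g, rfl⟩)

lemma U1_fg {Γ : Type} [Finite Γ] (z : Γ → R) : (U1 k z).FG :=
  Submodule.fg_span ((Set.finite_range z).insert 1)

lemma U1_le {Γ : Type} {z : Γ → R} (h1 : 1 ∈ U) (hz : ∀ g, z g ∈ U) : U1 k z ≤ U :=
  Submodule.span_le.2 (by rintro _ (rfl | ⟨g, rfl⟩); exacts [h1, hz g])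

/-- Images of powers under an algebra map. -/
lemma U1_map {Γ R' : Type} [CommRing R'] [Algebra k R'] (φ : R →ₐ[k] R') (z : Γ → R) {D : ℕ}
    {p : R} (hp : p ∈ U1 k z ^ D) : φ p ∈ U1 k (fun g => φ (z g)) ^ D := by
  induction hp using Submodule.pow_induction_on_left' with
  | algebraMap r => rw [φ.commutes]; exact up_alg (U1_one _) 0 r
  | add x y i hx hy h h' => rw [map_add]; exact add_mem h h'
  | mem_mul m hm i x hx h =>
    rw [map_mul, Nat.succ_eq_add_one, pow_succ']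
    refine Submodule.mul_mem_mul ?_ h
    exact U1_le (U := (U1 k fun g => φ (z g)).comap φ.toLinearMap)
      (by simpa using U1_one _) (fun g => U1_mem (fun g => φ (z g)) g) hm

end Pow

section CC

variable {k F : Type} [Field k] [Field F] [Algebra k F] {U : Submodule k F} {μ : ℕ}

lemma CC_one : (1 : F[X]) ∈ CC μ U := Submodule.subset_span (Set.mem_insert _ _)

lemma CC_X : (X : F[X]) ∈ CC μ U :=
  Submodule.subset_span (Set.mem_insert_of_mem _ (Set.mem_insert _ _))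

lemma CC_gen {w : F} (hw : w ∈ U) : C (w ^ μ) ∈ CC μ U :=
  Submodule.subset_span (Set.mem_insert_of_mem _ (Set.mem_insert_of_mem _ ⟨w, hw, rfl⟩))

lemma frob_add [Fintype k] (a : ℕ) (x y : F) : (x + y) ^ Fintype.card k ^ a =
    x ^ Fintype.card k ^ a + y ^ Fintype.card k ^ a := by
  have hf : ∀ x : F, (FiniteField.frobeniusAlgHom k F ^ a) x = x ^ Fintype.card k ^ a :=
    fun x => by rw [AlgHom.coe_pow, FiniteField.coe_frobeniusAlgHom, pow_iterate]
  rw [← hf, ← hf, ← hf, map_add]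

lemma frob_alg [Fintype k] (a : ℕ) (c : k) :
    algebraMap k F c ^ Fintype.card k ^ a = algebraMap k F c := by
  rw [← map_pow, FiniteField.pow_card_pow]

lemma CC_C [Fintype k] (a : ℕ) {H : ℕ} {w : F} (hw : w ∈ U ^ H) :
    C (w ^ Fintype.card k ^ a) ∈ CC (Fintype.card k ^ a) U ^ H := by
  induction hw using Submodule.pow_induction_on_left' with
  | algebraMap r => rw [frob_alg]; exact up_alg CC_one 0 r
  | add x y i hx hy h h' => rw [frob_add, map_add]; exact add_mem h h'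
  | mem_mul m hm i x hx h =>
    rw [mul_pow, map_mul, Nat.succ_eq_add_one, pow_succ']
    exact Submodule.mul_mem_mul (CC_gen hm) h

lemma CC_taylor (hμ : 1 ≤ μ) (h1 : 1 ∈ U) {θ : F} (hθ : θ ∈ U) {H : ℕ} {p : F[X]}
    (hp : p ∈ CC μ U ^ H) : HtQ U (μ * H) (taylor θ p) := by
  induction hp using Submodule.pow_induction_on_left' with
  | algebraMap r => rw [Polynomial.algebraMap_apply, taylor_C]; exact HtQ.C (up_alg h1 _ r)
  | add x y i hx hy h h' => rw [map_add]; exact h.add h'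
  | mem_mul m hm i x hx h =>
    rw [taylor_mul, Nat.succ_eq_add_one, mul_add, mul_one, add_comm]
    refine HtQ.mul ?_ h
    clear h
    induction hm using Submodule.span_induction with
    | mem x hx =>
      rcases hx with rfl | rfl | ⟨w, hw, rfl⟩
      · rw [taylor_one]; exact HtQ.one h1 _
      · rw [taylor_X]; exact (HtQ.X h1 _).add (HtQ.C (up_mono h1 hμ (by simpa using hθ)))
      · rw [taylor_C]; exact HtQ.C (up_gen hw _)
    | zero => rw [map_zero]; exact HtQ.zero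
    | add x y _ _ h h' => rw [map_add]; exact h.add h'
    | smul c x _ h => rw [LinearMap.map_smul_of_tower]; exact h.smul c

lemma CC_eval (hμ : 1 ≤ μ) (h1 : 1 ∈ U) {θ : F} (hθ : θ ∈ U) {H : ℕ} {p : F[X]}
    (hp : p ∈ CC μ U ^ H) : p.eval θ ∈ U ^ (μ * H) :=
  taylor_coeff_zero θ p ▸ CC_taylor hμ h1 hθ hp 0

lemma CC_coeff [Fintype k] (a : ℕ) {W : Subfield F} (hU : ∀ w ∈ U, w ∈ W)
    (hk : ∀ c, algebraMap k F c ∈ W) {H : ℕ} {p : F[X]} (hp : p ∈ CC (Fintype.card k ^ a) U ^ H)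
    (i : ℕ) : ∃ w ∈ W, p.coeff i = w ^ Fintype.card k ^ a := by
  let φ : F →ₐ[k] F := FiniteField.frobeniusAlgHom k F ^ a
  have hf : ∀ x : F, φ x = x ^ Fintype.card k ^ a :=
    fun x => by rw [AlgHom.coe_pow, FiniteField.coe_frobeniusAlgHom, pow_iterate]
  let E : Subfield F := W.map (φ : F →+* F)
  have hE : ∀ c, algebraMap k F c ∈ E := fun c => ⟨_, hk c, φ.commutes c⟩
  have hC : ∀ x ∈ E, ∀ i, (C x).coeff i ∈ E := fun x hx i => by
    rw [coeff_C]; split_ifs; exacts [hx, zero_mem _]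
  suffices h : ∀ i, p.coeff i ∈ E by
    obtain ⟨w, hw, e⟩ := h i
    exact ⟨w, hw, by rw [← e, ← hf]; rfl⟩
  clear i
  induction hp using Submodule.pow_induction_on_left' with
  | algebraMap r => exact hC _ (hE r)
  | add x y i hx hy h h' => exact fun n => by rw [coeff_add]; exact add_mem (h n) (h' n)
  | mem_mul m hm i x hx h =>
    have : ∀ n, m.coeff n ∈ E := by
      induction hm using Submodule.span_induction with
      | mem x hx =>
        rcases hx with rfl | rfl | ⟨w, hw, rfl⟩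
        · exact hC 1 (one_mem _)
        · exact fun n => by rw [coeff_X]; split_ifs; exacts [one_mem _, zero_mem _]
        · exact hC _ ⟨w, hU w hw, hf w⟩
      | zero => exact fun _ => zero_mem _
      | add x y _ _ h h' => exact fun n => by rw [coeff_add]; exact add_mem (h n) (h' n)
      | smul c x _ h => exact fun n => by rw [coeff_smul, Algebra.smul_def]; exact mul_mem (hE c) (h n)
    exact fun n => by rw [coeff_mul]; exact sum_mem fun _ _ => mul_mem (this _) (h _)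

/-- Transfer of the growth to quotients with a common denominator. -/
lemma grow_tr {Γ : Type} (hU : U.FG) {z : Γ → F} {G0 : F} {D0 : ℕ} (h0 : G0 ≠ 0)
    (hG : G0 ∈ U ^ D0) (hz : ∀ g, G0 * z g ∈ U ^ D0) (D : ℕ) :
    finrank k ↥(U1 k z ^ D) ≤ finrank k ↥(U ^ (D0 * D)) := by
  have key : ∀ p ∈ U1 k z ^ D, G0 ^ D * p ∈ U ^ (D0 * D) := fun p hp => by
    induction hp using Submodule.pow_induction_on_left' with
    | algebraMap r => simp
    | add x y i hx hy h h' => rw [mul_add]; exact add_mem h h'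
    | mem_mul m hm i x hx h =>
      have : G0 * m ∈ U ^ D0 := U1_le (U := (U ^ D0).comap (LinearMap.mulLeft k G0))
        (by simpa using hG) hz hm
      rw [Nat.succ_eq_add_one, mul_add, mul_one, add_comm (D0 * i), pow_succ', mul_mul_mul_comm]
      exact up_mul this h
  have : Module.Finite k ↥(U ^ (D0 * D)) := Module.Finite.iff_fg.2 (hU.pow _)
  refine LinearMap.finrank_le_finrank_of_injective
    (f := (LinearMap.mulLeft k (G0 ^ D)).restrict key) fun x y h => Subtype.ext ?_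
  exact mul_left_cancel₀ (pow_ne_zero D h0) (congrArg Subtype.val h)

end CC

section Pair

variable {k F : Type} [Field k] [NormedField F] [Algebra k F]

lemma norm_kf [Fintype k] (c : k) : ‖algebraMap k F c‖ ≤ 1 := by
  by_contra h
  have := congrArg (fun c => ‖algebraMap k F c‖) (FiniteField.pow_card c)
  simp only [map_pow, norm_pow] at this
  exact (lt_self_pow₀ (not_le.1 h) Fintype.one_lt_card).ne' this

/-- Sizes and distances for pairs of close points. -/
lemma pair_le [Fintype k] [IsUltrametricDist F] {Γ : Type} {z z' : Γ → F} {B dl : ℝ} (hB : 1 ≤ B)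
    (hd : 0 ≤ dl) (hz : ∀ g, ‖z g‖ ≤ B ∧ ‖z' g‖ ≤ B ∧ ‖z g - z' g‖ ≤ dl) {D : ℕ} {p : F × F}
    (hp : p ∈ U1 k (fun g => (z g, z' g)) ^ D) :
    ‖p.1‖ ≤ B ^ D ∧ ‖p.2‖ ≤ B ^ D ∧ ‖p.1 - p.2‖ ≤ dl * B ^ D := by
  have ad : ∀ {x y : F} {r : ℝ}, ‖x‖ ≤ r → ‖y‖ ≤ r → ‖x + y‖ ≤ r := fun hx hy =>
    (IsUltrametricDist.norm_add_le_max _ _).trans (max_le hx hy)
  have sm : ∀ (c : k) {x : F} {r : ℝ}, ‖x‖ ≤ r → ‖c • x‖ ≤ r := fun c x r hx => by
    rw [Algebra.smul_def, norm_mul]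
    exact (mul_le_of_le_one_left (norm_nonneg _) (norm_kf c)).trans hx
  induction hp using Submodule.pow_induction_on_left' with
  | algebraMap r => simpa [norm_kf] using hd
  | add x y i hx hy h h' =>
    refine ⟨ad h.1 h'.1, ad h.2.1 h'.2.1, ?_⟩
    rw [Prod.fst_add, Prod.snd_add, add_sub_add_comm]
    exact ad h.2.2 h'.2.2
  | mem_mul m hm i x hx h =>
    have : ‖m.1‖ ≤ B ∧ ‖m.2‖ ≤ B ∧ ‖m.1 - m.2‖ ≤ dl := by
      induction hm using Submodule.span_induction with
      | mem x hx =>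
        rcases hx with rfl | ⟨g, rfl⟩
        · simpa [hB] using hd
        · exact hz g
      | zero => simpa [hd] using zero_le_one.trans hB
      | add x y _ _ h h' =>
        refine ⟨ad h.1 h'.1, ad h.2.1 h'.2.1, ?_⟩
        rw [Prod.fst_add, Prod.snd_add, add_sub_add_comm]
        exact ad h.2.2 h'.2.2
      | smul c x _ h =>
        refine ⟨sm c h.1, sm c h.2.1, ?_⟩
        rw [Prod.smul_fst, Prod.smul_snd, ← smul_sub]
        exact sm c h.2.2
    have hB0 : 0 ≤ B := zero_le_one.trans hB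
    rw [Prod.fst_mul, Prod.snd_mul, norm_mul, norm_mul, Nat.succ_eq_add_one, pow_succ',
      show m.1 * x.1 - m.2 * x.2 = (m.1 - m.2) * x.1 + m.2 * (x.1 - x.2) by ring]
    refine ⟨mul_le_mul this.1 h.1 (norm_nonneg _) hB0, mul_le_mul this.2.1 h.2.1 (norm_nonneg _) hB0,
      ad ?_ ?_⟩ <;> rw [norm_mul]
    · refine (mul_le_mul this.2.2 h.1 (norm_nonneg _) hd).trans ?_
      exact mul_le_mul_of_nonneg_left (le_mul_of_one_le_left (by positivity) hB) hd
    · exact (mul_le_mul this.2.1 h.2.2 (norm_nonneg _) hB0).trans_eq (by ring)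

/-- Sizes of the elements of a power. -/
lemma U1_norm [Fintype k] [IsUltrametricDist F] {Γ : Type} {z : Γ → F} {B : ℝ} (hB : 1 ≤ B)
    (hz : ∀ g, ‖z g‖ ≤ B) {D : ℕ} {p : F} (hp : p ∈ U1 k z ^ D) : ‖p‖ ≤ B ^ D :=
  (pair_le (z' := z) hB le_rfl (fun g => ⟨hz g, hz g, by simp⟩)
    (U1_map ((AlgHom.id k F).prod (AlgHom.id k F)) z hp)).1

end Pair

end Pool.Agent.CSU.SA
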