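import Pool.Agent.Lib.MP_0370b2_nt.SA.Bas

/-! Statements for the parts of the measure for one level. -/

namespace Pool.Agent.CSU.SA

open Polynomial Finset Module

/-- The relation `∑ γ α (ε) (y + η) ^ α`. -/
noncomputable def QQ {ι R : Type} [CommRing R] [Fintype ι] [DecidableEq ι] {ν : ℕ}
    (γ : (ι → Fin ν) → R[X]) (y : ι → R) : PP ι R :=
  sb (fun _ => 1) (fun l => C (y l))
    (∑ α, MvPolynomial.monomial (Finsupp.equivFunOnFinite.symm fun l => (α l : ℕ)) (γ α))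

/-- Properties of the relation. -/
def QqS : Prop :=
  ∀ (k ι R : Type) [Field k] [CommRing R] [Algebra k R] [Fintype ι] [DecidableEq ι] (ν : ℕ)
    (γ : (ι → Fin ν) → R[X]) (y : ι → R),
    (∀ α, (QQ γ y).coeff α ≠ 0 → ∀ l, α l < ν) ∧
    (∀ α0, (γ α0).coeff 0 ≠ 0 → ∃ α, ((QQ γ y).coeff α).coeff 0 ≠ 0) ∧
    (∀ J : ι → R[X], MvPolynomial.eval (fun l => J l - C (y l)) (QQ γ y) = val γ J) ∧
    (∀ (R' : Type) [CommRing R'] (φ : R →+* R'),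
      tw φ (QQ γ y) = QQ (fun α => (γ α).map φ) fun l => φ (y l)) ∧
    ∀ U : Submodule k R, 1 ∈ U → (∀ l, y l ∈ U) → (∀ α n, (γ α).coeff n ∈ U) →
      HtP U (1 + Fintype.card ι * ν) (QQ γ y)

/-- The choice of the parameters. -/
def NumS : Prop :=
  ∀ q n c : ℕ, 2 ≤ q → 1 ≤ n → ∃ a ν δ : ℕ, 1 ≤ a ∧ ν ≤ q ^ a ∧ q * (q ^ a) ^ n ≤ q ^ a * ν ^ n ∧
    ∀ j ≤ n, ∀ P, 1 ≤ P → ∃ d, d + j * δ * (c * P) ≤ q ^ a * P ∧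
      P * (q ^ a) ^ (j + 1) < (δ + 1) ^ j * d + P * (q ^ a * (q ^ a - ν) ^ j)

/-- From a pair of points to a torsion relation at the second point. -/
def Ml0S : Prop :=
  ∀ q n δ : ℕ, ∃ κ : ℕ, ∀ (k ι F : Type) [Field k] [Fintype k] [Fintype ι] [NormedField F]
    [IsUltrametricDist F] [IsAlgClosed F] [Algebra k F] (s : Sys ι (F × F)) (σ : F →+* F) (θ : F)
    (U : Submodule k (F × F)) (Sp : Set ι) (J : ℕ → ℕ → ι → F[X]) (ν d P t hq H h lam S : ℕ)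
    (ρ r r' Z : ℝ), Fintype.card k = q → s.q = q → Fintype.card ι ≤ n → 1 < ‖θ‖ → s.θ = (θ, θ) →
    1 ≤ s.e → 1 ≤ s.μ → (∀ a, s.σ a = a ^ q) → (∀ a, σ a = a ^ q) →
    1 ∈ U → s.θ ∈ U → (∀ l, s.y l ∈ U ∧ s.x l ∈ U) → HtP U hq s.Q →
    (∀ p ∈ U ^ h, (‖p.1‖ * ‖θ‖ ^ S ≤ 1 → p.2 = 0) ∧ ‖p.1‖ ≤ Z ∧ ‖p.1 - p.2‖ ≤ r) →
    ν ≤ s.μ → (∃ α, ((s.Q.coeff α).coeff 0).2 ≠ 0) → (∀ α, s.Q.coeff α ≠ 0 → ∀ l, α l < ν) →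
    P * s.μ ^ (Fintype.card ι + 1) <
      (δ + 1) ^ Fintype.card ι * d + P * (s.μ * (s.μ - ν) ^ Fintype.card ι) →
    d + Fintype.card ι * δ * t ≤ s.μ * P →
    ((δ + 1) ^ Fintype.card ι * d + P * s.μ ^ (Fintype.card ι + 1) + 1) *
      ((d + 2 * Fintype.card ι * δ * q ^ s.e + hq) * q ^ P) ≤ H →
    ((δ + 1) ^ Fintype.card ι) ^ 2 * (Fintype.card ι * δ + s.μ) +
      (δ + 1) ^ Fintype.card ι + 1 ≤ lam →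
    q ^ lam * H + d + 2 * Fintype.card ι * δ * q ^ (s.e + P + lam) ≤ h → q ^ (s.e + 3) ≤ h →
    (∀ l, (J 0 0 l).coeff 0 = (s.y l).1) →
    (∀ m i l, i ≤ m → X ^ s.μ ∣ J (m + 1) i l -
        ((X + C (θ ^ q ^ i) - C (θ ^ q ^ (s.e + m))) * J m i l + C ((s.x l).1 ^ q ^ m)) ∧
      J (m + 1) (i + 1) l = (J m i l).map σ ∧ Nb s.μ (ρ ^ q ^ m) (J m i l)) →
    0 ≤ ρ → ρ ≤ 1 → 0 ≤ r' → 1 ≤ Z → Z * r' ≤ r → r < 1 →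
    Nb s.μ r' (MvPolynomial.eval (fun l => J 0 0 l - C (s.y l).1) (tw (RingHom.fst F F) s.Q)) →
    max r (Z ^ q ^ lam * ‖θ‖ ^ (d * q ^ (lam + P)) * ρ ^ q ^ (P + t)) *
      ‖θ‖ ^ (s.μ * P * q ^ (lam + P)) * ‖θ‖ ^ S ≤ 1 →
    Sp.Subsingleton →
    (∀ l ∈ Sp, θ ^ q ^ s.e * (θ ^ q ^ s.e * (s.x l).1 + (s.x l).1 ^ q) +
        (θ ^ q ^ s.e * (s.x l).1 + (s.x l).1 ^ q) ^ q = 0 ∧
      1 ≤ ‖θ ^ 2 * (s.y l).1 + θ * (s.x l).1 + (θ ^ q ^ s.e * (s.x l).1 + (s.x l).1 ^ q)‖) →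
    ∃ (β : ι → k[X]) (g : F[X]), (∀ l, (β l).natDegree ≤ κ * (d + 2)) ∧ (∃ l ∉ Sp, β l ≠ 0) ∧
      g.map σ = (X - C (θ ^ q ^ (s.e + P))) * g -
        ∑ l, C ((s.x l).2 ^ q ^ P) * (β l).map (algebraMap k F)

end Pool.Agent.CSU.SA
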