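import Pool.Agent.Lib.MP_bf776f_nt.SU.An
import Pool.Agent.Lib.MP_0370b2_nt.SA.St2
import Pool.Agent.Lib.MP_0370b2_nt.SA.HP1

/-! Tools for the measure of one level: heights and inequalities. -/

namespace Pool.Agent.CSU.SA.M7

open Polynomial Finset Module

section

variable {k F : Type} [Field k] [Field F] [Algebra k F]

lemma pw_le {A : Type} [CommRing A] [Algebra k A] {U : Submodule k A} (h1 : 1 ∈ U) {a b : ℕ}
    (h : a ≤ b) {x : A} (hx : x ∈ U ^ a) : x ∈ U ^ b :=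
  pow_le_pow_right' (Submodule.one_le.2 h1) h hx

lemma pw_mul {A : Type} [CommRing A] [Algebra k A] {U : Submodule k A} {a b : ℕ} {x y : A}
    (hx : x ∈ U ^ a) (hy : y ∈ U ^ b) : x * y ∈ U ^ (a + b) := by
  rw [pow_add]; exact Submodule.mul_mem_mul hx hy

lemma pw_pow {A : Type} [CommRing A] [Algebra k A] {U : Submodule k A} {a : ℕ} {x : A}
    (hx : x ∈ U ^ a) (b : ℕ) : x ^ b ∈ U ^ (a * b) := by
  rw [pow_mul]; exact Submodule.pow_mem_pow _ hx _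

lemma cc_ht {U : Submodule k F} {θ : F} (h1 : 1 ∈ U) (hθ : θ ∈ U) {μ : ℕ} (hμ : 1 ≤ μ) (H : ℕ) :
    ∀ p ∈ CC μ U ^ H, ∀ l, (taylor θ p).coeff l ∈ U ^ (μ * H) := by
  have o : (1 : F) ∈ U ^ μ := by simpa using Submodule.pow_mem_pow _ h1 μ
  have h0 : ∀ p ∈ CC μ U, ∀ l, (taylor θ p).coeff l ∈ U ^ μ := fun p hp => by
    refine Submodule.span_induction (p := fun p _ => ∀ l, (taylor θ p).coeff l ∈ U ^ μ) ?_
      (by simp) (fun _ _ _ _ a b l => ?_) (fun r p _ a l => ?_) hp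
    · rintro _ (rfl | rfl | ⟨w, hw, rfl⟩) l
      · rw [taylor_one, coeff_C]; split_ifs; exacts [o, zero_mem _]
      · rw [taylor_X, coeff_add, coeff_X, coeff_C]
        refine add_mem ?_ ?_ <;> split_ifs
        exacts [o, zero_mem _, pw_le h1 hμ (by simpa using hθ), zero_mem _]
      · rw [taylor_C, coeff_C]; split_ifs; exacts [Submodule.pow_mem_pow _ hw _, zero_mem _]
    · rw [map_add, coeff_add]; exact add_mem (a l) (b l)
    · rw [LinearMap.map_smul_of_tower, coeff_smul]; exact Submodule.smul_mem _ _ (a l)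
  induction H with
  | zero =>
    intro p hp l
    rw [pow_zero, Submodule.mem_one] at hp
    obtain ⟨r, rfl⟩ := hp
    rw [Polynomial.algebraMap_apply, taylor_C, coeff_C, mul_zero, pow_zero]
    split_ifs; exacts [Submodule.algebraMap_mem r, zero_mem _]
  | succ H ih =>
    intro p hp
    rw [pow_succ] at hp
    refine Submodule.mul_induction_on (C := fun p => ∀ l, (taylor θ p).coeff l ∈ U ^ (μ * (H + 1)))
      hp (fun u hu v hv l => ?_) fun u v a b l => ?_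
    · rw [taylor_mul, coeff_mul]
      exact Submodule.sum_mem _ fun c _ => pw_mul (ih u hu _) (h0 v hv _)
    · rw [map_add, coeff_add]; exact add_mem (a l) (b l)

lemma cc_pw [Fintype k] {U : Submodule k F} {W : Subfield F} (hU : ∀ w ∈ U, w ∈ W)
    (hk : ∀ c, algebraMap k F c ∈ W) (a H : ℕ) :
    ∀ p ∈ CC (Fintype.card k ^ a) U ^ H, ∀ i, ∃ w ∈ W, p.coeff i = w ^ Fintype.card k ^ a := by
  have hf : ∀ x : F, (FiniteField.frobeniusAlgHom k F ^ a) x = x ^ Fintype.card k ^ a :=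
    fun x => by rw [AlgHom.coe_pow, FiniteField.coe_frobeniusAlgHom, pow_iterate]
  let f : W →+* F := (FiniteField.frobeniusAlgHom k F ^ a).toRingHom.comp W.subtype
  have hc : ∀ r : k, C (algebraMap k F r) ∈ lifts f := fun r =>
    C'_mem_lifts ⟨⟨_, hk r⟩, (FiniteField.frobeniusAlgHom k F ^ a).commutes r⟩
  intro p hp i
  have : p ∈ lifts f := by
    refine Submodule.pow_induction_on_left (C := fun p => p ∈ lifts f) _ hc
      (fun _ _ => add_mem) (fun m hm x hx => mul_mem ?_ hx) hp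
    refine Submodule.span_induction (p := fun p _ => p ∈ lifts f) ?_ (zero_mem _)
      (fun _ _ _ _ => add_mem) (fun r p _ h => ?_) hm
    · rintro _ (rfl | rfl | ⟨w, hw, rfl⟩)
      exacts [one_mem _, X_mem_lifts f, C'_mem_lifts ⟨⟨w, hU w hw⟩, hf w⟩]
    · rw [Algebra.smul_def]; exact mul_mem (hc r) h
  obtain ⟨w, hw⟩ := (lifts_iff_coeff_lifts p).1 this i
  exact ⟨w, w.2, hw.symm.trans (hf w)⟩

lemma transfer {Γ : Type} {U : Submodule k F} (hU : U.FG) {G0 : F} (h0 : G0 ≠ 0) {D0 : ℕ}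
    (hG : G0 ∈ U ^ D0) (z : Γ → F) (hz : ∀ g, G0 * z g ∈ U ^ D0) (D : ℕ) :
    finrank k ↥(U1 k z ^ D) ≤ finrank k ↥(U ^ (D0 * D)) := by
  have := HP.gro (U1 k z) (U ^ D0) 1 (hU.pow _) (by simpa using hU.pow 0) h0
    (Submodule.one_le.1 le_rfl) ?_ D
  · rwa [← pow_mul, Submodule.one_eq_span, finrank_span_singleton one_ne_zero, mul_one] at this
  · rw [mul_one, mul_one, U1, Submodule.span_mul_span, Submodule.span_le]
    rintro _ ⟨_, rfl, _, rfl | ⟨g, rfl⟩, rfl⟩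
    · simpa using hG
    · exact hz g

end

lemma big {q : ℕ} (hq : 2 ≤ q) (A : ℕ) : ∃ P1, ∀ P, P1 ≤ P → A * (P + 1) ^ 5 ≤ q ^ P := by
  obtain ⟨N, hN⟩ := Filter.eventually_atTop.1 ((tendsto_pow_const_div_const_pow_of_one_lt 5
    (one_lt_two : (1 : ℝ) < 2)).eventually_lt_const (show (0 : ℝ) < 1 / (2 * A + 2) by positivity))
  refine ⟨N, fun P hP => le_trans ?_ (Nat.pow_le_pow_left hq P)⟩
  have := hN (P + 1) (by omega)
  rw [div_lt_div_iff₀ (by positivity) (by positivity), pow_succ (2 : ℝ)] at this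
  have h2 : ((A * (P + 1) ^ 5 : ℕ) : ℝ) ≤ (2 ^ P : ℕ) := by
    push_cast at this ⊢
    have : (0 : ℝ) ≤ (P + 1) ^ 5 := by positivity
    nlinarith
  exact_mod_cast h2

lemma n1 {B Y N d P m j δ E ν : ℕ} (h1 : 1 ≤ B) (hY : 20 * B ^ 5 ≤ Y) (hN : N ≤ B) (hd : d ≤ B)
    (hP : P ≤ B) (hm : m ≤ B) (hj : j ≤ B) (hδ : δ ≤ B) (hE : E ≤ B) (hν : ν ≤ B) :
    (N * d + P * m + 1) * ((d + 2 * j * δ * E + (1 + j * ν)) * Y) ≤ Y ^ 2 := by
  have a1 : 1 ≤ B ^ 2 := Nat.one_le_pow _ _ h1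
  have a2 : B ≤ B ^ 3 := Nat.le_self_pow (by omega) _
  have a3 : B ^ 2 ≤ B ^ 3 := Nat.pow_le_pow_right h1 (by omega)
  calc _ ≤ (B * B + B * B + B ^ 2) * ((B ^ 3 + 2 * B * B * B + (B ^ 3 + B * B)) * Y) := by
        gcongr <;> omega
    _ = 3 * B ^ 2 * ((4 * B ^ 3 + B ^ 2) * Y) := by ring
    _ ≤ 3 * B ^ 2 * ((4 * B ^ 3 + B ^ 3) * Y) := by gcongr
    _ = 15 * B ^ 5 * Y := by ring
    _ ≤ Y * Y := by gcongr; omega
    _ = _ := by ring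

lemma n2 {B Y l d j δ E : ℕ} (h1 : 1 ≤ B) (hY : 20 * B ^ 5 ≤ Y) (hl : l ≤ B) (hd : d ≤ B)
    (hj : j ≤ B) (hδ : δ ≤ B) (hE : E ≤ B) : l * Y ^ 2 + d + 2 * j * δ * (E * Y * l) ≤ Y ^ 3 := by
  have a2 : B ≤ B ^ 5 := Nat.le_self_pow (by omega) _
  have a3 : B ^ 4 ≤ B ^ 5 := Nat.pow_le_pow_right h1 (by omega)
  have a4 : Y ≤ Y ^ 2 := Nat.le_self_pow (by omega) _
  calc _ ≤ B * Y ^ 2 + Y ^ 2 + 2 * B * B * (B * Y * B) := by gcongr; omega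
    _ = B * Y ^ 2 + Y ^ 2 + 2 * B ^ 4 * Y := by ring
    _ ≤ B * Y ^ 2 + Y ^ 2 + Y * Y := by gcongr; omega
    _ = (B + 2) * Y ^ 2 := by ring
    _ ≤ Y * Y ^ 2 := by gcongr; omega
    _ = _ := by ring

lemma n3 {B Y a b c : ℕ} (h1 : 1 ≤ B) (hY : 20 * B ^ 5 ≤ Y) (ha : a ≤ B) (hb : b ≤ B)
    (hc : c ≤ B) : 4 * (a * b * c) ≤ Y := by
  have a3 : B ^ 3 ≤ B ^ 5 := Nat.pow_le_pow_right h1 (by omega)
  have : a * b * c ≤ B * B * B := by gcongr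
  have : B * B * B = B ^ 3 := by ring
  omega

lemma n4 {Y S x : ℕ} (hY : 4 ≤ Y) (hS : (Y ^ 3) ^ 3 ≤ S) (hx : x ≤ Y * Y) :
    Y ^ 3 * Y ^ 3 + x + S < S * Y ^ 3 := by
  have a1 : Y ^ 6 ≤ Y ^ 9 := Nat.pow_le_pow_right (by omega) (by omega)
  have a2 : Y ^ 2 ≤ Y ^ 9 := Nat.pow_le_pow_right (by omega) (by omega)
  have a3 : Y ≤ Y ^ 3 := Nat.le_self_pow (by omega) _
  have a4 : 0 < Y ^ 9 := by positivity
  have a5 : S * 4 ≤ S * Y ^ 3 := by gcongr; omega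
  have e1 : Y ^ 3 * Y ^ 3 = Y ^ 6 := by ring
  have e2 : (Y ^ 3) ^ 3 = Y ^ 9 := by ring
  have e3 : Y * Y = Y ^ 2 := by ring
  omega

lemma n5 {Y S L c0 x y l : ℕ} (hY : 4 ≤ Y) (hc : 3 ≤ c0) (hL : 1 ≤ L) (hS : S ≤ L * (Y ^ 3) ^ c0)
    (hx : x ≤ Y * Y) (hy : y ≤ Y * Y) (hl : l ≤ Y) :
    Y ^ 3 * Y ^ 3 * l + y + x + S ≤ L * (Y * Y ^ (3 * c0 + 4)) ∧
      l + S * Y ^ 3 ≤ L * Y ^ (3 * c0 + 4) := by
  rw [← pow_mul] at hS
  have a0 : Y ^ (3 * c0) ≤ L * Y ^ (3 * c0) := Nat.le_mul_of_pos_left _ hL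
  have a1 : Y ^ 7 ≤ Y ^ (3 * c0) := Nat.pow_le_pow_right (by omega) (by omega)
  have a2 : Y ^ 2 ≤ Y ^ 7 := Nat.pow_le_pow_right (by omega) (by omega)
  have a3 : Y ≤ Y ^ 2 := Nat.le_self_pow (by omega) _
  have a4 : Y ^ 3 * Y ^ 3 * l ≤ Y ^ 7 := (Nat.mul_le_mul_left _ hl).trans_eq (by ring)
  have a5 : Y ≤ Y ^ 5 := Nat.le_self_pow (by omega) _
  have a6 : 1 ≤ Y ^ 3 := Nat.one_le_pow _ _ (by omega)
  rw [← sq] at hx hy
  rw [show L * (Y * Y ^ (3 * c0 + 4)) = L * Y ^ (3 * c0) * Y ^ 5 by ring,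
    show L * Y ^ (3 * c0 + 4) = L * Y ^ (3 * c0) * Y ^ 3 * Y by ring]
  generalize L * Y ^ (3 * c0) = T at *
  have b1 : T * 4 ≤ T * Y ^ 5 := by gcongr; omega
  have b2 : T * Y ^ 3 * 4 ≤ T * Y ^ 3 * Y := by gcongr
  have b3 : S * Y ^ 3 ≤ T * Y ^ 3 := by gcongr
  have b4 : T ≤ T * Y ^ 3 := Nat.le_mul_of_pos_right _ a6
  omega

lemma n6 {Y S L x E : ℕ} (hY : 4 ≤ Y) (hL : 1 ≤ L) (hS : L * (Y ^ 3) ^ 3 ≤ S) (hx : x ≤ Y)
    (hE : E ≤ Y) : (L * Y + x) * E ≤ S * Y ^ 3 := by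
  have a1 : Y ≤ L * Y := Nat.le_mul_of_pos_left _ hL
  have a2 : Y ^ 3 ≤ (Y ^ 3) ^ 3 := Nat.le_self_pow (by omega) _
  have a6 : 1 ≤ Y ^ 3 := Nat.one_le_pow _ _ (by omega)
  calc _ ≤ (L * Y + L * Y) * Y := by gcongr; omega
    _ = L * (2 * Y ^ 2) := by ring
    _ ≤ L * (Y * Y ^ 2) := by gcongr; omega
    _ = L * Y ^ 3 := by ring
    _ ≤ S := le_trans (by gcongr) hS
    _ ≤ _ := Nat.le_mul_of_pos_right _ a6

lemma ex_le {T : ℝ} (hT : 1 < T) {a b : ℕ} (h : b ≤ a) : (T ^ a)⁻¹ * T ^ b ≤ 1 := by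
  rw [inv_mul_le_iff₀ (by positivity), mul_one]
  exact pow_le_pow_right₀ hT.le h

end Pool.Agent.CSU.SA.M7
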