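import Pool.Agent.Lib.MP_bf776f_nt.SU.ZE0

/-! Eigen-polynomials of a twisted affine substitution: supports and degrees. -/

namespace Pool.Agent.CSU.SA.ND

open MvPolynomial Finset

section Gen

variable {A ι : Type} [CommRing A]

/-- The twisted substitution `Y ↦ lam Y + ξ`. -/
noncomputable def Sm (s : A →+* A) (lam : A) (ξ : ι → A) :
    MvPolynomial ι A →+* MvPolynomial ι A :=
  eval₂Hom (C.comp s) fun l => C lam * X l + C (ξ l)

variable {s : A →+* A} {lam : A} {ξ : ι → A}

lemma Sm_C (a : A) : Sm s lam ξ (C a) = C (s a) := by simp [Sm]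

lemma Sm_X (l : ι) : Sm s lam ξ (X l) = C lam * X l + C (ξ l) := by simp [Sm]

/-- Support below `γ`, coefficient `c` at `γ`. -/
def Bd (γ : ι →₀ ℕ) (f : MvPolynomial ι A) (c : A) : Prop :=
  (∀ β, coeff β f ≠ 0 → β ≤ γ) ∧ coeff γ f = c

lemma Bd.mul {γ γ' : ι →₀ ℕ} {f g : MvPolynomial ι A} {c c' : A} (h : Bd γ f c)
    (h' : Bd γ' g c') : Bd (γ + γ') (f * g) (c * c') := by
  classical
  refine ⟨fun β hβ => ?_, ?_⟩
  · rw [coeff_mul] at hβ
    obtain ⟨x, hx, h0⟩ := exists_ne_zero_of_sum_ne_zero hβ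
    rw [← mem_antidiagonal.1 hx]
    exact add_le_add (h.1 _ (left_ne_zero_of_mul h0)) (h'.1 _ (right_ne_zero_of_mul h0))
  · rw [coeff_mul, sum_eq_single (γ, γ'), h.2, h'.2]
    · intro x hx hne
      by_contra h0
      have h1 := h.1 _ (left_ne_zero_of_mul h0)
      have h2 := h'.1 _ (right_ne_zero_of_mul h0)
      have h3 := mem_antidiagonal.1 hx
      have e1 : x.1 = γ := by
        ext l; have := h1 l; have := h2 l; have := DFunLike.congr_fun h3 l
        simp only [Finsupp.add_apply] at *; omega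
      have e2 : x.2 = γ' := by rw [e1] at h3; exact add_left_cancel h3
      exact hne (Prod.ext e1 e2)
    · simp

lemma bd_mon (γ : ι →₀ ℕ) (a : A) : Bd γ (monomial γ a) a := by
  classical
  refine ⟨fun β h => ?_, by simp⟩
  rw [coeff_monomial] at h
  split_ifs at h with e
  · exact e.ge
  · exact absurd rfl h

lemma Bd.pow {γ : ι →₀ ℕ} {f : MvPolynomial ι A} {c : A} (h : Bd γ f c) (n : ℕ) :
    Bd (n • γ) (f ^ n) (c ^ n) := by
  induction n with
  | zero => simpa using bd_mon (0 : ι →₀ ℕ) (1 : A)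
  | succ n ih => rw [succ_nsmul, pow_succ, pow_succ]; exact ih.mul h

lemma bd_lin (a b : A) (l : ι) : Bd (Finsupp.single l 1) (C a * X l + C b) a := by
  classical
  have h := bd_mon (Finsupp.single l 1) a
  rw [C_mul_X_eq_monomial]
  refine ⟨fun β hβ => ?_, ?_⟩
  · rw [coeff_add, coeff_C] at hβ
    split_ifs at hβ with e
    · rw [← e]; exact zero_le
    · exact h.1 β (by simpa using hβ)
  · rw [coeff_add, h.2, coeff_C, if_neg (Finsupp.single_ne_zero.2 one_ne_zero).symm, add_zero]

lemma bd_Sm (γ : ι →₀ ℕ) (a : A) :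
    Bd γ (Sm s lam ξ (monomial γ a)) (s a * lam ^ γ.degree) := by
  induction γ using Finsupp.induction_linear generalizing a with
  | zero => simpa [Sm_C] using bd_mon (0 : ι →₀ ℕ) (s a)
  | add γ γ' h h' =>
    have := (h a).mul (h' 1)
    rwa [← map_mul, monomial_mul, mul_one, map_one, one_mul, mul_assoc, ← pow_add, ← map_add] at this
  | single l n =>
    have := (bd_mon (0 : ι →₀ ℕ) (s a)).mul ((bd_lin lam (ξ l) l).pow n)
    rw [← C_mul_X_pow_eq_monomial, map_mul, map_pow, Sm_C, Sm_X]
    simpa using this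

lemma Sm_supp {f : MvPolynomial ι A} {β : ι →₀ ℕ} (h : coeff β (Sm s lam ξ f) ≠ 0) :
    ∃ γ, coeff γ f ≠ 0 ∧ β ≤ γ := by
  rw [f.as_sum, map_sum, coeff_sum] at h
  obtain ⟨γ, hγ, h0⟩ := exists_ne_zero_of_sum_ne_zero h
  exact ⟨γ, mem_support_iff.1 hγ, (bd_Sm _ _).1 _ h0⟩

lemma Sm_top {f : MvPolynomial ι A} {α : ι →₀ ℕ} (h : ∀ γ, coeff γ f ≠ 0 → α ≤ γ → γ = α) :
    coeff α (Sm s lam ξ f) = s (coeff α f) * lam ^ α.degree := by
  conv_lhs => rw [f.as_sum, map_sum, coeff_sum]
  rw [sum_eq_single α, (bd_Sm _ _).2]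
  · intro γ hγ hne
    by_contra h0
    exact hne (h γ (mem_support_iff.1 hγ) ((bd_Sm _ _).1 _ h0))
  · intro h0
    simp [notMem_support_iff.1 h0]

lemma exists_top {f : MvPolynomial ι A} (hf : f ≠ 0) : ∃ α, coeff α f ≠ 0 ∧
    (∀ γ, coeff γ f ≠ 0 → γ.degree ≤ α.degree) ∧ ∀ γ, coeff γ f ≠ 0 → α ≤ γ → γ = α := by
  obtain ⟨α, hα, h⟩ := exists_max_image f.support Finsupp.degree (support_nonempty.2 hf)
  refine ⟨α, mem_support_iff.1 hα, fun γ hγ => h γ (mem_support_iff.2 hγ), fun γ hγ hle => ?_⟩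
  obtain ⟨δ, rfl⟩ := exists_add_of_le hle
  have := h _ (mem_support_iff.2 hγ)
  rw [map_add] at this
  rw [(Finsupp.degree_eq_zero_iff δ).1 (by omega), add_zero]

lemma pderiv_Sm (l : ι) (f : MvPolynomial ι A) :
    pderiv l (Sm s lam ξ f) = C lam * Sm s lam ξ (pderiv l f) := by
  classical
  induction f using MvPolynomial.induction_on with
  | C a => simp [Sm_C]
  | add p q hp hq => simp only [map_add, hp, hq, mul_add]
  | mul_X p n hp =>
    rw [map_mul, pderiv_mul, hp, pderiv_mul, map_add, map_mul, map_mul, Sm_X, map_add,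
      pderiv_C_mul, pderiv_C]
    by_cases e : n = l
    · subst e; simp only [pderiv_X_self, map_one]; ring
    · simp only [pderiv_X_of_ne e, map_zero]; ring

end Gen

variable {F ι : Type} [Field F]

/-- A bound for the degrees of all coefficients. -/
def Td (D : ℕ) (f : MvPolynomial ι (Polynomial F)) : Prop := ∀ β, (coeff β f).natDegree ≤ D

variable {D E : ℕ} {f g : MvPolynomial ι (Polynomial F)}

lemma Td.mono (h : Td D f) (e : D ≤ E) : Td E f := fun β => (h β).trans e

lemma Td.add (h : Td D f) (h' : Td D g) : Td D (f + g) := fun β => by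
  rw [coeff_add]; exact Polynomial.natDegree_add_le_of_degree_le (h β) (h' β)

lemma Td.sub (h : Td D f) (h' : Td D g) : Td D (f - g) := fun β => by
  rw [coeff_sub]; exact (Polynomial.natDegree_sub_le _ _).trans (max_le (h β) (h' β))

lemma Td.mul (h : Td D f) (h' : Td E g) : Td (D + E) (f * g) := fun β => by
  classical
  rw [coeff_mul]
  exact Polynomial.natDegree_sum_le_of_forall_le _ _ fun x _ =>
    Polynomial.natDegree_mul_le.trans (add_le_add (h _) (h' _))

lemma td_mon (γ : ι →₀ ℕ) {a : Polynomial F} (h : a.natDegree ≤ D) : Td D (monomial γ a) :=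
  fun β => by
    classical
    rw [coeff_monomial]
    split_ifs
    · exact h
    · simp

lemma td_C {a : Polynomial F} (h : a.natDegree ≤ D) : Td D (C a : MvPolynomial ι _) := td_mon 0 h

lemma td_X (l : ι) : Td D (X l : MvPolynomial ι (Polynomial F)) := td_mon _ (by simp)

lemma Td.pow (h : Td D f) (n : ℕ) : Td (n * D) (f ^ n) := by
  induction n with
  | zero => simpa using td_C (ι := ι) (a := (1 : Polynomial F)) (D := 0) (by simp)
  | succ n ih => rw [pow_succ, add_one_mul]; exact ih.mul h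

lemma td_sum {κ : Type} {t : Finset κ} {v : κ → MvPolynomial ι (Polynomial F)}
    (h : ∀ i ∈ t, Td D (v i)) : Td D (∑ i ∈ t, v i) := fun β => by
  rw [coeff_sum]
  exact Polynomial.natDegree_sum_le_of_forall_le _ _ fun i hi => h i hi β

lemma td_Sm {σ : F →+* F} {c : F} {ξ : ι → F} {M : ℕ} (h : Td D f)
    (hM : ∀ γ, coeff γ f ≠ 0 → γ.degree ≤ M) :
    Td (D + M) (Sm (Polynomial.mapRingHom σ) (Polynomial.X - Polynomial.C c)
      (fun l => Polynomial.C (ξ l)) f) := by
  have key : ∀ (γ : ι →₀ ℕ), Td γ.degree (Sm (Polynomial.mapRingHom σ)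
      (Polynomial.X - Polynomial.C c) (fun l => Polynomial.C (ξ l)) (monomial γ 1)) := fun γ => by
    induction γ using Finsupp.induction_linear with
    | zero => simpa using td_C (ι := ι) (a := (1 : Polynomial F)) (D := 0) (by simp)
    | add γ γ' h h' =>
      have := h.mul h'
      rwa [← map_mul, monomial_mul, mul_one, ← map_add] at this
    | single l n =>
      rw [← X_pow_eq_monomial, map_pow, Sm_X]
      simpa using (((td_C (Polynomial.natDegree_X_sub_C c).le).mul (td_X (D := 0) l)).add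
        (td_C (by simp))).pow n
  rw [f.as_sum, map_sum]
  refine td_sum fun γ hγ => ?_
  rw [← mul_one (coeff γ f), ← C_mul_monomial, map_mul, Sm_C]
  exact (td_C (Polynomial.natDegree_map_le.trans (h γ))).mul
    ((key γ).mono (hM γ (mem_support_iff.1 hγ)))

/-- The derivative of the coefficients. -/
noncomputable def dt (f : MvPolynomial ι (Polynomial F)) : MvPolynomial ι (Polynomial F) :=
  ∑ α ∈ f.support, monomial α (Polynomial.derivative (coeff α f))

lemma coeff_dt (α : ι →₀ ℕ) : coeff α (dt f) = Polynomial.derivative (coeff α f) := by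
  classical
  rw [dt, coeff_sum, sum_eq_single α (fun b _ hb => by rw [coeff_monomial, if_neg hb])
    (fun h => by simp [notMem_support_iff.1 h]), coeff_monomial, if_pos rfl]

lemma dt_add : dt (f + g) = dt f + dt g := by ext1 α; simp [coeff_dt]

lemma dt_mul : dt (f * g) = dt f * g + f * dt g := by
  classical
  ext1 α
  simp [coeff_dt, coeff_mul, sum_add_distrib]

lemma dt_C (a : Polynomial F) : dt (C a : MvPolynomial ι _) = C (Polynomial.derivative a) := by
  classical
  ext1 α
  rw [coeff_dt, coeff_C, coeff_C]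
  split_ifs <;> simp

lemma dt_X (l : ι) : dt (X l : MvPolynomial ι (Polynomial F)) = 0 := by
  classical
  ext1 α
  rw [coeff_dt, coeff_X]
  split_ifs <;> simp

lemma dt_Sm [Fintype ι] {σ : F →+* F} {c : F} {ξ : ι → F} (f : MvPolynomial ι (Polynomial F)) :
    dt (Sm (Polynomial.mapRingHom σ) (Polynomial.X - Polynomial.C c)
      (fun l => Polynomial.C (ξ l)) f) = Sm (Polynomial.mapRingHom σ)
      (Polynomial.X - Polynomial.C c) (fun l => Polynomial.C (ξ l)) (dt f) +
      ∑ l, X l * Sm (Polynomial.mapRingHom σ) (Polynomial.X - Polynomial.C c)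
        (fun l => Polynomial.C (ξ l)) (pderiv l f) := by
  classical
  induction f using MvPolynomial.induction_on with
  | C a => simp [Sm_C, dt_C, Polynomial.derivative_map]
  | add p q hp hq => simp only [map_add, dt_add, hp, hq, mul_add, sum_add_distrib]; ring
  | mul_X p n hp =>
    have e : ∀ (T : MvPolynomial ι (Polynomial F) →+* MvPolynomial ι (Polynomial F)),
        ∑ l, X l * T (pderiv l (p * X n)) = (∑ l, X l * T (pderiv l p)) * T (X n) + X n * T p :=
      fun T => by
        simp only [pderiv_mul, map_add, map_mul, mul_add, sum_add_distrib, sum_mul, mul_assoc]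
        rw [sum_eq_single n (f := fun l => X l * (T p * T (pderiv l (X n))))
          (fun b _ hb => by simp [pderiv_X_of_ne hb.symm]) (by simp)]
        simp
    rw [e]
    simp only [map_mul, dt_mul, hp, dt_X, Sm_X, dt_add, dt_C, map_add]
    simp
    ring

end Pool.Agent.CSU.SA.ND
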