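import Pool.Agent.Lib.MP_0370b2_nt.SA.ND0

/-! Eigen-polynomials: existence and reduction to degree one. -/

namespace Pool.Agent.CSU.SA.ND

open MvPolynomial Finset

variable {F ι : Type} [Field F]

/-- The twisted substitution `Y ↦ (t - c) Y + ξ`. -/
noncomputable abbrev Sf (σ : F →+* F) (c : F) (ξ : ι → F) :
    MvPolynomial ι (Polynomial F) →+* MvPolynomial ι (Polynomial F) :=
  Sm (Polynomial.mapRingHom σ) (Polynomial.X - Polynomial.C c) fun l => Polynomial.C (ξ l)

/-- Eigen-polynomials of total degree `m`. -/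
def Eig (σ : F →+* F) (c : F) (ξ : ι → F) (m : ℕ) (f : MvPolynomial ι (Polynomial F)) : Prop :=
  f ≠ 0 ∧ ∃ a b : Polynomial F, a ≠ 0 ∧ b.natDegree = a.natDegree + m ∧
    C a * Sf σ c ξ f = C b * f

variable {σ : F →+* F} {c : F} {ξ : ι → F} {m D : ℕ} {f : MvPolynomial ι (Polynomial F)}

lemma deg_top {a : Polynomial F} (ha : a ≠ 0) (n : ℕ) :
    (a.map σ * (Polynomial.X - Polynomial.C c) ^ n).natDegree = a.natDegree + n := by
  rw [Polynomial.natDegree_mul (Polynomial.map_ne_zero ha)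
    (pow_ne_zero _ (Polynomial.X_sub_C_ne_zero c)), Polynomial.natDegree_map,
    Polynomial.natDegree_pow, Polynomial.natDegree_X_sub_C, mul_one]

lemma Eig.top (h : Eig σ c ξ m f) : ∃ α, coeff α f ≠ 0 ∧ α.degree = m ∧
    (∀ γ, coeff γ f ≠ 0 → γ.degree ≤ m) ∧ C (coeff α f) * Sf σ c ξ f =
      C ((coeff α f).map σ * (Polynomial.X - Polynomial.C c) ^ m) * f := by
  obtain ⟨h0, a, b, ha, hd, h⟩ := h
  obtain ⟨α, h1, h2, h3⟩ := exists_top h0
  have e := congrArg (coeff α) h
  rw [coeff_C_mul, coeff_C_mul, Sm_top h3, Polynomial.coe_mapRingHom] at e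
  have hn : (coeff α f).map σ * (Polynomial.X - Polynomial.C c) ^ α.degree ≠ 0 :=
    mul_ne_zero (Polynomial.map_ne_zero h1) (pow_ne_zero _ (Polynomial.X_sub_C_ne_zero c))
  have hb : b ≠ 0 := by rintro rfl; exact mul_ne_zero ha hn (by rw [e, zero_mul])
  have e' := congrArg Polynomial.natDegree e
  rw [Polynomial.natDegree_mul ha hn, Polynomial.natDegree_mul hb h1, deg_top h1] at e'
  have hm : α.degree = m := by omega
  refine ⟨α, h1, hm, hm ▸ h2, mul_left_cancel₀ (C_ne_zero.2 ha) ?_⟩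
  rw [← hm, ← mul_assoc (C a) (C (_ * _)), ← C_mul, e, C_mul]
  linear_combination C (coeff α f) * h

theorem elim (Mo : Submodule (Polynomial F) (MvPolynomial ι (Polynomial F)))
    (hS : ∀ f ∈ Mo, Sf σ c ξ f ∈ Mo) (M n : ℕ) : ∀ (A : Finset (ι →₀ ℕ)) (D : ℕ)
    (f : MvPolynomial ι (Polynomial F)), A.card = n → (∀ β ∈ A, ∀ γ, γ ≤ β → γ ∈ A) →
    (∀ β ∈ A, β.degree ≤ M) → f ∈ Mo → f ≠ 0 → (∀ β, coeff β f ≠ 0 → β ∈ A) → Td D f →
    ∃ g ∈ Mo, ∃ m, Eig σ c ξ m g ∧ (∀ β, coeff β g ≠ 0 → β ∈ A) ∧ Td (2 ^ n * (D + M)) g := by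
  classical
  induction n with
  | zero =>
    intro A D f hA _ _ _ h0 hs _
    obtain ⟨α, h1, -⟩ := exists_top h0
    exact absurd (hs α h1) (by simp [card_eq_zero.1 hA])
  | succ n ih =>
    intro A D f hA hd hM hf h0 hs hT
    obtain ⟨α, hα, hm⟩ := exists_max_image A Finsupp.degree (card_pos.1 (by omega))
    have hmax : ∀ γ ∈ A, α ≤ γ → γ = α := fun γ hγ hle => by
      obtain ⟨δ, rfl⟩ := exists_add_of_le hle
      have := hm _ hγ
      rw [map_add] at this
      rw [(Finsupp.degree_eq_zero_iff δ).1 (by omega), add_zero]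
    have step : ∀ D' g, D' + M ≤ 2 * (D + M) → g ∈ Mo → g ≠ 0 → (∀ β, coeff β g ≠ 0 → β ∈ A) →
        coeff α g = 0 → Td D' g → ∃ g ∈ Mo, ∃ m, Eig σ c ξ m g ∧ (∀ β, coeff β g ≠ 0 → β ∈ A) ∧
          Td (2 ^ (n + 1) * (D + M)) g := fun D' g hD hg g0 gs ga gT => by
      obtain ⟨g', h1, m, h2, h3, h4⟩ := ih (A.erase α) D' g (by rw [card_erase_of_mem hα]; omega)
        (fun β hβ γ hle => mem_erase.2 ⟨fun e => (mem_erase.1 hβ).1
          (hmax β (mem_of_mem_erase hβ) (e ▸ hle)), hd β (mem_of_mem_erase hβ) γ hle⟩)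
        (fun β hβ => hM β (mem_of_mem_erase hβ)) hg g0
        (fun β hβ => mem_erase.2 ⟨fun e => hβ (e ▸ ga), gs β hβ⟩) gT
      exact ⟨g', h1, m, h2, fun β hβ => mem_of_mem_erase (h3 β hβ), h4.mono (by
        rw [pow_succ, mul_assoc]; exact Nat.mul_le_mul_left _ hD)⟩
    by_cases ha : coeff α f = 0
    · exact step D f (by omega) hf h0 hs ha hT
    by_cases he : C (coeff α f) * Sf σ c ξ f =
        C ((coeff α f).map σ * (Polynomial.X - Polynomial.C c) ^ α.degree) * f
    · exact ⟨f, hf, α.degree, ⟨h0, _, _, ha, deg_top ha _, he⟩, hs, hT.mono (by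
        have := Nat.one_le_two_pow (n := n + 1); nlinarith)⟩
    refine step (D + (D + M)) _ (by omega) (sub_mem ?_ ?_) (sub_ne_zero.2 he) (fun β hβ => ?_) ?_
      (((td_C (hT α)).mul (td_Sm hT fun γ hγ => hM γ (hs γ hγ))).sub
        (((td_C ((deg_top ha _).le.trans (add_le_add (hT α) (hM α hα)))).mul hT).mono (by omega)))
    · rw [C_mul']; exact Mo.smul_mem _ (hS f hf)
    · rw [C_mul']; exact Mo.smul_mem _ hf
    · rw [coeff_sub, coeff_C_mul, coeff_C_mul] at hβ
      by_cases h1 : coeff β f = 0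
      · rw [h1, mul_zero, sub_zero] at hβ
        obtain ⟨γ, h2, h3⟩ := Sm_supp (right_ne_zero_of_mul hβ)
        exact hd γ (hs γ h2) β h3
      · exact hs β h1
    · rw [coeff_sub, coeff_C_mul, coeff_C_mul, Sm_top fun γ hγ => hmax γ (hs γ hγ),
        Polynomial.coe_mapRingHom]
      ring

/-- No passive variable occurs. -/
def Fr (pas : ι → Prop) (f : MvPolynomial ι (Polynomial F)) : Prop :=
  ∀ γ, coeff γ f ≠ 0 → ∀ l, pas l → γ l = 0

variable (p : ℕ) [Fact p.Prime] [CharP F p]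

lemma root [PerfectRing F p] {h : MvPolynomial ι (Polynomial F)}
    (h1 : ∀ γ, coeff γ h ≠ 0 → ∀ l, p ∣ γ l) (h2 : dt h = 0) :
    ∃ g : MvPolynomial ι (Polynomial F), g ^ p = h := by
  have hp := (Fact.out : p.Prime).ne_zero
  have rt : ∀ γ, ∃ b : Polynomial F, b ^ p = coeff γ h := fun γ =>
    ⟨((coeff γ h).contract p).map (frobeniusEquiv F p).symm, by
      rw [← Polynomial.map_frobenius_expand, Polynomial.map_expand, Polynomial.map_map,
        frobenius_comp_frobeniusEquiv_symm, Polynomial.map_id,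
        Polynomial.expand_contract p (by rw [← coeff_dt, h2, coeff_zero]) hp]⟩
  choose b hb using rt
  refine ⟨∑ γ ∈ h.support, monomial (γ.mapRange (· / p) (Nat.zero_div p)) (b γ), ?_⟩
  rw [sum_pow_char]
  conv_rhs => rw [h.as_sum]
  refine sum_congr rfl fun γ hγ => ?_
  rw [monomial_pow, hb]
  congr 2
  ext l
  simpa using Nat.mul_div_cancel' (h1 γ (mem_support_iff.1 hγ) l)

lemma coeff_pow_p (g : MvPolynomial ι (Polynomial F)) (β : ι →₀ ℕ) :
    coeff (p • β) (g ^ p) = coeff β g ^ p := by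
  rw [← map_frobenius_expand, coeff_map, coeff_expand_smul _ (Fact.out : p.Prime).ne_zero]
  rfl

omit [Fact p.Prime] in
lemma dt_Cp (x : Polynomial F) (h : MvPolynomial ι (Polynomial F)) :
    dt (C (x ^ p) * h) = C (x ^ p) * dt h := by
  rw [dt_mul, dt_C, Polynomial.derivative_pow]
  simp

theorem red [PerfectRing F p] [Fintype ι] {pas : ι → Prop} (n : ℕ) :
    ∀ (f : MvPolynomial ι (Polynomial F)) (m D : ℕ), m + f.support.card ≤ n → 1 ≤ m →
    Eig σ c ξ m f → Td D f → Fr pas f → ∃ g, Eig σ c ξ 1 g ∧ Td (p ^ n * D) g ∧ Fr pas g := by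
  classical
  have hp := (Fact.out : p.Prime)
  induction n with
  | zero => intro f m D h; omega
  | succ n ih =>
    intro f m D hn hm hE hT hF
    have hD : D ≤ p * D := Nat.le_mul_of_pos_left _ hp.pos
    have step : ∀ g m', m' + g.support.card ≤ n → 1 ≤ m' → Eig σ c ξ m' g → Td (p * D) g →
        Fr pas g → ∃ g, Eig σ c ξ 1 g ∧ Td (p ^ (n + 1) * D) g ∧ Fr pas g :=
      fun g m' a b c d e => by simpa only [pow_succ, mul_assoc] using ih g m' _ a b c d e
    rcases hm.eq_or_lt with rfl | hm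
    · exact ⟨f, hE, hT.mono (Nat.le_mul_of_pos_left _ (pow_pos hp.pos _)), hF⟩
    by_cases hd : ∀ l, pderiv l f = 0
    swap
    · push Not at hd
      obtain ⟨l, hl⟩ := hd
      have hs : ∀ β, coeff β (pderiv l f) ≠ 0 → coeff (β + Finsupp.single l 1) f ≠ 0 :=
        fun β hβ => left_ne_zero_of_mul (coeff_pderiv f β ▸ hβ)
      have hc : (pderiv l f).support.card ≤ f.support.card :=
        card_le_card_of_injOn (· + Finsupp.single l 1) (fun β hβ => mem_support_iff.2
          (hs β (mem_support_iff.1 hβ))) (add_left_injective _).injOn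
      obtain ⟨-, a, b, ha, hb, h⟩ := hE
      refine step _ (m - 1) (by omega) (by omega) ⟨hl, a * (Polynomial.X - Polynomial.C c), b,
        mul_ne_zero ha (Polynomial.X_sub_C_ne_zero c), ?_, ?_⟩ (fun β => ?_) fun β hβ i hi => ?_
      · rw [Polynomial.natDegree_mul ha (Polynomial.X_sub_C_ne_zero c),
          Polynomial.natDegree_X_sub_C]; omega
      · rw [C_mul, mul_assoc, ← pderiv_Sm, ← pderiv_C_mul, h, pderiv_C_mul]
      · rw [coeff_pderiv]
        refine Polynomial.natDegree_mul_le.trans ?_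
        rw [← Nat.cast_succ, Polynomial.natDegree_natCast]
        exact (hT _).trans hD
      · have := hF _ (hs β hβ) i hi
        rw [Finsupp.add_apply] at this; omega
    have hdv : ∀ γ, coeff γ f ≠ 0 → ∀ l, p ∣ γ l := fun γ hγ l => by
      rcases Nat.eq_zero_or_pos (γ l) with h0 | h0
      · rw [h0]; exact dvd_zero _
      have e : γ - Finsupp.single l 1 + Finsupp.single l 1 = γ :=
        tsub_add_cancel_of_le (Finsupp.single_le_iff.2 h0)
      have := coeff_pderiv (i := l) f (γ - Finsupp.single l 1)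
      rw [hd, coeff_zero, e, ← Nat.cast_succ] at this
      have h2 := (CharP.cast_eq_zero_iff (Polynomial F) p _).1
        ((mul_eq_zero.1 this.symm).resolve_left hγ)
      rwa [Finsupp.tsub_apply, Finsupp.single_eq_same, Nat.succ_eq_add_one,
        Nat.sub_add_cancel h0] at h2
    obtain ⟨α, ha, hα, -, h⟩ := hE.top
    obtain ⟨m', rfl⟩ : p ∣ m := hα ▸ dvd_sum fun l _ => hdv α ha l
    have hm' : 1 ≤ m' := Nat.pos_of_ne_zero (by rintro rfl; omega)
    set a := coeff α f with hae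
    obtain ⟨r, rfl⟩ : ∃ r, p = r + 1 := ⟨p - 1, (Nat.sub_add_cancel hp.pos).symm⟩
    set g := C (a ^ r) * f with hg
    have gc : ∀ β, coeff β g = a ^ r * coeff β f := fun β => coeff_C_mul _ _ _
    have gs : ∀ β, coeff β g ≠ 0 → coeff β f ≠ 0 := fun β hβ => right_ne_zero_of_mul (gc β ▸ hβ)
    have gT : Td ((r + 1) * D) g := by
      rw [add_one_mul]
      exact (td_C (Polynomial.natDegree_pow_le.trans (Nat.mul_le_mul_left _ (hT α)))).mul hT
    have gE : C (a ^ (r + 1)) * Sf σ c ξ g =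
        C ((a.map σ * (Polynomial.X - Polynomial.C c) ^ m') ^ (r + 1)) * g := by
      rw [hg, map_mul, Sm_C, mul_pow, ← pow_mul, mul_comm m']
      simp only [C_mul, pow_succ, map_pow, Polynomial.coe_mapRingHom] at h ⊢
      linear_combination (C a ^ r * C (a.map σ) ^ r) * h
    by_cases h0 : dt g = 0
    · obtain ⟨w, hw⟩ := root (r + 1) (fun γ hγ => hdv γ (gs γ hγ)) h0
      have wc : ∀ β, coeff ((r + 1) • β) g = coeff β w ^ (r + 1) := fun β => by
        rw [← hw, coeff_pow_p]
      have ws : ∀ β, coeff β w ≠ 0 → coeff ((r + 1) • β) f ≠ 0 := fun β hβ =>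
        gs _ (wc β ▸ pow_ne_zero _ hβ)
      have hc : w.support.card ≤ f.support.card :=
        card_le_card_of_injOn ((r + 1) • ·) (fun β hβ => mem_support_iff.2
          (ws β (mem_support_iff.1 hβ))) (nsmul_right_injective r.succ_ne_zero).injOn
      have := hp.two_le
      refine step w m' (by nlinarith) hm' ⟨fun e => ?_, _, _, ha,
        deg_top (σ := σ) (c := c) ha m', ?_⟩
        (fun β => ?_) fun β hβ i hi => ?_
      · rw [e, zero_pow r.succ_ne_zero] at hw
        exact mul_ne_zero (pow_ne_zero r ha) ha (by rw [← gc α, ← hw, coeff_zero])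
      · refine frobenius_inj _ (r + 1) ?_
        rw [frobenius_def, frobenius_def, mul_pow, mul_pow, ← map_pow (Sf σ c ξ), hw, ← C_pow,
          ← C_pow, gE]
      · have := gT ((r + 1) • β)
        rw [wc, Polynomial.natDegree_pow] at this
        nlinarith
      · simpa using hF _ (ws β hβ) i hi
    · have ds : ∀ β, coeff β (dt g) ≠ 0 → coeff β f ≠ 0 := fun β hβ e => hβ (by
        rw [coeff_dt, gc, e, mul_zero, map_zero])
      have hc : (dt g).support.card < f.support.card := card_lt_card ((ssubset_iff_of_subset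
        fun β hβ => mem_support_iff.2 (ds β (mem_support_iff.1 hβ))).2 ⟨α, mem_support_iff.2 ha, by
          rw [notMem_support_iff, coeff_dt, gc, ← hae, ← pow_succ, Polynomial.derivative_pow]
          simp [-Nat.cast_add]⟩)
      refine step (dt g) _ (by omega) hm.le ⟨h0, a ^ (r + 1),
        (a.map σ * (Polynomial.X - Polynomial.C c) ^ m') ^ (r + 1), pow_ne_zero _ ha, ?_, ?_⟩
        (fun β => ?_) fun β hβ => hF β (ds β hβ)
      · rw [Polynomial.natDegree_pow, Polynomial.natDegree_pow, deg_top ha, mul_add]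
      · have := congrArg dt gE
        rwa [dt_Cp, dt_Cp, dt_Sm, sum_eq_zero fun l _ => by
          rw [hg, pderiv_C_mul, hd, mul_zero, map_zero, mul_zero], add_zero] at this
      · rw [coeff_dt]
        exact (Polynomial.natDegree_derivative_le _).trans ((Nat.sub_le _ _).trans (gT β))

end Pool.Agent.CSU.SA.ND
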