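import Pool.Agent.Lib.MP_0370b2_nt.SA.ND1

/-! Stable modules of rows: a power of the special form, or a torsion relation. -/

namespace Pool.Agent.CSU.SA.ND

open Finset

variable {k F ι : Type} [Field k] [Fintype k] [Field F] [Algebra k F] {σ : F →+* F}

section
open Polynomial

/-- Clearing denominators, with a degree bound. -/
lemma clearD (hσ : ∀ y, σ y = y ^ Fintype.card k) {a g y p : F[X]} (ha : a ≠ 0)
    (h : a * g.map σ = p * (a.map σ * g) - a * a.map σ * y) :
    ∃ (b : k[X]) (g' : F[X]), b ≠ 0 ∧ b.natDegree ≤ a.natDegree ∧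
      g'.map σ = p * g' - b.map (algebraMap k F) * y := by
  classical
  obtain ⟨a', g', e1, e2, hu⟩ := extract_gcd a g
  have hd : gcd a g ≠ 0 := fun h0 => ha (by rw [e1, h0, zero_mul])
  generalize gcd a g = d at *
  have ha' : a' ≠ 0 := fun h0 => ha (by rw [e1, h0, mul_zero])
  have hc : IsCoprime a' g' := (gcd_isUnit_iff _ _).1 hu
  have h' : a' * g'.map σ = p * (a'.map σ * g') - a' * a'.map σ * y := by
    refine mul_left_cancel₀ (mul_ne_zero hd (Polynomial.map_ne_zero (f := σ) hd)) ?_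
    rw [e1, e2, Polynomial.map_mul, Polynomial.map_mul] at h
    linear_combination h
  have hdv : a'.map σ ∣ a' := by
    refine (hc.map (mapRingHom σ)).dvd_of_dvd_mul_right ?_
    exact ⟨p * g' - a' * y, by simp only [coe_mapRingHom]; linear_combination h'⟩
  have hm : (a' * C a'.leadingCoeff⁻¹).Monic := monic_mul_leadingCoeff_inv ha'
  have hf : (a' * C a'.leadingCoeff⁻¹).map σ = a' * C a'.leadingCoeff⁻¹ := by
    refine (eq_of_monic_of_dvd_of_natDegree_le (hm.map σ) hm ?_ (natDegree_map σ).ge).symm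
    rw [Polynomial.map_mul, map_C]
    exact (isUnit_C.2 (Ne.isUnit (by simpa using ha'))).mul_right_dvd.2 (hdv.mul_right _)
  obtain ⟨b, hb⟩ := fix_poly hσ hf
  refine ⟨b, g' * C a'.leadingCoeff⁻¹, fun h0 => hm.ne_zero (by rw [← hb, h0, Polynomial.map_zero]),
    ?_, mul_left_cancel₀ hm.ne_zero ?_⟩
  · rw [← natDegree_map (algebraMap k F), hb, e1, natDegree_mul hd ha']
    exact (natDegree_mul_C_le _ _).trans (Nat.le_add_left _ _)
  rw [hb]
  rw [Polynomial.map_mul] at hf ⊢
  linear_combination (C a'.leadingCoeff⁻¹ * (C a'.leadingCoeff⁻¹).map σ) * h' +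
    (p * g' * C a'.leadingCoeff⁻¹ - a' * C a'.leadingCoeff⁻¹ * y) * hf

/-- A torsion relation of bounded degree that avoids the passive indices. -/
def Rel (k : Type) [Field k] [Algebra k F] [Fintype ι] (σ : F →+* F) (c : F) (ξ : ι → F)
    (pas : ι → Prop) (D : ℕ) : Prop :=
  ∃ (β : ι → k[X]) (g : F[X]), β ≠ 0 ∧ (∀ l, (β l).natDegree ≤ D) ∧ (∀ l, pas l → β l = 0) ∧
    g.map σ = (X - C c) * g - ∑ l, C (ξ l) * (β l).map (algebraMap k F)

lemma rel_of [Fintype ι] (hσ : ∀ y, σ y = y ^ Fintype.card k) {c : F} {ξ : ι → F} {pas : ι → Prop}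
    {D : ℕ} (f0 : F[X]) (b : ι → F[X]) (o : ι) (h0 : b o ≠ 0) (hD : ∀ l, (b l).natDegree ≤ D)
    (hp : ∀ l, pas l → b l = 0) (h1 : ∀ l, b o * (b l).map σ = (b o).map σ * b l)
    (h2 : b o * (f0.map σ + ∑ l, (b l).map σ * C (ξ l)) = (b o).map σ * (X - C c) * f0) :
    Rel k σ c ξ pas (2 * D) := by
  have hs : (b o).map σ ≠ 0 := Polynomial.map_ne_zero h0
  obtain ⟨β, hβ, h3, h4⟩ := artin hσ (fun w : ι → F[X] => (∀ l, w l * b o = w o * b l) ∧
    ∀ l, (w l).natDegree ≤ D)
    (fun a v hv => ⟨fun l => by simp [hv.1 l], fun l => (natDegree_smul_le _ _).trans (hv.2 l)⟩)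
    (fun v w hv hw => ⟨fun l => by simp [sub_mul, hv.1 l, hw.1 l], fun l =>
      (natDegree_sub_le _ _).trans (max_le (hv.2 l) (hw.2 l))⟩)
    (fun v hv => ⟨fun l => mul_left_cancel₀ hs (by
      have := congrArg (Polynomial.map σ) (hv.1 l)
      rw [Polynomial.map_mul, Polynomial.map_mul] at this
      linear_combination b o * this + (v o).map σ * h1 l),
      fun l => natDegree_map_le.trans (hv.2 l)⟩)
    ⟨b, ⟨fun l => mul_comm _ _, hD⟩, fun e => h0 (congrFun e o)⟩
  have h5 : ∀ l, (β l).map (algebraMap k F) * (b o).map σ =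
      (β o).map (algebraMap k F) * (b l).map σ := fun l => by
    have := congrArg (Polynomial.map σ) (h3 l)
    rwa [Polynomial.map_mul, Polynomial.map_mul, map_fix hσ, map_fix hσ] at this
  have h6 : (b o).map σ * ∑ l, C (ξ l) * (β l).map (algebraMap k F) =
      (β o).map (algebraMap k F) * ∑ l, (b l).map σ * C (ξ l) := by
    rw [mul_sum, mul_sum]
    exact sum_congr rfl fun l _ => by linear_combination C (ξ l) * h5 l
  obtain ⟨d, g, hd, hdD, hg⟩ := clearD hσ (g := f0 * (β o).map (algebraMap k F))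
    (y := ∑ l, C (ξ l) * (β l).map (algebraMap k F)) (p := X - C c) h0 (by
      rw [Polynomial.map_mul, map_fix hσ]
      linear_combination (β o).map (algebraMap k F) * h2 + b o * h6)
  refine ⟨fun l => d * β l, g, fun e => hβ (funext fun l =>
    (mul_eq_zero.1 (congrFun e l)).resolve_left hd), fun l => natDegree_mul_le.trans ?_,
    fun l hl => ?_, ?_⟩
  · have := h4 l
    have := hD o
    rw [natDegree_map] at *
    omega
  · have := h3 l
    rw [hp l hl, mul_zero, mul_eq_zero, Polynomial.map_eq_zero] at this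
    exact mul_eq_zero_of_right _ (this.resolve_right h0)
  · rw [hg, mul_sum]
    simp only [Polynomial.map_mul, mul_left_comm]

end

open MvPolynomial

variable [Fintype ι] {c : F} {ξ : ι → F} {m D : ℕ} {f : MvPolynomial ι (Polynomial F)}

lemma rel_one (hσ : ∀ y, σ y = y ^ Fintype.card k) {pas : ι → Prop} (h : Eig σ c ξ 1 f)
    (hT : Td D f) (hF : Fr pas f) : Rel k σ c ξ pas (2 * D) := by
  classical
  obtain ⟨α, ha, hα, hd, h⟩ := h.top
  have one : ∀ γ : ι →₀ ℕ, γ.degree = 1 → ∃ l, Finsupp.single l 1 = γ := fun γ hγ =>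
    (Finsupp.range_single_one (σ := ι)).ge hγ
  obtain ⟨o, rfl⟩ := one α hα
  have e : f = C (coeff 0 f) + ∑ l, C (coeff (Finsupp.single l 1) f) * X l := by
    ext1 γ
    simp only [coeff_add, coeff_sum, coeff_C_mul, coeff_X, coeff_C]
    by_cases h0 : 0 = γ
    · subst h0; simp [Finsupp.single_eq_zero]
    by_cases h1 : ∃ l, Finsupp.single l 1 = γ
    · obtain ⟨l, rfl⟩ := h1
      simp [h0, Finsupp.single_left_inj]
    · rw [if_neg h0, sum_eq_zero fun l _ => by rw [if_neg fun e => h1 ⟨l, e⟩, mul_zero], add_zero]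
      by_contra hγ
      have := hd γ hγ
      have := (Finsupp.degree_eq_zero_iff γ).not.2 (Ne.symm h0)
      exact h1 (one γ (by omega))
  refine rel_of hσ (coeff 0 f) (fun l => coeff (Finsupp.single l 1) f) o ha (fun l => hT _)
    (fun l hl => by_contra fun hn => by simpa using hF _ hn l hl) (fun l => ?_) ?_
  · have := congrArg (coeff (Finsupp.single l 1)) h
    rw [coeff_C_mul, coeff_C_mul, Sm_top fun γ hγ hle => ?_, Finsupp.degree_single] at this
    · refine mul_right_cancel₀ (Polynomial.X_sub_C_ne_zero c) ?_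
      rw [Polynomial.coe_mapRingHom] at this
      linear_combination this
    · obtain ⟨δ, rfl⟩ := exists_add_of_le hle
      have := hd _ hγ
      rw [map_add, Finsupp.degree_single] at this
      rw [(Finsupp.degree_eq_zero_iff δ).1 (by omega), add_zero]
  · have := congrArg constantCoeff h
    rw [map_mul, map_mul, constantCoeff_C, constantCoeff_C, pow_one] at this
    rw [← show constantCoeff f = coeff 0 f from rfl, ← this]
    congr 1
    conv_rhs => rw [e]
    simp only [map_add, map_sum, map_mul, Sm_C, Sm_X, constantCoeff_C, constantCoeff_X, mul_zero,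
      zero_add, Polynomial.coe_mapRingHom]
    rfl

omit [Fintype ι] in
lemma Eig.const (h : Eig σ c ξ 0 f) : ∃ a, a ≠ 0 ∧ f = C a := by
  obtain ⟨α, ha, hα, hd, -⟩ := h.top
  rw [(Finsupp.degree_eq_zero_iff α).1 hα] at ha
  refine ⟨_, ha, ?_⟩
  classical
  ext1 γ
  rw [coeff_C]
  split_ifs with e
  · rw [e]
  · by_contra h
    exact e ((Finsupp.degree_eq_zero_iff γ).1 (Nat.le_zero.1 (hd γ h))).symm

omit [Fintype ι] in
lemma spl {o : ι} (ho : ξ o = 0) (m : ℕ) : ∀ f : MvPolynomial ι (Polynomial F), Eig σ c ξ m f →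
    Td D f → (∃ a, a ≠ 0 ∧ f = C a * X o ^ m) ∨ ∃ g m', 1 ≤ m' ∧ m' ≤ m ∧ Eig σ c ξ m' g ∧ Td D g ∧
      Fr (· = o) g ∧ g.support.card ≤ f.support.card := by
  classical
  induction m with
  | zero => exact fun f h _ => Or.inl (by simpa using h.const)
  | succ m ih =>
    intro f ⟨h0, a, b, ha, hb, h⟩ hT
    set f1 := f.divMonomial (Finsupp.single o 1)
    set f0 := f.modMonomial (Finsupp.single o 1)
    have e : X o * f1 + f0 = f := divMonomial_add_modMonomial_single f o
    have c0 : ∀ β, β o ≠ 0 → coeff β f0 = 0 := fun β hβ =>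
      coeff_modMonomial_of_le f (Finsupp.single_le_iff.2 (Nat.pos_of_ne_zero hβ))
    have c1 : ∀ β, β o = 0 → coeff β f0 = coeff β f := fun β hβ =>
      coeff_modMonomial_of_not_le f fun hle => by
        have := Finsupp.single_le_iff.1 hle; omega
    have cs : ∀ β, coeff β f0 ≠ 0 → β o = 0 := fun β hβ => by_contra fun hn => hβ (c0 β hn)
    have h' : X o * (C (a * (Polynomial.X - Polynomial.C c)) * Sf σ c ξ f1 - C b * f1) =
        C b * f0 - C a * Sf σ c ξ f0 := by
      rw [← e, map_add, map_mul, Sm_X, ho] at h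
      simp only [map_zero, add_zero, C_mul] at h ⊢
      linear_combination h
    have hz : C b * f0 - C a * Sf σ c ξ f0 = 0 := by
      ext1 β
      by_cases hβ : β o = 0
      · rw [← h', coeff_X_mul', if_neg (by simpa using hβ), coeff_zero]
      · rw [coeff_sub, coeff_C_mul, coeff_C_mul, c0 β hβ, coeff_zero, mul_zero, zero_sub,
          neg_eq_zero]
        refine mul_eq_zero_of_right _ (by_contra fun hn => ?_)
        obtain ⟨γ, h1, h2⟩ := Sm_supp hn
        have := h2 o
        have := cs γ h1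
        omega
    by_cases hf : f0 = 0
    · rw [hz, mul_eq_zero, sub_eq_zero] at h'
      rw [hf, add_zero] at e
      have hc : f1.support.card ≤ f.support.card :=
        card_le_card_of_injOn (Finsupp.single o 1 + ·) (fun β hβ => mem_support_iff.2
          (mem_support_iff.1 hβ :)) (add_right_injective _).injOn
      rcases ih f1 ⟨fun z => h0 (by rw [← e, z, mul_zero]), _, b, mul_ne_zero ha
        (Polynomial.X_sub_C_ne_zero c), by rw [Polynomial.natDegree_mul ha
          (Polynomial.X_sub_C_ne_zero c), Polynomial.natDegree_X_sub_C]; omega,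
        h'.resolve_left (X_ne_zero o)⟩ (fun β => hT _) with ⟨x, hx, h1⟩ | ⟨g, m', h1, h2, h3⟩
      · exact Or.inl ⟨x, hx, by rw [← e, h1]; ring⟩
      · exact Or.inr ⟨g, m', h1, by omega, h3.1, h3.2.1, h3.2.2.1, h3.2.2.2.trans hc⟩
    · refine Or.inr ⟨f0, m + 1, by omega, le_rfl, ⟨hf, a, b, ha, hb, (sub_eq_zero.1 hz).symm⟩,
        fun β => ?_, fun γ hγ l hl => hl ▸ cs γ hγ, card_le_card fun β hβ => ?_⟩
      · by_cases hβ : β o = 0
        · rw [c1 β hβ]; exact hT β
        · simp [c0 β hβ]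
      · rw [mem_support_iff] at hβ ⊢
        rwa [← c1 β (cs β hβ)]

variable (p : ℕ) [Fact p.Prime] [CharP F p] [PerfectRing F p]
  (hσ : ∀ y, σ y = y ^ Fintype.card k)
  (Mo : Submodule (Polynomial F) (MvPolynomial ι (Polynomial F)))
  {M : ℕ} {A : Finset (ι →₀ ℕ)}
  (hA : ∀ β ∈ A, ∀ γ, γ ≤ β → γ ∈ A) (hM : ∀ β ∈ A, β.degree ≤ M)

include hσ hA hM

/-- No special index. -/
theorem ndA (hS : ∀ f ∈ Mo, Sf σ c ξ f ∈ Mo) (hf : f ∈ Mo) (h0 : f ≠ 0)
    (hs : ∀ β, coeff β f ≠ 0 → β ∈ A) (hT : Td D f) : (∃ a, a ≠ 0 ∧ C a * 1 ∈ Mo) ∨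
    Rel k σ c ξ (fun _ => False) (2 * (p ^ (M + A.card) * (2 ^ A.card * (D + M)))) := by
  obtain ⟨g, hg, m, hE, gs, gT⟩ := elim Mo hS M _ A D f rfl hA hM hf h0 hs hT
  rcases Nat.eq_zero_or_pos m with rfl | hm
  · obtain ⟨a, ha, rfl⟩ := hE.const
    exact Or.inl ⟨a, ha, by rwa [mul_one]⟩
  obtain ⟨α, ha, rfl, -⟩ := hE.top
  obtain ⟨w, h1, h2, h3⟩ := red p (pas := fun _ => False) (M + A.card) g _ _ (add_le_add
    (hM α (gs α ha)) (card_le_card fun β hβ => gs β (mem_support_iff.1 hβ))) hm hE gT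
    fun _ _ _ h => h.elim
  exact Or.inr (rel_one hσ h1 h2 h3)

/-- One passive index. -/
theorem ndP {o : ι} (ho : ξ o = 0) (hS : ∀ f ∈ Mo, Sf σ c ξ f ∈ Mo) (hf : f ∈ Mo) (h0 : f ≠ 0)
    (hs : ∀ β, coeff β f ≠ 0 → β ∈ A) (hT : Td D f) :
    (∃ a m, a ≠ 0 ∧ C a * X o ^ m ∈ Mo) ∨
    Rel k σ c ξ (· = o) (2 * (p ^ (M + A.card) * (2 ^ A.card * (D + M)))) := by
  obtain ⟨g, hg, m, hE, gs, gT⟩ := elim Mo hS M _ A D f rfl hA hM hf h0 hs hT
  rcases spl ho m g hE gT with ⟨a, ha, rfl⟩ | ⟨w, m', h1, h2, h3, h4, h5, h6⟩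
  · exact Or.inl ⟨a, m, ha, hg⟩
  obtain ⟨α, ha, rfl, -⟩ := hE.top
  obtain ⟨w, h1, h2, h3⟩ := red p (M + A.card) w _ _ (add_le_add (h2.trans (hM α (gs α ha)))
    (h6.trans (card_le_card fun β hβ => gs β (mem_support_iff.1 hβ)))) h1 h3 h4 h5
  exact Or.inr (rel_one hσ h1 h2 h3)

/-- One special index with a linear eigenform. -/
theorem ndS {o : ι} {a r : Polynomial F} {δ e : ℕ} (ha : a ≠ 0) (hae : a.natDegree ≤ e)
    (hre : r.natDegree ≤ e) (hδ : ∀ β ∈ A, β o ≤ δ)
    (hl : Sf σ c ξ (C a * X o + C r) = C (Polynomial.X - Polynomial.C c) * (C a * X o + C r))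
    (hS : ∀ f ∈ Mo, Sf σ c ξ f ∈ Mo) (hf : f ∈ Mo) (h0 : f ≠ 0)
    (hs : ∀ β, coeff β f ≠ 0 → β ∈ A) (hT : Td D f) :
    (∃ b m, b ≠ 0 ∧ C b * (C a * X o + C r) ^ m ∈ Mo) ∨
    Rel k σ c ξ (· = o) (2 * (p ^ (M + A.card) * (2 ^ A.card * (D + δ * e + M)))) := by
  classical
  let φ : MvPolynomial ι (Polynomial F) →ₐ[Polynomial F] MvPolynomial ι (Polynomial F) :=
    aeval (Function.update X o (C a * X o + C r))
  have φo : φ (X o) = C a * X o + C r := by simp [φ]
  have φl : ∀ l, l ≠ o → φ (X l) = X l := fun l h => by simp [φ, h]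
  have φC : ∀ x, φ (C x) = C x := fun x => φ.commutes x
  have comm : ∀ g, φ (Sf σ c (Function.update ξ o 0) g) = Sf σ c ξ (φ g) := fun g => by
    induction g using MvPolynomial.induction_on with
    | C x => rw [Sm_C, φC, φC, Sm_C]
    | add p q hp hq => simp only [map_add, hp, hq]
    | mul_X p l hp =>
      rw [map_mul, map_mul, map_mul, map_mul, hp, Sm_X, map_add, map_mul, φC, φC]
      by_cases h : l = o
      · subst h; rw [φo, hl]; simp
      · rw [φl l h, Sm_X, Function.update_of_ne h]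
  let t : (ι →₀ ℕ) → MvPolynomial ι (Polynomial F) := fun α => monomial (α.erase o) (coeff α f) *
    (C (a ^ (δ - α o)) * (C 1 * X o + C (-r)) ^ α o)
  have hφ : φ (∑ α ∈ f.support, t α) = a ^ δ • f := by
    conv_rhs => rw [f.as_sum, smul_sum]
    rw [map_sum]
    refine sum_congr rfl fun α hα => ?_
    have e1 : φ (monomial (α.erase o) (coeff α f)) = monomial (α.erase o) (coeff α f) := by
      rw [monomial_eq, map_mul, φC, map_finsuppProd]
      congr 1
      exact Finsupp.prod_congr fun l hl => by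
        rw [map_pow, φl l fun h => by simp [h] at hl]
    rw [← Nat.sub_add_cancel (hδ α (hs α (mem_support_iff.1 hα))), ← C_mul']
    conv_rhs => rw [← Finsupp.erase_add_single o α, monomial_add_single, Finsupp.erase_add_single]
    simp only [t, map_mul, map_pow, map_add, e1, φC, φo, map_one, map_neg, pow_add]
    ring
  have hs' : ∀ β, coeff β (∑ α ∈ f.support, t α) ≠ 0 → β ∈ A := fun β hβ => by
    rw [coeff_sum] at hβ
    obtain ⟨α, hα, h1⟩ := exists_ne_zero_of_sum_ne_zero hβ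
    have := ((bd_mon (α.erase o) (coeff α f)).mul ((bd_mon 0 (a ^ (δ - α o))).mul
      ((bd_lin 1 (-r) o).pow (α o)))).1 β h1
    rw [zero_add, Finsupp.smul_single, smul_eq_mul, mul_one, Finsupp.erase_add_single] at this
    exact hA α (hs α (mem_support_iff.1 hα)) β this
  have hT' : Td (D + δ * e) (∑ α ∈ f.support, t α) := td_sum fun α hα => by
    refine ((td_mon _ (hT α)).mul ((td_C (Polynomial.natDegree_pow_le.trans
      (Nat.mul_le_mul_left _ hae))).mul ((((td_C (by simp)).mul (td_X (D := e) o)).add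
        (td_C (D := 0 + e) (by simpa using hre))).pow _))).mono ?_
    rw [zero_add, ← add_mul, Nat.sub_add_cancel (hδ α (hs α (mem_support_iff.1 hα)))]
  have mem : ∀ g, g ∈ Mo.comap φ.toLinearMap ↔ φ g ∈ Mo := fun g => Iff.rfl
  rcases ndP p hσ (Mo.comap φ.toLinearMap) hA hM
    (ξ := Function.update ξ o 0) (Function.update_self _ _ _)
    (fun g hg => by rw [mem, comm]; exact hS _ hg) (f := ∑ α ∈ f.support, t α) (D := D + δ * e)
    (by rw [mem, hφ]; exact Mo.smul_mem _ hf)
    (fun z => smul_ne_zero (pow_ne_zero δ ha) h0 (by rw [← hφ, z, map_zero])) hs' hT' with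
    ⟨b, m, hb, hm⟩ | ⟨β, g, h1, h2, h3, h4⟩
  · exact Or.inl ⟨b, m, hb, by rwa [mem, map_mul, map_pow, φo, φC] at hm⟩
  · refine Or.inr ⟨β, g, h1, h2, h3, h4.trans ?_⟩
    congr 1
    refine sum_congr rfl fun l _ => ?_
    by_cases h : l = o
    · simp [h3 l h]
    · rw [Function.update_of_ne h]

end Pool.Agent.CSU.SA.ND
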