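import Pool.Agent.Lib.MP_0370b2_nt.SA.St
import Pool.Agent.Lib.MP_0370b2_nt.SA.ND2

/-! Non-degeneracy. -/

namespace Pool.Agent.CSU.SA

open Polynomial Finset

lemma SS_eq {ι F : Type} [Field F] (σ : F →+* F) (c : F) (ξ : ι → F) (f : PP ι F) :
    SS σ c ξ f = ND.Sf σ c ξ f := by
  induction f using MvPolynomial.induction_on with
  | C a => simp [SS, sb, tw, ND.Sm_C]
  | add p q hp hq => simp only [SS, map_add] at *; rw [hp, hq]
  | mul_X p l hp => simp only [SS, map_mul] at *; rw [hp, ND.Sm_X]; simp [sb, tw]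

theorem nd : NdS := by
  intro q n δ
  refine ⟨2 * (q ^ (n * δ + (δ + 1) ^ n) * (2 ^ (δ + 1) ^ n * (1 + δ * 2 + n * δ))), ?_⟩
  intro k ι F _ _ _ _ _ _ σ c ξ Sp gl D f Mo hq hn hσ hSp hgl hS hf h0 hR
  classical
  subst hq
  obtain ⟨p, hp, r, hpp, hr⟩ := FiniteField.card' k
  have : Fact p.Prime := ⟨hpp⟩
  have : CharP F p := charP_of_injective_algebraMap (algebraMap k F).injective p
  have hpq : p ≤ Fintype.card k := hr ▸ Nat.le_self_pow r.ne_zero p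
  simp only [SS_eq] at hgl hS
  let A := Iic (Finsupp.equivFunOnFinite.symm fun _ : ι => δ)
  have mem : ∀ β, β ∈ A ↔ ∀ l, β l ≤ δ := fun β => mem_Iic
  have hA : ∀ β ∈ A, ∀ γ, γ ≤ β → γ ∈ A := fun β hβ γ h => mem_Iic.2 (h.trans (mem_Iic.1 hβ))
  have hM : ∀ β ∈ A, β.degree ≤ n * δ := fun β hβ => by
    rw [Finsupp.degree_eq_sum]
    exact (sum_le_card_nsmul _ _ δ fun l _ => (mem β).1 hβ l).trans (Nat.mul_le_mul_right _ hn)
  have hc : A.card ≤ (δ + 1) ^ n := by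
    rw [Finsupp.card_Iic]
    refine (prod_le_pow_card _ _ (δ + 1) fun l _ => by simp).trans
      (Nat.pow_le_pow_right δ.succ_pos ((card_le_univ _).trans hn))
  have hs : ∀ β, f.coeff β ≠ 0 → β ∈ A := fun β hβ => (mem β).2 ((hR β).2 hβ)
  have hT : ND.Td D f := fun β => natDegree_le_of_degree_le (hR β).1.le
  have fin : ∀ (pas : ι → Prop) E, E ≤ D + δ * 2 → (∀ l ∈ Sp, pas l) →
      ND.Rel k σ c ξ pas (2 * (p ^ (n * δ + A.card) * (2 ^ A.card * (E + n * δ)))) →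
      ∃ (β : ι → k[X]) (h : F[X]), (∀ l, (β l).natDegree ≤ 2 * (Fintype.card k ^
        (n * δ + (δ + 1) ^ n) * (2 ^ (δ + 1) ^ n * (1 + δ * 2 + n * δ))) * (D + 1)) ∧
        (∃ l ∉ Sp, β l ≠ 0) ∧
        h.map σ = (X - C c) * h - ∑ l, C (ξ l) * (β l).map (algebraMap k F) := by
    rintro pas E hE hp ⟨β, g, h1, h2, h3, h4⟩
    obtain ⟨l, hl⟩ := Function.ne_iff.1 h1
    refine ⟨β, g, fun l => (h2 l).trans ?_, ⟨l, fun h => hl (h3 l (hp l h)), hl⟩, h4⟩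
    rw [mul_assoc, mul_assoc, mul_assoc]
    have := hpp.pos
    gcongr
    · exact hpp.one_le.trans hpq
    · norm_num
    · nlinarith [Nat.zero_le (δ * D), Nat.zero_le (n * δ * D)]
  rcases Sp.eq_empty_or_nonempty with rfl | ⟨o, ho⟩
  · rcases ND.ndA p hσ Mo hA hM hS hf h0 hs hT with ⟨a, ha, h⟩ | h
    · exact Or.inr ⟨a, 1, ha, h, Or.inl rfl⟩
    · exact Or.inl (fin _ _ (by omega) (by simp) h)
  · rcases ND.ndS p hσ Mo hA hM (e := 2) (pow_ne_zero 2 X_ne_zero) (by simp)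
      ((natDegree_le_of_degree_le (hgl o ho).1).trans one_le_two) (fun β hβ => (mem β).1 hβ o)
      (hgl o ho).2 hS hf h0 hs hT with ⟨a, m, ha, h⟩ | h
    · exact Or.inr ⟨a, _, ha, h, Or.inr ⟨o, ho, m, rfl⟩⟩
    · exact Or.inl (fin _ _ le_rfl (fun l hl => hSp hl ho) h)

end Pool.Agent.CSU.SA
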