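import Pool.Agent.Lib.MP_0370b2_nt.S2.Tay
import Pool.Agent.Lib.MP_0370b2_nt.SA.St

/-! The bounded Taylor map of order `q ^ a`. -/

namespace Pool.Agent.CSU.SA.Tau

open Polynomial Finset Filter Topology

section
variable {F : Type} [NormedField F] [CompleteSpace F]

lemma fd_bound (K : Subfield F) (hc : IsClosed (K : Set F)) {t : F} (ht : t ∈ K) (h1 : 1 < ‖t‖)
    (M : Submodule K F) [FiniteDimensional K M] (D : F →ₗ[K] F) :
    ∃ c : ℝ, 0 < c ∧ ∀ x ∈ M, ‖D x‖ ≤ c * ‖x‖ := by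
  let : NontriviallyNormedField K := ⟨⟨t, ht⟩, h1⟩
  have : CompleteSpace K := hc.completeSpace_coe
  let : NormedSpace K F := ⟨fun a b => (norm_mul (a : F) b).le⟩
  obtain ⟨c, hc, h⟩ := (LinearMap.toContinuousLinearMap (D.domRestrict M)).bound
  exact ⟨c, hc, fun x hx => h ⟨x, hx⟩⟩

omit [CompleteSpace F] in
lemma geo {δ : F} (hδ : δ ≠ 0) {N : ℕ} {f : F[X]} (h : X ^ N ∣ f * (C δ - X) - 1)
    {l : ℕ} (hl : l < N) : f.coeff l = (δ ^ (l + 1))⁻¹ := by
  rw [X_pow_dvd_iff] at h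
  induction l with
  | zero =>
    have := h 0 hl
    simp only [mul_sub, coeff_sub, mul_coeff_zero, coeff_X_zero, coeff_one_zero,
      coeff_C_zero] at this
    field_simp
    linear_combination this
  | succ l ih =>
    have := h _ hl
    simp only [mul_sub, coeff_sub, coeff_mul_C, coeff_mul_X, coeff_one, ih (by omega)] at this
    rw [if_neg l.succ_ne_zero, sub_zero, sub_eq_zero] at this
    rw [pow_succ, mul_inv, ← this, mul_inv_cancel_right₀ hδ]

/-- Values and jets of polynomials over `E`. -/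
def Rel (E : Subfield F) (θ : F) (N : ℕ) : Subring (F × F[X]) where
  carrier := {z | ∃ g : E[X], z.1 = aeval θ g ∧ X ^ N ∣ z.2 - aeval (X + C θ : F[X]) g}
  mul_mem' := by
    rintro a b ⟨g, g1, g2⟩ ⟨h, h1, h2⟩
    refine ⟨g * h, by rw [map_mul, Prod.fst_mul, g1, h1], ?_⟩
    rw [map_mul, Prod.snd_mul, ← sub_add_sub_cancel _ (aeval (X + C θ : F[X]) g * b.2), ← sub_mul,
      ← mul_sub]
    exact (g2.mul_right _).add (h2.mul_left _)
  one_mem' := ⟨1, by simp, by simp⟩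
  add_mem' := by
    rintro a b ⟨g, g1, g2⟩ ⟨h, h1, h2⟩
    refine ⟨g + h, by rw [map_add, Prod.fst_add, g1, h1], ?_⟩
    rw [map_add, Prod.snd_add, add_sub_add_comm]
    exact g2.add h2
  zero_mem' := ⟨0, by simp, by simp⟩
  neg_mem' := by
    rintro a ⟨g, g1, g2⟩
    refine ⟨-g, by rw [map_neg, Prod.fst_neg, g1], ?_⟩
    rw [map_neg, Prod.snd_neg, neg_sub_neg, ← dvd_neg, neg_sub]
    exact g2

omit [CompleteSpace F] in
lemma rel_C {E : Subfield F} (θ : F) (N : ℕ) {a : F} (ha : a ∈ E) : (a, C a) ∈ Rel E θ N :=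
  ⟨C ⟨a, ha⟩, by rw [aeval_C]; rfl, by rw [aeval_C]; exact ⟨0, by rw [mul_zero]; exact sub_self _⟩⟩

omit [CompleteSpace F] in
lemma rel_X (E : Subfield F) (θ : F) (N : ℕ) : (θ, X + C θ) ∈ Rel E θ N :=
  ⟨X, by simp, by simp⟩

omit [CompleteSpace F] in
lemma rel_poly {E : Subfield F} (θ : F) (N : ℕ) {p : F[X]} (hp : ∀ i, p.coeff i ∈ E) :
    (p.eval θ, taylor θ p) ∈ Rel E θ N := by
  have : (p.eval θ, taylor θ p) =
      ∑ i ∈ p.support, (p.coeff i, C (p.coeff i)) * (θ, X + C θ) ^ i := by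
    ext1
    · simp [Prod.fst_sum, eval_eq_sum, Polynomial.sum]
    · simp [Prod.snd_sum, taylor_apply, comp_eq_sum_left, Polynomial.sum]
  rw [this]
  exact sum_mem fun i _ => mul_mem (rel_C θ N (hp i)) (pow_mem (rel_X E θ N) i)

/-- Bound and closedness. -/
theorem rel_main (E : Subfield F) (hEc : IsClosed (E : Set F)) {t : F} (ht : t ∈ E)
    (h1 : 1 < ‖t‖) {θ : F} {N M : ℕ} (hN : N ≤ M) (hM : M ≠ 0) (y : E)
    (hμ : minpoly E θ = X ^ M - C y) (hX : (X + C θ : F[X]) ^ M = X ^ M + C (y : F)) :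
    (∃ CT : ℝ, 0 < CT ∧ ∀ z ∈ Rel E θ N, ∀ l < N, ‖z.2.coeff l‖ ≤ CT * ‖z.1‖) ∧
    (∀ c ∈ E, c - θ ≠ 0 → ∃ f, ((c - θ)⁻¹, f) ∈ Rel E θ N ∧
      ∀ l < N, f.coeff l = ((c - θ) ^ (l + 1))⁻¹) ∧
    ∀ (z : ℕ → F × F[X]) (x : F) (J : F[X]), (∀ n, z n ∈ Rel E θ N) →
      Tendsto (fun n => (z n).1) atTop (𝓝 x) →
      (∀ l < N, Tendsto (fun n => (z n).2.coeff l) atTop (𝓝 (J.coeff l))) →
      (x, J) ∈ Rel E θ N := by
  have hint : IsIntegral E θ := ⟨_, monic_X_pow_sub_C y hM, hμ ▸ minpoly.aeval E θ⟩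
  let W := IntermediateField.adjoin E {θ}
  let pb := IntermediateField.adjoin.powerBasis hint
  have : FiniteDimensional E W := IntermediateField.adjoin.finiteDimensional hint
  obtain ⟨T, hT⟩ := LinearMap.exists_extend (p := Subalgebra.toSubmodule W.toSubalgebra)
    (pb.basis.constr E fun i => (X + C θ : F[X]) ^ (i : ℕ))
  have hpow : ∀ m < (minpoly E θ).natDegree, T (θ ^ m) = (X + C θ) ^ m := fun m h => by
    have := congrArg (· (pb.basis ⟨m, h⟩)) hT
    simp only [LinearMap.comp_apply] at this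
    erw [Module.Basis.constr_basis] at this
    rw [← this, pb.basis_eq_pow]
    rfl
  have haev : ∀ g : E[X], X ^ N ∣ T (aeval θ g) - aeval (X + C θ : F[X]) g := fun g => by
    have hm := minpoly.monic hint
    have h1 := natDegree_modByMonic_lt g hm (minpoly.ne_one E θ)
    have h2 : aeval (X + C θ : F[X]) (minpoly E θ) = X ^ M := by
      rw [hμ, map_sub, aeval_X_pow, aeval_C, hX]
      exact add_sub_cancel_right _ _
    have h3 : T (aeval θ (g %ₘ minpoly E θ)) = aeval (X + C θ : F[X]) (g %ₘ minpoly E θ) := by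
      rw [aeval_eq_sum_range' h1, aeval_eq_sum_range' h1, map_sum]
      exact sum_congr rfl fun i hi => by rw [map_smul, hpow i (mem_range.1 hi)]
    rw [← modByMonic_add_div g (minpoly E θ), map_add, map_add (aeval (X + C θ : F[X])), map_mul,
      map_mul, minpoly.aeval, zero_mul, add_zero, h3, h2, sub_add_cancel_left, dvd_neg]
    exact (pow_dvd_pow _ hN).mul_right _
  have hWa : ∀ a ∈ W, ∃ g : E[X], a = aeval θ g := fun a ha => by
    obtain ⟨g, hg⟩ := pb.exists_eq_aeval' ⟨a, ha⟩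
    exact ⟨g, (congrArg Subtype.val hg).trans (aeval_algHom_apply W.val pb.gen g).symm⟩
  have hθW : θ ∈ W := IntermediateField.mem_adjoin_simple_self E θ
  have hEW : ∀ a ∈ E, a ∈ W := fun a ha => W.algebraMap_mem ⟨a, ha⟩
  have hiff : ∀ z : F × F[X], z ∈ Rel E θ N ↔
      z.1 ∈ W ∧ ∀ l < N, z.2.coeff l = (T z.1).coeff l := fun z => by
    constructor
    · rintro ⟨g, g1, g2⟩
      refine ⟨?_, fun l hl => ?_⟩
      · rw [g1, aeval_eq_sum_range]
        exact sum_mem fun i _ => W.smul_mem (pow_mem hθW i)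
      · have := X_pow_dvd_iff.1 (g2.sub (haev g)) l hl
        rwa [sub_sub_sub_cancel_right, coeff_sub, sub_eq_zero, ← g1] at this
    · rintro ⟨h1, h2⟩
      obtain ⟨g, hg⟩ := hWa _ h1
      refine ⟨g, hg, ?_⟩
      rw [← sub_add_sub_cancel _ (T (aeval θ g))]
      refine dvd_add (X_pow_dvd_iff.2 fun l hl => ?_) (haev g)
      rw [coeff_sub, sub_eq_zero, h2 l hl, hg]
  have hcl := fd_closed E hEc ht h1 (Subalgebra.toSubmodule W.toSubalgebra)
  refine ⟨?_, fun c hc h0 => ?_, fun z x J hz hx hJ => ?_⟩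
  · choose c hc hb using fun l => fd_bound E hEc ht h1 (Subalgebra.toSubmodule W.toSubalgebra)
      ((lcoeff F l).restrictScalars E ∘ₗ T)
    have hs : 0 ≤ ∑ l ∈ range N, c l := sum_nonneg fun l _ => (hc l).le
    refine ⟨1 + ∑ l ∈ range N, c l, by positivity, fun z hz l hl => ?_⟩
    obtain ⟨h2, h3⟩ := (hiff z).1 hz
    rw [h3 l hl]
    refine (hb l _ h2).trans (mul_le_mul_of_nonneg_right ?_ (norm_nonneg _))
    have := single_le_sum (fun l _ => (hc l).le) (mem_range.2 hl)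
    linarith
  · have hm := inv_mem (sub_mem (hEW c hc) hθW)
    have hr : ((c - θ)⁻¹, T (c - θ)⁻¹) ∈ Rel E θ N := (hiff _).2 ⟨hm, fun _ _ => rfl⟩
    refine ⟨_, hr, fun l hl => geo h0 (X_pow_dvd_iff.2 fun j hj => ?_) hl⟩
    have h2 := ((hiff _).1 (sub_mem (mul_mem hr (sub_mem (rel_C θ N hc) (rel_X E θ N)))
      (one_mem _))).2 j hj
    simp only [Prod.snd_sub, Prod.snd_mul, Prod.snd_one, Prod.fst_sub, Prod.fst_mul, Prod.fst_one,
      inv_mul_cancel₀ h0, sub_self, map_zero, coeff_zero] at h2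
    rw [← h2, C_sub]
    congr 1
    ring
  · have hW : ∀ n, (z n).1 ∈ W := fun n => ((hiff _).1 (hz n)).1
    have hm : x ∈ W := hcl.1.mem_of_tendsto hx (Eventually.of_forall hW)
    refine (hiff _).2 ⟨hm, fun l hl => tendsto_nhds_unique (hJ l hl) ?_⟩
    exact ((hcl.2 ((lcoeff F l).restrictScalars E ∘ₗ T) _ hm).tendsto.comp
      (tendsto_nhdsWithin_iff.2 ⟨hx, Eventually.of_forall hW⟩)).congr fun n =>
        (((hiff _).1 (hz n)).2 l hl).symm

end

variable {k F : Type} [Field k] [Fintype k] [NormedField F] [IsUltrametricDist F]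
  [CompleteSpace F] [Algebra k F]

omit [IsUltrametricDist F] in
lemma iter_closed (p : ℕ) [Fact p.Prime] [CharP F p] (K : Subfield F)
    (hc : IsClosed (K : Set F)) (n : ℕ) : IsClosed (K.map (iterateFrobenius F p n) : Set F) := by
  induction n with
  | zero => simpa [iterateFrobenius_zero] using hc
  | succ n ih =>
    have := frob_closed p _ ih
    rwa [Subfield.map_map, ← iterateFrobenius_one, ← iterateFrobenius_add, add_comm] at this

/-- The Taylor map is bounded, and sends the values of the generating functions to their jets. -/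
theorem tau0 {θ : F} (hθ : 1 < ‖θ‖) (S : Finset F) (hS : ∀ s ∈ S, IsAlgebraic (Kinf k θ) s) :
    ∃ (e1 : ℕ) (W : Subfield F), θ ∈ W ∧ (∀ c, algebraMap k F c ∈ W) ∧ IsClosed (W : Set F) ∧
      (∀ s ∈ S, s ^ Fintype.card k ^ e1 ∈ W) ∧ ∀ a, 1 ≤ a → ∃ (E : Subfield F) (CT : ℝ),
        0 < CT ∧ (∀ w ∈ W, w ^ Fintype.card k ^ a ∈ E) ∧ (∀ c, algebraMap k F c ∈ E) ∧
        (∀ z ∈ Rel E θ (Fintype.card k ^ a), ∀ l < Fintype.card k ^ a,
          ‖z.2.coeff l‖ ≤ CT * ‖z.1‖) ∧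
        ∀ v, v ^ Fintype.card k ^ e1 ∈ W → ∀ J : F[X],
          (∀ l < Fintype.card k ^ a, J.coeff l = Q2.psi (Fintype.card k) θ v l (e1 + a) 0) →
          (phi (Fintype.card k) θ v (e1 + a) 0, J) ∈ Rel E θ (Fintype.card k ^ a) := by
  classical
  obtain ⟨p, hpk, f, hp, hq⟩ := FiniteField.card' k
  have := Fact.mk hp
  have : CharP F p := charP_of_injective_algebraMap (algebraMap k F).injective p
  obtain ⟨e, E0, W0, D, hD, hE0⟩ := der (k := k) hθ S hS
  refine ⟨e, W0, hD.th, fun c => hD.le (hD.hk c), hD.cl, fun s hs => hD.le (hE0 s hs),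
    fun a ha => ?_⟩
  set E := W0.map (iterateFrobenius F p (f * a)) with hE
  have hEc : IsClosed (E : Set F) := iter_closed p _ hD.cl _
  have hEp : ∀ w ∈ W0, w ^ Fintype.card k ^ a ∈ E := fun w hw =>
    ⟨w, hw, by rw [iterateFrobenius_def, hq, ← pow_mul]⟩
  have hEq : ∀ w ∈ W0, ∀ n, w ^ Fintype.card k ^ (n + a) ∈ E := fun w hw n => by
    rw [pow_add, pow_mul]
    exact hEp _ (pow_mem hw _)
  obtain ⟨n, y, hμ⟩ := (minpoly.natSepDegree_eq_one_iff_eq_X_pow_sub_C (F := E) (x := θ) p).1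
    ((minpoly.natSepDegree_eq_one_iff_pow_mem p).2
      ⟨f * a, ⟨_, ⟨θ, hD.th, rfl⟩⟩, iterateFrobenius_def _ _ _⟩)
  have hy : (y : F) = θ ^ p ^ n := by
    have := minpoly.aeval E θ
    rw [hμ, map_sub, aeval_X_pow, aeval_C, sub_eq_zero] at this
    exact this.symm
  have hn : f * a ≤ n := by
    by_contra hlt
    obtain ⟨d, hd⟩ := Nat.exists_eq_add_of_lt (not_le.1 hlt)
    obtain ⟨w, hw, h⟩ := y.2
    have h1 : θ = (w ^ p ^ d) ^ p := by
      apply (iterateFrobenius F p n).injective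
      rw [iterateFrobenius_def, iterateFrobenius_def, ← hy, ← h, iterateFrobenius_def, hd,
        ← pow_mul, ← pow_mul]
      congr 1
      ring
    obtain ⟨m, hm⟩ := Nat.exists_eq_add_one_of_ne_zero hp.ne_zero
    have h2 := hD.dpow (pow_mem hw (p ^ d)) m
    rw [← hm, ← h1, hD.d1, CharP.cast_eq_zero F p, zero_mul, zero_mul] at h2
    exact one_ne_zero h2
  have hq0 : Fintype.card k ^ a ≠ 0 := pow_ne_zero _ Fintype.card_ne_zero
  obtain ⟨⟨CT, hC, hb⟩, hinv, hlim⟩ := rel_main E hEc (hEp θ hD.th)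
    (by rw [norm_pow]; exact one_lt_pow₀ hθ hq0) (N := Fintype.card k ^ a) (M := p ^ n)
    (by rw [hq, ← pow_mul]; exact Nat.pow_le_pow_right hp.pos hn) (pow_ne_zero _ hp.ne_zero) y hμ
    (by rw [add_pow_char_pow, ← C_pow, ← hy])
  refine ⟨E, CT, hC, hEp, fun c => ?_, hb, fun v hv J hJ => ?_⟩
  · have := hEp _ (hD.le (hD.hk c))
    rwa [Fr.fix_pow (fix_k c)] at this
  have he : 0 < e + a := by omega
  have a1 : ∀ j, cT (Fintype.card k) θ v (e + a) j ∈ E := fun j => by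
    refine div_mem ?_ (hEq _ (Fr.cD_mem hD.th j) e)
    rw [show j + (e + a) = e + (j + a) by ring, pow_add, pow_mul]
    exact hEq _ hv j
  have a2 : ∀ j, θ ^ Fintype.card k ^ (j + (e + a)) ∈ E := fun j => by
    rw [← add_assoc]; exact hEq θ hD.th _
  have a3 : ∀ j, θ ^ Fintype.card k ^ (j + (e + a)) - θ ≠ 0 := fun j => by
    simpa using (fr k F).sub_ne hθ (show 0 < j + (e + a) by omega)
  choose g hg hgc using fun j => hinv _ (a2 j) (a3 j)
  refine hlim (fun n => ∑ j ∈ range n, (cT (Fintype.card k) θ v (e + a) j,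
      C (cT (Fintype.card k) θ v (e + a) j)) *
      ((θ ^ Fintype.card k ^ (j + (e + a)) - θ)⁻¹, g j)) _ _
    (fun n => sum_mem fun j _ => mul_mem (rel_C _ _ (a1 j)) (hg j)) ?_ fun l hl => ?_
  · refine ((fr k F).hs_phi hθ v he).tendsto_sum_nat.congr fun n => ?_
    simp only [Prod.fst_sum, Prod.fst_mul, pow_zero, pow_one, div_eq_mul_inv]
  · rw [hJ l hl]
    refine (Q2.hs_psi (fr k F) hθ v l he).tendsto_sum_nat.congr fun n => ?_
    simp only [Prod.snd_sum, Prod.snd_mul, pow_zero, pow_one, div_eq_mul_inv, finsetSum_coeff,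
      coeff_C_mul, hgc _ l hl]

section
omit [IsUltrametricDist F] [CompleteSpace F] [Fintype k]

/-- Sums of monomials. -/
lemma rel_sum {E : Subfield F} (θ : F) (N : ℕ) {ι κ : Type} [Fintype ι] (s : Finset κ)
    (G : κ → F[X]) (α : κ → ι → ℕ) (y : ι → F) (J : ι → F[X])
    (hG : ∀ b ∈ s, ∀ i, (G b).coeff i ∈ E) (hy : ∀ l, (y l, J l) ∈ Rel E θ N) :
    (∑ b ∈ s, (G b).eval θ * ∏ l, y l ^ α b l, ∑ b ∈ s, taylor θ (G b) * ∏ l, J l ^ α b l) ∈
      Rel E θ N := by
  have : (∑ b ∈ s, (G b).eval θ * ∏ l, y l ^ α b l, ∑ b ∈ s, taylor θ (G b) * ∏ l, J l ^ α b l) =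
      ∑ b ∈ s, ((G b).eval θ, taylor θ (G b)) * ∏ l, (y l, J l) ^ α b l := by
    ext1
    · simp [Prod.fst_sum, Prod.fst_prod]
    · simp [Prod.snd_sum, Prod.snd_prod]
  rw [this]
  exact sum_mem fun b hb => mul_mem (rel_poly θ N (hG b hb))
    (prod_mem fun l _ => pow_mem (hy l) _)

/-- A polynomial of low degree is determined by its value. -/
lemma rel_inj {E : Subfield F} {θ : F} {N : ℕ} {CT : ℝ}
    (hb : ∀ z ∈ Rel E θ N, ∀ l < N, ‖z.2.coeff l‖ ≤ CT * ‖z.1‖) {p : F[X]}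
    (hp : ∀ i, p.coeff i ∈ E) (hd : p.degree < N) (h0 : p.eval θ = 0) : p = 0 := by
  refine taylor_injective θ ?_
  rw [map_zero]
  ext l
  rcases lt_or_ge l N with hl | hl
  · simpa [h0] using hb _ (rel_poly θ N hp) l hl
  · refine coeff_eq_zero_of_degree_lt ?_
    rw [degree_taylor]
    exact hd.trans_le (by exact_mod_cast hl)

/-- Powers of a module of polynomials with coefficients in `E`. -/
lemma pw_coeff {E : Subfield F} (hk : ∀ c, algebraMap k F c ∈ E) {V : Submodule k F[X]}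
    (h : ∀ p ∈ V, ∀ i, p.coeff i ∈ E) (H : ℕ) : ∀ p ∈ V ^ H, ∀ i, p.coeff i ∈ E := by
  intro p hp
  induction hp using Submodule.pow_induction_on_left' with
  | algebraMap r =>
    intro i
    rw [Polynomial.algebraMap_apply, coeff_C]
    split_ifs
    exacts [hk r, zero_mem _]
  | add x y _ _ _ hx hy => exact fun i => by rw [coeff_add]; exact add_mem (hx i) (hy i)
  | mem_mul m hm _ x _ hx =>
    intro i
    rw [coeff_mul]
    exact sum_mem fun c _ => mul_mem (h m hm _) (hx _)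

/-- The span of polynomials with coefficients in `E`. -/
lemma span_coeff {E : Subfield F} (hk : ∀ c, algebraMap k F c ∈ E) {s : Set F[X]}
    (h : ∀ p ∈ s, ∀ i, p.coeff i ∈ E) : ∀ p ∈ Submodule.span k s, ∀ i, p.coeff i ∈ E := by
  intro p hp
  induction hp using Submodule.span_induction with
  | mem x hx => exact h x hx
  | zero => exact fun i => zero_mem _
  | add x y _ _ hx hy => exact fun i => by rw [coeff_add]; exact add_mem (hx i) (hy i)
  | smul c x _ hx =>
    exact fun i => by rw [coeff_smul, Algebra.smul_def]; exact mul_mem (hk c) (hx i)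

end

end Pool.Agent.CSU.SA.Tau

namespace Pool.Agent.CSU.SA

open Polynomial

theorem tau : TauS := by
  intro k F _ _ _ _ _ _ θ S hθ hS
  obtain ⟨e, W, h1, h2, h3, h4, h5⟩ := Tau.tau0 (k := k) hθ S hS
  refine ⟨e, W, h3, h1, h2, h4, fun a => ?_⟩
  rcases Nat.eq_zero_or_pos a with rfl | ha
  · refine ⟨1, fun p _ l hl => ?_⟩
    obtain rfl : l = 0 := by simpa using hl
    rw [taylor_coeff_zero, one_mul]
  · obtain ⟨E, CT, -, hE, -, hb, -⟩ := h5 a ha
    refine ⟨CT, fun p hp l hl => hb _ (Tau.rel_poly θ _ fun i => ?_) l hl⟩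
    obtain ⟨w, hw, h⟩ := hp i
    exact h ▸ hE w hw

/-- A polynomial of low degree is determined by its value. -/
theorem Tau.eq_zero {F : Type} [NormedField F] {μ : ℕ} {θ : F} {W : Subfield F} {CT : ℝ}
    (h : Tau μ θ W CT) {p : F[X]} (hp : ∀ i, ∃ w ∈ W, p.coeff i = w ^ μ) (hd : p.degree < μ)
    (h0 : p.eval θ = 0) : p = 0 := by
  refine taylor_injective θ ?_
  rw [map_zero]
  ext l
  rcases lt_or_ge l μ with hl | hl
  · simpa [h0] using h p hp l hl
  · refine coeff_eq_zero_of_degree_lt ?_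
    rw [degree_taylor]
    exact hd.trans_le (by exact_mod_cast hl)

end Pool.Agent.CSU.SA
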