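import Mathlib

/-! Towers are algebraically independent as soon as the Schanuel property holds. -/

namespace Pool.Agent.CSU.SA

theorem tower_of {K F : Type} [Field K] [Field F] [Algebra K F] (e : F → F)
    (H : ∀ (n : ℕ) (u : Fin n → F), LinearIndependent K u →
      ∃ s : Fin n → F, (∀ j, s j ∈ Set.range u ∪ Set.range fun i => e (u i)) ∧
        AlgebraicIndependent K s)
    {a : F} (h0 : a ≠ 0) (ha : IsAlgebraic K a) (N : ℕ) :
    AlgebraicIndependent K fun i : Fin N => e^[i + 1] a := by
  induction N with
  | zero => exact algebraicIndependent_empty_type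
  | succ N ih =>
    have hl : LinearIndependent K fun i : Fin (N + 1) => e^[i] a := by
      classical
      refine Fintype.linearIndependent_iff.2 fun g hg => ?_
      let a' : algebraicClosure K F := ⟨a, (mem_algebraicClosure_iff).2 ha⟩
      have h1 := (ih.extendScalars (algebraicClosure K F)).eq_zero_of_aeval_eq_zero
        (MvPolynomial.C (g 0 • a') + ∑ i : Fin N,
          MvPolynomial.monomial (Finsupp.single i 1) (algebraMap K _ (g i.succ))) (by
          rw [Fin.sum_univ_succ] at hg
          rw [← hg, map_add, map_sum, MvPolynomial.aeval_C]
          congr 1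
          refine Finset.sum_congr rfl fun i _ => ?_
          rw [MvPolynomial.aeval_monomial, Finsupp.prod_single_index (by simp), pow_one,
            ← IsScalarTower.algebraMap_apply, Algebra.smul_def]
          rfl)
      intro i
      rcases Fin.eq_zero_or_eq_succ i with rfl | ⟨i, rfl⟩
      · have := congrArg (MvPolynomial.coeff 0) h1
        simp only [MvPolynomial.coeff_add, MvPolynomial.coeff_zero_C, MvPolynomial.coeff_sum,
          MvPolynomial.coeff_monomial, Finsupp.single_eq_zero, one_ne_zero, if_false,
          Finset.sum_const_zero, add_zero, MvPolynomial.coeff_zero, smul_eq_zero] at this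
        exact this.resolve_right fun h => h0 (congrArg Subtype.val h)
      · have := congrArg (MvPolynomial.coeff (Finsupp.single i 1)) h1
        simpa [MvPolynomial.coeff_sum, MvPolynomial.coeff_monomial, MvPolynomial.coeff_C,
          Finsupp.single_left_inj, eq_comm (a := (0 : Fin N →₀ ℕ))] using this
    obtain ⟨s, hs, hi⟩ := H _ _ hl
    have hm : ∀ j, ∃ i : Fin (N + 1), s j = e^[i + 1] a := fun j => by
      rcases hs j with ⟨i, h⟩ | ⟨i, h⟩
      · rcases Fin.eq_zero_or_eq_succ i with rfl | ⟨i, rfl⟩
        · exact absurd (h ▸ ha) (hi.transcendental j)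
        · exact ⟨i.castSucc, h.symm⟩
      · exact ⟨i, by rw [← h, Function.iterate_succ_apply']⟩
    choose f hf using hm
    have hinj : Function.Injective f := fun i j h => hi.injective (by rw [hf, hf, h])
    have hb := Finite.injective_iff_bijective.1 hinj
    have := hi.comp _ (Equiv.ofBijective f hb).symm.injective
    convert this using 1
    funext i
    rw [Function.comp_apply, hf, Equiv.ofBijective_apply_symm_apply f hb]

end Pool.Agent.CSU.SA
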