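import Pool.Agent.Lib.MP_0370b2_nt.SA.St

/-! Towers of Carlitz exponentials at an algebraic point. -/

namespace Pool.Agent.CSU.SA

lemma tower_li {K F : Type} [Field K] [Field F] [Algebra K F] {N : ℕ} {a : F} (h0 : a ≠ 0)
    (ha : IsAlgebraic K a) {x : Fin N → F} (hx : AlgebraicIndependent K x) :
    LinearIndependent K (Fin.cons a x : Fin (N + 1) → F) := by
  classical
  refine LinearIndependent.finCons hx.linearIndependent fun h => ?_
  obtain ⟨c, hc⟩ := (Submodule.mem_span_range_iff_exists_fun _).1 h
  obtain ⟨i, hi⟩ : ∃ i, c i ≠ 0 := by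
    by_contra h1
    push Not at h1
    exact h0 (by simpa [h1] using hc.symm)
  have h1 : IsAlgebraic (Algebra.adjoin K (x '' {i}ᶜ)) (x i) := by
    have e : x i = (c i)⁻¹ • (a - ∑ j ∈ Finset.univ.erase i, c j • x j) := by
      rw [← hc, ← Finset.add_sum_erase _ _ (Finset.mem_univ i), add_sub_cancel_right,
        inv_smul_smul₀ hi]
    rw [e, Algebra.smul_def]
    have m : ∑ j ∈ Finset.univ.erase i, c j • x j ∈ Algebra.adjoin K (x '' {i}ᶜ) :=
      sum_mem fun j hj => Subalgebra.smul_mem _
        (Algebra.subset_adjoin (Set.mem_image_of_mem x (Finset.mem_erase.1 hj).1)) _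
    exact (isAlgebraic_algebraMap (⟨_, Subalgebra.algebraMap_mem _ _⟩ :
      Algebra.adjoin K (x '' {i}ᶜ))).mul ((ha.extendScalars
        (FaithfulSMul.algebraMap_injective _ _)).sub (isAlgebraic_algebraMap (⟨_, m⟩ :
          Algebra.adjoin K (x '' {i}ᶜ))))
  exact hx.transcendental_adjoin (by simp) h1

/-- The iterated exponentials of a non-zero algebraic point are algebraically independent. -/
theorem tower (hS : FullS) (k F : Type) [Field k] [Fintype k] [NormedField F] [IsUltrametricDist F]
    [CompleteSpace F] [IsAlgClosed F] [Algebra k F] (θ a : F) (hθ : 1 < ‖θ‖) (h0 : a ≠ 0)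
    (ha : IsAlgebraic (IntermediateField.adjoin k {θ}) a) (N : ℕ) :
    AlgebraicIndependent (IntermediateField.adjoin k {θ})
      fun i : Fin N => (cE (Fintype.card k) θ)^[i + 1] a := by
  induction N with
  | zero => exact algebraicIndependent_empty_type
  | succ N ih =>
    obtain ⟨s, hs, hi⟩ := hS k F (N + 1) θ _ hθ (tower_li h0 ha ih)
    have h1 : ∀ j, ∃ i : Fin (N + 1), (cE (Fintype.card k) θ)^[i + 1] a = s j := fun j => by
      rcases hs j with ⟨i, h⟩ | ⟨i, h⟩
      · induction i using Fin.cases with
        | zero => exact absurd (h ▸ ha) (hi.transcendental j)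
        | succ i => exact ⟨i.castSucc, h⟩
      · refine ⟨i, ?_⟩
        rw [← h, Function.iterate_succ_apply']
        induction i using Fin.cases <;> rfl
    choose σ hσ using h1
    have hb : Function.Bijective σ := Finite.injective_iff_bijective.1 fun i j h =>
      hi.injective (by rw [← hσ, ← hσ, h])
    exact (algebraicIndependent_equiv' (Equiv.ofBijective σ hb)
      (f := fun i : Fin (N + 1) => (cE (Fintype.card k) θ)^[i + 1] a) (funext hσ)).1 hi

end Pool.Agent.CSU.SA
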