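import Mathlib

/-! Evaluation of power series with bounded coefficients, and generic points. -/

namespace Pool.Agent.CSU.WN

open PowerSeries Finset Filter Topology

variable {F : Type} [NormedField F] [IsUltrametricDist F] [CompleteSpace F] {S : Type}
  [CommRing S] {w : F}

omit [IsUltrametricDist F] [CompleteSpace F] in
lemma tm_le (φ : S →+* F) (hφ : ∀ s, ‖φ s‖ ≤ 1) (s : S) (j : ℕ) : ‖φ s * w ^ j‖ ≤ ‖w‖ ^ j := by
  rw [norm_mul, norm_pow]
  exact mul_le_of_le_one_left (by positivity) (hφ s)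

omit [IsUltrametricDist F] [CompleteSpace F] in
lemma summ (hw : ‖w‖ < 1) (φ : S →+* F) (hφ : ∀ s, ‖φ s‖ ≤ 1) (f : S⟦X⟧) :
    Summable fun j => ‖φ (coeff j f) * w ^ j‖ :=
  (summable_geometric_of_lt_one (norm_nonneg w) hw).of_nonneg_of_le (fun _ => norm_nonneg _)
    fun j => tm_le φ hφ _ j

/-- Evaluation of a power series at `w`, the coefficients being mapped by `φ`. -/
noncomputable def ev (hw : ‖w‖ < 1) (φ : S →+* F) (hφ : ∀ s, ‖φ s‖ ≤ 1) : S⟦X⟧ →+* F where
  toFun f := ∑' j, φ (coeff j f) * w ^ j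
  map_one' := by
    rw [tsum_eq_single 0]
    · simp
    · intro j hj; simp [coeff_one, hj]
  map_mul' f g := by
    rw [tsum_mul_tsum_eq_tsum_sum_antidiagonal_of_summable_norm (summ hw φ hφ f) (summ hw φ hφ g)]
    refine tsum_congr fun n => ?_
    rw [coeff_mul, map_sum, sum_mul]
    refine sum_congr rfl fun x hx => ?_
    rw [← HasAntidiagonal.mem_antidiagonal.1 hx, map_mul, pow_add]
    ring
  map_zero' := by simp
  map_add' f g := by
    rw [← (summ hw φ hφ f).of_norm.tsum_add (summ hw φ hφ g).of_norm]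
    simp [add_mul]

section
variable (hw : ‖w‖ < 1) (φ : S →+* F) (hφ : ∀ s, ‖φ s‖ ≤ 1)

lemma hs_ev (f : S⟦X⟧) : HasSum (fun j => φ (coeff j f) * w ^ j) (ev hw φ hφ f) :=
  (summ hw φ hφ f).of_norm.hasSum

lemma ev_le (f : S⟦X⟧) : ‖ev hw φ hφ f‖ ≤ 1 :=
  IsUltrametricDist.norm_tsum_le_of_forall_le_of_nonneg zero_le_one fun j =>
    (tm_le φ hφ _ j).trans (pow_le_one₀ (norm_nonneg _) hw.le)

lemma ev_C (s : S) : ev hw φ hφ (C s) = φ s := by
  change ∑' j, φ (coeff j (C s)) * w ^ j = _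
  rw [tsum_eq_single 0]
  · simp
  · intro j hj; simp [coeff_C, hj]

lemma ev_X : ev hw φ hφ X = w := by
  change ∑' j, φ (coeff j X) * w ^ j = _
  rw [tsum_eq_single 1]
  · simp
  · intro j hj; simp [coeff_X, hj]

lemma ev_map {T : Type} [CommRing T] (G : T →+* S) (f : T⟦X⟧) :
    ev hw φ hφ (map G f) = ev hw (φ.comp G) (fun _ => hφ _) f := rfl

lemma ev_mem (W : Subfield F) (hW : IsClosed (W : Set F)) (h1 : w ∈ W) (h2 : ∀ s, φ s ∈ W)
    (f : S⟦X⟧) : ev hw φ hφ f ∈ W :=
  hW.mem_of_tendsto (hs_ev hw φ hφ f).tendsto_sum_nat (Eventually.of_forall fun _ =>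
    W.sum_mem fun _ _ => W.mul_mem (h2 _) (W.pow_mem h1 _))

end

omit [IsUltrametricDist F] [CompleteSpace F] in
lemma zero_of_le (hw : ‖w‖ < 1) {x : F} {c : ℝ} (h : ∀ j, ‖x‖ ≤ c * ‖w‖ ^ j) : x = 0 := by
  have := (tendsto_pow_atTop_nhds_zero_of_lt_one (norm_nonneg w) hw).const_mul c
  rw [mul_zero] at this
  exact norm_le_zero_iff.1 (ge_of_tendsto' this h)

lemma uniq (hw : ‖w‖ < 1) (φ : S →+* F) (hφ : ∀ s, ‖φ s‖ ≤ 1) (χ : S⟦X⟧ →+* F)
    (h1 : ∀ f, ‖χ f‖ ≤ 1) (h2 : χ X = w) (h3 : ∀ s, χ (C s) = φ s) (f : S⟦X⟧) :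
    χ f = ev hw φ hφ f := by
  have key : ∀ j, ∀ f, ‖χ f - ev hw φ hφ f‖ ≤ 1 * ‖w‖ ^ j := by
    intro j
    induction j with
    | zero =>
      intro f
      rw [sub_eq_add_neg, pow_zero, mul_one]
      exact (IsUltrametricDist.norm_add_le_max _ _).trans
        (max_le (h1 f) (by rw [norm_neg]; exact ev_le hw φ hφ f))
    | succ j ih =>
      intro f
      rw [eq_X_mul_shift_add_const f]
      simp only [map_add, map_mul, h2, h3, ev_X, ev_C]
      rw [add_sub_add_right_eq_sub, ← mul_sub, norm_mul, pow_succ', mul_left_comm]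
      exact mul_le_mul_of_nonneg_left (ih _) (norm_nonneg _)
  exact sub_eq_zero.1 (zero_of_le hw fun j => key j f)

lemma ex_sum (hw : ‖w‖ < 1) (f : ℕ → S⟦X⟧) : ∃ g : S⟦X⟧, ∀ (φ : S →+* F)
    (hφ : ∀ s, ‖φ s‖ ≤ 1), HasSum (fun l => w ^ l * ev hw φ hφ (f l)) (ev hw φ hφ g) := by
  refine ⟨mk fun j => coeff j (∑ l ∈ range (j + 1), X ^ l * f l), fun φ hφ => ?_⟩
  set g : S⟦X⟧ := mk fun j => coeff j (∑ l ∈ range (j + 1), X ^ l * f l)
  have h1 : ∀ L, X ^ L ∣ g - ∑ l ∈ range L, X ^ l * f l := fun L => by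
    refine X_pow_dvd_iff.2 fun j hj => ?_
    obtain ⟨i, rfl⟩ := Nat.exists_eq_add_of_le (Nat.succ_le_of_lt hj)
    rw [map_sub, coeff_mk, Nat.succ_eq_add_one, sum_range_add _ (j + 1), map_add,
      sub_add_cancel_left, map_sum, neg_eq_zero]
    exact sum_eq_zero fun l _ => by rw [coeff_X_pow_mul', if_neg (by omega)]
  have h2 : Summable fun l => w ^ l * ev hw φ hφ (f l) := by
    refine Summable.of_norm ((summable_geometric_of_lt_one (norm_nonneg w) hw).of_nonneg_of_le
      (fun _ => norm_nonneg _) fun l => ?_)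
    rw [norm_mul, norm_pow]
    exact mul_le_of_le_one_right (by positivity) (ev_le hw φ hφ _)
  refine h2.hasSum_iff_tendsto_nat.2 (tendsto_iff_norm_sub_tendsto_zero.2 (squeeze_zero
    (fun _ => norm_nonneg _) (fun L => ?_)
    (tendsto_pow_atTop_nhds_zero_of_lt_one (norm_nonneg w) hw)))
  obtain ⟨r, hr⟩ := h1 L
  have h3 := congrArg (ev hw φ hφ) hr
  simp only [map_sub, map_sum, map_mul, map_pow, ev_X] at h3
  rw [norm_sub_rev, h3, norm_mul, norm_pow]
  exact mul_le_of_le_one_right (by positivity) (ev_le hw φ hφ _)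

/-- Injectivity is decided on the constant coefficients. -/
lemma ev_inj (hw : ‖w‖ < 1) (h0 : w ≠ 0) (φ : S →+* F) (hφ : ∀ s, ‖φ s‖ ≤ 1)
    (h : ∀ s f, φ s = w * ev hw φ hφ f → s = 0) : Function.Injective (ev hw φ hφ) := by
  refine (injective_iff_map_eq_zero _).2 fun f hf => ?_
  rw [← X_pow_order_mul_divXPowOrder (f := f), map_mul, map_pow, ev_X] at hf
  have h1 := (mul_eq_zero.1 hf).resolve_left (pow_ne_zero _ h0)
  rw [eq_X_mul_shift_add_const (divXPowOrder f), map_add, map_mul, ev_X, ev_C] at h1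
  refine constantCoeff_divXPowOrder_eq_zero_iff.1 (h _ (-mk fun p => coeff (p + 1)
    (divXPowOrder f)) ?_)
  rw [map_neg]
  linear_combination h1

section Strass

open Polynomial

omit [IsUltrametricDist F] [CompleteSpace F] in
lemma lam_bd (B : Subring F) [DecidableEq B] (s : Finset B) (x : B) (P : B[X]) : ∃ b : B,
    ((P.eval x : B) : F) - ∑ a ∈ s, ((P.eval a : B) : F) *
      (Lagrange.basis s (fun a : B => (a : F)) a).eval (x : F) = b ∧
      (P.degree < s.card → b = 0) := by
  have h0 : ∀ R : B[X], R.degree < s.card → ((R.eval x : B) : F) = ∑ a ∈ s,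
      ((R.eval a : B) : F) * (Lagrange.basis s (fun a : B => (a : F)) a).eval (x : F) := by
    intro R hR
    have h1 := Lagrange.eq_interpolate (s := s) (v := fun a : B => (a : F))
      (f := R.map B.subtype) (Subtype.val_injective.injOn) (degree_map_le.trans_lt hR)
    have h2 : ∀ a : B, (R.map B.subtype).eval (a : F) = ((R.eval a : B) : F) := fun a =>
      eval_map_apply (p := R) B.subtype a
    rw [← h2, h1, Lagrange.interpolate_apply, eval_finsetSum]
    simp only [eval_mul, eval_C, h2]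
  let M : B[X] := ∏ a ∈ s, (Polynomial.X - Polynomial.C a)
  have hM : M.Monic := monic_prod_of_monic _ _ fun a _ => monic_X_sub_C a
  have hd : M.degree = s.card := by
    rw [degree_prod_of_monic _ _ fun a _ => monic_X_sub_C a]
    simp
  refine ⟨M.eval x * (P /ₘ M).eval x, ?_, fun hP => ?_⟩
  · have h1 := h0 (P %ₘ M) (hd ▸ degree_modByMonic_lt P hM)
    have h2 : ∀ a, P.eval a = (P %ₘ M).eval a + M.eval a * (P /ₘ M).eval a := fun a => by
      conv_lhs => rw [← modByMonic_add_div P M]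
      rw [eval_add, eval_mul]
    have h3 : ∀ a ∈ s, P.eval a = (P %ₘ M).eval a := fun a ha => by
      rw [h2, eval_prod, prod_eq_zero ha (by simp), zero_mul, add_zero]
    rw [sum_congr rfl fun a ha => by rw [h3 a ha], ← h1, h2 x]
    push_cast
    ring
  · rw [(divByMonic_eq_zero_iff hM).2 (hd ▸ hP), eval_zero, mul_zero]

end Strass

variable {k : Type} [Field k] [Algebra k F]

/-- The unit ball. -/
def ball (hk : ∀ c : k, ‖algebraMap k F c‖ ≤ 1) : Subalgebra k F where
  carrier := {x | ‖x‖ ≤ 1}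
  mul_mem' := fun ha hb => by
    change ‖_ * _‖ ≤ 1
    rw [norm_mul]
    exact mul_le_one₀ ha (norm_nonneg _) hb
  add_mem' := fun ha hb => (IsUltrametricDist.norm_add_le_max _ _).trans (max_le ha hb)
  algebraMap_mem' := hk

variable {σ : Type} {hk : ∀ c : k, ‖algebraMap k F c‖ ≤ 1}

/-- Evaluation of polynomials at a point of the unit ball. -/
noncomputable def pt (z : σ → ball hk) : MvPolynomial σ k →+* F :=
  (MvPolynomial.aeval fun i => (z i : F)).toRingHom

omit [CompleteSpace F] in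
lemma pt_eq (z : σ → ball hk) (c : MvPolynomial σ k) :
    pt z c = ((MvPolynomial.aeval z c : ball hk) : F) :=
  (MvPolynomial.comp_aeval_apply z (ball hk).val c).symm

omit [CompleteSpace F] in
lemma pt_le (z : σ → ball hk) (c : MvPolynomial σ k) : ‖pt z c‖ ≤ 1 := by
  rw [pt_eq]; exact (MvPolynomial.aeval z c : ball hk).2

/-- Value at `z` of a series in `w` with polynomial coefficients. -/
noncomputable def evz (hw : ‖w‖ < 1) (z : σ → ball hk) : (MvPolynomial σ k)⟦X⟧ →+* F :=
  ev hw (pt z) (pt_le z)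

lemma fin_zero [DecidableEq σ] (hw : ‖w‖ < 1) (z : σ → ball hk) (i : σ)
    (f : (MvPolynomial σ k)⟦X⟧) (hf : evz hw z f ≠ 0) :
    {x : ball hk | evz hw (Function.update z i x) f = 0}.Finite := by
  classical
  by_contra hinf
  obtain ⟨L, hL⟩ := exists_pow_lt_of_lt_one (norm_pos_iff.2 hf) hw
  let P : ℕ → Polynomial (ball hk) := fun j => MvPolynomial.aeval
    (fun l => if l = i then Polynomial.X else Polynomial.C (z l)) (coeff j f)
  have hP : ∀ j x, (P j).eval x = MvPolynomial.aeval (Function.update z i x) (coeff j f) := by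
    intro j x
    have := MvPolynomial.comp_aeval_apply
      (fun l => if l = i then Polynomial.X else Polynomial.C (z l))
      ((Polynomial.aeval x).restrictScalars k : Polynomial (ball hk) →ₐ[k] ball hk) (coeff j f)
    rw [AlgHom.restrictScalars_apply, Polynomial.coe_aeval_eq_eval] at this
    rw [this]
    congr 2
    funext l
    by_cases h : l = i
    · subst h; simp
    · simp [h]
  obtain ⟨s, hs, hc⟩ := Set.Infinite.exists_subset_card_eq hinf
    ((range L).sup (fun j => (P j).natDegree) + 1)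
  let ℓ : ball hk → F := fun a =>
    (Lagrange.basis s (fun a : ball hk => (a : F)) a).eval (z i : F)
  have h1 := (hs_ev hw (pt z) (pt_le z) f).sub (hasSum_sum (s := s) fun a _ =>
    (hs_ev hw (pt (Function.update z i a)) (pt_le _) f).mul_right (ℓ a))
  have h2 : ∑ a ∈ s, ev hw (pt (Function.update z i a)) (pt_le _) f * ℓ a = 0 :=
    sum_eq_zero fun a ha => by rw [show ev hw _ _ f = 0 from hs ha, zero_mul]
  rw [h2, sub_zero] at h1
  refine absurd hL (not_lt.2 ?_)
  change ‖ev hw (pt z) (pt_le z) f‖ ≤ _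
  rw [← h1.tsum_eq]
  refine IsUltrametricDist.norm_tsum_le_of_forall_le_of_nonneg (by positivity) fun j => ?_
  obtain ⟨b, hb, hb0⟩ := lam_bd (ball hk).toSubring s (z i) (P j)
  have h3 : pt z (coeff j f) * w ^ j - ∑ a ∈ s, pt (Function.update z i a) (coeff j f) * w ^ j *
      ℓ a = b * w ^ j := by
    rw [← hb, sub_mul, sum_mul]
    congr 1
    · rw [pt_eq]
      erw [hP, Function.update_eq_self]
    · refine sum_congr rfl fun a _ => ?_
      rw [pt_eq, ← hP, mul_right_comm]
      rfl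
  rw [h3]
  by_cases hj : j < L
  · rw [hb0 ?_]
    · simp
    refine Polynomial.degree_le_natDegree.trans_lt ?_
    erw [hc]
    exact_mod_cast Nat.lt_succ_of_le (le_sup (f := fun j => (P j).natDegree) (mem_range.2 hj))
  · rw [norm_mul, norm_pow]
    exact (mul_le_of_le_one_left (by positivity) b.2).trans
      (pow_le_pow_of_le_one (norm_nonneg _) hw.le (not_lt.1 hj))

lemma generic [Fintype σ] (hw : ‖w‖ < 1) (O : Set (ball hk)) (hO : ¬ O.Countable)
    {ι : Type} [Countable ι] (f : ι → (MvPolynomial σ k)⟦X⟧) (z : σ → ball hk)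
    (hz : ∀ b, evz hw z (f b) ≠ 0) :
    ∃ a : σ → ball hk, (∀ i, a i ∈ O) ∧ ∀ b, evz hw a (f b) ≠ 0 := by
  classical
  have key : ∀ s : Finset σ, ∃ a : σ → ball hk, (∀ i ∈ s, a i ∈ O) ∧
      ∀ b, evz hw a (f b) ≠ 0 := by
    intro s
    induction s using Finset.induction_on with
    | empty => exact ⟨z, by simp, hz⟩
    | insert i s hi ih =>
      obtain ⟨a, ha, hb⟩ := ih
      have h1 : (⋃ b, {x : ball hk | evz hw (Function.update a i x) (f b) = 0}).Countable :=
        Set.countable_iUnion fun b => (fin_zero hw a i (f b) (hb b)).countable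
      obtain ⟨x, hx, hx2⟩ := Set.not_subset.1 fun h => hO (h1.mono h)
      refine ⟨Function.update a i x, fun l hl => ?_, fun b h => hx2 (Set.mem_iUnion.2 ⟨b, h⟩)⟩
      by_cases h : l = i
      · subst h; simpa using hx
      · rw [Function.update_of_ne h]
        exact ha l ((mem_insert.1 hl).resolve_left h)
  obtain ⟨a, ha, hb⟩ := key univ
  exact ⟨a, fun i => ha i (mem_univ i), hb⟩

lemma unc (hw : ‖w‖ < 1) (h0 : w ≠ 0) (W : Subfield F) (hW : IsClosed (W : Set F)) (h1 : w ∈ W)
    (h2 : ∀ c, algebraMap k F c ∈ W) : ¬ {x : ball hk | (x : F) ∈ W}.Countable := by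
  classical
  intro hc
  have hi : Function.Injective (ev hw (algebraMap k F) hk) := ev_inj hw h0 _ hk fun s f h => by
    by_contra hs
    have h3 : ‖algebraMap k F s‖ < 1 := by
      rw [h, norm_mul]
      exact (mul_le_of_le_one_right (norm_nonneg _) (ev_le hw _ hk f)).trans_lt hw
    have h4 := hk s⁻¹
    rw [map_inv₀, norm_inv, inv_le_one₀ (norm_pos_iff.2 ((map_ne_zero _).2 hs))] at h4
    exact absurd h3 (not_lt.2 h4)
  have : Uncountable (Set ℕ) :=
    uncountable_iff_forall_not_surjective.2 fun g => Function.cantor_surjective g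
  let g : Set ℕ → {x : ball hk | (x : F) ∈ W} := fun A =>
    ⟨⟨ev hw (algebraMap k F) hk (mk fun j => if j ∈ A then 1 else 0), ev_le hw _ hk _⟩,
      ev_mem hw _ hk W hW h1 h2 _⟩
  have hg : Function.Injective g := fun A B h => by
    have h3 := hi (congrArg (fun x => ((x : ball hk) : F)) (congrArg Subtype.val h))
    ext j
    have h4 := congrArg (coeff j) h3
    simp only [coeff_mk] at h4
    by_cases ha : j ∈ A <;> by_cases hb : j ∈ B <;> simp_all
  have := hc.to_subtype
  exact not_countable hg.countable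

end Pool.Agent.CSU.WN
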