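import Pool.Agent.Lib.MP_0370b2_nt.SA.WN0

/-! Specialisation of a point of the unit ball to a point algebraic over a closed subfield. -/

namespace Pool.Agent.CSU.WN

open PowerSeries Finset

lemma ext_hom {R A F : Type} [CommRing R] [CommRing A] [IsDomain A] [Algebra R A]
    [Algebra.IsIntegral R A] [Field F] [IsAlgClosed F]
    (hi : Function.Injective (algebraMap R A)) (ρ : R →+* F) :
    ∃ χ : A →+* F, ∀ r, χ (algebraMap R A r) = ρ r := by
  have := RingHom.ker_isPrime ρ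
  obtain ⟨Q, hQ, hc⟩ := Ideal.exists_ideal_over_prime_of_isIntegral_of_isDomain (S := A)
    (RingHom.ker ρ) (by rw [(RingHom.injective_iff_ker_eq_bot _).1 hi]; exact bot_le)
  have : Q.LiesOver (RingHom.ker ρ) := ⟨hc.symm⟩
  let _ : Algebra (R ⧸ RingHom.ker ρ) F := (RingHom.kerLift ρ).toAlgebra
  have : FaithfulSMul (R ⧸ RingHom.ker ρ) F :=
    (faithfulSMul_iff_algebraMap_injective _ _).2 (RingHom.kerLift_injective ρ)
  let g : (A ⧸ Q) →ₐ[R ⧸ RingHom.ker ρ] F := IsAlgClosed.lift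
  exact ⟨g.toRingHom.comp (Ideal.Quotient.mk Q), fun r => g.commutes (Ideal.Quotient.mk _ r)⟩

variable {F : Type} [NormedField F] [IsUltrametricDist F] [CompleteSpace F] {w : F}

omit [IsUltrametricDist F] [CompleteSpace F] in
lemma zero_rec (hw : ‖w‖ < 1) {α : Type} (D : α → F) (nx : α → α) (h1 : ∀ a, ‖D a‖ ≤ 1)
    (h2 : ∀ a, D a = w * D (nx a)) (a : α) : D a = 0 := by
  have key : ∀ j, ∀ a, ‖D a‖ ≤ 1 * ‖w‖ ^ j := by
    intro j
    induction j with
    | zero => simpa using h1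
    | succ j ih =>
      intro a
      rw [h2, norm_mul, pow_succ', mul_left_comm]
      exact mul_le_mul_of_nonneg_left (ih _) (norm_nonneg _)
  exact zero_of_le hw fun j => key j a

/-- Finiteness lifts from the constant coefficients. -/
lemma span_lift (hw : ‖w‖ < 1) {S T ι : Type} [CommRing S] [CommRing T] [Fintype ι]
    (φ : S →+* F) (hφ : ∀ s, ‖φ s‖ ≤ 1) (ψ : T →+* F) (hψ : ∀ s, ‖ψ s‖ ≤ 1) (μ : ι → F)
    (hμ : ∀ i, ‖μ i‖ ≤ 1)
    (h : ∀ s, ∃ (c : ι → T) (g : S⟦X⟧), φ s = ∑ i, ψ (c i) * μ i + w * ev hw φ hφ g)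
    (f : S⟦X⟧) : ∃ c : ι → T⟦X⟧, ev hw φ hφ f = ∑ i, ev hw ψ hψ (c i) * μ i := by
  have h1 : ∀ f : S⟦X⟧, ∃ (c : ι → T) (g : S⟦X⟧),
      ev hw φ hφ f = ∑ i, ψ (c i) * μ i + w * ev hw φ hφ g := fun f => by
    obtain ⟨c, g, hc⟩ := h (constantCoeff f)
    refine ⟨c, g + mk fun p => coeff (p + 1) f, ?_⟩
    conv_lhs => rw [eq_X_mul_shift_add_const f]
    rw [map_add, map_add, map_mul, ev_X, ev_C, hc]
    ring
  choose c nx hc using h1
  refine ⟨fun i => mk fun j => c (nx^[j] f) i, sub_eq_zero.1 (zero_rec hw (fun f => ev hw φ hφ f -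
    ∑ i, ev hw ψ hψ (mk fun j => c (nx^[j] f) i) * μ i) nx (fun f => ?_) (fun f => ?_) f)⟩
  · rw [sub_eq_add_neg]
    refine (IsUltrametricDist.norm_add_le_max _ _).trans (max_le (ev_le hw φ hφ f) ?_)
    rw [norm_neg]
    refine IsUltrametricDist.norm_sum_le_of_forall_le_of_nonneg zero_le_one fun i _ => ?_
    rw [norm_mul]
    exact mul_le_one₀ (ev_le hw ψ hψ _) (norm_nonneg _) (hμ i)
  · have h2 : ∀ i, ev hw ψ hψ (mk fun j => c (nx^[j] f) i) =
        w * ev hw ψ hψ (mk fun j => c (nx^[j] (nx f)) i) + ψ (c f i) := fun i => by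
      rw [eq_X_mul_shift_add_const (mk fun j => c (nx^[j] f) i), map_add, map_mul, ev_X, ev_C]
      simp only [coeff_mk, Function.iterate_succ_apply, constantCoeff_mk, Function.iterate_zero,
        id]
    simp only [h2, add_mul, sum_add_distrib, mul_assoc, ← mul_sum]
    rw [hc f]
    ring

variable {k : Type} [Field k] [Algebra k F] {hk : ∀ c : k, ‖algebraMap k F c‖ ≤ 1}

omit [CompleteSpace F] in
lemma pt_C {σ : Type} (z : σ → ball hk) (c : k) : pt z (MvPolynomial.C c) = algebraMap k F c :=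
  MvPolynomial.aeval_C _ c

omit [CompleteSpace F] in
lemma pt_X {σ : Type} (z : σ → ball hk) (i : σ) : pt z (MvPolynomial.X i) = z i :=
  MvPolynomial.aeval_X _ i

/-- Normalisation. -/
lemma noether (hw : ‖w‖ < 1) (h0 : w ≠ 0) {σ : Type} [Finite σ] (z : σ → ball hk) :
    ∃ (s : ℕ) (y : Fin s → ball hk) (r : ℕ) (m : Fin r → MvPolynomial σ k),
      Function.Injective (evz hw y) ∧ (∀ c, ∃ g, evz hw y c = evz hw z g) ∧
      ∀ f, ∃ c : Fin r → (MvPolynomial (Fin s) k)⟦X⟧,
        evz hw z f = ∑ i, evz hw y (c i) * pt z (m i) := by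
  let J : Ideal (MvPolynomial σ k) :=
    { carrier := {s | ∃ g, pt z s = w * evz hw z g}
      add_mem' := by
        rintro a b ⟨g, hg⟩ ⟨g', hg'⟩
        exact ⟨g + g', by rw [map_add, map_add, hg, hg', mul_add]⟩
      zero_mem' := ⟨0, by simp⟩
      smul_mem' := by
        rintro a b ⟨g, hg⟩
        refine ⟨C a * g, ?_⟩
        rw [smul_eq_mul, map_mul, map_mul, hg, evz, ev_C]
        ring }
  have hJ : J ≠ ⊤ := by
    rw [Ideal.ne_top_iff_one]
    rintro ⟨g, hg⟩
    have h1 := congrArg norm hg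
    rw [map_one, norm_one, norm_mul] at h1
    exact absurd ((mul_le_of_le_one_right (norm_nonneg _) (ev_le hw _ (pt_le z) g)).trans_lt hw)
      (by rw [evz] at h1; rw [← h1]; exact lt_irrefl _)
  have := Ideal.Quotient.nontrivial_iff.2 hJ
  obtain ⟨s, g, hg, hfin⟩ := exists_finite_inj_algHom_of_fg k (MvPolynomial σ k ⧸ J)
  choose t ht using fun i => Ideal.Quotient.mk_surjective (g (MvPolynomial.X i))
  let G : MvPolynomial (Fin s) k →ₐ[k] MvPolynomial σ k := MvPolynomial.aeval t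
  have hG : ∀ c, Ideal.Quotient.mk J (G c) = g c := fun c =>
    AlgHom.congr_fun (show (Ideal.Quotient.mkₐ k J).comp G = g from
      MvPolynomial.algHom_ext fun i => by simp [G, ht]) c
  let y : Fin s → ball hk := fun i => MvPolynomial.aeval z (t i)
  have hy : (pt z).comp G.toRingHom = pt y := MvPolynomial.ringHom_ext
    (fun c => by simp [G, pt_C]) fun i => by simp [G, pt_eq, y]
  have hy' : ∀ c, pt y c = pt z (G c) := fun c => by rw [← hy]; rfl
  have h1 : ∀ c, evz hw y c = evz hw z (map G.toRingHom c) := fun c => by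
    rw [evz, evz, ev_map]
    congr 2
    exact hy.symm
  let _ := g.toRingHom.toAlgebra
  obtain ⟨r, e, he⟩ := @Module.Finite.exists_fin (MvPolynomial (Fin s) k)
    (MvPolynomial σ k ⧸ J) _ _ Algebra.toModule hfin
  choose m hm using fun i => Ideal.Quotient.mk_surjective (e i)
  refine ⟨s, y, r, m, ev_inj hw h0 _ _ fun c f hc => hg ?_, fun c => ⟨_, h1 c⟩,
    span_lift hw _ (pt_le z) _ (pt_le y) _ (fun i => pt_le z _) fun a => ?_⟩
  · rw [map_zero, ← hG, Ideal.Quotient.eq_zero_iff_mem]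
    exact ⟨map G.toRingHom f, by rw [← hy', ← h1]; exact hc⟩
  · obtain ⟨c, hc⟩ := (Submodule.mem_span_range_iff_exists_fun _).1
      (he ▸ Submodule.mem_top : Ideal.Quotient.mk J a ∈ Submodule.span _ (Set.range e))
    have h2 : a - ∑ i, G (c i) * m i ∈ J := by
      rw [← Ideal.Quotient.eq, ← hc, map_sum]
      exact sum_congr rfl fun i _ => by rw [map_mul, hG, hm]; rfl
    obtain ⟨f, hf⟩ := h2
    refine ⟨c, f, ?_⟩
    rw [map_sub, map_sum, sub_eq_iff_eq_add'] at hf
    simpa only [map_mul, hy', evz] using hf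

theorem spec [IsAlgClosed F] (hw : ‖w‖ < 1) (h0 : w ≠ 0) (W : Subfield F)
    (hW : IsClosed (W : Set F)) (h1 : w ∈ W) (h2 : ∀ c, algebraMap k F c ∈ W) {σ : Type}
    [Finite σ] (z : σ → ball hk) {ι : Type} [Countable ι] (f : ι → (MvPolynomial σ k)⟦X⟧)
    (hf : ∀ b, evz hw z (f b) ≠ 0) :
    ∃ z' : σ → ball hk, (∀ i, IsAlgebraic W (z' i : F)) ∧
      (∀ g, evz hw z g = 0 → evz hw z' g = 0) ∧ ∀ b, evz hw z' (f b) ≠ 0 := by
  obtain ⟨s, y, r, m, hi, hy, hm⟩ := noether hw h0 z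
  let _ := (evz hw y).toAlgebra
  let A : Subalgebra (MvPolynomial (Fin s) k)⟦X⟧ F :=
    { (evz hw z).range with algebraMap_mem' := fun c => (hy c).imp fun _ h => h.symm }
  have hA : A.toSubmodule = Submodule.span _ (Set.range fun i => pt z (m i)) := by
    refine le_antisymm ?_ (Submodule.span_le.2 ?_)
    · rintro _ ⟨g, rfl⟩
      exact (Submodule.mem_span_range_iff_exists_fun _).2 ((hm g).imp fun _ h => h.symm)
    · rintro _ ⟨i, rfl⟩
      exact ⟨C (m i), ev_C hw _ _ _⟩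
  have : Module.Finite (MvPolynomial (Fin s) k)⟦X⟧ A :=
    .of_fg (hA ▸ Submodule.fg_span (Set.finite_range _) : A.toSubmodule.FG)
  let E : (MvPolynomial σ k)⟦X⟧ →+* A := (evz hw z).codRestrict A fun g => ⟨g, rfl⟩
  have hi' : Function.Injective (algebraMap (MvPolynomial (Fin s) k)⟦X⟧ A) := fun a b h =>
    hi (congrArg Subtype.val h)
  have h3 : ∀ b, ∃ n a, n ≠ 0 ∧ algebraMap (MvPolynomial (Fin s) k)⟦X⟧ A n = a * E (f b) := by
    intro b
    obtain ⟨n, hn, hn0⟩ := Submodule.exists_mem_ne_zero_of_ne_bot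
      (Ideal.comap_ne_bot_of_integral_mem (R := (MvPolynomial (Fin s) k)⟦X⟧)
        (I := Ideal.span {E (f b)}) (fun h => hf b (congrArg Subtype.val h))
        (Ideal.mem_span_singleton_self _) (Algebra.IsIntegral.isIntegral _))
    obtain ⟨a, ha⟩ := Ideal.mem_span_singleton'.1 hn
    exact ⟨n, a, hn0, ha.symm⟩
  choose n a hn ha using h3
  have := Fintype.ofFinite σ
  obtain ⟨x, hx, hxn⟩ := generic hw _ (unc hw h0 W hW h1 h2) n y fun b h =>
    hn b (hi (by rw [h, map_zero]))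
  obtain ⟨χ, hχ⟩ := ext_hom hi' (evz hw x)
  have hb : ∀ g, ‖χ (E g)‖ ≤ 1 := fun g =>
    (Valuation.integer.integers (NormedField.valuation (K := F))).mem_of_integral
      (IsIntegral.map_of_comp_eq ((evz hw x).codRestrict (NormedField.valuation (K := F)).integer
        fun c => ev_le hw _ (pt_le x) c) χ (RingHom.ext fun c => (hχ c).symm)
        (Algebra.IsIntegral.isIntegral (E g)))
  have hxW : ∀ c, pt x c ∈ W := fun c => by
    induction c using MvPolynomial.induction_on with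
    | C c => rw [pt_C]; exact h2 c
    | add p q hp hq => rw [map_add]; exact W.add_mem hp hq
    | mul_X p i hp => rw [map_mul, pt_X]; exact W.mul_mem hp (hx i)
  let z' : σ → ball hk := fun i => ⟨χ (E (C (MvPolynomial.X i))), hb _⟩
  have hz : ∀ g, χ (E g) = evz hw z' g := uniq hw _ (pt_le z') (χ.comp E) hb
    (by
      rw [← ev_X hw _ (pt_le x)]
      refine (congrArg χ (Subtype.ext ?_)).trans (hχ X)
      exact (ev_X hw _ (pt_le z)).trans (ev_X hw _ (pt_le y)).symm)
    (RingHom.congr_fun (show (χ.comp E).comp C = pt z' from MvPolynomial.ringHom_ext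
      (fun c => by
        rw [pt_C, ← pt_C x, ← ev_C hw _ (pt_le x)]
        refine (congrArg χ (Subtype.ext ?_)).trans (hχ (C (MvPolynomial.C c)))
        exact ((ev_C hw _ (pt_le z) _).trans (pt_C z c)).trans
          ((ev_C hw _ (pt_le y) _).trans (pt_C y c)).symm)
      fun i => (pt_X z' i).symm))
  refine ⟨z', fun i => (IsIntegral.map_of_comp_eq ((evz hw x).codRestrict W
    (ev_mem hw _ (pt_le x) W hW h1 hxW)) χ (RingHom.ext fun c => (hχ c).symm)
    (Algebra.IsIntegral.isIntegral (E _))).isAlgebraic, fun g hg => ?_, fun b h => hxn b ?_⟩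
  · rw [← hz, show E g = 0 from Subtype.ext hg, map_zero]
  · rw [← hχ, ha, map_mul, hz, h, mul_zero]

end Pool.Agent.CSU.WN
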