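import Pool.Agent.Lib.MP_0370b2_nt.SA.WN

/-! A specialisation that is injective on a countable field. -/

namespace Pool.Agent.CSU.WN

open PowerSeries Finset

variable {F : Type} [NormedField F] [IsUltrametricDist F] [CompleteSpace F] {w : F}
  {k : Type} [Field k] [Algebra k F] {hk : ∀ c : k, ‖algebraMap k F c‖ ≤ 1}

/-- The graph of the extension of `χ` to the localisation at its kernel. -/
def gr {F : Type} [Field F] (B : Subring F) (χ : B →+* F) : Subring (F × F) where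
  carrier := {p | ∃ d g : B, χ d ≠ 0 ∧ p.1 * d = g ∧ p.2 * χ d = χ g}
  mul_mem' := by
    rintro a b ⟨d, g, hd, h1, h2⟩ ⟨d', g', hd', h1', h2'⟩
    refine ⟨d * d', g * g', by rw [map_mul]; exact mul_ne_zero hd hd', ?_, ?_⟩
    · rw [Subring.coe_mul, Subring.coe_mul, ← h1, ← h1', Prod.fst_mul]; ring
    · rw [map_mul, map_mul, ← h2, ← h2', Prod.snd_mul]; ring
  one_mem' := ⟨1, 1, by simp⟩
  add_mem' := by
    rintro a b ⟨d, g, hd, h1, h2⟩ ⟨d', g', hd', h1', h2'⟩
    refine ⟨d * d', g * d' + g' * d, by rw [map_mul]; exact mul_ne_zero hd hd', ?_, ?_⟩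
    · simp only [Subring.coe_mul, Subring.coe_add, ← h1, ← h1', Prod.fst_add]; ring
    · simp only [map_mul, map_add, ← h2, ← h2', Prod.snd_add]; ring
  zero_mem' := ⟨1, 0, by simp⟩
  neg_mem' := by
    rintro a ⟨d, g, hd, h1, h2⟩
    exact ⟨d, -g, hd, by simp [← h1], by simp [← h2]⟩

theorem place [IsAlgClosed F] (hw : ‖w‖ < 1) (h0 : w ≠ 0) (W : Subfield F)
    (hW : IsClosed (W : Set F)) (h1 : w ∈ W) (h2 : ∀ c, algebraMap k F c ∈ W) {σ : Type}
    [Finite σ] (z : σ → ball hk) (T : Subfield F) [Countable T]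
    (hT : ∀ t ∈ T, IsAlgebraic (evz hw z).range t) :
    ∃ (z' : σ → ball hk) (Γ : Subring (F × F)) (τ : T →+* F),
      (∀ i, IsAlgebraic W (z' i : F)) ∧ (∀ φ ∈ Lam hk hw σ, (φ z, φ z') ∈ Γ) ∧
      (∀ b, (0, b) ∈ Γ → b = 0) ∧ ∀ t : T, ((t : F), τ t) ∈ Γ := by
  obtain ⟨s, y, r, m, hi, hy, hm⟩ := noether hw h0 z
  let _ := (evz hw y).toAlgebra
  let A : Subalgebra (MvPolynomial (Fin s) k)⟦X⟧ F :=
    { (evz hw z).range with algebraMap_mem' := fun c => (hy c).imp fun _ h => h.symm }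
  have hA : A.toSubmodule = Submodule.span _ (Set.range fun i => pt z (m i)) := by
    refine le_antisymm ?_ (Submodule.span_le.2 ?_)
    · rintro _ ⟨g, rfl⟩
      exact (Submodule.mem_span_range_iff_exists_fun _).2 ((hm g).imp fun _ h => h.symm)
    · rintro _ ⟨i, rfl⟩
      exact ⟨C (m i), ev_C hw _ _ _⟩
  have hfg : A.toSubmodule.FG := hA ▸ Submodule.fg_span (Set.finite_range _)
  have : Module.Finite (MvPolynomial (Fin s) k)⟦X⟧ A := .of_fg hfg
  let B := integralClosure (MvPolynomial (Fin s) k)⟦X⟧ F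
  have hAB : ∀ x ∈ A, x ∈ B := IsIntegral.of_mem_of_fg A hfg
  let E : (MvPolynomial σ k)⟦X⟧ →+* B := (evz hw z).codRestrict B fun g => hAB _ ⟨g, rfl⟩
  have hi' : Function.Injective (algebraMap (MvPolynomial (Fin s) k)⟦X⟧ B) := fun a b h =>
    hi (congrArg Subtype.val h)
  have h3 : ∀ t : T, ∃ (d : B) (n : (MvPolynomial (Fin s) k)⟦X⟧) (a : B), (t : F) * d ∈ B ∧
      n ≠ 0 ∧ algebraMap _ B n = a * d := by
    intro t
    obtain ⟨d, hd, ht⟩ := (IsAlgebraic.ringHom_of_comp_eq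
      ((evz hw z).range.subtype.codRestrict A fun x => x.2) (RingHom.id F) (hT t t.2)
      (fun a b h => Subtype.ext (congrArg (fun x : A => (x : F)) h)) rfl).exists_integral_multiple
    obtain ⟨n, hn, hn0⟩ := Submodule.exists_mem_ne_zero_of_ne_bot
      (Ideal.comap_ne_bot_of_integral_mem (R := (MvPolynomial (Fin s) k)⟦X⟧)
        (I := Ideal.span {(⟨d, hAB _ d.2⟩ : B)})
        (fun h => hd (Subtype.ext (congrArg (fun x : B => (x : F)) h)))
        (Ideal.mem_span_singleton_self _) (Algebra.IsIntegral.isIntegral _))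
    obtain ⟨a, ha⟩ := Ideal.mem_span_singleton'.1 hn
    refine ⟨_, n, a, ?_, hn0, ha.symm⟩
    rw [mul_comm]
    exact isIntegral_trans (A := A) _ ht
  choose d n a hd hn ha using h3
  have := Fintype.ofFinite σ
  obtain ⟨x, hx, hxn⟩ := generic hw _ (unc hw h0 W hW h1 h2) n y fun b h =>
    hn b (hi (by rw [h, map_zero]))
  obtain ⟨χ, hχ⟩ := ext_hom hi' (evz hw x)
  have hb : ∀ g, ‖χ (E g)‖ ≤ 1 := fun g =>
    (Valuation.integer.integers (NormedField.valuation (K := F))).mem_of_integral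
      (IsIntegral.map_of_comp_eq ((evz hw x).codRestrict (NormedField.valuation (K := F)).integer
        fun c => ev_le hw _ (pt_le x) c) χ (RingHom.ext fun c => (hχ c).symm)
        (Algebra.IsIntegral.isIntegral (E g)))
  have hxW : ∀ c, pt x c ∈ W := fun c => by
    induction c using MvPolynomial.induction_on with
    | C c => rw [pt_C]; exact h2 c
    | add p q hp hq => rw [map_add]; exact W.add_mem hp hq
    | mul_X p i hp => rw [map_mul, pt_X]; exact W.mul_mem hp (hx i)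
  let z' : σ → ball hk := fun i => ⟨χ (E (C (MvPolynomial.X i))), hb _⟩
  have hz : ∀ g, χ (E g) = evz hw z' g := uniq hw _ (pt_le z') (χ.comp E) hb
    (by
      rw [← ev_X hw _ (pt_le x)]
      refine (congrArg χ (Subtype.ext ?_)).trans (hχ X)
      exact (ev_X hw _ (pt_le z)).trans (ev_X hw _ (pt_le y)).symm)
    (RingHom.congr_fun (show (χ.comp E).comp C = pt z' from MvPolynomial.ringHom_ext
      (fun c => by
        rw [pt_C, ← pt_C x, ← ev_C hw _ (pt_le x)]
        refine (congrArg χ (Subtype.ext ?_)).trans (hχ (C (MvPolynomial.C c)))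
        exact ((ev_C hw _ (pt_le z) _).trans (pt_C z c)).trans
          ((ev_C hw _ (pt_le y) _).trans (pt_C y c)).symm)
      fun i => (pt_X z' i).symm))
  let Γ := gr B.toSubring χ
  have hf : ∀ b, (0, b) ∈ Γ → b = 0 := by
    rintro b ⟨e, g, he, h3, h4⟩
    rw [show g = 0 from Subtype.ext (h3.symm.trans (zero_mul _)), map_zero] at h4
    exact (mul_eq_zero.1 h4).resolve_right he
  have hu : ∀ {c b b' : F}, (c, b) ∈ Γ → (c, b') ∈ Γ → b = b' := fun h h' =>
    sub_eq_zero.1 (hf _ (by simpa using Γ.sub_mem h h'))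
  have h4 : ∀ t : T, ∃ b, ((t : F), b) ∈ Γ := fun t => by
    have h5 : χ (d t) ≠ 0 := fun h => hxn t (by rw [← hχ, ha, map_mul, h, mul_zero])
    exact ⟨χ ⟨_, hd t⟩ / χ (d t), d t, ⟨_, hd t⟩, h5, rfl, div_mul_cancel₀ _ h5⟩
  choose τ hτ using h4
  refine ⟨z', Γ,
    { toFun := τ
      map_one' := hu (hτ 1) Γ.one_mem
      map_mul' := fun a b => hu (hτ _) (Γ.mul_mem (hτ a) (hτ b))
      map_zero' := hu (hτ 0) Γ.zero_mem
      map_add' := fun a b => hu (hτ _) (Γ.add_mem (hτ a) (hτ b)) },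
    fun i => (IsIntegral.map_of_comp_eq ((evz hw x).codRestrict W
      (ev_mem hw _ (pt_le x) W hW h1 hxW)) χ (RingHom.ext fun c => (hχ c).symm)
      (Algebra.IsIntegral.isIntegral (E _))).isAlgebraic, ?_, hf, hτ⟩
  rintro φ ⟨c, e, g, hc, h⟩
  refine ⟨E e, E g, ?_, ?_, ?_⟩
  · exact fun h5 => hc ((h z').1.symm.trans ((hz e).symm.trans h5))
  · exact (congrArg (φ z * ·) (h z).1).trans (h z).2
  · exact (congrArg (φ z' * ·) ((hz e).trans (h z').1)).trans ((h z').2.trans (hz g).symm)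

end Pool.Agent.CSU.WN
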