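import Pool.Agent.Lib.MP_0370b2_nt.SA.WN2

/-! Tools for the specialisation of Drinfeld modules. -/

namespace Pool.Agent.CSU.WN

section Comm

open Polynomial

lemma root_mem {T F : Type} [Field T] [IsAlgClosed T] [Field F] (τ : T →+* F) {R : T[X]}
    (hR : R ≠ 0) {x : F} (hx : R.eval₂ τ x = 0) : x ∈ τ.range :=
  (IsAlgClosed.splits R).mem_range_of_isRoot hR (by rwa [IsRoot, eval_map])

/-- A polynomial that commutes with `ρ` has its coefficients in any algebraically closed field of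
definition of `ρ`. -/
theorem comm_lift {T F : Type} [Field T] [IsAlgClosed T] [Field F] [IsAlgClosed F] (τ : T →+* F)
    (ρ : T[X]) (h2 : 2 ≤ ρ.natDegree) (h0 : ρ.eval 0 = 0) (P : F[X])
    (hP : P.comp (ρ.map τ) = (ρ.map τ).comp P) : ∃ Q : T[X], Q.map τ = P ∧ Q.comp ρ = ρ.comp Q := by
  have key : P ∈ (mapRingHom τ).range := by
    have hC : ∀ x ∈ τ.range, C x ∈ (mapRingHom τ).range := by
      rintro _ ⟨t, rfl⟩
      exact ⟨C t, map_C τ⟩
    have hne : ∀ A B : T[X], B.natDegree < A.natDegree → A - B ≠ 0 := fun A B h e => by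
      rw [sub_eq_zero.1 e] at h
      exact lt_irrefl _ h
    by_cases hd : P.natDegree = 0
    · rw [eq_C_of_natDegree_eq_zero hd] at hP ⊢
      refine hC _ (root_mem τ (hne ρ X (by rw [natDegree_X]; omega)) ?_)
      have := congrArg (eval 0) hP
      rw [C_comp, comp_C, eval_C, eval_C, eval_map] at this
      rw [eval₂_sub, eval₂_X, ← this, sub_self]
    have hρ : ρ.leadingCoeff ≠ 0 := leadingCoeff_ne_zero.2 fun h => by simp [h] at h2
    have hP0 : P ≠ 0 := fun h => hd (by simp [h])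
    rw [(IsAlgClosed.splits P).eq_prod_roots]
    refine Subring.mul_mem _ (hC _ (root_mem τ (hne (C ρ.leadingCoeff * X ^ ρ.natDegree)
      (C (ρ.leadingCoeff ^ P.natDegree) * X) ?_) ?_)) (Subring.multiset_prod_mem _ _ ?_)
    · rw [natDegree_C_mul_X_pow _ _ hρ, natDegree_C_mul_X _ (pow_ne_zero _ hρ)]
      omega
    · have := congrArg leadingCoeff hP
      rw [leadingCoeff_comp (by rw [natDegree_map]; omega), leadingCoeff_comp hd,
        leadingCoeff_map, natDegree_map] at this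
      rw [eval₂_sub, eval₂_mul, eval₂_mul, eval₂_C, eval₂_C, eval₂_X_pow, eval₂_X, map_pow, ← this]
      ring
    intro a ha
    obtain ⟨x, hx, rfl⟩ := Multiset.mem_map.1 ha
    refine Subring.sub_mem _ ⟨X, map_X τ⟩ (hC _ ?_)
    have h1 : ∀ n, (ρ.comp^[n] X).eval₂ τ x ∈ P.rootSet F := fun n => by
      rw [mem_rootSet_of_ne hP0, coe_aeval_eq_eval]
      induction n with
      | zero => simpa using ((mem_roots hP0).1 hx).eq_zero
      | succ n ih =>
        have := congrArg (eval ((ρ.comp^[n] X).eval₂ τ x)) hP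
        rw [eval_comp, eval_comp, ih, eval_map, eval_map, eval₂_at_zero, coeff_zero_eq_eval_zero,
          h0, map_zero] at this
        rwa [Function.iterate_succ_apply', eval₂_comp]
    obtain ⟨m, n, hmn, h3⟩ := (P.rootSet_finite F).exists_lt_map_eq_of_forall_mem h1
    refine root_mem τ (hne (ρ.comp^[n] X) (ρ.comp^[m] X) ?_) (by rw [eval₂_sub, h3, sub_self])
    simp only [natDegree_iterate_comp, natDegree_X, mul_one]
    exact Nat.pow_lt_pow_right h2 hmn
  obtain ⟨Q, rfl⟩ := key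
  exact ⟨Q, rfl, map_injective τ τ.injective (by rw [map_comp, map_comp]; exact hP)⟩

end Comm

open PowerSeries Finset

variable {F : Type} [NormedField F] [IsUltrametricDist F] [CompleteSpace F]
  {k : Type} [Field k] [Algebra k F] {hk : ∀ c : k, ‖algebraMap k F c‖ ≤ 1} {σ : Type}

theorem place2 [IsAlgClosed F] [Finite k] [Finite σ] {θ : F} (h0 : θ ≠ 0) (hw : ‖θ⁻¹‖ < 1)
    (z : σ → ball hk) :
    ∃ (T : Subfield F) (z' : σ → ball hk) (Γ : Subring (F × F)) (τ : T →+* F), IsAlgClosed T ∧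
      θ ∈ T ∧ (∀ i, (z i : F) ∈ T) ∧ (∀ i, IsAlgebraic (Kinf k θ) (z' i : F)) ∧
      (∀ φ ∈ Lam hk hw σ, (φ z, φ z') ∈ Γ) ∧ (∀ b, (0, b) ∈ Γ → b = 0) ∧
      ∀ t : T, ((t : F), τ t) ∈ Γ := by
  let S : Set F := insert θ⁻¹ (Set.range fun i => (z i : F))
  let L := IntermediateField.adjoin k S
  have hL : Cardinal.mk L ≤ Cardinal.aleph0 := (IntermediateField.cardinalMk_adjoin_le k S).trans
    (max_le (max_le Cardinal.mk_le_aleph0 (Cardinal.mk_le_aleph0_iff.2
      ((Set.finite_range _).insert _).countable.to_subtype)) le_rfl)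
  have : Countable (algebraicClosure L F).toSubfield := Cardinal.mk_le_aleph0_iff.1
    ((Algebra.IsAlgebraic.cardinalMk_le_max L (algebraicClosure L F)).trans (max_le hL le_rfl))
  have hW : ∀ x ∈ Set.range (algebraMap k F) ∪ {θ}, x ∈ Kinf k θ := fun x hx =>
    Subfield.le_topologicalClosure _ (Subfield.subset_closure hx)
  have hS : ∀ x ∈ Algebra.adjoin k S, x ∈ (evz hw z).range := fun x hx => by
    induction hx using Algebra.adjoin_induction with
    | mem x hx =>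
      rcases hx with rfl | ⟨i, rfl⟩
      · exact ⟨X, ev_X hw _ _⟩
      · exact ⟨C (MvPolynomial.X i), (ev_C hw _ _ _).trans (pt_X z i)⟩
    | algebraMap c => exact ⟨C (MvPolynomial.C c), (ev_C hw _ _ _).trans (pt_C z c)⟩
    | add x y _ _ hx hy => exact add_mem hx hy
    | mul x y _ _ hx hy => exact mul_mem hx hy
  obtain ⟨z', Γ, τ, h⟩ := place hw (inv_ne_zero h0) (Kinf k θ)
    (Subfield.isClosed_topologicalClosure _) (inv_mem (hW θ (Or.inr rfl)))
    (fun c => hW _ (Or.inl ⟨c, rfl⟩)) z (algebraicClosure L F).toSubfield fun t ht =>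
      IsAlgebraic.ringHom_of_comp_eq ((Algebra.adjoin k S).val.toRingHom.codRestrict
        (evz hw z).range fun x => hS x x.2) (RingHom.id F)
        (IntermediateField.isAlgebraic_adjoin_iff.1 (mem_algebraicClosure_iff.1 ht))
        (fun a b h => Subtype.ext (congrArg (fun x : (evz hw z).range => (x : F)) h)) rfl
  have h1 : ∀ x ∈ S, x ∈ (algebraicClosure L F).toSubfield := fun x hx =>
    (algebraicClosure L F).algebraMap_mem ⟨x, IntermediateField.subset_adjoin k S hx⟩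
  exact ⟨_, z', Γ, τ, (algebraicClosure.isAlgClosure L F).isAlgClosed, inv_mem_iff.1 (h1 _ (Or.inl rfl)),
    fun i => h1 _ (Or.inr ⟨i, rfl⟩), h⟩

/-- Functions on the ball that are `w ^ m` times a series. -/
def Dv {w : F} (hw : ‖w‖ < 1) (m : ℕ) (φ : (σ → ball hk) → F) : Prop :=
  ∃ g, ∀ z, φ z = w ^ m * evz hw z g

section Dv

variable {w : F} {hw : ‖w‖ < 1} {m n : ℕ} {φ ψ : (σ → ball hk) → F}

lemma Dv.mul (h : Dv hw m φ) (h' : Dv hw n ψ) : Dv hw (m + n) fun z => φ z * ψ z := by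
  obtain ⟨g, h⟩ := h
  obtain ⟨g', h'⟩ := h'
  exact ⟨g * g', fun z => by simp only [h, h', map_mul]; ring⟩

lemma Dv.add (h : Dv hw m φ) (h' : Dv hw m ψ) : Dv hw m fun z => φ z + ψ z := by
  obtain ⟨g, h⟩ := h
  obtain ⟨g', h'⟩ := h'
  exact ⟨g + g', fun z => by simp only [h, h', map_add]; ring⟩

lemma Dv.pow (h : Dv hw m φ) (e : ℕ) : Dv hw (m * e) fun z => φ z ^ e := by
  obtain ⟨g, h⟩ := h
  exact ⟨g ^ e, fun z => by simp only [h, map_pow, mul_pow, pow_mul]⟩

lemma Dv.congr (h : Dv hw m φ) (e : ∀ z, ψ z = φ z) : Dv hw m ψ := funext e ▸ h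

lemma dv_w (m : ℕ) : Dv hw m fun _ : σ → ball hk => w ^ m := ⟨1, fun z => by simp⟩

lemma Dv.mono (h : Dv hw m φ) (hn : n ≤ m) : Dv hw n φ := by
  obtain ⟨g, h⟩ := h
  obtain ⟨a, rfl⟩ := Nat.exists_eq_add_of_le hn
  exact ⟨X ^ a * g, fun z => by rw [h, map_mul, map_pow, evz, ev_X]; ring⟩

lemma Dv.cancel (h0 : w ≠ 0) (h : Dv hw (m + n) fun z => w ^ m * φ z) : Dv hw n φ := by
  obtain ⟨g, h⟩ := h
  exact ⟨g, fun z => mul_left_cancel₀ (pow_ne_zero m h0) ((h z).trans (by rw [pow_add, mul_assoc]))⟩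

lemma dv_X (i : σ) : Dv hw 0 fun z : σ → ball hk => (z i : F) :=
  ⟨C (MvPolynomial.X i), fun z => by rw [evz, ev_C, pt_X, pow_zero, one_mul]⟩

lemma dv_sum {t : ℕ → (σ → ball hk) → F} (ht : ∀ l, Dv hw l (t l))
    (hs : ∀ z, HasSum (fun l => t l z) (φ z)) : φ ∈ Lam hk hw σ := by
  choose f hf using ht
  obtain ⟨g, hg⟩ := ex_sum hw f
  exact lam_ev hw g fun z => (hg _ (pt_le z)).unique (by simpa only [hf, evz] using hs z)

end Dv

lemma dv_inv {θ : F} (h0 : θ ≠ 0) (hw : ‖θ⁻¹‖ < 1) {a : ℕ} (ha : 1 < a) :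
    Dv hw a fun _ : σ → ball hk => (θ ^ a - θ)⁻¹ := by
  obtain ⟨b, rfl⟩ := Nat.exists_eq_add_of_lt ha
  obtain ⟨v, hv⟩ : ∃ v : (MvPolynomial σ k)⟦X⟧, v * (1 - X ^ (b + 1)) = 1 :=
    (isUnit_iff_constantCoeff.2 (by simp)).exists_left_inv
  refine ⟨v, fun z => inv_eq_of_mul_eq_one_left ?_⟩
  have h1 := congrArg (ev hw _ (pt_le z)) hv
  simp only [map_mul, map_sub, map_one, map_pow, ev_X] at h1
  rw [← h1, evz, inv_pow, inv_pow]
  field_simp
  ring

/-- The coefficients of the exponential of a Drinfeld module of rank two. -/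
lemma dv_coef {θ : F} (h0 : θ ≠ 0) (hw : ‖θ⁻¹‖ < 1) {q : ℕ} (hq : 1 < q) (h : ℕ) (a b : σ)
    (A : ℕ → (σ → ball hk) → F) (A0 : ∀ z, A 0 z = 1)
    (A1 : ∀ z, A 1 z = θ ^ h * z a / (θ ^ q - θ))
    (A2 : ∀ i z, A (i + 2) z = (θ ^ h * z a * A (i + 1) z ^ q + θ ^ h * z b * A i z ^ q ^ 2) /
      (θ ^ q ^ (i + 2) - θ)) (i : ℕ) :
    Dv hw (h + i) fun z => A i z * (θ⁻¹ ^ h) ^ q ^ i := by
  have e : θ⁻¹ ^ h * θ ^ h = 1 := by rw [← mul_pow, inv_mul_cancel₀ h0, one_pow]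
  induction i using Nat.twoStepInduction with
  | zero => exact (dv_w h).congr fun z => by simp [A0]
  | one =>
    refine Dv.cancel (m := h) (inv_ne_zero h0) ?_
    refine (((((dv_w h).pow q).mul (dv_X a)).mul (dv_inv h0 hw hq)).mono
      (show h + (h + 1) ≤ _ by nlinarith)).congr fun z => ?_
    rw [A1, pow_one, div_eq_mul_inv]
    linear_combination (θ⁻¹ ^ h) ^ q * z a * (θ ^ q - θ)⁻¹ * e
  | more i h1 h2 =>
    refine Dv.cancel (m := h) (inv_ne_zero h0) ?_
    have h3 : 1 < q ^ (i + 2) := Nat.one_lt_pow (by omega) hq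
    have h4 : 2 ≤ q ^ 2 := by nlinarith
    refine ((((((dv_X a).mul (h2.pow q)).mono (show h + (h + i) ≤ _ by nlinarith)).add
      (((dv_X b).mul (h1.pow (q ^ 2))).mono (show h + (h + i) ≤ _ by nlinarith))).mul
      (dv_inv h0 hw h3)).mono (show h + (h + (i + 2)) ≤ _ by omega)).congr fun z => ?_
    rw [A2, div_eq_mul_inv, mul_pow, mul_pow, ← pow_mul _ (q ^ (i + 1)), ← pow_mul _ (q ^ i),
      ← pow_succ, ← pow_add]
    linear_combination (z a * A (i + 1) z ^ q + z b * A i z ^ q ^ 2) * (θ⁻¹ ^ h) ^ q ^ (i + 2) *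
      (θ ^ q ^ (i + 2) - θ)⁻¹ * e

/-- The exponential and the quasi-periodic function, at points and parameters from the ball. -/
lemma lam_drin {θ : F} (h0 : θ ≠ 0) (hw : ‖θ⁻¹‖ < 1) {q : ℕ} (hq : 1 < q) (h : ℕ) (a b : σ)
    (A : ℕ → (σ → ball hk) → F) (A0 : ∀ z, A 0 z = 1)
    (A1 : ∀ z, A 1 z = θ ^ h * z a / (θ ^ q - θ))
    (A2 : ∀ i z, A (i + 2) z = (θ ^ h * z a * A (i + 1) z ^ q + θ ^ h * z b * A i z ^ q ^ 2) /
      (θ ^ q ^ (i + 2) - θ)) (E Q : (σ → ball hk) → F → F)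
    (hE : ∀ z x, HasSum (fun i => A i z * x ^ q ^ i) (E z x))
    (hQ : ∀ z x, HasSum (fun i => A i z ^ q / (θ ^ q ^ (i + 1) - θ) * x ^ q ^ (i + 1)) (Q z x))
    (fE : ∀ z x, E z (θ * x) = θ * E z x + θ ^ h * z a * E z x ^ q + θ ^ h * z b * E z x ^ q ^ 2)
    (fQ : ∀ z x, Q z (θ * x) = θ * Q z x + E z x ^ q) (i : σ) (m : ℕ) :
    (fun z => E z (θ ^ m * z i)) ∈ Lam hk hw σ ∧ (fun z => Q z (θ ^ m * z i)) ∈ Lam hk hw σ := by
  have hc := dv_coef h0 hw hq h a b A A0 A1 A2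
  have hθ := IntermediateField.mem_adjoin_simple_self k θ
  have key : ∀ m, (fun z => E z (θ ^ m * (θ⁻¹ ^ h * z i))) ∈ Lam hk hw σ ∧
      (fun z => Q z (θ ^ m * (θ⁻¹ ^ h * z i))) ∈ Lam hk hw σ := fun m => by
    induction m with
    | zero =>
      simp only [pow_zero, one_mul]
      refine ⟨dv_sum (fun l => ?_) fun z => hE z _, dv_sum (fun l => ?_) fun z => hQ z _⟩
      · exact (((hc l).mul ((dv_X i).pow (q ^ l))).mono (by omega)).congr fun z => by
          rw [mul_pow, mul_assoc]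
      · have h1 : 1 < q ^ (l + 1) := Nat.one_lt_pow (by omega) hq
        have h2 : h + l ≤ (h + l) * q := Nat.le_mul_of_pos_right _ (by omega)
        exact (((((hc l).pow q).mul (dv_inv h0 hw h1)).mul
          ((dv_X i).pow (q ^ (l + 1)))).mono (by omega)).congr
          fun z => by
            rw [mul_pow, mul_pow, ← pow_mul _ (q ^ l), ← pow_succ, div_eq_mul_inv]
            ring
    | succ m ih =>
      simp only [pow_succ' θ, mul_assoc θ, fE, fQ]
      exact ⟨add_mem (add_mem (mul_mem (lam_K hw hθ) ih.1) (mul_mem (mul_mem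
        (lam_K hw (pow_mem hθ h)) (lam_X hw a)) (pow_mem ih.1 q))) (mul_mem (mul_mem
        (lam_K hw (pow_mem hθ h)) (lam_X hw b)) (pow_mem ih.1 _)),
        add_mem (mul_mem (lam_K hw hθ) ih.2) (pow_mem ih.1 q)⟩
  have e : ∀ x : F, θ ^ (m + h) * (θ⁻¹ ^ h * x) = θ ^ m * x := fun x => by
    rw [pow_add, inv_pow, mul_assoc, mul_inv_cancel_left₀ (pow_ne_zero h h0)]
  simpa only [e] using key (m + h)

end Pool.Agent.CSU.WN
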