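import Pool.Agent.Lib.MP_0370b2_nt.SA.St

/-! Rows, twists, pull backs and conditions: basic rules. -/

namespace Pool.Agent.CSU.SA.Z

open Polynomial Finset

variable {ι R R' : Type} [CommRing R] [CommRing R']

@[simp] lemma tw_C (σ : R →+* R') (g : R[X]) :
    tw σ (MvPolynomial.C g : PP ι R) = MvPolynomial.C (g.map σ) := MvPolynomial.map_C _ _

@[simp] lemma tw_X (σ : R →+* R') (l : ι) :
    tw σ (MvPolynomial.X l : PP ι R) = MvPolynomial.X l := MvPolynomial.map_X _ _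

lemma coeff_tw (σ : R →+* R') (f : PP ι R) (α : ι →₀ ℕ) :
    (tw σ f).coeff α = (f.coeff α).map σ := MvPolynomial.coeff_map _ _ _

@[simp] lemma sb_C (h g : ι → R[X]) (a : R[X]) :
    sb h g (MvPolynomial.C a) = MvPolynomial.C a := MvPolynomial.aeval_C _ _

@[simp] lemma sb_X (h g : ι → R[X]) (l : ι) : sb h g (MvPolynomial.X l) =
    MvPolynomial.C (h l) * MvPolynomial.X l + MvPolynomial.C (g l) := MvPolynomial.aeval_X _ _

lemma tw_sb (σ : R →+* R') (h g : ι → R[X]) (f : PP ι R) : tw σ (sb h g f) =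
    sb (fun l => (h l).map σ) (fun l => (g l).map σ) (tw σ f) := by
  induction f using MvPolynomial.induction_on with
  | C a => simp
  | add p q hp hq => simp only [map_add, hp, hq]
  | mul_X p l hp => simp only [map_mul, map_add, hp, sb_X, tw_C, tw_X]

lemma tw_surj {σ : R →+* R'} (h : Function.Surjective σ) :
    Function.Surjective (tw σ : PP ι R → PP ι R') :=
  MvPolynomial.map_surjective _ (Polynomial.map_surjective σ h)

@[simp] lemma JJ_C (s : Sys ι R) (i m : ℕ) (g : R[X]) :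
    s.JJ i m (MvPolynomial.C g) = MvPolynomial.C (taylor (s.θ ^ s.q ^ i) g) :=
  MvPolynomial.aevalTower_C _ _ _

@[simp] lemma JJ_X (s : Sys ι R) (i m : ℕ) (l : ι) : s.JJ i m (MvPolynomial.X l) = s.VV i m l :=
  MvPolynomial.aevalTower_X _ _ _

lemma JJ_sub (s : Sys ι R) (i m : ℕ) (f : PP ι R) :
    s.JJ i m (s.sub (i + m) f) = s.JJ i (m + 1) f := by
  induction f using MvPolynomial.induction_on with
  | C a => simp [Sys.sub]
  | add p q hp hq => simp only [map_add, hp, hq]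
  | mul_X p l hp =>
    rw [map_mul, map_mul, map_mul, hp]
    simp [Sys.sub, Sys.VV]

lemma tw_VV (s : Sys ι R) (hσ : ∀ a, s.σ a = a ^ s.q) (i m : ℕ) (l : ι) :
    tw s.σ (s.VV i m l) = s.VV (i + 1) m l := by
  induction m with
  | zero => simp only [Sys.VV, map_add, tw_C, tw_X, map_C, hσ, ← pow_mul, pow_succ]
  | succ m ih =>
    simp only [Sys.VV, map_add, map_mul, tw_C, ih, Polynomial.map_sub, Polynomial.map_add, map_X,
      map_C, hσ, ← pow_mul, ← pow_succ, add_right_comm i 1 m, add_assoc s.e]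

lemma taylor_map (σ : R →+* R') (c : R) (g : R[X]) :
    taylor (σ c) (g.map σ) = (taylor c g).map σ := by
  simp [taylor_apply, map_comp]

lemma JJ_tw (s : Sys ι R) (hσ : ∀ a, s.σ a = a ^ s.q) (i m : ℕ) (f : PP ι R) :
    s.JJ (i + 1) m (tw s.σ f) = tw s.σ (s.JJ i m f) := by
  induction f using MvPolynomial.induction_on with
  | C a => rw [tw_C, JJ_C, JJ_C, tw_C, ← taylor_map, hσ, ← pow_mul, pow_succ]
  | add p q hp hq => simp only [map_add, hp, hq]
  | mul_X p l hp => simp only [map_mul, hp, tw_X, JJ_X, tw_VV s hσ]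

lemma tw_sub (s : Sys ι R) (hσ : ∀ a, s.σ a = a ^ s.q) (m : ℕ) (f : PP ι R) :
    tw s.σ (s.sub m f) = s.sub (m + 1) (tw s.σ f) := by
  simp only [Sys.sub, tw_sb, Polynomial.map_sub, map_X, map_C, hσ, ← pow_mul, ← pow_succ,
    add_assoc]

lemma SS_eq (s : Sys ι R) (m : ℕ) (f : PP ι R) :
    SS s.σ (s.θ ^ s.q ^ (s.e + m)) (fun l => s.x l ^ s.q ^ m) f = s.sub m (tw s.σ f) := rfl

/-- The ideal `(ε ^ μ, η l ^ μ)`. -/
def BoxI (ι R : Type) [CommRing R] (μ : ℕ) : Ideal (PP ι R) where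
  carrier := {f | Box μ f}
  add_mem' := fun ha hb α h => by
    rw [MvPolynomial.coeff_add]; exact dvd_add (ha α h) (hb α h)
  zero_mem' := fun α _ => by simp
  smul_mem' := fun c f hf α h => by
    classical
    rw [smul_eq_mul, MvPolynomial.coeff_mul]
    refine dvd_sum fun x hx => (hf _ fun l => lt_of_le_of_lt ?_ (h l)).mul_left _
    rw [← HasAntidiagonal.mem_antidiagonal.1 hx]
    exact Nat.le_add_left _ _

lemma box_C {μ : ℕ} {a : R[X]} (h : X ^ μ ∣ a) (f : PP ι R) : Box μ (MvPolynomial.C a * f) :=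
  fun α _ => by rw [MvPolynomial.coeff_C_mul]; exact h.mul_right _

lemma box_tw {μ : ℕ} {f : PP ι R} (h : Box μ f) (σ : R →+* R') : Box μ (tw σ f) := fun α hα => by
  rw [coeff_tw]
  simpa using Polynomial.map_dvd σ (h α hα)

lemma box_of_tw {μ : ℕ} {f : PP ι R} {σ : R →+* R'} (hσ : Function.Injective σ)
    (h : Box μ (SA.tw σ f)) : Box μ f := fun α hα => X_pow_dvd_iff.2 fun n hn => hσ (by
  have := X_pow_dvd_iff.1 (h α hα) n hn
  rwa [coeff_tw, coeff_map, ← map_zero σ] at this)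

/-- The rows that satisfy the condition at one point. -/
def CondI (s : Sys ι R) (i m : ℕ) : Ideal (PP ι R) where
  carrier := {f | s.Cond i m f}
  add_mem' := fun ⟨g, h⟩ ⟨g', h'⟩ => ⟨g + g', by
    have := (BoxI ι R s.μ).add_mem h h'
    rw [map_add, add_mul, add_sub_add_comm]
    exact this⟩
  zero_mem' := ⟨0, by rw [map_zero, zero_mul, sub_zero]; exact (BoxI ι R s.μ).zero_mem⟩
  smul_mem' := fun c f ⟨g, h⟩ => ⟨s.JJ i m c * g, by
    have := (BoxI ι R s.μ).mul_mem_left (s.JJ i m c) h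
    rw [smul_eq_mul, map_mul, mul_assoc, ← mul_sub]
    exact this⟩

lemma cond_tw (s : Sys ι R) (hσ : ∀ a, s.σ a = a ^ s.q) {i m : ℕ} {f : PP ι R}
    (h : s.Cond i m f) : s.Cond (i + 1) m (tw s.σ f) := by
  obtain ⟨g, h⟩ := h
  refine ⟨tw s.σ g, ?_⟩
  rw [JJ_tw s hσ, Function.iterate_succ_apply', ← map_mul, ← map_sub]
  exact box_tw h _

lemma cond_of_tw (s : Sys ι R) (hσ : ∀ a, s.σ a = a ^ s.q) (hb : Function.Bijective s.σ)
    {i m : ℕ} {f : PP ι R} (h : s.Cond (i + 1) m (tw s.σ f)) : s.Cond i m f := by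
  obtain ⟨g, h⟩ := h
  obtain ⟨g, rfl⟩ := tw_surj hb.2 g
  rw [JJ_tw s hσ, Function.iterate_succ_apply', ← map_mul, ← map_sub] at h
  exact ⟨g, box_of_tw hb.1 h⟩

lemma cond_sub (s : Sys ι R) (i m : ℕ) (f : PP ι R) :
    s.Cond i m (s.sub (i + m) f) ↔ s.Cond i (m + 1) f := by
  simp only [Sys.Cond, JJ_sub]

lemma cond_pow (s : Sys ι R) (i m : ℕ) (f : PP ι R) :
    s.Cond i m (MvPolynomial.C ((X - C (s.θ ^ s.q ^ i)) ^ s.μ) * f) := ⟨0, by
  rw [zero_mul, sub_zero, map_mul, JJ_C]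
  exact box_C (by simp [taylor_pow]) _⟩

lemma cond_unit {F : Type} [Field F] (s : Sys ι F) {i m : ℕ} {c : F} (hc : s.θ ^ s.q ^ i ≠ c)
    {f : PP ι F} (h : s.Cond i m (MvPolynomial.C (X - C c) * f)) : s.Cond i m f := by
  obtain ⟨u, v, e⟩ := (isCoprime_X_sub_C_of_isUnit_sub (sub_ne_zero.2 hc).isUnit).pow_left
    (m := s.μ)
  have h1 := (CondI s i m).add_mem ((CondI s i m).mul_mem_left (MvPolynomial.C u)
    (cond_pow s i m f)) ((CondI s i m).mul_mem_left (MvPolynomial.C v) h)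
  rwa [← mul_assoc, ← mul_assoc, ← add_mul, ← map_mul, ← map_mul, ← map_add, e, map_one,
    one_mul] at h1

/-- The value at one point as a ring map. -/
noncomputable def evH (s : Sys ι R) (i m : ℕ) : PP ι R →+* R :=
  constantCoeff.comp (MvPolynomial.constantCoeff.comp (s.JJ i m).toRingHom)

lemma evH_apply (s : Sys ι R) (i m : ℕ) (f : PP ι R) : evH s i m f = s.ev i m f := rfl

lemma ev_C (s : Sys ι R) (i m : ℕ) (g : R[X]) :
    s.ev i m (MvPolynomial.C g) = g.eval (s.θ ^ s.q ^ i) := by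
  simp [Sys.ev, taylor_coeff_zero]

lemma ev_tw (s : Sys ι R) (hσ : ∀ a, s.σ a = a ^ s.q) (i m : ℕ) (f : PP ι R) :
    s.ev (i + 1) m (tw s.σ f) = s.σ (s.ev i m f) := by
  rw [Sys.ev, JJ_tw s hσ, coeff_tw, coeff_map, Sys.ev]

lemma ev_sub (s : Sys ι R) (i m : ℕ) (f : PP ι R) :
    s.ev i m (s.sub (i + m) f) = s.ev i (m + 1) f := by
  rw [Sys.ev, JJ_sub, Sys.ev]

/-- Degree at most `δ l` in `Y l` and at most `e` in `t`. -/
def RowV (δ : ι → ℕ) (e : ℕ) (f : PP ι R) : Prop :=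
  ∀ α, (f.coeff α).natDegree ≤ e ∧ (f.coeff α ≠ 0 → ∀ l, α l ≤ δ l)

lemma RowV.mul {δ δ' : ι → ℕ} {e e' : ℕ} {f g : PP ι R} (h : RowV δ e f) (h' : RowV δ' e' g) :
    RowV (δ + δ') (e + e') (f * g) := fun α => by
  classical
  rw [MvPolynomial.coeff_mul]
  refine ⟨natDegree_sum_le_of_forall_le _ _ fun x _ =>
    natDegree_mul_le.trans (add_le_add (h _).1 (h' _).1), fun h0 l => ?_⟩
  obtain ⟨x, hx, h1⟩ := exists_ne_zero_of_sum_ne_zero h0
  rw [← HasAntidiagonal.mem_antidiagonal.1 hx]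
  exact add_le_add ((h _).2 (left_ne_zero_of_mul h1) l) ((h' _).2 (right_ne_zero_of_mul h1) l)

lemma rowV_one : RowV (0 : ι → ℕ) 0 (1 : PP ι R) := fun α => by
  classical
  rw [MvPolynomial.coeff_one]
  split_ifs with h
  · subst h; simp
  · simp

lemma RowV.prod {κ : Type} {s : Finset κ} {δ : κ → ι → ℕ} {e : κ → ℕ} {f : κ → PP ι R}
    (h : ∀ j ∈ s, RowV (δ j) (e j) (f j)) :
    RowV (∑ j ∈ s, δ j) (∑ j ∈ s, e j) (∏ j ∈ s, f j) := by
  classical
  induction s using Finset.induction_on with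
  | empty => simpa using rowV_one
  | insert j s hj ih =>
    rw [sum_insert hj, sum_insert hj, prod_insert hj]
    exact (h j (mem_insert_self _ _)).mul (ih fun i hi => h i (mem_insert_of_mem hi))

lemma RowV.pow {δ : ι → ℕ} {e : ℕ} {f : PP ι R} (h : RowV δ e f) (n : ℕ) :
    RowV (n • δ) (n * e) (f ^ n) := by
  simpa using RowV.prod (s := range n) fun _ _ => h

lemma rowV_lin [DecidableEq ι] {e : ℕ} {h g : R[X]} (h1 : h.natDegree ≤ e) (h2 : g.natDegree ≤ e)
    (l : ι) : RowV (Pi.single l 1) e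
      (MvPolynomial.C h * MvPolynomial.X l + MvPolynomial.C g : PP ι R) := fun α => by
  rw [MvPolynomial.coeff_add, MvPolynomial.coeff_C_mul, MvPolynomial.coeff_X',
    MvPolynomial.coeff_C]
  refine ⟨natDegree_add_le_of_degree_le ?_ ?_, fun h0 l' => ?_⟩
  · split_ifs <;> simp [h1]
  · split_ifs <;> simp [h2]
  · split_ifs at h0 with a b b
    · subst b; simp
    · subst a; simp [Finsupp.single_apply, Pi.single_apply, eq_comm]
    · subst b; simp
    · simp at h0

lemma row_sb [Fintype ι] {δ d e : ℕ} {f : PP ι R} (hf : Row δ d f) {h g : ι → R[X]}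
    (h1 : ∀ l, (h l).natDegree ≤ e) (h2 : ∀ l, (g l).natDegree ≤ e) :
    Row δ (d + Fintype.card ι * δ * e) (sb h g f) := fun β => by
  classical
  have key : ∀ α : ι →₀ ℕ, RowV α (∑ l, α l * e) (∏ l, (MvPolynomial.C (h l) * MvPolynomial.X l +
      MvPolynomial.C (g l) : PP ι R) ^ α l) := fun α => by
    have := RowV.prod (s := univ) fun l _ => (rowV_lin (h1 l) (h2 l) l).pow (α l)
    convert this using 1
    funext l
    simp [Pi.single_apply]
  rw [SA.sb, MvPolynomial.aeval_def, MvPolynomial.eval₂_eq', MvPolynomial.coeff_sum]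
  simp only [MvPolynomial.algebraMap_eq, MvPolynomial.coeff_C_mul]
  refine ⟨(degree_sum_le _ _).trans_lt ((Finset.sup_lt_iff (WithBot.bot_lt_coe _)).2
    fun α hα => ?_), fun h0 l => ?_⟩
  · have h3 := (hf α).2 (MvPolynomial.mem_support_iff.1 hα)
    have h4 : ∑ l, α l * e ≤ Fintype.card ι * δ * e := by
      rw [← sum_mul]
      exact Nat.mul_le_mul_right _ (by simpa using sum_le_card_nsmul univ α δ fun l _ => h3 l)
    refine ((degree_mul_le _ _).trans (add_le_add le_rfl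
      (degree_le_of_natDegree_le ((key α β).1.trans h4)))).trans_lt ?_
    rw [Nat.cast_add]
    exact WithBot.add_lt_add_right WithBot.coe_ne_bot (hf α).1
  · obtain ⟨α, hα, h3⟩ := exists_ne_zero_of_sum_ne_zero h0
    exact ((key α β).2 (right_ne_zero_of_mul h3) l).trans
      ((hf α).2 (MvPolynomial.mem_support_iff.1 hα) l)

lemma row_sub [Fintype ι] {δ d : ℕ} {f : PP ι R} (hf : Row δ d f) (s : Sys ι R) (m : ℕ) :
    Row δ (d + Fintype.card ι * δ) (s.sub m f) := by
  have := row_sb hf (e := 1) (fun _ => natDegree_X_sub_C_le (s.θ ^ s.q ^ (s.e + m)))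
    fun l => (natDegree_C (s.x l ^ s.q ^ m)).trans_le zero_le_one
  rwa [mul_one] at this

lemma row_tw {δ d : ℕ} {f : PP ι R} (hf : Row δ d f) (σ : R →+* R') : Row δ d (tw σ f) :=
  fun α => by
    rw [coeff_tw]
    exact ⟨degree_map_le.trans_lt (hf α).1, fun h => (hf α).2 fun e => h (by
      rw [e, Polynomial.map_zero])⟩

lemma row_mono {δ d d' : ℕ} {f : PP ι R} (hf : Row δ d f) (h : d ≤ d') : Row δ d' f :=
  fun α => ⟨(hf α).1.trans_le (by exact_mod_cast h), (hf α).2⟩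

/-- The rows of degree at most `δ` in each variable. -/
def Bx (ι R : Type) [CommRing R] (δ : ℕ) : Submodule R[X] (PP ι R) where
  carrier := {f | ∀ α, f.coeff α ≠ 0 → ∀ l, α l ≤ δ}
  add_mem' := fun {a b} ha hb α h => by
    by_cases e : a.coeff α = 0
    · exact hb α (by rwa [MvPolynomial.coeff_add, e, zero_add] at h)
    · exact ha α e
  zero_mem' := fun α h => absurd (MvPolynomial.coeff_zero α) h
  smul_mem' := fun c f hf α h => hf α fun e => h (by rw [MvPolynomial.coeff_smul, e, smul_zero])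

lemma bx_dep [Fintype ι] {F : Type} [Field F] {δ : ℕ}
    (ρ : Fin ((δ + 1) ^ Fintype.card ι + 1) → PP ι F) (h : ∀ s, ρ s ∈ Bx ι F δ) :
    ¬ LinearIndependent F[X] ρ := fun hi => by
  classical
  let π : PP ι F →ₗ[F[X]] ((ι → Fin (δ + 1)) → F[X]) := LinearMap.pi fun a =>
    MvPolynomial.lcoeff _ (Finsupp.equivFunOnFinite.symm fun l => a l)
  have := (hi.map (f := π) (Submodule.disjoint_def.2 fun f hf h0 => MvPolynomial.ext _ _
    fun α => by
      by_contra e
      have h1 := (Submodule.span_le (p := Bx ι F δ)).2 (by rintro _ ⟨s, rfl⟩; exact h s) hf α e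
      have := congrFun h0 fun l => ⟨α l, Nat.lt_succ_of_le (h1 l)⟩
      exact e (by simpa [π] using this))).fintype_card_le_finrank
  simp at this

end Pool.Agent.CSU.SA.Z
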